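import Pool.Agent.P.MP_3af8b7_pr.Skip

open Classical Finset MeasureTheory Filter Topology

namespace Pool.Agent.ARW

variable {α β ι : Type*} [Fintype α] [Fintype β]

/-- A feed-forward system with embedded blocks. -/
structure Blocks (Q : α → Option α → ℝ) (a : α → ℝ) (Qb : β → Option β → ℝ) (ab : β → ℝ)
    (lev : α → ℕ) (B : Set ι) (e : ι → β → α) (bl : ι → ℕ) : Prop where
  ok : Ok Q a
  sto : Sto Q
  tr : Tr Q
  okb : Ok Qb ab
  stob : Sto Qb
  trb : Tr Qb
  mono : ∀ y x, lev x < lev y → Q y (some x) = 0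
  inj : ∀ k ∈ B, Function.Injective (e k)
  disj : ∀ k ∈ B, ∀ k' ∈ B, ∀ x x', e k x = e k' x' → k = k'
  hlev : ∀ k ∈ B, ∀ x, lev (e k x) = bl k
  hin : ∀ k ∈ B, ∀ x y, Q (e k x) (some (e k y)) = Qb x (some y)
  ha : ∀ k ∈ B, ∀ x, a (e k x) = ab x
  hout : ∀ k ∈ B, ∀ y x, (∀ x', e k x' ≠ y) → lev y = bl k → Q y (some (e k x)) = 0

variable {Q : α → Option α → ℝ} {a : α → ℝ} {Qb : β → Option β → ℝ} {ab : β → ℝ}
  {lev : α → ℕ} {B : Set ι} {e : ι → β → α} {bl : ι → ℕ}

lemma abs1_Top_congr {x : α} {Φ Ψ : (α → Loc) → ℝ} {σ : α → Loc}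
    (h1 : Φ (slpAt σ x) = Ψ (slpAt σ x))
    (h2 : ∀ z, Q x z = 0 ∨ Φ (jmp σ x z) = Ψ (jmp σ x z)) :
    Top Q a x Φ σ = Top Q a x Ψ σ := by
  unfold Top
  rw [h1]
  congr 2
  refine Finset.sum_congr rfl fun z _ => ?_
  rcases h2 z with h | h
  · simp [h]
  · rw [h]

/-- Pull back a jump target along an embedding. -/
noncomputable def abs1_back (f : β → α) (z : Option α) : Option β :=
  if h : ∃ y, z = some (f y) then some h.choose else none

omit [Fintype α] in
lemma abs1_back_eq_some {f : β → α} (hf : Function.Injective f) (z : Option α) (y : β) :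
    abs1_back f z = some y ↔ z = some (f y) := by
  unfold abs1_back
  split_ifs with h
  · have := h.choose_spec
    constructor
    · intro h1
      rw [this, ← Option.some.inj h1]
    · intro h1
      rw [hf (Option.some.inj (this.symm.trans h1))]
  · constructor
    · intro h1; exact absurd h1 (by simp)
    · intro h1; exact absurd ⟨y, h1⟩ h

omit [Fintype α] [Fintype β] in
lemma abs1_slpAt_comp {f : β → α} (hf : Function.Injective f) (s : α → Loc) (x : β) :
    slpAt s (f x) ∘ f = slpAt (s ∘ f) x := by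
  funext y
  simp only [Function.comp_apply, slpAt_apply, hf.eq_iff]

omit [Fintype α] in
lemma abs1_jmp_comp {f : β → α} (hf : Function.Injective f) (s : α → Loc) (x : β)
    (z : Option α) : jmp s (f x) z ∘ f = jmp (s ∘ f) x (abs1_back f z) := by
  funext y
  simp only [Function.comp_apply, jmp_apply, hf.eq_iff, abs1_back_eq_some hf]

/-- Toppling a site of a block is toppling in the block. -/
lemma Blocks.abs1_Top_emb (h : Blocks Q a Qb ab lev B e bl) {k : ι} (hk : k ∈ B) (x : β)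
    (Φ : (β → Loc) → ℝ) (s : α → Loc) :
    Top Q a (e k x) (fun s => Φ (s ∘ e k)) s = Top Qb ab x Φ (s ∘ e k) := by
  have hf := h.inj k hk
  unfold Top
  simp only [abs1_slpAt_comp hf, abs1_jmp_comp hf, h.ha k hk]
  congr 2
  have hsome : ∀ y : β, ∑ z ∈ univ.filter (fun z => abs1_back (e k) z = some y), Q (e k x) z
      = Qb x (some y) := by
    intro y
    have : univ.filter (fun z => abs1_back (e k) z = some y) = {some (e k y)} := by
      ext z
      simp [abs1_back_eq_some hf]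
    rw [this, Finset.sum_singleton, h.hin k hk]
  have hall : ∀ w : Option β, ∑ z ∈ univ.filter (fun z => abs1_back (e k) z = w), Q (e k x) z
      = Qb x w := by
    intro w
    rcases w with _ | y
    · have h1 := Finset.sum_fiberwise (s := (univ : Finset (Option α)))
        (g := abs1_back (e k)) (f := fun z => Q (e k x) z)
      rw [h.sto (e k x), Fintype.sum_option] at h1
      have h2 := h.stob x
      rw [Fintype.sum_option] at h2
      simp only [hsome] at h1
      linarith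
    · exact hsome y
  rw [← Finset.sum_fiberwise (s := (univ : Finset (Option α))) (g := abs1_back (e k))]
  refine Finset.sum_congr rfl fun w _ => ?_
  rw [← hall w, Finset.sum_mul]
  refine Finset.sum_congr rfl fun z hz => ?_
  rw [(Finset.mem_filter.1 hz).2]

omit [Fintype α] [Fintype β] in
lemma abs1_slpAt_out {f : β → α} (s : α → Loc) {y : α} (hy : ∀ x, f x ≠ y) :
    slpAt s y ∘ f = s ∘ f := by
  funext x
  simp only [Function.comp_apply, slpAt_apply, if_neg (hy x)]

lemma Blocks.abs1_jmp_out (h : Blocks Q a Qb ab lev B e bl) {k : ι} (hk : k ∈ B) (s : α → Loc)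
    {y : α} (hy : ∀ x, e k x ≠ y) (hl : bl k ≤ lev y) (z : Option α) :
    Q y z = 0 ∨ jmp s y z ∘ e k = s ∘ e k := by
  by_cases hz : ∃ x, z = some (e k x)
  · obtain ⟨x, rfl⟩ := hz
    left
    rcases hl.eq_or_lt with h1 | h1
    · exact h.hout k hk y x hy h1.symm
    · exact h.mono y _ (by rw [h.hlev k hk]; exact h1)
  · right
    funext x
    simp only [Function.comp_apply, jmp_apply, if_neg (hy x)]
    rw [if_neg fun h1 => hz ⟨x, h1⟩]

/-- Stability below a level is kept when a site of that level or above is toppled. -/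
lemma Blocks.abs1_closed_low (h : Blocks Q a Qb ab lev B e bl) (i : ℕ) {s : α → Loc}
    (hs : ∀ u, lev u < i → ¬ Act (s u)) {y : α} (hy : i ≤ lev y) :
    Closed Q a (fun s => ∀ u, lev u < i → ¬ Act (s u)) s y := by
  refine ⟨Or.inr fun u hu => ?_, fun z => ?_⟩
  · have : u ≠ y := by rintro rfl; omega
    rw [slpAt_apply, if_neg this]; exact hs u hu
  · by_cases hz : ∃ u, lev u < i ∧ z = some u
    · obtain ⟨u, hu, rfl⟩ := hz
      exact Or.inl (h.mono y u (by omega))
    · refine Or.inr fun u hu => ?_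
      have : u ≠ y := by rintro rfl; omega
      rw [jmp_apply, if_neg this, if_neg fun h1 => hz ⟨u, hu, h1⟩]
      exact hs u hu

omit [Fintype α] in
/-- No sleeper appears at a level at or above `i` when a site below level `i` is toppled. -/
lemma abs1_closed_high (i : ℕ) {s : α → Loc}
    (hs : ∀ u, i ≤ lev u → s u ≠ none) {y : α} (hy : lev y < i) :
    Closed Q a (fun s => ∀ u, i ≤ lev u → s u ≠ none) s y := by
  refine ⟨Or.inr fun u hu => ?_, fun z => Or.inr fun u hu => ?_⟩
  · have : u ≠ y := by rintro rfl; omega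
    rw [slpAt_apply, if_neg this]; exact hs u hu
  · have : u ≠ y := by rintro rfl; omega
    rw [jmp_apply, if_neg this]
    split_ifs
    · exact add_ne_none _
    · exact hs u hu

lemma Blocks.abs1_stage (h : Blocks Q a Qb ab lev B e bl) (i : ℕ) (I : Finset ι)
    (hI : ∀ k ∈ I, k ∈ B ∧ bl k ≤ i) (ψ : ι → (β → Loc) → ℝ) (hψ : ∀ k t, 0 ≤ ψ k t)
    (s : α → Loc) (hs : ∀ u, lev u < i → ¬ Act (s u)) :
    Fv Q a {y | lev y < i + 1} (fun s => ∏ k ∈ I, ψ k (s ∘ e k)) s
      ≤ ∏ k ∈ I, Fv Qb ab Set.univ (ψ k) (s ∘ e k) := by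
  have hnn : ∀ k t, 0 ≤ Fv Qb ab Set.univ (ψ k) t := fun k t =>
    Fv_nonneg h.okb h.stob.sub (hψ k) t
  refine Fv_le_of_super h.ok h.sto.sub (fun s => ∀ u, lev u < i → ¬ Act (s u))
    (fun s => ∏ k ∈ I, Fv Qb ab Set.univ (ψ k) (s ∘ e k))
    (fun s _ => Finset.prod_nonneg fun k _ => hnn k _) (fun s _ hst => ?_)
    (fun s hs hun => ?_) s hs
  · refine le_of_eq (Finset.prod_congr rfl fun k hk => ?_)
    rw [Fv_stable]
    rintro ⟨x, -, hx⟩
    refine hst ⟨e k x, ?_, hx⟩
    have := h.hlev k (hI k hk).1 x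
    have := (hI k hk).2
    show lev (e k x) < i + 1
    omega
  · obtain ⟨y, hy⟩ := hun
    have hyi : i ≤ lev y := by
      by_contra h1
      exact hs y (by omega) hy.2
    refine Or.inr ⟨y, hy, h.abs1_closed_low i hs hyi, ?_⟩
    by_cases hb : ∃ k ∈ I, ∃ x, e k x = y
    · obtain ⟨k, hk, x, rfl⟩ := hb
      have hkB := (hI k hk).1
      have hout : ∀ k' ∈ I.erase k, ∀ x', e k' x' ≠ e k x := fun k' hk' x' h1 =>
        Finset.ne_of_mem_erase hk'
          (h.disj k' (hI k' (Finset.mem_of_mem_erase hk')).1 k hkB x' x h1)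
      set C := ∏ k' ∈ I.erase k, Fv Qb ab Set.univ (ψ k') (s ∘ e k') with hC
      have e1 : Top Q a (e k x) (fun s => ∏ k ∈ I, Fv Qb ab Set.univ (ψ k) (s ∘ e k)) s
          = Top Q a (e k x) (fun t => C * Fv Qb ab Set.univ (ψ k) (t ∘ e k)) s := by
        refine abs1_Top_congr ?_ fun z => ?_
        · rw [← Finset.prod_erase_mul _ _ hk]
          congr 1
          exact Finset.prod_congr rfl fun k' hk' => by rw [abs1_slpAt_out s (hout k' hk')]
        · by_cases hz : Q (e k x) z = 0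
          · exact Or.inl hz
          · right
            rw [← Finset.prod_erase_mul _ _ hk]
            congr 1
            refine Finset.prod_congr rfl fun k' hk' => ?_
            have hk'' := hI k' (Finset.mem_of_mem_erase hk')
            rw [(h.abs1_jmp_out hk''.1 s (hout k' hk') (hk''.2.trans hyi) z).resolve_left hz]
      rw [e1, Top_mul, h.abs1_Top_emb hkB x (Fv Qb ab Set.univ (ψ k)) s,
        ← Fv_eq_Top h.okb h.stob.sub (hψ k) ⟨Set.mem_univ x, hy.2⟩,
        ← Finset.prod_erase_mul _ _ hk]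
    · push Not at hb
      have e1 : Top Q a y (fun s => ∏ k ∈ I, Fv Qb ab Set.univ (ψ k) (s ∘ e k)) s
          = Top Q a y (fun _ => ∏ k ∈ I, Fv Qb ab Set.univ (ψ k) (s ∘ e k)) s := by
        refine abs1_Top_congr ?_ fun z => ?_
        · exact Finset.prod_congr rfl fun k hk => by rw [abs1_slpAt_out s (hb k hk)]
        · by_cases hz : Q y z = 0
          · exact Or.inl hz
          · right
            refine Finset.prod_congr rfl fun k hk => ?_
            rw [(h.abs1_jmp_out (hI k hk).1 s (hb k hk) ((hI k hk).2.trans hyi) z).resolve_left hz]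
      rw [e1]
      exact Top_const_le h.ok h.sto.sub y (Finset.prod_nonneg fun k _ => hnn k _) s

lemma Blocks.abs1_upper (h : Blocks Q a Qb ab lev B e bl) (ψ : ι → (β → Loc) → ℝ)
    (hψ : ∀ k t, 0 ≤ ψ k t) (M : ι → ℝ) (hM0 : ∀ k, 0 ≤ M k)
    (hM : ∀ k t, AllAct t → Fv Qb ab Set.univ (ψ k) t ≤ M k) {σ : α → Loc} (hσ : AllAct σ)
    (i : ℕ) : ∀ I : Finset ι, (∀ k ∈ I, k ∈ B ∧ bl k < i) →
    Fv Q a {y | lev y < i} (fun s => ∏ k ∈ I, ψ k (s ∘ e k)) σ ≤ ∏ k ∈ I, M k := by
  induction i with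
  | zero =>
    intro I hI
    have : I = ∅ := Finset.eq_empty_of_forall_notMem fun k hk => by
      have := (hI k hk).2; omega
    subst this
    simp only [Finset.prod_empty]
    exact Fv_const_le h.ok h.sto.sub zero_le_one σ
  | succ i ih =>
    intro I hI
    have hnn : ∀ (J : Finset ι) (s : α → Loc), 0 ≤ ∏ k ∈ J, ψ k (s ∘ e k) := fun J s =>
      Finset.prod_nonneg fun k _ => hψ k _
    have hsub : {y | lev y < i} ⊆ {y | lev y < i + 1} := fun y hy => by
      simp only [Set.mem_ofPred_eq] at hy ⊢; omega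
    rw [← Fv_tower h.ok h.sto.sub h.tr (hnn I) hsub σ]
    set C := ∏ k ∈ I.filter (fun k => ¬ bl k < i), M k with hC
    have hC0 : 0 ≤ C := Finset.prod_nonneg fun k _ => hM0 k
    have h1 : Fv Q a {y | lev y < i}
        (Fv Q a {y | lev y < i + 1} (fun s => ∏ k ∈ I, ψ k (s ∘ e k))) σ
        ≤ Fv Q a {y | lev y < i}
          (fun s => C * ∏ k ∈ I.filter (fun k => bl k < i), ψ k (s ∘ e k)) σ := by
      refine Fv_mono_on h.ok h.sto.sub (fun s => mul_nonneg hC0 (hnn _ s))
        (fun s => ∀ u, i ≤ lev u → s u ≠ none)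
        (fun s y hs hy => abs1_closed_high i hs hy.1) (fun s hs hst => ?_) σ
        (fun u _ => hσ u)
      have hlow : ∀ u, lev u < i → ¬ Act (s u) := fun u hu hact => hst ⟨u, hu, hact⟩
      refine (h.abs1_stage i I (fun k hk => ⟨(hI k hk).1, by have := (hI k hk).2; omega⟩)
        ψ hψ s hlow).trans ?_
      rw [← Finset.prod_filter_mul_prod_filter_not I (fun k => bl k < i), mul_comm]
      refine mul_le_mul ?_ (le_of_eq ?_)
        (Finset.prod_nonneg fun k _ => Fv_nonneg h.okb h.stob.sub (hψ k) _) hC0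
      · refine Finset.prod_le_prod (fun k _ => Fv_nonneg h.okb h.stob.sub (hψ k) _)
          fun k hk => hM k _ fun x => ?_
        obtain ⟨hk1, hk2⟩ := Finset.mem_filter.1 hk
        exact hs _ (by rw [h.hlev k (hI k hk1).1]; omega)
      · refine Finset.prod_congr rfl fun k hk => ?_
        obtain ⟨hk1, hk2⟩ := Finset.mem_filter.1 hk
        rw [Fv_stable]
        rintro ⟨x, -, hx⟩
        exact hlow (e k x) (by rw [h.hlev k (hI k hk1).1]; exact hk2) hx
    refine h1.trans ?_
    rw [Fv_mul h.ok h.sto.sub (hnn _) hC0,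
      ← Finset.prod_filter_mul_prod_filter_not I (fun k => bl k < i), mul_comm]
    refine mul_le_mul_of_nonneg_right (ih _ fun k hk => ?_) hC0
    obtain ⟨hk1, hk2⟩ := Finset.mem_filter.1 hk
    exact ⟨(hI k hk1).1, hk2⟩

theorem Blocks.ret_upper (h : Blocks Q a Qb ab lev B e bl) (i : ℕ) (I : Finset ι)
    (hI : ∀ k ∈ I, k ∈ B ∧ bl k ≤ i) (c : ι → ℝ) (hc : ∀ k, 1 ≤ c k) {σ : α → Loc}
    (hσ : AllAct σ) :
    Fv Q a {y | lev y ≤ i} (fun s => ∏ k ∈ I, c k ^ tot (s ∘ e k)) σ
      ≤ ∏ k ∈ I, (1 + Fv Qb ab Set.univ totR (full β) / Fintype.card β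
        * (c k ^ Fintype.card β - 1)) := by
  have hS : {y | lev y ≤ i} = {y | lev y < i + 1} := by
    ext y; simp only [Set.mem_ofPred_eq]; omega
  rw [hS]
  refine h.abs1_upper (fun k t => c k ^ tot t) (fun k t => pow_nonneg (by linarith [hc k]) _)
    _ (fun k => ?_) (fun k t ht => Fv_pow_le h.okb h.stob h.trb (hc k) ht) hσ (i + 1) I
    (fun k hk => ⟨(hI k hk).1, by have := (hI k hk).2; omega⟩)
  have h1 : 0 ≤ Fv Qb ab Set.univ totR (full β) :=
    Fv_nonneg h.okb h.stob.sub (fun t => Nat.cast_nonneg _) _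
  have h2 : 1 ≤ c k ^ Fintype.card β := one_le_pow₀ (hc k)
  have h3 : 0 ≤ Fv Qb ab Set.univ totR (full β) / Fintype.card β * (c k ^ Fintype.card β - 1) :=
    mul_nonneg (div_nonneg h1 (Nat.cast_nonneg _)) (by linarith)
  linarith

lemma Blocks.abs1_stage_lower (h : Blocks Q a Qb ab lev B e bl) {k : ι} (hk : k ∈ B)
    (ψ : (β → Loc) → ℝ) (hψ : ∀ t, 0 ≤ ψ t)
    (s : α → Loc) (hs : ∀ u, lev u < bl k → ¬ Act (s u)) :
    Fv Qb ab Set.univ ψ (s ∘ e k) ≤ Fv Q a Set.univ (fun s => ψ (s ∘ e k)) s := by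
  refine le_Fv_of_sub h.ok h.sto.sub h.tr (fun s => hψ _)
    (fun s => ∀ u, lev u < bl k → ¬ Act (s u)) (fun s => Fv Qb ab Set.univ ψ (s ∘ e k))
    (fun s _ hst => ?_) (fun s hs hun => ?_) s hs
  · rw [Fv_stable]
    rintro ⟨x, -, hx⟩
    exact hst ⟨e k x, Set.mem_univ _, hx⟩
  · obtain ⟨y, hy⟩ := hun
    have hyi : bl k ≤ lev y := by
      by_contra h1
      exact hs y (by omega) hy.2
    refine Or.inr ⟨y, hy, h.abs1_closed_low _ hs hyi, ?_⟩
    by_cases hb : ∃ x, e k x = y
    · obtain ⟨x, rfl⟩ := hb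
      rw [h.abs1_Top_emb hk x (Fv Qb ab Set.univ ψ) s,
        ← Fv_eq_Top h.okb h.stob.sub hψ ⟨Set.mem_univ x, hy.2⟩]
    · push Not at hb
      have e1 : Top Q a y (fun s => Fv Qb ab Set.univ ψ (s ∘ e k)) s
          = Top Q a y (fun _ => Fv Qb ab Set.univ ψ (s ∘ e k)) s := by
        refine abs1_Top_congr ?_ fun z => ?_
        · rw [abs1_slpAt_out s hb]
        · by_cases hz : Q y z = 0
          · exact Or.inl hz
          · right
            rw [(h.abs1_jmp_out hk s hb hyi z).resolve_left hz]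
      rw [e1, Top_const, h.sto y]
      simp

theorem Blocks.ret_lower (h : Blocks Q a Qb ab lev B e bl) {k : ι} (hk : k ∈ B) {σ : α → Loc}
    (hσ : AllAct σ) :
    Fv Qb ab Set.univ totR (full β)
      - ∑ x, Fv Q a {y | lev y < bl k} (fun s => if s (e k x) = some 0 then 1 else 0) σ
      ≤ Fv Q a Set.univ (fun s => totR (s ∘ e k)) σ := by
  have hT : ∀ t : β → Loc, 0 ≤ totR t := fun t => Nat.cast_nonneg _
  have h1 : 0 ≤ Fv Qb ab Set.univ totR (full β) := Fv_nonneg h.okb h.stob.sub hT _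
  have hind : ∀ (x : β) (s : α → Loc), (0 : ℝ) ≤ if s (e k x) = some 0 then 1 else 0 :=
    fun x s => by split_ifs <;> norm_num
  have hV : ∀ s, 0 ≤ Fv Q a Set.univ (fun s => totR (s ∘ e k)) s := fun s =>
    Fv_nonneg h.ok h.sto.sub (fun s => hT _) s
  rw [← Fv_tower h.ok h.sto.sub h.tr (fun s => hT (s ∘ e k))
    (Set.subset_univ {y | lev y < bl k}) σ, sub_le_iff_le_add,
    ← Fv_sum h.ok h.sto.sub univ hind σ,
    ← Fv_add h.ok h.sto.sub hV (fun s => Finset.sum_nonneg fun x _ => hind x s) σ,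
    ← Fv_const (S := {y | lev y < bl k}) h.ok h.sto h.tr h1 σ]
  refine Fv_mono_on h.ok h.sto.sub
    (fun s => add_nonneg (hV s) (Finset.sum_nonneg fun x _ => hind x s))
    (fun s => ∀ u, bl k ≤ lev u → s u ≠ none)
    (fun s y hs hy => abs1_closed_high _ hs hy.1) (fun s hs hst => ?_) σ (fun u _ => hσ u)
  have hlow : ∀ u, lev u < bl k → ¬ Act (s u) := fun u hu hact => hst ⟨u, hu, hact⟩
  have h2 := h.abs1_stage_lower hk totR hT s hlow
  have h3 := Fv_full_sub_holes h.okb h.stob h.trb (σ := s ∘ e k)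
    (fun x => hs _ (by rw [h.hlev k hk]))
  have h4 : (holes (s ∘ e k) : ℝ) = ∑ x, if s (e k x) = some 0 then (1 : ℝ) else 0 := by
    unfold holes
    rw [Finset.card_filter]
    push_cast
    rfl
  linarith

end Pool.Agent.ARW
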