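import Pool.Agent.P.MP_3af8b7_pr.Skip

open Classical Finset MeasureTheory Filter Topology

namespace Pool.Agent.ARW

variable {α : Type*} [Fintype α] {Q : α → Option α → ℝ} {a : α → ℝ}

lemma abs2_prod_put (g : α → ℝ) (s : α → Loc) (z : Option α) :
    ∏ y, g y ^ cnt (put s z y) = (∏ y, g y ^ cnt (s y)) * z.elim 1 g := by
  have h1 : ∀ y, g y ^ cnt (put s z y) = g y ^ cnt (s y) * (if z = some y then g y else 1) := by
    intro y
    rw [put_apply]
    split_ifs
    · rw [cnt_add, pow_succ]
    · rw [mul_one]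
  simp only [h1, prod_mul_distrib]
  congr 1
  rcases z with _ | x
  · simp
  · simp

omit [Fintype α] in
lemma abs2_put_rem {s : α → Loc} {x : α} (hx : Act (s x)) :
    put (Function.update s x (rem (s x))) (some x) = s := by
  simp [put, hx.add_rem]

omit [Fintype α] in
lemma abs2_jmp_ne_none {s : α → Loc} {x y : α} (hx : Act (s x)) (hy : s y ≠ none)
    (z : Option α) : jmp s x z y ≠ none := by
  rw [jmp_apply]
  split_ifs with h1 h2 h2
  · exact add_ne_none _
  · exact add_ne_none _
  · subst h2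
    exact hx.rem_ne_none
  · exact hy

/-- The multiplicative supermartingale. -/
theorem Fv_prod_le (hok : Ok Q a) (hs : Sto Q) (S : Set α) (f : α → ℝ)
    (hf : ∀ y, 0 ≤ f y ∧ f y ≤ 1) (hsub : ∀ y ∈ S, f y ≤ ∑ x, Q y (some x) * f x)
    (Z : Set α) (hZ : ∀ y ∈ Z, y ∈ S ∧ a y = 0) {σ : α → Loc} (hσ : AllAct σ) :
    Fv Q a S (fun s => ∏ y ∈ univ.filter (fun y => y ∉ Z), (1 - f y) ^ cnt (s y)) σ
      ≤ Real.exp (- lin f σ) := by
  have h0 : ∀ s : α → Loc, 0 ≤ ∏ y, (1 - f y) ^ cnt (s y) := fun s =>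
    prod_nonneg fun y _ => pow_nonneg (by linarith [(hf y).2]) _
  refine (Fv_le_of_super hok hs.sub (fun s => ∀ y ∈ Z, s y ≠ none)
    (fun s => ∏ y, (1 - f y) ^ cnt (s y)) (fun s _ => h0 s) ?_ ?_ σ (fun y _ => hσ y)).trans ?_
  · intro s hI hst
    refine (prod_subset (filter_subset _ _) fun y _ hy => ?_).le
    have hy' : y ∈ Z := by simpa using hy
    have h1 : ¬ Act (s y) := fun h => hst ⟨y, (hZ y hy').1, h⟩
    rw [(not_act_iff.1 h1).resolve_left (hI y hy')]
    simp [cnt]
  · rintro s hI ⟨x, hx⟩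
    refine Or.inr ⟨x, hx, ⟨?_, fun z => Or.inr fun y hy => abs2_jmp_ne_none hx.2 (hI y hy) z⟩, ?_⟩
    · by_cases hxZ : x ∈ Z
      · exact Or.inl (hZ x hxZ).2
      · refine Or.inr fun y hy => ?_
        rw [slpAt_apply, if_neg (fun h : y = x => hxZ (h ▸ hy))]
        exact hI y hy
    · have e1 : ∏ y, (1 - f y) ^ cnt (slpAt s x y) = ∏ y, (1 - f y) ^ cnt (s y) := by
        refine prod_congr rfl fun y _ => ?_
        rw [slpAt_apply]
        split_ifs
        · rw [cnt_slp]
        · rfl
      have e2 := abs2_prod_put (fun y => 1 - f y) (Function.update s x (rem (s x))) (some x)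
      rw [abs2_put_rem hx.2] at e2
      have e3 : ∑ z, Q x z * Option.elim z 1 (fun y => 1 - f y) ≤ 1 - f x := by
        have h1 := hs x
        have h2 := hsub x hx.1
        rw [Fintype.sum_option] at h1 ⊢
        simp only [Option.elim_none, Option.elim_some, mul_sub, mul_one, sum_sub_distrib]
        linarith
      have e4 := h0 (Function.update s x (rem (s x)))
      unfold Top
      simp only [e1]
      simp only [jmp, abs2_prod_put (fun y => 1 - f y), mul_left_comm (Q x _), ← mul_sum]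
      rw [e2]
      have e5 := mul_le_mul_of_nonneg_left (mul_le_mul_of_nonneg_left e3 e4)
        (show 0 ≤ 1 - a x by linarith [(hok.2 x).2])
      simp only [Option.elim_some]
      linarith
  · unfold lin
    rw [← sum_neg_distrib, Real.exp_sum]
    refine prod_le_prod (fun y _ => pow_nonneg (by linarith [(hf y).2]) _) fun y _ => ?_
    rw [show -(f y * (cnt (σ y) : ℝ)) = (cnt (σ y) : ℝ) * -f y by ring, Real.exp_nat_mul]
    exact pow_le_pow_left₀ (by linarith [(hf y).2]) (Real.one_sub_le_exp_neg _) _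

/-- An active site ends asleep with probability at least its sleep probability. -/
lemma abs2_sleep (hok : Ok Q a) (hs : Sto Q) (ht : Tr Q) (x : α) {s : α → Loc} (hx : Act (s x)) :
    a x ≤ Fv Q a Set.univ (fun s => if s x = none then 1 else 0) s := by
  have hψ : ∀ s : α → Loc, (0 : ℝ) ≤ if s x = none then 1 else 0 := fun s => by
    split_ifs <;> norm_num
  have hT : ∀ y (s : α → Loc), a x ≤ Top Q a y (fun _ => a x) s := fun y s => by
    rw [Top_const, hs y]
    simp
  refine le_Fv_of_sub hok hs.sub ht hψ (fun s => Act (s x)) (fun _ => a x)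
    (fun s hI hst => absurd ⟨x, Set.mem_univ x, hI⟩ hst) ?_ s hx
  intro s hI _
  have hU : Unst Set.univ s x := ⟨Set.mem_univ x, hI⟩
  by_cases h : ∃ y, y ≠ x ∧ Act (s y)
  · obtain ⟨y, hyx, hy⟩ := h
    exact Or.inr ⟨y, ⟨Set.mem_univ y, hy⟩, ⟨Or.inr (hU.slpAt hyx.symm).2,
      fun z => Or.inr (hU.jmp hyx.symm z).2⟩, hT y s⟩
  obtain ⟨k, hk⟩ := hI
  rcases k with _ | k
  · left
    have h1 : slpAt s x x = none := by
      rw [slpAt_apply, if_pos rfl, hk]
      rfl
    have h2 : ¬ ∃ y, Unst Set.univ (slpAt s x) y := by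
      rintro ⟨y, -, hy⟩
      by_cases hyx : y = x
      · rw [hyx, h1] at hy
        exact hy.ne_none rfl
      · rw [slpAt_apply, if_neg hyx] at hy
        exact h ⟨y, hyx, hy⟩
    rw [Fv_eq_Top hok hs.sub hψ hU]
    unfold Top
    rw [Fv_stable h2, if_pos h1, mul_one]
    refine le_add_of_nonneg_right (mul_nonneg (by linarith [(hok.2 x).2]) ?_)
    exact sum_nonneg fun z _ => mul_nonneg (hok.1 x z) (Fv_nonneg hok hs.sub hψ _)
  · refine Or.inr ⟨x, hU, ⟨Or.inr ?_, fun z => Or.inr ?_⟩, hT x s⟩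
    · show Act (slpAt s x x)
      rw [slpAt_apply, if_pos rfl, hk]
      exact ⟨k + 1, rfl⟩
    · show Act (jmp s x z x)
      rw [jmp_apply, if_pos rfl, hk]
      split_ifs
      · exact act_add _
      · exact ⟨k, rfl⟩

/-- A visited site keeps a sleeping particle with probability at least its sleep probability. -/
theorem trap_bound (hok : Ok Q a) (hs : Sto Q) (ht : Tr Q) (x : α) (hx : 0 < a x)
    (Q' : α → Option α → ℝ) (hQ' : ∀ y z, 0 ≤ Q' y z ∧ Q' y z ≤ Q y z) (c Γ : α → ℝ)
    (hc : ∀ y, y ≠ x → 1 - c y ≤ ∑ z, Q' y z) (hΓ0 : ∀ y, 0 ≤ Γ y)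
    (hΓ : ∀ y, y ≠ x → ∑ v, Q y (some v) * Γ v + c y ≤ Γ y) {σ : α → Loc} (hσ : σ x ≠ none) :
    1 - Fv Q a Set.univ (fun s => if s x = none then 1 else 0) σ / a x - lin Γ σ
      ≤ Fv Q' a Set.univ (fun _ => 1) σ := by
  have hψ : ∀ s : α → Loc, (0 : ℝ) ≤ if s x = none then 1 else 0 := fun s => by
    split_ifs <;> norm_num
  have hok' : Ok Q' a := ⟨fun y z => (hQ' y z).1, hok.2⟩
  have hs' : Sub Q' := fun y => (sum_le_sum fun z _ => (hQ' y z).2).trans (hs y).le
  have ht' : Tr Q' := by
    obtain ⟨τ, h1, h2⟩ := ht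
    exact ⟨τ, h1, fun y => (sum_le_sum fun v _ =>
      mul_le_mul_of_nonneg_right (hQ' y _).2 (h1 v)).trans (h2 y)⟩
  have hp := fun s => Fv_nonneg (S := Set.univ) hok hs.sub hψ s
  have hslp := fun s => abs2_sleep hok hs ht x (s := s)
  have hharm := fun s y => Fv_eq_Top (S := Set.univ) hok hs.sub hψ (σ := s) (x := y)
  generalize Fv Q a Set.univ (fun s => if s x = none then 1 else 0) = p at hp hslp hharm ⊢
  refine le_Fv_of_sub hok' hs' ht' (fun _ => zero_le_one) (fun s => s x ≠ none)
    (fun s => 1 - p s / a x - lin Γ s) ?_ ?_ σ hσ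
  · intro s _ _
    have h1 := div_nonneg (hp s) hx.le
    have h2 := lin_nonneg hΓ0 s
    linarith
  · rintro s hI ⟨y, hy⟩
    by_cases hA : Act (s x)
    · left
      have h1 : 1 ≤ p s / a x := (one_le_div hx).2 (hslp s hA)
      have h2 := lin_nonneg hΓ0 s
      have h3 := Fv_nonneg (S := Set.univ) (ψ := fun _ => 1) hok' hs' (fun _ => zero_le_one) s
      linarith
    · have hyx : y ≠ x := fun h => hA (h ▸ hy.2)
      refine Or.inr ⟨y, hy, ⟨Or.inr ?_, fun z => Or.inr (abs2_jmp_ne_none hy.2 hI z)⟩, ?_⟩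
      · show slpAt s y x ≠ none
        rw [slpAt_apply, if_neg hyx.symm]
        exact hI
      · have h1 := hharm s y hy
        have h2 := Top_lin (Q := Q) (a := a) Γ hy.2
        rw [hs y] at h2
        unfold Top at h1 h2 ⊢
        have h3 : ∑ z, Q' y z - ∑ z, Q y z * p (jmp s y z) / a x - ∑ z, Q y z * lin Γ (jmp s y z)
            ≤ ∑ z, Q' y z * (1 - p (jmp s y z) / a x - lin Γ (jmp s y z)) := by
          rw [← sum_sub_distrib, ← sum_sub_distrib]
          refine sum_le_sum fun z _ => ?_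
          have h4 := mul_le_mul_of_nonneg_right (hQ' y z).2
            (add_nonneg (div_nonneg (hp (jmp s y z)) hx.le) (lin_nonneg hΓ0 (jmp s y z)))
          rw [mul_div_assoc]
          linarith
        rw [← sum_div] at h3
        have h4 : 0 ≤ 1 - a y := by linarith [(hok.2 y).2]
        have h5 := mul_le_mul_of_nonneg_left h3 h4
        have h6 := mul_le_mul_of_nonneg_left (hc y hyx) h4
        have h7 := mul_le_mul_of_nonneg_left (hΓ y hyx) h4
        have h8 : p s / a x = a y * (p (slpAt s y) / a x) +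
            (1 - a y) * ((∑ z, Q y z * p (jmp s y z)) / a x) := by
          rw [h1]
          ring
        linarith

theorem srcQ_ok {a0 : ℝ} (hok : Ok Q fun _ => a0) : Ok (srcQ Q) (srcA a0) := by
  constructor
  · rintro (y | y) (_ | u | u)
    · simp [srcQ]
    · simp [srcQ]
    · simp only [srcQ]
      split_ifs <;> norm_num
    · exact hok.1 y none
    · exact le_rfl
    · exact hok.1 y (some u)
  · rintro (y | y)
    · simp [srcA]
    · exact hok.2 y

lemma abs2_sum_inl (y : α) (F : Option (α ⊕ α) → ℝ) :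
    ∑ z, srcQ Q (Sum.inl y) z * F z = F (some (Sum.inr y)) := by
  simp [srcQ]

lemma abs2_sum_inr (y : α) (F : Option (α ⊕ α) → ℝ) :
    ∑ z, srcQ Q (Sum.inr y) z * F z = ∑ z, Q y z * F (z.map Sum.inr) := by
  rw [Fintype.sum_option, Fintype.sum_option, Fintype.sum_sum_type]
  simp [srcQ]

theorem srcQ_sub (hs : Sub Q) : Sub (srcQ Q) := by
  rintro (y | y)
  · have := abs2_sum_inl (Q := Q) y (fun _ => 1)
    simp only [mul_one] at this
    exact this.le
  · have := abs2_sum_inr (Q := Q) y (fun _ => 1)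
    simp only [mul_one] at this
    exact this.le.trans (hs y)

theorem srcQ_sto (hs : Sto Q) : Sto (srcQ Q) := by
  rintro (y | y)
  · have := abs2_sum_inl (Q := Q) y (fun _ => 1)
    simpa only [mul_one] using this
  · have := abs2_sum_inr (Q := Q) y (fun _ => 1)
    simp only [mul_one] at this
    exact this.trans (hs y)

theorem srcQ_tr (ht : Tr Q) : Tr (srcQ Q) := by
  obtain ⟨τ, h1, h2⟩ := ht
  refine ⟨Sum.elim (fun y => τ y + 1) τ, ?_, ?_⟩
  · rintro (y | y)
    · exact add_nonneg (h1 y) zero_le_one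
    · exact h1 y
  · rintro (y | y)
    · rw [Fintype.sum_sum_type]
      simp [srcQ]
    · rw [Fintype.sum_sum_type]
      simpa [srcQ] using h2 y

/-- Move all particles of the sources to the real sites. -/
def abs2Fold {α : Type*} (s : α ⊕ α → Loc) : α → Loc :=
  fun y => add^[cnt (s (Sum.inl y))] (s (Sum.inr y))

lemma abs2_cnt_iter (n : ℕ) (s : Loc) : cnt (add^[n] s) = n + cnt s := by
  induction n with
  | zero => simp
  | succ n ih =>
    rw [Function.iterate_succ_apply', cnt_add, ih]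
    ring

lemma abs2_iter_zero (n : ℕ) : add^[n] (some 0) = some n := by
  induction n with
  | zero => rfl
  | succ n ih =>
    rw [Function.iterate_succ_apply', ih]
    rfl

lemma abs2_tot_fold (s : α ⊕ α → Loc) : tot (abs2Fold s) = tot s := by
  unfold tot abs2Fold
  rw [Fintype.sum_sum_type, ← sum_add_distrib]
  exact sum_congr rfl fun y _ => abs2_cnt_iter _ _

omit [Fintype α] in
lemma abs2_fold_of_empty {s : α ⊕ α → Loc} (h : ∀ y, s (Sum.inl y) = some 0) :
    abs2Fold s = fun y => s (Sum.inr y) := by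
  funext y
  simp [abs2Fold, h, cnt]

/-- Starting at the sources is the same as starting at the real sites (one inequality). -/
theorem Fv_src_le {a0 : ℝ} (hok : Ok Q fun _ => a0) (hs : Sub Q) {φ : ℕ → ℝ} (hφ : Test φ)
    (η : α → ℕ) :
    Fv (srcQ Q) (srcA a0) Set.univ (fun s => φ (tot s)) (srcS η)
      ≤ Fv Q (fun _ => a0) Set.univ (fun s => φ (tot s)) (fun y => some (η y)) := by
  have hψ : ∀ s : α → Loc, 0 ≤ φ (tot s) := fun s => hφ.2 _
  have e0 : (fun y => some (η y)) = abs2Fold (srcS η) := by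
    funext y
    simp [abs2Fold, srcS, cnt, abs2_iter_zero]
  rw [e0]
  refine Fv_le_of_super (srcQ_ok hok) (srcQ_sub hs) (fun s => ∀ y, s (Sum.inl y) ≠ none)
    (fun s => Fv Q (fun _ => a0) Set.univ (fun s => φ (tot s)) (abs2Fold s))
    (fun s _ => Fv_nonneg hok hs hψ _) ?_ ?_ _ (fun y => by simp [srcS])
  · intro s hI hst
    have h1 : ∀ y, s (Sum.inl y) = some 0 := fun y =>
      (not_act_iff.1 fun h => hst ⟨_, Set.mem_univ _, h⟩).resolve_left (hI y)
    have h2 : ¬ ∃ y, Unst Set.univ (abs2Fold s) y := by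
      rintro ⟨y, -, hy⟩
      rw [abs2_fold_of_empty h1] at hy
      exact hst ⟨_, Set.mem_univ _, hy⟩
    rw [Fv_stable h2, abs2_tot_fold]
  · rintro s hI ⟨x, hx⟩
    right
    by_cases h : ∃ y, Act (s (Sum.inl y))
    · obtain ⟨y, hy⟩ := h
      refine ⟨Sum.inl y, ⟨Set.mem_univ _, hy⟩,
        ⟨Or.inl rfl, fun z => Or.inr fun u => abs2_jmp_ne_none hy (hI u) z⟩, ?_⟩
      have e1 : abs2Fold (jmp s (Sum.inl y) (some (Sum.inr y))) = abs2Fold s := by
        funext u
        unfold abs2Fold
        by_cases hu : u = y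
        · subst hu
          simp only [jmp_apply, Option.some.injEq, reduceCtorEq, if_false, if_true]
          rw [← hy.cnt_rem, Function.iterate_succ_apply]
        · simp [jmp_apply, hu, Ne.symm hu]
      unfold Top
      rw [abs2_sum_inl]
      simp [srcA, e1]
    · have h1 : ∀ y, s (Sum.inl y) = some 0 := fun y =>
        (not_act_iff.1 fun h' => h ⟨y, h'⟩).resolve_left (hI y)
      rcases x with y | y
      · exact absurd ⟨y, hx.2⟩ h
      refine ⟨Sum.inr y, hx, ⟨Or.inr fun u => ?_,
        fun z => Or.inr fun u => abs2_jmp_ne_none hx.2 (hI u) z⟩, ?_⟩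
      · rw [slpAt_apply, if_neg Sum.inl_ne_inr]
        exact hI u
      have e1 : abs2Fold (slpAt s (Sum.inr y)) = slpAt (abs2Fold s) y := by
        rw [abs2_fold_of_empty h1, abs2_fold_of_empty (fun u => by simp [slpAt_apply, h1])]
        funext u
        simp [slpAt_apply]
      have e2 : ∀ z : Option α, abs2Fold (jmp s (Sum.inr y) (z.map Sum.inr)) =
          jmp (abs2Fold s) y z := by
        intro z
        rw [abs2_fold_of_empty h1,
          abs2_fold_of_empty (fun u => by rcases z with _ | v <;> simp [jmp_apply, h1])]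
        funext u
        rcases z with _ | v <;> simp [jmp_apply]
      have e3 : Unst Set.univ (abs2Fold s) y := ⟨Set.mem_univ _, by
        rw [abs2_fold_of_empty h1]
        exact hx.2⟩
      rw [Fv_eq_Top hok hs hψ e3]
      unfold Top
      rw [abs2_sum_inr]
      simp only [e1, e2, srcA, Sum.elim_inr]
      exact le_rfl

end Pool.Agent.ARW
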