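import Pool.Agent.P.MP_3af8b7_pr.Lin

open Classical Finset MeasureTheory Filter Topology

namespace Pool.Agent.ARW

variable {d : ℕ}

theorem QV_nonneg (V : Finset (Site d)) (x : V) (z : Option V) : 0 ≤ QV V x z := by
  unfold QV
  positivity

/-- Averages against `QV` are averages over directions. -/
theorem QV_sum (V : Finset (Site d)) (x : V) (f : Option V → ℝ) :
    ∑ z, QV V x z * f z = (∑ j : Fin d × Bool, f (tgt V x j)) / (2 * d) := by
  rw [← Finset.sum_fiberwise univ (fun j : Fin d × Bool => tgt V x j) (fun j => f (tgt V x j)),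
    Finset.sum_div]
  refine sum_congr rfl fun z _ => ?_
  rw [sum_congr rfl (g := fun _ => f z) (fun j hj => by rw [(mem_filter.1 hj).2]), sum_const,
    nsmul_eq_mul]
  unfold QV
  ring

theorem QV_sto (hd : 1 ≤ d) (V : Finset (Site d)) : Sto (QV V) := by
  intro x
  have h := QV_sum V x (fun _ => 1)
  simp only [mul_one, sum_const, card_univ, Fintype.card_prod, Fintype.card_fin,
    Fintype.card_bool, nsmul_eq_mul] at h
  rw [h]
  have : (0 : ℝ) < d := by exact_mod_cast hd
  push_cast
  field_simp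

lemma walk_sum_some (V : Finset (Site d)) (x : V) (F : Site d → ℝ) :
    ∑ y : V, QV V x (some y) * F y
      = (∑ j : Fin d × Bool, if nbr x j ∈ V then F (nbr x j) else 0) / (2 * d) := by
  have h := QV_sum V x (fun z => z.elim 0 (fun y => F y))
  rw [Fintype.sum_option] at h
  simp only [Option.elim_none, mul_zero, zero_add, Option.elim_some] at h
  rw [h]
  congr 1
  refine sum_congr rfl fun j _ => ?_
  unfold tgt
  split_ifs <;> rfl

lemma walk_sum_le (V : Finset (Site d)) (x : V) (F : Site d → ℝ)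
    (hF : ∀ j, 0 ≤ F (nbr x j)) :
    ∑ y : V, QV V x (some y) * F y ≤ (∑ j : Fin d × Bool, F (nbr x j)) / (2 * d) := by
  rw [walk_sum_some]
  refine div_le_div_of_nonneg_right (sum_le_sum fun j _ => ?_) (by positivity)
  split_ifs
  · exact le_rfl
  · exact hF j

lemma walk_nbr_apply (x : Site d) (j : Fin d × Bool) (i : Fin d) :
    nbr x j i = x i + if i = j.1 then (if j.2 then 1 else -1) else 0 := by
  unfold nbr
  rw [Pi.add_apply, Pi.single_apply]

/-- The sum over the directions of a function of one coordinate. -/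
lemma walk_sum_coord (x : Site d) (i : Fin d) (φ : ℤ → ℝ) :
    ∑ j : Fin d × Bool, φ (nbr x j i)
      = 2 * d * φ (x i) + (φ (x i + 1) + φ (x i - 1) - 2 * φ (x i)) := by
  rw [Fintype.sum_prod_type]
  have h : ∀ k : Fin d, ∑ b : Bool, φ (nbr x (k, b) i)
      = 2 * φ (x i) + if k = i then φ (x i + 1) + φ (x i - 1) - 2 * φ (x i) else 0 := by
    intro k
    rw [Fintype.sum_bool, walk_nbr_apply, walk_nbr_apply]
    by_cases hk : k = i
    · subst hk
      simp only [if_true, Bool.false_eq_true, if_false]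
      rw [← sub_eq_add_neg]
      ring
    · have hk' : ¬ i = k := fun h => hk h.symm
      simp only [hk, hk', if_false, add_zero]
      ring
  rw [sum_congr rfl fun k _ => h k, sum_add_distrib, sum_ite_eq' univ i]
  simp only [sum_const, card_univ, Fintype.card_fin, nsmul_eq_mul, mem_univ, if_true]
  ring

theorem QV_tr (hd : 1 ≤ d) (V : Finset (Site d)) : Tr (QV V) := by
  have hd' : (0 : ℝ) < d := by exact_mod_cast hd
  let N : Site d → ℝ := fun y => ∑ i, ((y i : ℤ) : ℝ) ^ 2
  have hN : ∀ y, 0 ≤ N y := fun y => sum_nonneg fun i _ => sq_nonneg _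
  have hsum : ∀ y : Site d, ∑ j : Fin d × Bool, N (nbr y j) = 2 * d * N y + 2 * d := by
    intro y
    simp only [N]
    rw [sum_comm, sum_congr rfl fun i _ => walk_sum_coord y i (fun t => (t : ℝ) ^ 2), mul_sum]
    have : (2 * d : ℝ) = ∑ _i : Fin d, (2 : ℝ) := by simp [mul_comm]
    nth_rewrite 3 [this]
    rw [← sum_add_distrib]
    refine sum_congr rfl fun i _ => ?_
    push_cast
    ring
  let C : ℝ := ∑ y : V, (N y + ∑ j : Fin d × Bool, N (nbr y j))
  have hC : ∀ y : V, N y + ∑ j : Fin d × Bool, N (nbr y j) ≤ C := fun y =>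
    single_le_sum (f := fun y : V => N y + ∑ j : Fin d × Bool, N (nbr y j))
      (fun y _ => add_nonneg (hN _) (sum_nonneg fun j _ => hN _)) (mem_univ y)
  refine ⟨fun y => C - N y, fun y => ?_, fun x => ?_⟩
  · have h1 := hC y
    have h2 : 0 ≤ ∑ j : Fin d × Bool, N (nbr y j) := sum_nonneg fun j _ => hN _
    linarith
  · refine (walk_sum_le V x (fun y => C - N y) fun j => ?_).trans ?_
    · have h1 := hC x
      have h2 : N (nbr x j) ≤ ∑ j : Fin d × Bool, N (nbr x j) :=
        single_le_sum (f := fun j : Fin d × Bool => N (nbr x j)) (fun j _ => hN _) (mem_univ j)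
      have h3 := hN x
      linarith
    · rw [sum_sub_distrib, hsum, div_le_iff₀ (by positivity)]
      simp only [sum_const, card_univ, Fintype.card_prod, Fintype.card_fin, Fintype.card_bool,
        nsmul_eq_mul]
      push_cast
      apply le_of_eq
      ring

theorem card_box (L : ℕ) : (box d L).card = L ^ d := by
  unfold box
  rw [Fintype.card_piFinset]
  simp

theorem card_cube (s : Site d) (w : ℕ) : (cube s w).card = w ^ d := by
  unfold cube
  rw [Fintype.card_piFinset]
  simp

lemma walk_mem_box {L : ℕ} {x : Site d} : x ∈ box d L ↔ ∀ i, 1 ≤ x i ∧ x i ≤ L := by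
  unfold box
  simp only [Fintype.mem_piFinset, mem_Icc]

/-- Sites of the box with a condition on one coordinate. -/
lemma walk_card_coord (L : ℕ) (i : Fin d) (p : ℤ → Prop) :
    ((box d L).filter fun x => p (x i)).card
      = ((Finset.Icc (1 : ℤ) L).filter p).card * L ^ (d - 1) := by
  have h : (box d L).filter (fun x => p (x i)) = Fintype.piFinset
      (Function.update (fun _ : Fin d => Finset.Icc (1 : ℤ) L) i
        ((Finset.Icc (1 : ℤ) L).filter p)) := by
    ext x
    simp only [box, mem_filter, Fintype.mem_piFinset]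
    constructor
    · rintro ⟨h1, h2⟩ k
      by_cases hk : k = i
      · subst hk
        rw [Function.update_self]
        exact mem_filter.2 ⟨h1 k, h2⟩
      · rw [Function.update_of_ne hk]
        exact h1 k
    · intro h
      have hi := h i
      rw [Function.update_self] at hi
      refine ⟨fun k => ?_, (mem_filter.1 hi).2⟩
      by_cases hk : k = i
      · subst hk
        exact (mem_filter.1 hi).1
      · have := h k
        rwa [Function.update_of_ne hk] at this
  rw [h, Fintype.card_piFinset, ← mul_prod_erase univ _ (mem_univ i), Function.update_self]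
  congr 1
  rw [prod_congr rfl (g := fun _ => L) (fun k hk => by
    rw [Function.update_of_ne (mem_erase.1 hk).1]
    simp), prod_const, card_erase_of_mem (mem_univ i), card_univ, Fintype.card_fin]

/-- Sites of the box within distance `r` of its complement. -/
theorem card_shallow (hd : 1 ≤ d) (L r : ℕ) :
    (((box d L).filter fun x => ¬ ∀ y, near r x y → y ∈ box d L).card : ℝ)
      ≤ 2 * d * r * (L : ℝ) ^ (d - 1) := by
  have hsub : ((box d L).filter fun x => ¬ ∀ y, near r x y → y ∈ box d L) ⊆
      univ.biUnion fun i : Fin d =>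
        (box d L).filter fun x : Site d => x i ≤ (r : ℤ) ∨ (L : ℤ) - r < x i := by
    intro x hx
    obtain ⟨hx1, hx2⟩ := mem_filter.1 hx
    by_contra hn
    refine hx2 fun y hy => walk_mem_box.2 fun i => ?_
    have h1 : ¬ (x i ≤ r ∨ (L : ℤ) - r < x i) := fun h =>
      hn (mem_biUnion.2 ⟨i, mem_univ i, mem_filter.2 ⟨hx1, h⟩⟩)
    have h2 := abs_le.1 (hy i)
    omega
  have h1 : ∀ i : Fin d, ((box d L).filter fun x : Site d => x i ≤ (r : ℤ) ∨ (L : ℤ) - r < x i).card
      ≤ 2 * r * L ^ (d - 1) := by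
    intro i
    have h2 := walk_card_coord L i (fun t : ℤ => t ≤ r ∨ (L : ℤ) - r < t)
    have h3 : ((Finset.Icc (1 : ℤ) L).filter fun t : ℤ => t ≤ r ∨ (L : ℤ) - r < t).card
        ≤ 2 * r := by
      have h4 : ((Finset.Icc (1 : ℤ) L).filter fun t : ℤ => t ≤ r ∨ (L : ℤ) - r < t)
          ⊆ Finset.Icc (1 : ℤ) r ∪ Finset.Ioc ((L : ℤ) - r) L := by
        intro t ht
        simp only [mem_filter, mem_Icc, mem_union, mem_Ioc] at ht ⊢
        omega
      refine (card_le_card h4).trans ((card_union_le _ _).trans ?_)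
      simp only [Int.card_Icc, Int.card_Ioc]
      omega
    calc _ = ((Finset.Icc (1 : ℤ) L).filter fun t : ℤ => t ≤ r ∨ (L : ℤ) - r < t).card
          * L ^ (d - 1) := by convert h2
      _ ≤ 2 * r * L ^ (d - 1) := Nat.mul_le_mul_right _ (by convert h3)
  have h2 := (card_le_card hsub).trans (card_biUnion_le.trans (sum_le_sum fun i _ => h1 i))
  rw [sum_const, card_univ, Fintype.card_fin, smul_eq_mul] at h2
  have h3 : (((box d L).filter fun x => ¬ ∀ y, near r x y → y ∈ box d L).card : ℝ)
      ≤ ((d * (2 * r * L ^ (d - 1)) : ℕ) : ℝ) := by exact_mod_cast h2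
  refine h3.trans (le_of_eq ?_)
  push_cast
  ring

theorem card_bdry (hd : 1 ≤ d) (L : ℕ) :
    ((bdry (box d L)).card : ℝ) ≤ 2 * d * (L : ℝ) ^ (d - 1) := by
  have h := card_shallow hd L 1
  rw [Nat.cast_one, mul_one] at h
  refine le_trans ?_ h
  refine Nat.cast_le.2 (card_le_card fun x hx => ?_)
  unfold bdry at hx
  obtain ⟨hx1, j, hj⟩ := mem_filter.1 hx
  refine mem_filter.2 ⟨hx1, fun hall => hj (hall _ fun i => ?_)⟩
  rw [walk_nbr_apply]
  split_ifs <;> simp

/-- One-dimensional count of the points of a slab. -/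
lemma walk_card_slab {l n j : ℕ} (hl : 1 ≤ l) (hj : j < n) (L : ℕ) :
    L / (n * l) * l
      ≤ ((Finset.Icc (1 : ℤ) L).filter fun t : ℤ => ((t / l) % n).toNat = j).card := by
  set q := L / (n * l) with hq
  have hqL : q * (n * l) ≤ L := Nat.div_mul_le_self _ _
  have hlt : ∀ a < q, ∀ b < l, (a * n + j) * l + b < q * (n * l) := by
    intro a ha b hb
    have h1 : (a * n + j + 1) * l ≤ (q * n) * l :=
      Nat.mul_le_mul_right l (by nlinarith)
    nlinarith
  have hdiv : ∀ a, ∀ b < l, ((a * n + j) * l + b) / l = a * n + j := by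
    intro a b hb
    rw [add_comm, Nat.add_mul_div_right _ _ (by omega), Nat.div_eq_of_lt hb, zero_add]
  have hcast : ∀ t : ℕ, (((t : ℤ) / l) % n).toNat = (t / l) % n := by
    intro t
    rw [← Int.natCast_ediv, ← Int.natCast_emod, Int.toNat_natCast]
  have hc : q * l = (range q ×ˢ range l).card := by simp
  rw [hc]
  refine card_le_card_of_injOn (fun p : ℕ × ℕ =>
    ((if (p.1 * n + j) * l + p.2 = 0 then q * (n * l) else (p.1 * n + j) * l + p.2 : ℕ) : ℤ)) ?_ ?_
  · rintro ⟨a, b⟩ hp
    obtain ⟨ha, hb⟩ := mem_product.1 (mem_coe.1 hp)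
    rw [mem_range] at ha hb
    have h1 := hlt a ha b hb
    have h2 := hdiv a b hb
    refine mem_coe.2 (mem_filter.2 ⟨mem_Icc.2 ?_, ?_⟩)
    · dsimp only
      split_ifs <;> constructor <;> omega
    · dsimp only
      rw [hcast]
      split_ifs with h0
      · rw [h0, Nat.zero_div] at h2
        rw [← mul_assoc, Nat.mul_div_cancel _ (by omega), Nat.mul_mod_left]
        omega
      · rw [h2, add_comm, Nat.add_mul_mod_self_right, Nat.mod_eq_of_lt hj]
  · rintro ⟨a, b⟩ hp ⟨a', b'⟩ hp' h
    obtain ⟨ha, hb⟩ := mem_product.1 (mem_coe.1 hp)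
    obtain ⟨ha', hb'⟩ := mem_product.1 (mem_coe.1 hp')
    rw [mem_range] at ha hb ha' hb'
    have h1 := hlt a ha b hb
    have h1' := hlt a' ha' b' hb'
    have h2 := hdiv a b hb
    have h2' := hdiv a' b' hb'
    dsimp only at h ha hb ha' hb'
    have h3 : (a * n + j) * l + b = (a' * n + j) * l + b' := by
      have h4 := Nat.cast_injective (R := ℤ) h
      split_ifs at h4 <;> omega
    have h5 : a * n + j = a' * n + j := by rw [← h2, h3, h2']
    have h6 : a = a' := Nat.eq_of_mul_eq_mul_right (show 0 < n by omega) (by omega)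
    subst h6
    rw [Prod.mk.injEq]
    exact ⟨rfl, by omega⟩

/-- A slab has its fair share of the box, up to a boundary term. -/
theorem card_box_slab (i0 : Fin d) {l n j : ℕ} (hl : 1 ≤ l) (hj : j < n) (L : ℕ) :
    (L : ℝ) ^ d / n - l * (L : ℝ) ^ (d - 1)
      ≤ ((box d L).filter fun y => slab i0 l n y = j).card := by
  have h1 := walk_card_coord L i0 (fun t : ℤ => ((t / l) % n).toNat = j)
  have h2 := walk_card_slab hl hj L
  have h3 : L / (n * l) * l * L ^ (d - 1)
      ≤ ((box d L).filter fun y => slab i0 l n y = j).card := by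
    calc _ ≤ ((Finset.Icc (1 : ℤ) L).filter fun t : ℤ => ((t / l) % n).toNat = j).card
          * L ^ (d - 1) := Nat.mul_le_mul_right _ h2
      _ = _ := by unfold slab; convert h1.symm
  refine le_trans ?_ (Nat.cast_le.2 h3)
  have hn : (0 : ℝ) < n := by exact_mod_cast (show 0 < n by omega)
  have h4 : L < (L / (n * l) + 1) * (n * l) := by
    have := Nat.lt_div_mul_add (a := L) (show 0 < n * l from Nat.mul_pos (by omega) (by omega))
    nlinarith
  have h5 : (L : ℝ) ≤ ((L / (n * l) : ℕ) + 1) * (n * l) := by exact_mod_cast h4.le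
  have h6 : (L : ℝ) ^ d = L * (L : ℝ) ^ (d - 1) := by
    rw [← pow_succ']
    congr 1
    have := i0.2
    omega
  have h7 : (L : ℝ) / n - l ≤ (L / (n * l) : ℕ) * l := by
    rw [sub_le_iff_le_add, div_le_iff₀ hn]
    nlinarith
  rw [h6]
  push_cast
  have h8 := mul_le_mul_of_nonneg_right h7 (show (0 : ℝ) ≤ (L : ℝ) ^ (d - 1) by positivity)
  calc _ = ((L : ℝ) / n - l) * (L : ℝ) ^ (d - 1) := by ring
    _ ≤ _ := h8

lemma walk_symm (V : Finset (Site d)) (x y : V) : QV V x (some y) = QV V y (some x) := by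
  have key : ∀ (x y : V) (j : Fin d × Bool), tgt V x j = some y → tgt V y (j.1, !j.2) = some x := by
    intro x y j h
    have h1 : nbr x j = y := by
      unfold tgt at h
      split_ifs at h with hm
      exact congrArg Subtype.val (Option.some.inj h)
    have h2 : nbr (y : Site d) (j.1, !j.2) = x := by
      funext i
      rw [walk_nbr_apply, ← h1, walk_nbr_apply]
      rcases j with ⟨k, b⟩
      cases b <;> dsimp only <;> split_ifs <;> simp_all
    unfold tgt
    rw [dif_pos (h2 ▸ x.2)]
    exact congrArg some (Subtype.ext h2)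
  unfold QV
  congr 2
  refine card_bij' (fun j _ => (j.1, !j.2)) (fun j _ => (j.1, !j.2)) ?_ ?_ ?_ ?_
  · intro j hj
    exact mem_filter.2 ⟨mem_univ _, key x y j (mem_filter.1 hj).2⟩
  · intro j hj
    exact mem_filter.2 ⟨mem_univ _, key y x j (mem_filter.1 hj).2⟩
  · intro j _
    simp
  · intro j _
    simp

/-- The Green function with pole at a boundary site has total mass at most `d L`. -/
lemma walk_green (hd : 1 ≤ d) (L : ℕ) (x : box d L) (hx : (x : Site d) ∈ bdry (box d L)) :
    ∃ g : box d L → ℝ, (∀ y, 0 ≤ g y) ∧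
      (∀ y, g y = (if y = x then 1 else 0) + ∑ z, QV (box d L) y (some z) * g z) ∧
      ∑ y, g y ≤ d * L := by
  have hd' : (0 : ℝ) < d := by exact_mod_cast hd
  have h0 := QV_nonneg (box d L)
  have hs := (QV_sto hd (box d L)).sub
  have ht := QV_tr hd (box d L)
  obtain ⟨g, hg⟩ := exists_col h0 hs ht (fun y => if y = x then 1 else 0)
  have hg0 : ∀ y, 0 ≤ g y := by
    have := max_col h0 hs ht Set.univ (fun y => -g y) (fun y _ => by
      have h1 := hg y
      have h2 : (0 : ℝ) ≤ if y = x then 1 else 0 := by split_ifs <;> norm_num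
      simp only [mul_neg, sum_neg_distrib]
      linarith) (fun y hy => absurd (Set.mem_univ y) hy)
    exact fun y => neg_nonpos.1 (this y)
  refine ⟨g, hg0, hg, ?_⟩
  unfold bdry at hx
  obtain ⟨hx1, ⟨i, b⟩, hj⟩ := mem_filter.1 hx
  have hxi : (x : Site d) i = 1 ∨ (x : Site d) i = L := by
    by_contra hn
    refine hj (walk_mem_box.2 fun k => ?_)
    have h1 := walk_mem_box.1 hx1 k
    rw [walk_nbr_apply]
    dsimp only
    by_cases hk : k = i
    · subst hk
      rw [if_pos rfl]
      split_ifs <;> omega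
    · rw [if_neg hk]
      omega
  let φ : ℤ → ℝ := fun t => d * ((t : ℝ) * (L + 1 - t))
  have hφ : ∀ t : ℤ, 0 ≤ t → t ≤ L + 1 → 0 ≤ φ t := by
    intro t h1 h2
    have h3 : (0 : ℝ) ≤ t := by exact_mod_cast h1
    have h4 : (t : ℝ) ≤ L + 1 := by exact_mod_cast h2
    exact mul_nonneg hd'.le (mul_nonneg h3 (by linarith))
  have hF : ∀ y : box d L,
      ∑ z : box d L, QV (box d L) y (some z) * φ ((z : Site d) i) ≤ φ ((y : Site d) i) - 1 := by
    intro y
    refine (walk_sum_le (box d L) y (fun z => φ (z i)) fun j => ?_).trans ?_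
    · have h1 := walk_mem_box.1 y.2 i
      refine hφ _ ?_ ?_ <;> rw [walk_nbr_apply] <;> split_ifs <;> omega
    · rw [walk_sum_coord, div_le_iff₀ (by positivity)]
      simp only [φ]
      push_cast
      apply le_of_eq
      ring
  have h1 : ∑ y, g y ≤ ∑ y : box d L, g y * (φ ((y : Site d) i)
      - ∑ z : box d L, QV (box d L) y (some z) * φ ((z : Site d) i)) :=
    sum_le_sum fun y _ => le_mul_of_one_le_right (hg0 y) (by linarith [hF y])
  have h2 : ∑ y : box d L, g y * ∑ z : box d L, QV (box d L) y (some z) * φ ((z : Site d) i)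
      = ∑ z : box d L, (∑ y, QV (box d L) z (some y) * g y) * φ ((z : Site d) i) := by
    simp only [mul_sum, sum_mul]
    rw [sum_comm]
    refine sum_congr rfl fun z _ => sum_congr rfl fun y _ => ?_
    rw [walk_symm _ y z]
    ring
  have h3 : ∑ y : box d L, g y * φ ((y : Site d) i)
      = φ ((x : Site d) i)
        + ∑ z : box d L, (∑ y, QV (box d L) z (some y) * g y) * φ ((z : Site d) i) := by
    have e : φ ((x : Site d) i) = ∑ y : box d L, (if y = x then 1 else 0) * φ ((y : Site d) i) := by
      simp only [ite_mul, one_mul, zero_mul, sum_ite_eq', mem_univ, if_true]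
    rw [e, ← sum_add_distrib]
    refine sum_congr rfl fun y _ => ?_
    rw [← add_mul, ← hg y]
  simp only [mul_sub, sum_sub_distrib] at h1
  rw [h2, h3] at h1
  have h4 : φ ((x : Site d) i) = d * L := by
    rcases hxi with h | h <;> simp only [φ, h] <;> push_cast <;> ring
  linarith

/-- Exponential moment of the number of jumps from a boundary site. -/
theorem exp_moment (hd : 1 ≤ d) {a0 : ℝ} (ha : 0 ≤ a0 ∧ a0 < 1) (L M : ℕ) (η : Site d → ℕ)
    (hη : ∀ y, η y ≤ M) (x : box d L) (hx : (x : Site d) ∈ bdry (box d L)) (n : ℕ) :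
    Fn (scale (QV (box d L)) x (1 + 1 / (2 * d * L))) (fun _ => a0) Set.univ (fun _ => 1) n
      (act (box d L) η) ≤ Real.exp M := by
  have hd' : (0 : ℝ) < d := by exact_mod_cast hd
  have hL : (0 : ℝ) < L := by
    have := walk_mem_box.1 x.2 ⟨0, hd⟩
    exact_mod_cast (show 0 < L by omega)
  obtain ⟨g, hg0, hg, hgs⟩ := walk_green hd L x hx
  set c : ℝ := 1 / (d * L) with hc
  have hc0 : 0 < c := by positivity
  have hcL : c * (d * L) = 1 := by rw [hc]; field_simp
  have hθ : 1 / (2 * d * L : ℝ) = c / 2 := by rw [hc]; field_simp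
  rw [hθ]
  have hpos : ∀ y, 0 < 1 + c * g y := fun y => by have := hg0 y; positivity
  let ℓ : box d L → ℝ := fun y => Real.log (1 + c * g y)
  have hℓ0 : ∀ y, 0 ≤ ℓ y := fun y =>
    Real.log_nonneg (le_add_of_nonneg_right (mul_nonneg hc0.le (hg0 y)))
  have hok : Ok (scale (QV (box d L)) x (1 + c / 2)) (fun _ => a0) := by
    refine ⟨fun y z => ?_, fun _ => ha⟩
    unfold scale
    split_ifs
    · exact mul_nonneg (by positivity) (QV_nonneg _ _ _)
    · exact QV_nonneg _ _ _
  have hrow : ∀ y, ∑ z, QV (box d L) y z * Real.exp (z.elim 0 ℓ)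
      = 1 + c * (g y - if y = x then 1 else 0) := by
    intro y
    have h1 := QV_sto hd (box d L) y
    rw [Fintype.sum_option] at h1 ⊢
    simp only [Option.elim_none, Option.elim_some, Real.exp_zero, mul_one, ℓ,
      Real.exp_log (hpos _), mul_add, sum_add_distrib]
    have h2 : ∑ z, QV (box d L) y (some z) * (c * g z)
        = c * ∑ z, QV (box d L) y (some z) * g z := by
      rw [mul_sum]
      exact sum_congr rfl fun z _ => by ring
    rw [h2, ← add_assoc, h1]
    congr 2
    linarith [hg y]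
  have hrow' : ∀ y, ∑ z, scale (QV (box d L)) x (1 + c / 2) y z * Real.exp (z.elim 0 ℓ)
      ≤ 1 + c * g y := by
    intro y
    unfold scale
    by_cases hy : y = x
    · simp only [if_pos hy, mul_assoc]
      rw [← mul_sum, hrow, if_pos hy]
      have h1 : g y ≤ d * L :=
        (single_le_sum (f := g) (fun y _ => hg0 y) (mem_univ y)).trans hgs
      have h2 : c * g y ≤ 1 := hcL ▸ mul_le_mul_of_nonneg_left h1 hc0.le
      nlinarith
    · simp only [if_neg hy]
      rw [hrow, if_neg hy, sub_zero]
  have key := Fn_le_of_super (S := Set.univ) (ψ := fun _ => 1) hok (fun _ => True)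
    (fun s => Real.exp (lin ℓ s)) (fun s _ => (Real.exp_pos _).le)
    (fun s _ _ => Real.one_le_exp (lin_nonneg hℓ0 s))
    (fun s _ ⟨y, hy⟩ => Or.inr ⟨y, hy, ⟨Or.inr trivial, fun _ => Or.inr trivial⟩, by
      unfold Top
      simp only [lin_slpAt, lin_jmp ℓ hy.2, Real.exp_add]
      have h1 : ∑ z, scale (QV (box d L)) x (1 + c / 2) y z
            * (Real.exp (lin ℓ s - ℓ y) * Real.exp (z.elim 0 ℓ))
          = Real.exp (lin ℓ s - ℓ y)
            * ∑ z, scale (QV (box d L)) x (1 + c / 2) y z * Real.exp (z.elim 0 ℓ) := by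
        rw [mul_sum]
        exact sum_congr rfl fun z _ => by ring
      have h2 : Real.exp (lin ℓ s - ℓ y) * (1 + c * g y) = Real.exp (lin ℓ s) := by
        rw [← Real.exp_log (hpos y), ← Real.exp_add]
        congr 1
        simp only [ℓ]
        ring
      have h3 := mul_le_mul_of_nonneg_left (hrow' y) (Real.exp_pos (lin ℓ s - ℓ y)).le
      rw [h2] at h3
      rw [h1]
      have h4 := mul_le_mul_of_nonneg_left h3 (show 0 ≤ 1 - a0 by linarith [ha.2])
      linarith⟩) n (act (box d L) η) trivial
  refine key.trans (Real.exp_le_exp.2 ?_)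
  have h1 : lin ℓ (act (box d L) η) ≤ ∑ y, (c * M) * g y := by
    unfold lin
    refine sum_le_sum fun y _ => ?_
    have h2 : ℓ y ≤ c * g y := by
      have := Real.log_le_sub_one_of_pos (hpos y)
      simp only [ℓ]
      linarith
    have h3 : (cnt (act (box d L) η y) : ℝ) ≤ M := by exact_mod_cast hη y
    calc _ ≤ (c * g y) * M :=
          mul_le_mul h2 h3 (Nat.cast_nonneg _) (mul_nonneg hc0.le (hg0 y))
      _ = _ := by ring
  rw [← mul_sum] at h1
  have h2 := mul_le_mul_of_nonneg_left hgs (show (0 : ℝ) ≤ c * M by positivity)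
  have h3 : c * M * (d * L) = M := by
    rw [mul_right_comm, hcL, one_mul]
  linarith

end Pool.Agent.ARW
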