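import Pool.Agent.P.MP_3af8b7_pr.Meas
import Pool.Agent.P.MP_3af8b7_pr.Walk

open Classical Finset MeasureTheory Filter Topology

namespace Pool.Agent.ARW

variable {d : ℕ}

/-- Payoff of the deterministic procedure after `n` steps, with weight `t` per jump from `x`. -/
noncomputable def payoff (V : Finset (Site d)) (x : V) (t : ℝ) (ψ : (V → Loc) → ℝ) (n : ℕ)
    (σ : Site d → Loc) (τ : Stack d) : ℝ :=
  if ∀ y ∈ V, ¬ Act ((run V τ n (σ, fun _ => 0)).1 y) then
    t ^ jumps τ (run V τ n (σ, fun _ => 0)).2 x * ψ (fun y => (run V τ n (σ, fun _ => 0)).1 y)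
  else 0

/-! ### Functions of finitely many coordinates -/

section coords
variable {I A : Type} [Fintype A] [MeasurableSpace A] [MeasurableSingletonClass A]

lemma bridge_factor (T : Finset I) {F : (I → A) → ℝ} (hF : DependsOn F (T : Set I)) :
    ∃ g : (T → A) → ℝ, Measurable g ∧ F = g ∘ fun τ (i : T) => τ i := by
  obtain ⟨g, hg⟩ := dependsOn_iff_exists_comp.1 hF
  exact ⟨g, Measurable.of_discrete, hg⟩

lemma bridge_meas (T : Finset I) {F : (I → A) → ℝ} (hF : DependsOn F (T : Set I)) :
    Measurable F := by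
  obtain ⟨g, hg, rfl⟩ := bridge_factor T hF
  exact hg.comp (by fun_prop)

lemma bridge_int (μ : Measure (I → A)) [IsFiniteMeasure μ] (T : Finset I) {F : (I → A) → ℝ}
    (hF : DependsOn F (T : Set I)) : Integrable F μ := by
  obtain ⟨g, hg, rfl⟩ := bridge_factor T hF
  have hm : Measurable fun (τ : I → A) (i : T) => τ i := by fun_prop
  exact (integrable_map_measure hg.aestronglyMeasurable hm.aemeasurable).1 Integrable.of_finite

/-- Integrating out a fresh coordinate. -/
lemma bridge_fresh (ν : Measure A) [IsProbabilityMeasure ν] (T : Finset I) (c : I) (hc : c ∉ T)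
    (F : A → (I → A) → ℝ) (hF : ∀ a, DependsOn (F a) (T : Set I)) :
    ∫ τ, F (τ c) τ ∂(Measure.infinitePi fun _ : I => ν)
      = ∑ a, ν.real {a} * ∫ τ, F a τ ∂(Measure.infinitePi fun _ : I => ν) := by
  set μ := Measure.infinitePi fun _ : I => ν with hμ
  have e : ∀ τ : I → A, F (τ c) τ = ∑ a, (if τ c = a then (1 : ℝ) else 0) * F a τ := fun τ => by
    simp
  have hdep : ∀ a, DependsOn (fun τ : I → A => (if τ c = a then (1 : ℝ) else 0) * F a τ)
      ((insert c T : Finset I) : Set I) := fun a τ τ' h => by
    have h1 : τ c = τ' c := h c (by simp)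
    have h2 : F a τ = F a τ' := hF a fun i hi => h i (by simp [show i ∈ T from hi])
    simp only [h1, h2]
  simp_rw [e]
  rw [integral_finsetSum _ fun a _ => bridge_int μ _ (hdep a)]
  refine Finset.sum_congr rfl fun a _ => ?_
  obtain ⟨g, hg, hgF⟩ := bridge_factor T (hF a)
  have hi : ProbabilityTheory.iIndepFun (fun i (τ : I → A) => τ i) μ :=
    ProbabilityTheory.iIndepFun_infinitePi (P := fun _ : I => ν) (X := fun _ => id)
      fun _ => measurable_id
  have h1 := hi.indepFun_finset {c} T (by simpa using hc) fun i => measurable_pi_apply i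
  have h2 := h1.comp (φ := fun u : ({c} : Finset I) → A =>
    if u ⟨c, Finset.mem_singleton_self c⟩ = a then (1 : ℝ) else 0) (ψ := g)
    Measurable.of_discrete hg
  have hm1 : Measurable fun τ : I → A => if τ c = a then (1 : ℝ) else 0 :=
    (Measurable.of_discrete (f := fun b : A => if b = a then (1 : ℝ) else 0)).comp
      (measurable_pi_apply c)
  have h3 : ProbabilityTheory.IndepFun (fun τ : I → A => if τ c = a then (1 : ℝ) else 0)
      (F a) μ := by rw [hgF]; exact h2
  rw [h3.integral_fun_mul_eq_mul_integral hm1.aestronglyMeasurable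
    (bridge_meas T (hF a)).aestronglyMeasurable]
  congr 1
  have h4 := (measurePreserving_eval_infinitePi (fun _ : I => ν) c).map_eq
  have h5 : ∫ b, (if b = a then (1 : ℝ) else 0) ∂ν = ν.real {a} := by
    rw [← integral_indicator_one (measurableSet_singleton a)]
    congr 1
  rw [← h5, ← h4, integral_map (measurable_pi_apply c).aemeasurable
    (Measurable.of_discrete).aestronglyMeasurable]

end coords

/-! ### The deterministic procedure reads finitely many instructions -/

/-- Toppling with a prescribed instruction. -/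
noncomputable def bridgeTop (D : Set (Site d)) (a : Instr d) (x : Site d) (s : State d) :
    State d := topple D (fun _ => a) x s

lemma bridge_topple (D : Set (Site d)) (τ : Stack d) (x : Site d) (s : State d) :
    topple D τ x s = bridgeTop D (τ (x, s.2 x)) x s := rfl

lemma bridgeTop_snd (D : Set (Site d)) (a : Instr d) (x : Site d) (s : State d) :
    (bridgeTop D a x s).2 = Function.update s.2 x (s.2 x + 1) := rfl

/-- The instructions that can be read in `n` steps from counters `h`. -/
noncomputable def bridgeWin (V : Finset (Site d)) (h : Site d → ℕ) (n : ℕ) : Finset (Site d × ℕ) :=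
  V.biUnion fun y => (Finset.Ico (h y) (h y + n)).image fun m => (y, m)

lemma mem_bridgeWin {V : Finset (Site d)} {h : Site d → ℕ} {n : ℕ} {c : Site d × ℕ} :
    c ∈ bridgeWin V h n ↔ c.1 ∈ V ∧ h c.1 ≤ c.2 ∧ c.2 < h c.1 + n := by
  obtain ⟨y, m⟩ := c
  simp only [bridgeWin, Finset.mem_biUnion, Finset.mem_image, Finset.mem_Ico, Prod.mk.injEq]
  constructor
  · rintro ⟨y', hy, m', hm, rfl, rfl⟩
    exact ⟨hy, hm⟩
  · rintro ⟨hy, hm⟩
    exact ⟨y, hy, m, hm, rfl, rfl⟩

lemma bridge_counter (V : Finset (Site d)) (τ : Stack d) (n : ℕ) : ∀ (s : State d) (y : Site d),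
    s.2 y ≤ (run V τ n s).2 y ∧ (run V τ n s).2 y ≤ s.2 y + n ∧
      (y ∉ V → (run V τ n s).2 y = s.2 y) := by
  induction n with
  | zero => intro s y; simp [run]
  | succ n ih =>
    intro s y
    simp only [run]
    split_ifs with h
    · obtain ⟨h1, h2, h3⟩ := ih (topple V τ (h.choose : V) s) y
      rw [bridge_topple, bridgeTop_snd, ← bridge_topple] at h1 h2 h3
      by_cases e : y = (h.choose : V)
      · have hy : y ∈ V := e ▸ (h.choose).2
        rw [← e, Function.update_self] at h1 h2
        rw [← e]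
        exact ⟨by omega, by omega, fun hn => absurd hy hn⟩
      · rw [Function.update_of_ne e] at h1 h2 h3
        exact ⟨h1, by omega, h3⟩
    · simp

lemma bridge_win_step {V : Finset (Site d)} {h : Site d → ℕ} {n : ℕ} {x : Site d}
    {c : Site d × ℕ} (hc : c ∈ bridgeWin V (Function.update h x (h x + 1)) n) :
    c ∈ bridgeWin V h (n + 1) := by
  rw [mem_bridgeWin] at hc ⊢
  by_cases e : c.1 = x
  · rw [e, Function.update_self] at hc
    rw [e]
    exact ⟨hc.1, by omega, by omega⟩
  · rw [Function.update_of_ne e] at hc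
    exact ⟨hc.1, hc.2.1, by omega⟩

lemma bridge_run_dep (V : Finset (Site d)) (n : ℕ) : ∀ (s : State d) (τ τ' : Stack d),
    (∀ c ∈ bridgeWin V s.2 n, τ c = τ' c) → run V τ n s = run V τ' n s := by
  induction n with
  | zero => intro s τ τ' _; rfl
  | succ n ih =>
    intro s τ τ' hτ
    simp only [run]
    split_ifs with h
    · have e : τ ((h.choose : V), s.2 (h.choose : V)) = τ' ((h.choose : V), s.2 (h.choose : V)) :=
        hτ _ (mem_bridgeWin.2 ⟨(h.choose).2, le_rfl, by simp⟩)
      rw [bridge_topple V τ, bridge_topple V τ', e]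
      exact ih _ τ τ' fun c hc => hτ c (bridge_win_step hc)
    · rfl

/-- Number of jump instructions at `x` with index in `[a, b)`. -/
noncomputable def bridgeJ (τ : Stack d) (x : Site d) (a b : ℕ) : ℕ :=
  ((Finset.Ico a b).filter fun m => (τ (x, m)).1 = false).card

lemma bridgeJ_zero (τ : Stack d) (h : Site d → ℕ) (x : Site d) :
    bridgeJ τ x 0 (h x) = jumps τ h x := by
  unfold bridgeJ jumps
  rw [Finset.range_eq_Ico]

lemma bridgeJ_dep (V : Finset (Site d)) (n : ℕ) (s : State d) (τ τ' : Stack d)
    (hτ : ∀ c ∈ bridgeWin V s.2 n, τ c = τ' c) (x : Site d) :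
    bridgeJ τ x (s.2 x) ((run V τ n s).2 x) = bridgeJ τ' x (s.2 x) ((run V τ' n s).2 x) := by
  rw [← bridge_run_dep V n s τ τ' hτ]
  obtain ⟨_, h2, h3⟩ := bridge_counter V τ n s x
  unfold bridgeJ
  congr 1
  refine Finset.filter_congr fun m hm => ?_
  rw [Finset.mem_Ico] at hm
  by_cases hx : x ∈ V
  · rw [hτ (x, m) (mem_bridgeWin.2 ⟨hx, hm.1, by have := hm.2; simp only; omega⟩)]
  · rw [h3 hx] at hm; omega

lemma bridgeJ_succ (τ : Stack d) (x : Site d) {a b : ℕ} (h : a + 1 ≤ b) :
    bridgeJ τ x a b = (if (τ (x, a)).1 = false then 1 else 0) + bridgeJ τ x (a + 1) b := by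
  unfold bridgeJ
  rw [← Finset.insert_Ico_add_one_left_eq_Ico (by omega : a < b), Finset.filter_insert]
  split_ifs with e
  · rw [Finset.card_insert_of_notMem (by simp), add_comm]
  · simp

/-- Every function of the state after `n` steps is integrable (finitely many coordinates). -/
theorem integrable_run (hd : 1 ≤ d) {lam : ℝ} (hl : 0 < lam) (V : Finset (Site d)) (n : ℕ)
    (σ : Site d → Loc) (G : State d → (Site d → ℕ) → ℝ) :
    Measurable (fun τ => G (run V τ n (σ, fun _ => 0))
        (fun x => jumps τ (run V τ n (σ, fun _ => 0)).2 x)) ∧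
      Integrable (fun τ => G (run V τ n (σ, fun _ => 0))
        (fun x => jumps τ (run V τ n (σ, fun _ => 0)).2 x)) (stackLaw d lam) := by
  have := stackLaw_prob hd hl
  have hdep : DependsOn (fun τ => G (run V τ n (σ, fun _ => 0))
      (fun x => jumps τ (run V τ n (σ, fun _ => 0)).2 x))
      ((bridgeWin V (fun _ => 0) n : Finset (Site d × ℕ)) : Set (Site d × ℕ)) := fun τ τ' h => by
    have h1 := bridge_run_dep V n (σ, fun _ => 0) τ τ' h
    have h2 := bridgeJ_dep V n (σ, fun _ => 0) τ τ' h
    simp only [bridgeJ_zero] at h2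
    simp only [funext h2]
    rw [h1]
  exact ⟨bridge_meas _ hdep, bridge_int _ _ hdep⟩

/-- The payoff from a general state. -/
noncomputable def bridgePay (V : Finset (Site d)) (x : V) (t : ℝ) (ψ : (V → Loc) → ℝ) (n : ℕ)
    (s : State d) (τ : Stack d) : ℝ :=
  if ∀ y ∈ V, ¬ Act ((run V τ n s).1 y) then
    t ^ bridgeJ τ x (s.2 x) ((run V τ n s).2 x) * ψ (fun y => (run V τ n s).1 y)
  else 0

lemma bridgePay_dep (V : Finset (Site d)) (x : V) (t : ℝ) (ψ : (V → Loc) → ℝ) (n : ℕ)
    (s : State d) :
    DependsOn (bridgePay V x t ψ n s) ((bridgeWin V s.2 n : Finset _) : Set (Site d × ℕ)) :=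
  fun τ τ' h => by
    unfold bridgePay
    rw [bridgeJ_dep V n s τ τ' h x, bridge_run_dep V n s τ τ' h]

lemma bridgePay_stable (V : Finset (Site d)) (x : V) (t : ℝ) (ψ : (V → Loc) → ℝ) (n : ℕ)
    (s : State d) (τ : Stack d) (h : ¬ ∃ y : V, Act (s.1 y)) :
    bridgePay V x t ψ n s τ = ψ fun y => s.1 y := by
  have e : run V τ n s = s := by cases n <;> simp [run, h]
  unfold bridgePay
  rw [e, if_pos fun y hy hA => h ⟨⟨y, hy⟩, hA⟩]
  simp [bridgeJ]

lemma bridgePay_succ (V : Finset (Site d)) (x : V) (t : ℝ) (ψ : (V → Loc) → ℝ) (n : ℕ)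
    (s : State d) (τ : Stack d) (h : ∃ y : V, Act (s.1 y)) :
    bridgePay V x t ψ (n + 1) s τ =
      (if h.choose = x ∧ (τ ((h.choose : V), s.2 (h.choose : V))).1 = false then t else 1) *
        bridgePay V x t ψ n
          (bridgeTop V (τ ((h.choose : V), s.2 (h.choose : V))) (h.choose : V) s) τ := by
  have e : run V τ (n + 1) s = run V τ n
      (bridgeTop V (τ ((h.choose : V), s.2 (h.choose : V))) (h.choose : V) s) := by
    simp only [run, dif_pos h]; rfl
  generalize h.choose = y at e ⊢
  unfold bridgePay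
  rw [e]
  have hc := (bridge_counter V τ n (bridgeTop V (τ ((y : V), s.2 y)) y s) x).1
  split_ifs with h1 h2 h2
  · obtain ⟨rfl, h2⟩ := h2
    rw [bridgeTop_snd, Function.update_self] at hc ⊢
    rw [bridgeJ_succ τ _ hc, if_pos h2, pow_add]
    ring
  · by_cases e2 : y = x
    · subst e2
      rw [bridgeTop_snd, Function.update_self] at hc ⊢
      rw [bridgeJ_succ τ _ hc, if_neg fun h3 => h2 ⟨rfl, h3⟩]
      simp
    · rw [bridgeTop_snd, Function.update_of_ne fun h3 => e2 (Subtype.ext h3).symm, one_mul]
  · simp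
  · simp

lemma bridge_nbr_ne (x : Site d) (j : Fin d × Bool) : nbr x j ≠ x := by
  intro h
  have := congrFun h j.1
  simp only [nbr, Pi.add_apply, Pi.single_eq_same, add_eq_left] at this
  split_ifs at this
  all_goals simp at this

lemma bridgeTop_sleep (V : Finset (Site d)) (j : Fin d × Bool) (y : V) (s : State d) :
    (fun u : V => (bridgeTop V (true, j) y s).1 u) = slpAt (fun u : V => s.1 u) y := by
  funext u
  rw [slpAt_apply]
  simp only [bridgeTop, topple, if_true]
  by_cases e : u = y
  · subst e; simp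
  · rw [Function.update_of_ne fun h => e (Subtype.ext h), if_neg e]

lemma bridgeTop_jump (V : Finset (Site d)) (j : Fin d × Bool) (y : V) (s : State d) :
    (fun u : V => (bridgeTop V (false, j) y s).1 u) = jmp (fun u : V => s.1 u) y (tgt V y j) := by
  funext u
  rw [jmp_apply]
  simp only [bridgeTop, topple, Bool.false_eq_true, if_false, Finset.mem_coe]
  by_cases hn : nbr (y : Site d) j ∈ V
  · rw [if_pos hn, show tgt V y j = some ⟨nbr y j, hn⟩ from dif_pos hn]
    by_cases e : (u : Site d) = nbr y j
    · have e1 : (⟨nbr y j, hn⟩ : V) = u := Subtype.ext e.symm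
      have e2 : u ≠ y := fun h => bridge_nbr_ne y j (by rw [← e, h])
      rw [e1, if_pos rfl, if_neg e2, ← e, Function.update_self]
    · rw [Function.update_of_ne e, if_neg fun h => e (congrArg Subtype.val (Option.some.inj h)).symm]
      by_cases e2 : u = y
      · subst e2; simp
      · rw [Function.update_of_ne fun h => e2 (Subtype.ext h), if_neg e2]
  · rw [if_neg hn, show tgt V y j = none from dif_neg hn, if_neg (by simp)]
    by_cases e2 : u = y
    · subst e2; simp
    · rw [Function.update_of_ne fun h => e2 (Subtype.ext h), if_neg e2]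

lemma bridge_instr (hd : 1 ≤ d) {lam : ℝ} (hl : 0 < lam) (a : Instr d) :
    (instrLaw d lam).real {a} = (if a.1 then lam / (1 + lam) else 1 / (1 + lam)) / (2 * d) := by
  have hd' : (0 : ℝ) < d := by exact_mod_cast hd
  unfold instrLaw Measure.real
  rw [Measure.finsetSum_apply, Finset.sum_eq_single a]
  · simp only [Measure.smul_apply, Measure.dirac_apply_of_mem (Set.mem_singleton a), smul_eq_mul,
      mul_one]
    rw [ENNReal.toReal_ofReal]
    split_ifs <;> positivity
  · intro b _ hb
    simp [hb]
  · simp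

lemma bridge_integral (hd : 1 ≤ d) {lam : ℝ} (hl : 0 < lam) (V : Finset (Site d)) (x : V)
    (t : ℝ) (ψ : (V → Loc) → ℝ) (n : ℕ) : ∀ s : State d,
    ∫ τ, bridgePay V x t ψ n s τ ∂(stackLaw d lam)
      = Fn (scale (QV V) x t) (fun _ => lam / (1 + lam)) Set.univ ψ n (fun y => s.1 y) := by
  have := stackLaw_prob hd hl
  have := instrLaw_prob hd hl
  have hd' : (0 : ℝ) < d := by exact_mod_cast hd
  have hst : ∀ (n : ℕ) (s : State d), (¬ ∃ y : V, Act (s.1 y)) →
      ∫ τ, bridgePay V x t ψ n s τ ∂(stackLaw d lam)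
        = Fn (scale (QV V) x t) (fun _ => lam / (1 + lam)) Set.univ ψ n (fun y => s.1 y) := by
    intro n s h
    rw [Fn_stable n fun ⟨y, hy⟩ => h ⟨y, hy.2⟩]
    simp [bridgePay_stable V x t ψ n s _ h]
  induction n with
  | zero =>
    intro s
    by_cases h : ∃ y : V, Act (s.1 y)
    · obtain ⟨y, hy⟩ := h
      rw [Fn_zero_unst (S := Set.univ) (x := y) ⟨trivial, hy⟩]
      have : ∀ τ, bridgePay V x t ψ 0 s τ = 0 := fun τ => by
        unfold bridgePay
        rw [if_neg fun h => h y y.2 hy]
      simp [this]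
    · exact hst 0 s h
  | succ n ih =>
    intro s
    by_cases h : ∃ y : V, Act (s.1 y)
    · have hy := h.choose_spec
      simp_rw [bridgePay_succ V x t ψ n s _ h]
      generalize h.choose = y at hy ⊢
      rw [Fn_succ (S := Set.univ) (x := y) n ⟨trivial, hy⟩]
      have key := bridge_fresh (instrLaw d lam) (bridgeWin V (Function.update s.2 y (s.2 y + 1)) n)
        ((y : Site d), s.2 y) (by rw [mem_bridgeWin]; simp)
        (fun a τ => (if y = x ∧ a.1 = false then t else 1) *
          bridgePay V x t ψ n (bridgeTop V a y s) τ)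
        (fun a τ τ' hτ => by
          simp only
          rw [bridgePay_dep V x t ψ n (bridgeTop V a y s) hτ])
      refine key.trans ?_
      simp_rw [integral_const_mul]
      have e : ∀ a : Instr d, ∫ τ, bridgePay V x t ψ n (bridgeTop V a y s) τ
          ∂(Measure.infinitePi fun _ : Site d × ℕ => instrLaw d lam) = _ := fun a => ih _
      simp_rw [e, bridge_instr hd hl]
      rw [Fintype.sum_prod_type, Fintype.sum_bool]
      simp only [bridgeTop_sleep, bridgeTop_jump, if_true, Bool.true_eq_false, and_false, if_false,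
        Bool.false_eq_true, and_true, one_mul, Finset.sum_const, Finset.card_univ,
        Fintype.card_prod, Fintype.card_fin, Fintype.card_bool, nsmul_eq_mul]
      unfold Top
      have e2 : ∀ f : Option V → ℝ, ∑ z, scale (QV V) x t y z * f z
          = (if y = x then t else 1) * ((∑ j : Fin d × Bool, f (tgt V y j)) / (2 * d)) := by
        intro f
        rw [← QV_sum, Finset.mul_sum]
        refine Finset.sum_congr rfl fun z _ => ?_
        unfold scale
        split_ifs <;> ring
      rw [e2, ← Finset.mul_sum, ← Finset.mul_sum]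
      push_cast
      have : (1 + lam) ≠ 0 := by positivity
      field_simp
      ring
    · exact hst _ s h

/-- The bridge between stacks and value functions. -/
theorem integral_payoff (hd : 1 ≤ d) {lam : ℝ} (hl : 0 < lam) (V : Finset (Site d)) (x : V)
    (t : ℝ) (ψ : (V → Loc) → ℝ) (n : ℕ) (σ : Site d → Loc) :
    ∫ τ, payoff V x t ψ n σ τ ∂(stackLaw d lam)
      = Fn (scale (QV V) x t) (fun _ => lam / (1 + lam)) Set.univ ψ n (fun y => σ y) := by
  rw [← bridge_integral hd hl V x t ψ n (σ, fun _ => 0)]
  congr 1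
  funext τ
  unfold payoff bridgePay
  simp only [bridgeJ_zero]

lemma bridge_conf_stable (w : Finset (Site d)) (y : Site d) : ¬ Act (conf w y) := by
  rw [not_act_iff]
  unfold conf
  split_ifs <;> simp

theorem wired_eq (hd : 1 ≤ d) {lam : ℝ} (hl : 0 < lam) (V w w' : Finset (Site d)) (hw : w ⊆ V)
    (hw' : w' ⊆ V) (v : V) :
    wired lam V w v w' = Fv (QV V) (fun _ => lam / (1 + lam)) Set.univ
      (fun s => if s = (fun y : V => conf w' y) then 1 else 0)
      (put (fun y : V => conf w y) (some v)) := by
  have := stackLaw_prob hd hl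
  set σ : Site d → Loc := Function.update (conf w) v (add (conf w v)) with hσ
  set ψ : (V → Loc) → ℝ := fun s => if s = (fun y : V => conf w' y) then 1 else 0 with hψ
  set E : ℕ → Set (Stack d) := fun n => {τ | (run V τ n (σ, fun _ => 0)).1 = conf w'} with hE
  have hput : (fun y : V => σ y) = put (fun y : V => conf w y) (some v) := by
    funext u
    rw [put_apply, hσ]
    by_cases e : u = v
    · subst e; simp
    · rw [Function.update_of_ne fun h => e (Subtype.ext h),
        if_neg fun h => e (Option.some.inj h).symm]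
  have hpay : ∀ n τ, payoff V v 1 ψ n σ τ = (E n).indicator 1 τ := fun n τ => by
    unfold payoff
    by_cases h : τ ∈ E n
    · have h' : (run V τ n (σ, fun _ => 0)).1 = conf w' := h
      rw [Set.indicator_of_mem h, h', if_pos fun y _ => bridge_conf_stable w' y]
      simp [hψ]
    · rw [Set.indicator_of_notMem h]
      split_ifs with h1
      · rw [hψ]
        simp only [one_pow, one_mul]
        rw [if_neg]
        intro h2
        refine h (funext fun y => ?_)
        by_cases hy : y ∈ V
        · exact congrFun h2 ⟨y, hy⟩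
        · rw [run_outside V τ n _ y hy]
          simp only [hσ]
          rw [Function.update_of_ne fun h : y = v => hy (h ▸ v.2)]
          unfold conf
          rw [if_neg fun h => hy (hw h), if_neg fun h => hy (hw' h)]
      · rfl
  have hEm : ∀ n, MeasurableSet (E n) := fun n => by
    have := (integrable_run hd hl V n σ fun s _ => if s.1 = conf w' then (1 : ℝ) else 0).1
      (measurableSet_singleton 1)
    convert this using 1
    ext τ
    simp [hE]
  have hmono : Monotone E := fun n m hnm τ h => by
    have h' : (run V τ n (σ, fun _ => 0)).1 = conf w' := h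
    show (run V τ m (σ, fun _ => 0)).1 = conf w'
    rw [run_stable V τ hnm _ fun y _ => by rw [h']; exact bridge_conf_stable w' y, h']
  have hsc : scale (QV V) v 1 = QV V := by
    funext y z
    unfold scale
    split_ifs <;> simp
  have h1 : ∀ n, (stackLaw d lam).real (E n)
      = Fn (QV V) (fun _ => lam / (1 + lam)) Set.univ ψ n
        (put (fun y : V => conf w y) (some v)) := fun n => by
    rw [← hput, ← hsc, ← integral_payoff hd hl V v 1 ψ n σ]
    simp_rw [hpay]
    rw [integral_indicator_one (hEm n)]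
  have hok : Ok (QV V) (fun _ => lam / (1 + lam)) :=
    ⟨QV_nonneg V, fun _ => ⟨by positivity, by rw [div_lt_one (by positivity)]; linarith⟩⟩
  have h2 := Fn_tendsto (S := Set.univ) (ψ := ψ) hok (QV_sto hd V).sub
    (fun s => by simp only [hψ]; split_ifs <;> norm_num) (put (fun y : V => conf w y) (some v))
  have h3 : Tendsto (fun n => (stackLaw d lam).real (E n)) atTop
      (𝓝 ((stackLaw d lam).real (⋃ n, E n))) :=
    (ENNReal.tendsto_toReal (measure_ne_top _ _)).comp (tendsto_measure_iUnion_atTop hmono)
  have h4 : wired lam V w v w' = (stackLaw d lam).real (⋃ n, E n) := by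
    unfold wired
    congr 1
    ext τ
    simp only [Set.mem_ofPred_eq, Set.mem_iUnion, hE]
    exact reach_iff_run V τ _ _ fun y _ => bridge_conf_stable w' y
  rw [h4]
  exact tendsto_nhds_unique h3 (h2.congr fun n => (h1 n).symm)

theorem bnd_lower (hd : 1 ≤ d) {lam : ℝ} (hl : 0 < lam) (V : Finset (Site d)) (x : V)
    (W : Set (Site d)) (hW : W ⊆ V) {t : ℝ} (ht : 0 ≤ t ∧ t ≤ 1) (η : Site d → ℕ) (K : ℕ) :
    Fv (scale (QV V) x t) (fun _ => lam / (1 + lam)) Set.univ (fun _ => 1) (act V η)
      - t ^ (K + 1) ≤ (stackLaw d lam).real {τ | Bnd τ η W x K} := by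
  have := stackLaw_prob hd hl
  have hm : MeasurableSet {τ : Stack d | Bnd τ η W x K} :=
    measurable_prodMk_left (x := η) (measurableSet_bnd W x K)
  rw [sub_le_iff_le_add]
  refine Fv_le fun n => ?_
  have e := integral_payoff hd hl V x t (fun _ => 1) n (fun y => some (η y))
  have e' : (fun y : V => (fun y => some (η y) : Site d → Loc) y) = act V η := rfl
  rw [e'] at e
  rw [← e, ← integral_indicator_one hm]
  have hi : Integrable (fun τ => payoff V x t (fun _ => 1) n (fun y => some (η y)) τ)
      (stackLaw d lam) :=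
    (integrable_run hd hl V n (fun y => some (η y)) fun s J =>
      if ∀ y ∈ V, ¬ Act (s.1 y) then t ^ J x * 1 else 0).2
  have hi2 : Integrable ({τ : Stack d | Bnd τ η W x K}.indicator (1 : Stack d → ℝ))
      (stackLaw d lam) := (integrable_const 1).indicator hm
  have e3 : t ^ (K + 1) = ∫ _τ, t ^ (K + 1) ∂(stackLaw d lam) := by simp
  rw [e3, ← integral_add hi2 (integrable_const _)]
  refine integral_mono hi (hi2.add (integrable_const _)) fun τ => ?_
  have h0 : 0 ≤ t ^ (K + 1) := pow_nonneg ht.1 _
  have h1 : 0 ≤ {τ : Stack d | Bnd τ η W x K}.indicator (1 : Stack d → ℝ) τ :=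
    Set.indicator_nonneg (fun _ _ => zero_le_one) τ
  simp only [payoff]
  split_ifs with hs
  · rw [mul_one]
    by_cases hK : jumps τ (run V τ n (fun y => some (η y), fun _ => 0)).2 x ≤ K
    · have hB : τ ∈ {τ : Stack d | Bnd τ η W x K} := fun s hs' =>
        (jumps_mono τ (run_dominates V τ n _ hs W Set.univ hW (Set.subset_univ _) _ s
          (fun _ _ => ⟨rfl, rfl⟩) hs' x x.2)).trans hK
      rw [Set.indicator_of_mem hB]
      have := pow_le_one₀ (n := jumps τ (run V τ n (fun y => some (η y), fun _ => 0)).2 x)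
        ht.1 ht.2
      simp only [Pi.one_apply]
      linarith
    · have : _ ≤ t ^ (K + 1) := pow_le_pow_of_le_one ht.1 ht.2 (not_le.1 hK : K + 1 ≤ _)
      linarith
  · linarith

end Pool.Agent.ARW
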