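import Pool.Agent.P.MP_3af8b7_pr.Defs

/-!
Activated random walk in continuous time: generator, transition semigroup, the infinite system as
the local limit of finite systems, the threshold density and the wired chain.
-/

open MeasureTheory Filter Topology
open Classical

namespace Pool.Agent.ARW

/-- Number of active particles at a site. -/
def actv : Loc → ℕ
  | none => 0
  | some k => k

/-- State of the process: the configuration, and for each site the number of visits so far
(jumps of a particle onto the site). -/
abbrev CState (d : ℕ) := (Site d → Loc) × (Site d → ℕ)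

/-- An active particle jumps from `x` in direction `j`; it is deleted if it leaves `D`. -/
noncomputable def jump {d : ℕ} (D : Set (Site d)) (x : Site d) (j : Fin d × Bool) (s : CState d) :
    CState d :=
  if nbr x j ∈ D then
    (Function.update (Function.update s.1 x (rem (s.1 x))) (nbr x j) (add (s.1 (nbr x j))),
      Function.update s.2 (nbr x j) (s.2 (nbr x j) + 1))
  else (Function.update s.1 x (rem (s.1 x)), s.2)

/-- The particle at `x` falls asleep. -/
noncomputable def sleep {d : ℕ} (x : Site d) (s : CState d) : CState d :=
  (Function.update s.1 x none, s.2)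

/-- The generator: every active particle jumps at rate one to a uniform neighbour, and an active
particle that is alone on its site falls asleep at rate `lam`. -/
noncomputable def gen {d : ℕ} (lam : ℝ) (D : Set (Site d)) (f : CState d → ℝ) (s : CState d) : ℝ :=
  ∑ᶠ x : Site d, ((actv (s.1 x) : ℝ) * ∑ j : Fin d × Bool, (f (jump D x j s) - f s) / (2 * d) +
    if s.1 x = some 1 then lam * (f (sleep x s) - f s) else 0)

/-- The transition semigroup `exp (t gen)`: for a state `s` with finitely many particles and a
bounded `f`, this is the expectation of `f` at time `t` for the process started at `s`. -/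
noncomputable def semi {d : ℕ} (lam : ℝ) (D : Set (Site d)) (t : ℝ) (f : CState d → ℝ)
    (s : CState d) : ℝ :=
  ∑' n : ℕ, t ^ n / n.factorial * (gen lam D)^[n] f s

/-- `Λ` is the law of the total numbers of visits to the sites for the process on `ℤ^d` whose
initial configuration of active particles has law `μ`. The process at time `t` is the local limit,
as `V` increases to `ℤ^d`, of the processes started from the particles in `V`; `A t` is the
probability that each `x ∈ F` is visited at most `K x` times up to time `t`. -/
def VisitLaw {d : ℕ} (lam : ℝ) (μ : Measure (Site d → ℕ)) (Λ : Measure (Site d → ℕ∞)) : Prop :=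
  IsProbabilityMeasure Λ ∧ ∀ (F : Finset (Site d)) (K : Site d → ℕ), ∃ A : NNReal → ℝ,
    (∀ t : NNReal, Tendsto (fun V : Finset (Site d) => ∫ η, semi lam Set.univ t
      (fun s => if ∀ x ∈ F, s.2 x ≤ K x then 1 else 0)
      (fun y => some (if y ∈ V then η y else 0), fun _ => 0) ∂μ) atTop (𝓝 (A t))) ∧
    Tendsto A atTop (𝓝 (Λ.real {M | ∀ x ∈ F, M x ≤ K x}))

/-- `ζc` is the threshold density: started from a stationary ergodic configuration of active
particles, a.s. every site is visited finitely often if the mean is below `ζc`, and a.s. some site
is visited infinitely often if the mean is above `ζc`. -/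
def IsThresholdCT (d : ℕ) (lam ζc : ℝ) : Prop :=
  ∀ μ : Measure (Site d → ℕ), StatErg μ → Integrable (fun η => (η 0 : ℝ)) μ →
    ∀ Λ : Measure (Site d → ℕ∞), VisitLaw lam μ Λ →
      (∫ η, (η 0 : ℝ) ∂μ < ζc → ∀ᵐ M ∂Λ, ∀ x, M x < ⊤) ∧
      (ζc < ∫ η, (η 0 : ℝ) ∂μ → ∀ᵐ M ∂Λ, ¬ ∀ x, M x < ⊤)

/-- Probability that the process in `V` started from `w + δ_v` ends in the stable (absorbing)
configuration `w'`. -/
noncomputable def wiredCT {d : ℕ} (lam : ℝ) (V w : Finset (Site d)) (v : Site d)
    (w' : Finset (Site d)) : ℝ :=
  ⨆ t : NNReal, semi lam (V : Set (Site d)) t (fun s => if s.1 = conf w' then 1 else 0)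
    (Function.update (conf w) v (add (conf w v)), fun _ => 0)

/-- Law at time `k` of the wired chain on `V` with uniform driving, started empty:
`chainCT lam V k w = P(w_k = w)`. -/
noncomputable def chainCT {d : ℕ} (lam : ℝ) (V : Finset (Site d)) : ℕ → Finset (Site d) → ℝ
  | 0 => fun w' => if w' = ∅ then 1 else 0
  | k + 1 => fun w' =>
    ∑ w ∈ V.powerset, chainCT lam V k w * ((∑ v ∈ V, wiredCT lam V w v w') / V.card)

end Pool.Agent.ARW
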