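import Pool.Agent.P.MP_3af8b7_pr.CTVisit

/-! Existence and uniqueness of the law of the visits; the two thresholds agree. -/

open Classical Finset MeasureTheory Filter Topology

namespace Pool.Agent.ARW

variable {d : ℕ} {lam : ℝ}

lemma meas_enat {Ω : Type*} {m : MeasurableSpace Ω} {f : Ω → ℕ∞}
    (h : ∀ K : ℕ, MeasurableSet {ω | f ω ≤ K}) : Measurable f := by
  refine measurable_to_countable' fun a => ?_
  induction a using ENat.recTopCoe with
  | top =>
    have e : f ⁻¹' {⊤} = (⋃ K : ℕ, {ω | f ω ≤ K})ᶜ := by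
      ext ω
      simp only [Set.mem_preimage, Set.mem_singleton_iff, Set.mem_compl_iff, Set.mem_iUnion,
        Set.mem_ofPred_eq, not_exists]
      induction f ω using ENat.recTopCoe with
      | top => simp
      | coe k => exact ⟨fun e => absurd e (ENat.natCast_ne_top k), fun e => absurd le_rfl (e k)⟩
    rw [e]
    exact (MeasurableSet.iUnion h).compl
  | coe k =>
    have e : f ⁻¹' {(k : ℕ∞)} = {ω | f ω ≤ k} \ ⋃ j : Fin k, {ω | f ω ≤ (j : ℕ)} := by
      ext ω
      simp only [Set.mem_preimage, Set.mem_singleton_iff, Set.mem_sdiff, Set.mem_iUnion,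
        Set.mem_ofPred_eq, not_exists]
      induction f ω using ENat.recTopCoe with
      | top => simp
      | coe n =>
        simp only [Nat.cast_inj, Nat.cast_le]
        refine ⟨fun e => ⟨e.le, fun j => by have := j.2; omega⟩, fun e => ?_⟩
        by_contra hc
        exact e.2 ⟨n, by omega⟩ le_rfl
    rw [e]
    exact (h k).diff (MeasurableSet.iUnion fun j => h j)

lemma measurableSet_cyl (F : Finset (Site d)) (K : Site d → ℕ) :
    MeasurableSet {M : Site d → ℕ∞ | ∀ x ∈ F, M x ≤ K x} := by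
  have e : {M : Site d → ℕ∞ | ∀ x ∈ F, M x ≤ K x} =
      ⋂ x ∈ F, (fun M : Site d → ℕ∞ => M x) ⁻¹' {a | a ≤ K x} := by
    ext M
    simp
  rw [e]
  exact F.measurableSet_biInter fun x _ => measurable_pi_apply x MeasurableSet.of_discrete

/-- A law on visit numbers is determined by its distribution function. -/
lemma law_ext {Λ Λ' : Measure (Site d → ℕ∞)} [IsProbabilityMeasure Λ] [IsProbabilityMeasure Λ']
    (h : ∀ (F : Finset (Site d)) (K : Site d → ℕ),
      Λ.real {M | ∀ x ∈ F, M x ≤ K x} = Λ'.real {M | ∀ x ∈ F, M x ≤ K x}) : Λ = Λ' := by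
  refine ext_of_generate_finite
    {S | ∃ (F : Finset (Site d)) (K : Site d → ℕ), S = {M : Site d → ℕ∞ | ∀ x ∈ F, M x ≤ K x}}
    ?_ ?_ ?_ (by simp)
  · refine le_antisymm (iSup_le fun x => Measurable.comap_le (meas_enat fun k => ?_))
      (MeasurableSpace.generateFrom_le ?_)
    · refine MeasurableSpace.measurableSet_generateFrom ⟨{x}, fun _ => k, ?_⟩
      ext M
      simp
    · rintro _ ⟨F, K, rfl⟩
      exact measurableSet_cyl F K
  · rintro _ ⟨F, K, rfl⟩ _ ⟨F', K', rfl⟩ -
    refine ⟨F ∪ F', fun x => if x ∈ F then (if x ∈ F' then min (K x) (K' x) else K x) else K' x,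
      ?_⟩
    ext M
    simp only [Set.mem_inter_iff, Set.mem_ofPred_eq, mem_union]
    constructor
    · rintro ⟨h1, h2⟩ x hx
      split_ifs with a b
      · rcases le_total (K x) (K' x) with k | k
        · rw [min_eq_left k]
          exact h1 x a
        · rw [min_eq_right k]
          exact h2 x b
      · exact h1 x a
      · exact h2 x (hx.resolve_left a)
    · intro h1
      constructor
      · intro x hx
        have h2 := h1 x (Or.inl hx)
        rw [if_pos hx] at h2
        split_ifs at h2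
        · exact h2.trans (Nat.cast_le.2 (min_le_left _ _))
        · exact h2
      · intro x hx
        have h2 := h1 x (Or.inr hx)
        rw [if_pos hx] at h2
        split_ifs at h2
        · exact h2.trans (Nat.cast_le.2 (min_le_right _ _))
        · exact h2
  · rintro _ ⟨F, K, rfl⟩
    exact (measureReal_eq_measureReal_iff (measure_ne_top _ _) (measure_ne_top _ _)).1 (h F K)

theorem visitLaw_unique {μ : Measure (Site d → ℕ)} {Λ Λ' : Measure (Site d → ℕ∞)}
    (h : VisitLaw lam μ Λ) (h' : VisitLaw lam μ Λ') : Λ = Λ' := by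
  have := h.1
  have := h'.1
  refine law_ext fun F K => ?_
  obtain ⟨A, h1, h2⟩ := h.2 F K
  obtain ⟨A', h1', h2'⟩ := h'.2 F K
  have e : A = A' := funext fun t => tendsto_nhds_unique (h1 t) (h1' t)
  rw [e] at h2
  exact tendsto_nhds_unique h2 h2'

/-- The supremum of the numbers of visits over legal toppling sequences. -/
noncomputable def Mv (p : (Site d → ℕ) × Stack d) (x : Site d) : ℕ∞ :=
  ⨆ s : {s : State d // Reach Set.univ p.2 (st0 p.1) s}, (visits p.2 s.1.2 x : ℕ∞)

lemma Mv_le (p : (Site d → ℕ) × Stack d) (x : Site d) (K : ℕ) :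
    Mv p x ≤ K ↔ ∀ s, Reach Set.univ p.2 (st0 p.1) s → visits p.2 s.2 x ≤ K := by
  simp [Mv]

lemma stabilizes_iff_Mv (p : (Site d → ℕ) × Stack d) : Stabilizes p.2 p.1 ↔ ∀ x, Mv p x < ⊤ := by
  refine forall_congr' fun x =>
    ⟨fun ⟨K, hK⟩ => ((Mv_le p x K).2 hK).trans_lt (ENat.natCast_lt_top K), fun h => ?_⟩
  obtain ⟨K, hK⟩ := ENat.ne_top_iff_exists.1 h.ne
  exact ⟨K, (Mv_le p x K).1 hK.ge⟩

/-- Extension by zero. -/
noncomputable def ext0 (V : Finset (Site d)) (ξ : V → ℕ) : Site d → ℕ :=
  fun y => if h : y ∈ V then ξ ⟨y, h⟩ else 0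

lemma ext0_eq (V : Finset (Site d)) (η : Site d → ℕ) : ext0 V (fun y => η y) = cut V η := by
  funext y
  unfold ext0 cut
  split_ifs <;> rfl

lemma meas_cut (V : Finset (Site d)) (G : (Site d → ℕ) → ℝ) : Measurable fun η => G (cut V η) := by
  have h1 : Measurable fun ξ : V → ℕ => G (ext0 V ξ) := Measurable.of_discrete
  have h2 : Measurable fun (η : Site d → ℕ) (y : V) => η y := by fun_prop
  simpa only [Function.comp_def, ext0_eq] using h1.comp h2

/-- The event that the particles in `V` respect the bounds. -/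
def EV (F : Finset (Site d)) (K : Site d → ℕ) (V : Finset (Site d)) :
    Set ((Site d → ℕ) × Stack d) := {p | p.2 ∈ BV F K (cut V p.1)}

lemma measurableSet_EV (hd : 1 ≤ d) (hl : 0 < lam) (F : Finset (Site d)) (K : Site d → ℕ)
    (V : Finset (Site d)) : MeasurableSet (EV F K V) := by
  have h1 : Measurable fun p : (V → ℕ) × Stack d => p.2 ∈ BV F K (ext0 V p.1) := by
    refine measurable_from_prod_countable_right fun ξ => ?_
    have e : cut V (ext0 V ξ) = ext0 V ξ := by
      funext y
      unfold ext0 cut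
      split_ifs with h
      · simp only [dif_pos h]
      · rfl
    have h2 := (aV_spec hd hl F K V (ext0 V ξ)).1
    rw [e] at h2
    exact h2.mem
  have h2 : Measurable fun p : (Site d → ℕ) × Stack d => ((fun y : V => p.1 y), p.2) := by
    fun_prop
  have h3 := h1.comp h2
  simp only [Function.comp_def, ext0_eq] at h3
  exact h3.setOf

lemma EV_anti (F : Finset (Site d)) (K : Site d → ℕ) : Antitone (EV F K) := by
  intro V V' h p hp s hs x hx
  obtain ⟨s', h1, h2⟩ := reach_up (η' := cut V' p.1) (fun y => by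
    unfold cut
    split_ifs with h1 h2
    · exact le_rfl
    · exact absurd (h h1) h2
    · exact Nat.zero_le _
    · exact le_rfl) hs
  rw [← h2]
  exact hp s' h1 x hx

lemma iInter_EV (F : Finset (Site d)) (K : Site d → ℕ) :
    ⋂ V, EV F K V = {p | ∀ x ∈ F, Mv p x ≤ K x} := by
  ext p
  simp only [Set.mem_iInter, Set.mem_ofPred_eq, Mv_le]
  constructor
  · intro h x hx s hs
    obtain ⟨V, hV⟩ := reach_down hs
    obtain ⟨s', h1, h2⟩ := hV V Subset.rfl
    rw [← h2]
    exact h V s' h1 x hx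
  · intro h V s hs x hx
    obtain ⟨s', h1, h2⟩ := reach_up (η' := p.1) (fun y => by
      unfold cut
      split_ifs
      · exact le_rfl
      · exact Nat.zero_le _) hs
    rw [← h2]
    exact h x hx s' h1

lemma measurable_Mv (hd : 1 ≤ d) (hl : 0 < lam) :
    Measurable (Mv : (Site d → ℕ) × Stack d → Site d → ℕ∞) := by
  refine measurable_pi_lambda _ fun x => meas_enat fun K => ?_
  have h1 := MeasurableSet.iInter (measurableSet_EV hd hl {x} fun _ => K)
  rw [iInter_EV] at h1
  simpa using h1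

theorem visitLaw_Mv (hd : 1 ≤ d) (hl : 0 < lam) (μ : Measure (Site d → ℕ))
    [IsProbabilityMeasure μ] : VisitLaw lam μ ((μ.prod (stackLaw d lam)).map Mv) := by
  have hp := stackLaw_prob hd hl
  have hM := measurable_Mv hd hl
  refine ⟨Measure.isProbabilityMeasure_map hM.aemeasurable, fun F K => ?_⟩
  obtain ⟨a, ha⟩ : ∃ a : NNReal → Finset (Site d) → ℝ,
      a = fun t V => ∫ η, aV lam F K t V η ∂μ := ⟨_, rfl⟩
  obtain ⟨g, hg⟩ : ∃ g : Finset (Site d) → ℝ,
      g = fun V => (μ.prod (stackLaw d lam)).real (EV F K V) := ⟨_, rfl⟩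
  have m1 : ∀ t V, Measurable (aV lam F K t V) := fun t V =>
    meas_cut V fun ξ => semi lam Set.univ t (phiV F K) (st0 ξ)
  have m2 : ∀ V, Measurable fun η => (stackLaw d lam).real (BV F K (cut V η)) := fun V =>
    meas_cut V fun ξ => (stackLaw d lam).real (BV F K ξ)
  have b1 : ∀ t V η, ‖aV lam F K t V η‖ ≤ 1 := fun t V η => by
    have h1 := (aV_spec hd hl F K V η).2.2 t
    rw [Real.norm_eq_abs, abs_of_nonneg (measureReal_nonneg.trans h1.1)]
    exact h1.2
  have i1 : ∀ t V, Integrable (aV lam F K t V) μ := fun t V =>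
    Integrable.of_bound (m1 t V).aestronglyMeasurable 1 (ae_of_all _ (b1 t V))
  have i2 : ∀ V, Integrable (fun η => (stackLaw d lam).real (BV F K (cut V η))) μ := fun V =>
    Integrable.of_bound (m2 V).aestronglyMeasurable 1 (ae_of_all _ fun η => by
      rw [Real.norm_eq_abs, abs_of_nonneg measureReal_nonneg]
      exact measureReal_le_one)
  have e1 : ∀ V, g V = ∫ η, (stackLaw d lam).real (BV F K (cut V η)) ∂μ := fun V => by
    have hE := measurableSet_EV hd hl F K V
    rw [hg]
    simp only [measureReal_def]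
    rw [Measure.prod_apply hE, ← integral_toReal (measurable_measure_prodMk_left hE).aemeasurable
      (ae_of_all _ fun η => measure_lt_top _ _)]
    rfl
  have h1 : ∀ t V, g V ≤ a t V := fun t V => by
    rw [e1, ha]
    exact integral_mono (i2 V) (i1 t V) fun η => ((aV_spec hd hl F K V η).2.2 t).1
  have h2 : ∀ t, Antitone (a t) := fun t V V' h => by
    rw [ha]
    exact integral_mono (i1 t V') (i1 t V) fun η => aV_anti hd hl F K t h η
  have h3 : ∀ V, Tendsto (fun t => a t V) atTop (𝓝 (g V)) := fun V => by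
    rw [e1, ha]
    exact tendsto_integral_filter_of_dominated_convergence (fun _ => 1)
      (Eventually.of_forall fun t => (m1 t V).aestronglyMeasurable)
      (Eventually.of_forall fun t => ae_of_all _ (b1 t V)) (integrable_const _)
      (ae_of_all _ fun η => (aV_spec hd hl F K V η).2.1)
  have h4 : Tendsto g atTop
      (𝓝 (((μ.prod (stackLaw d lam)).map Mv).real {M | ∀ x ∈ F, M x ≤ K x})) := by
    have h5 := tendsto_measure_iInter_atTop (μ := μ.prod (stackLaw d lam))
      (fun V => (measurableSet_EV hd hl F K V).nullMeasurableSet) (EV_anti F K)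
      ⟨∅, measure_ne_top _ _⟩
    rw [iInter_EV] at h5
    rw [map_measureReal_apply hM (measurableSet_cyl F K), hg]
    exact (ENNReal.tendsto_toReal (measure_ne_top _ _)).comp h5
  have h5 : ∀ t, BddBelow (Set.range (a t)) := fun t =>
    ⟨0, Set.forall_mem_range.2 fun V => le_trans (by rw [hg]; exact measureReal_nonneg) (h1 t V)⟩
  refine ⟨fun t => ⨅ V, a t V, fun t => ?_, tendsto_order.2 ⟨fun b hb => ?_, fun b hb => ?_⟩⟩
  · have h6 := tendsto_atTop_ciInf (h2 t) (h5 t)
    rw [ha] at h6
    rw [ha]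
    refine h6.congr fun V => ?_
    unfold aV phiV st0 cut
    rfl
  · exact Eventually.of_forall fun t => hb.trans_le
      (le_of_tendsto_of_tendsto' h4 (tendsto_atTop_ciInf (h2 t) (h5 t)) (h1 t))
  · obtain ⟨V, hV⟩ := (h4.eventually (gt_mem_nhds hb)).exists
    filter_upwards [(h3 V).eventually (gt_mem_nhds hV)] with t ht
    exact (ciInf_le (h5 t) V).trans_lt ht

theorem thresholdCT_iff (hd : 1 ≤ d) (hl : 0 < lam) (ζ : ℝ) :
    IsThresholdCT d lam ζ ↔ IsThreshold d lam ζ := by
  have hS : MeasurableSet {M : Site d → ℕ∞ | ∀ x, M x < ⊤} := by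
    have e : {M : Site d → ℕ∞ | ∀ x, M x < ⊤} =
        ⋂ x, (fun M : Site d → ℕ∞ => M x) ⁻¹' {a | a < ⊤} := by
      ext M
      simp
    rw [e]
    exact MeasurableSet.iInter fun x => measurable_pi_apply x MeasurableSet.of_discrete
  refine forall_congr' fun μ => forall_congr' fun hμ => forall_congr' fun _ => ?_
  have := hμ.1
  have hL := visitLaw_Mv hd hl μ
  have e1 : (∀ᵐ M ∂((μ.prod (stackLaw d lam)).map Mv), ∀ x, M x < ⊤) ↔
      ∀ᵐ p ∂(μ.prod (stackLaw d lam)), Stabilizes p.2 p.1 := by
    rw [ae_map_iff (measurable_Mv hd hl).aemeasurable hS]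
    simp only [stabilizes_iff_Mv]
  have e2 : (∀ᵐ M ∂((μ.prod (stackLaw d lam)).map Mv), ¬ ∀ x, M x < ⊤) ↔
      ∀ᵐ p ∂(μ.prod (stackLaw d lam)), ¬ Stabilizes p.2 p.1 := by
    rw [ae_map_iff (p := fun M => ¬ ∀ x, M x < ⊤) (measurable_Mv hd hl).aemeasurable hS.compl]
    simp only [stabilizes_iff_Mv]
  rw [← e1, ← e2]
  exact ⟨fun h => h _ hL, fun h Λ hΛ => visitLaw_unique hL hΛ ▸ h⟩

end Pool.Agent.ARW
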