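import Pool.Agent.P.MP_3af8b7_pr.Path
import Pool.Agent.P.MP_3af8b7_pr.CTDefs

/-! Deterministic facts on legal toppling sequences: local formula and monotonicity. -/

open Classical Finset

namespace Pool.Agent.ARW

variable {d : ℕ}

/-- The initial state with active particles `η`. -/
abbrev st0 (η : Site d → ℕ) : State d := (fun y => some (η y), fun _ => 0)

/-- The particles of `η` in `V`. -/
noncomputable def cut (V : Finset (Site d)) (η : Site d → ℕ) : Site d → ℕ :=
  fun y => if y ∈ V then η y else 0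

lemma visits_zero (τ : Stack d) (x : Site d) : visits τ (fun _ => 0) x = 0 := by
  simp [visits]

lemma visits_mono (τ : Stack d) {h h' : Site d → ℕ} (hh : ∀ y, h y ≤ h' y) (x : Site d) :
    visits τ h x ≤ visits τ h' x :=
  sum_le_sum fun _ _ => card_le_card (filter_subset_filter _ (range_subset_range.2 (hh _)))

lemma visits_update (τ : Stack d) (h : Site d → ℕ) (x y : Site d) :
    visits τ (Function.update h x (h x + 1)) y = visits τ h y +
      if (τ (x, h x)).1 = false ∧ y = nbr x (τ (x, h x)).2 then 1 else 0 := by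
  have e : ∀ j, y - nbr 0 j = x ↔ y = nbr x j := fun j => by
    simp [nbr, sub_eq_iff_eq_add]
  have h1 : (if (τ (x, h x)).1 = false ∧ y = nbr x (τ (x, h x)).2 then 1 else 0) =
      ∑ j : Fin d × Bool, if y = nbr x j ∧ τ (x, h x) = (false, j) then 1 else 0 := by
    rw [sum_eq_single (τ (x, h x)).2]
    · refine if_congr ⟨fun k => ⟨k.2, Prod.ext k.1 rfl⟩, fun k => ⟨?_, k.1⟩⟩ rfl rfl
      rw [k.2]
    · intro j _ hj
      exact if_neg fun k => hj (by rw [k.2])
    · simp
  rw [h1, visits, visits, ← sum_add_distrib]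
  refine sum_congr rfl fun j _ => ?_
  by_cases hj : y = nbr x j
  · rw [(e j).2 hj, Function.update_self, range_add_one, filter_insert]
    by_cases h2 : τ (x, h x) = (false, j)
    · rw [if_pos h2, if_pos ⟨hj, h2⟩]
      exact card_insert_of_notMem (by simp)
    · rw [if_neg h2, if_neg fun k => h2 k.2, add_zero]
  · rw [Function.update_of_ne (mt (e j).1 hj), if_neg fun k => hj k.1, add_zero]

lemma topple_snd (D : Set (Site d)) (τ : Stack d) (x : Site d) (s : State d) :
    (topple D τ x s).2 = Function.update s.2 x (s.2 x + 1) := rfl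

/-- Content of `x` after `n` instructions at `x` when `m` particles are there from the start. -/
def locF (τ : Stack d) (x : Site d) : ℕ → ℕ → Loc
  | 0, m => some m
  | n + 1, m => if (τ (x, n)).1 then slp (locF τ x n m) else rem (locF τ x n m)

/-- All these instructions are legal. -/
def locL (τ : Stack d) (x : Site d) (n m : ℕ) : Prop := ∀ i < n, Act (locF τ x i m)

lemma locF_succ {τ : Stack d} {x : Site d} {m : ℕ} : ∀ {n : ℕ}, locL τ x n m →
    locF τ x n (m + 1) = add (locF τ x n m)
  | 0, _ => rfl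
  | n + 1, h => by
    have ih : locF τ x n (m + 1) = add (locF τ x n m) :=
      locF_succ fun i hi => h i (Nat.lt_succ_of_lt hi)
    have ha := h n (Nat.lt_succ_self n)
    simp only [locF, ih]
    split_ifs
    · rw [ha.slp_add, ha.add_slp]
    · rw [ha.rem_add_comm]

lemma locL_succ {τ : Stack d} {x : Site d} {n m : ℕ} (h : locL τ x n m) : locL τ x n (m + 1) :=
  fun i hi => by
    rw [locF_succ fun k hk => h k (hk.trans hi)]
    exact act_add _

lemma code_le_add (a : Loc) : pathCode a ≤ pathCode (add a) := by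
  rcases a with _ | _ | a <;> simp [pathCode, add]

lemma locF_mono {τ : Stack d} {x : Site d} {n m m' : ℕ} (h : locL τ x n m) (hm : m ≤ m') :
    locL τ x n m' ∧ pathCode (locF τ x n m) ≤ pathCode (locF τ x n m') := by
  induction hm with
  | refl => exact ⟨h, le_rfl⟩
  | step _ ih =>
    refine ⟨locL_succ ih.1, ih.2.trans ?_⟩
    rw [locF_succ ih.1]
    exact code_le_add _

/-- The content of a site is determined by the numbers of instructions used. -/
theorem reach_loc {τ : Stack d} {η : Site d → ℕ} {s : State d}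
    (hs : Reach Set.univ τ (st0 η) s) (x : Site d) :
    s.1 x = locF τ x (s.2 x) (η x + visits τ s.2 x) ∧
      locL τ x (s.2 x) (η x + visits τ s.2 x) := by
  induction hs with
  | refl =>
    rw [visits_zero]
    exact ⟨rfl, fun i hi => absurd hi (Nat.not_lt_zero i)⟩
  | @tail s s' _ hb ih =>
    obtain ⟨y, -, ha, rfl⟩ := hb
    rw [path_fst, path_snd, topple_snd, visits_update]
    by_cases h : x = y
    · subst h
      have h0 : ¬ ((τ (x, s.2 x)).1 = false ∧ x = nbr x (τ (x, s.2 x)).2) :=
        fun k => path_nbr_ne _ _ k.2.symm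
      rw [if_pos rfl, if_pos rfl, if_neg h0, add_zero]
      refine ⟨by rw [locF, ← ih.1], fun i hi => ?_⟩
      rcases Nat.lt_succ_iff_lt_or_eq.1 hi with h | h
      · exact ih.2 i h
      · rw [h, ← ih.1]
        exact ha
    · rw [if_neg h, if_neg h]
      by_cases h2 : (τ (y, s.2 y)).1 = false ∧ x = nbr y (τ (y, s.2 y)).2
      · rw [if_pos h2, if_pos ⟨h2.1, h2.2, Set.mem_univ _⟩, ← add_assoc, locF_succ ih.2, ← ih.1]
        exact ⟨rfl, locL_succ ih.2⟩
      · rw [if_neg h2, if_neg fun k => h2 ⟨k.1, k.2.1⟩, add_zero]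
        exact ih

theorem reach_code {τ : Stack d} {η η' : Site d → ℕ} {s s' : State d}
    (hs : Reach Set.univ τ (st0 η) s) (hs' : Reach Set.univ τ (st0 η') s') {x : Site d}
    (hη : η x ≤ η' x) (hh : ∀ y, s.2 y ≤ s'.2 y) (hx : s.2 x = s'.2 x) :
    pathCode (s.1 x) ≤ pathCode (s'.1 x) := by
  rw [(reach_loc hs x).1, (reach_loc hs' x).1, ← hx]
  exact (locF_mono (reach_loc hs x).2 (add_le_add hη (visits_mono τ hh x))).2

lemma actv_le_of_code {a b : Loc} (h : pathCode a ≤ pathCode b) : actv a ≤ actv b := by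
  rcases a with _ | _ | a <;> rcases b with _ | _ | b <;> simp [pathCode, actv] at h ⊢
  exact h

lemma actv_of_not_act {a : Loc} (h : ¬ Act a) : actv a = 0 := by
  rcases not_act_iff.1 h with rfl | rfl <;> rfl

lemma one_le_actv {a : Loc} (h : Act a) : 1 ≤ actv a := by
  obtain ⟨k, rfl⟩ := h
  exact Nat.succ_le_succ (Nat.zero_le k)

lemma actv_le_cnt (a : Loc) : actv a ≤ cnt a := by
  rcases a with _ | a <;> simp [actv, cnt]

theorem reach_deficit {τ : Stack d} {η : Site d → ℕ} {f s : State d}
    (hf : Reach Set.univ τ (st0 η) f) (hs : Reach Set.univ τ (st0 η) s)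
    (h : ¬ ∀ y, f.2 y ≤ s.2 y) : ∃ x, s.2 x < f.2 x ∧ Act (s.1 x) := by
  induction hf with
  | refl => exact absurd (fun y => Nat.zero_le _) h
  | @tail f f' hf hb ih =>
    obtain ⟨y, -, ha, rfl⟩ := hb
    by_cases h1 : ∀ y, f.2 y ≤ s.2 y
    · obtain ⟨z, hz⟩ := not_forall.1 h
      rw [path_snd] at hz
      have h2 := h1 z
      split_ifs at hz with h3
      · subst h3
        refine ⟨z, ?_, path_code_act (reach_code hf hs le_rfl h1 (by omega)) ha⟩
        rw [path_snd, if_pos rfl]
        omega
      · exact absurd h2 hz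
    · obtain ⟨x, hx, hx'⟩ := ih h1
      refine ⟨x, ?_, hx'⟩
      rw [path_snd]
      split_ifs <;> omega

theorem reach_fin {D : Set (Site d)} {τ : Stack d} {σ : Site d → Loc} {f : State d}
    (hf : Reach D τ (σ, fun _ => 0) f) : ∃ T : Finset (Site d), ∀ y ∉ T, f.2 y = 0 := by
  induction hf with
  | refl => exact ⟨∅, fun _ _ => rfl⟩
  | tail _ hb ih =>
    obtain ⟨y, -, -, rfl⟩ := hb
    obtain ⟨T, hT⟩ := ih
    refine ⟨insert y T, fun z hz => ?_⟩
    rw [mem_insert, not_or] at hz
    rw [path_snd, if_neg hz.1, hT z hz.2]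

theorem reach_up {τ : Stack d} {η η' : Site d → ℕ} (hη : ∀ y, η y ≤ η' y) {s : State d}
    (hs : Reach Set.univ τ (st0 η) s) : ∃ s', Reach Set.univ τ (st0 η') s' ∧ s'.2 = s.2 := by
  induction hs with
  | refl => exact ⟨_, Relation.ReflTransGen.refl, rfl⟩
  | tail hs hb ih =>
    obtain ⟨y, -, ha, rfl⟩ := hb
    obtain ⟨s', h1, h2⟩ := ih
    refine ⟨_, h1.tail ⟨y, Set.mem_univ _, path_code_act
      (reach_code hs h1 (hη y) (fun z => by rw [h2]) (by rw [h2])) ha, rfl⟩, ?_⟩
    rw [topple_snd, topple_snd, h2]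

theorem reach_down {τ : Stack d} {η : Site d → ℕ} {s : State d}
    (hs : Reach Set.univ τ (st0 η) s) : ∃ V₀ : Finset (Site d), ∀ V, V₀ ⊆ V →
      ∃ s', Reach Set.univ τ (st0 (cut V η)) s' ∧ s'.2 = s.2 := by
  induction hs with
  | refl => exact ⟨∅, fun _ _ => ⟨_, Relation.ReflTransGen.refl, rfl⟩⟩
  | tail hs hb ih =>
    obtain ⟨y, -, ha, rfl⟩ := hb
    obtain ⟨V₀, h0⟩ := ih
    refine ⟨insert y V₀, fun V hV => ?_⟩
    obtain ⟨s', h1, h2⟩ := h0 V ((subset_insert _ _).trans hV)
    have h3 : η y ≤ cut V η y := by rw [cut, if_pos (hV (mem_insert_self _ _))]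
    refine ⟨_, h1.tail ⟨y, Set.mem_univ _, path_code_act
      (reach_code hs h1 h3 (fun z => by rw [h2]) (by rw [h2])) ha, rfl⟩, ?_⟩
    rw [topple_snd, topple_snd, h2]

/-- At most `n` particles. -/
def Small (n : ℕ) (σ : Site d → Loc) : Prop := ∀ T : Finset (Site d), ∑ x ∈ T, cnt (σ x) ≤ n

lemma Small.finite {n : ℕ} {σ : Site d → Loc} (h : Small n σ) : {x | Act (σ x)}.Finite := by
  by_contra hc
  obtain ⟨T, hT, hn⟩ := Set.Infinite.exists_subset_card_eq hc (n + 1)
  have h1 : ∑ _x ∈ T, 1 ≤ ∑ x ∈ T, cnt (σ x) :=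
    sum_le_sum fun x hx => (one_le_actv (hT hx)).trans (actv_le_cnt _)
  have h2 := h T
  rw [sum_const, hn, smul_eq_mul, mul_one] at h1
  omega

/-- The sites that hold an active particle. -/
noncomputable def supA (σ : Site d → Loc) : Finset (Site d) :=
  if h : {x | Act (σ x)}.Finite then h.toFinset else ∅

lemma act_of_mem_supA {σ : Site d → Loc} {x : Site d} (h : x ∈ supA σ) : Act (σ x) := by
  unfold supA at h
  split_ifs at h with h1
  · simpa using h
  · simp at h

lemma Small.mem_supA {n : ℕ} {σ : Site d → Loc} (h : Small n σ) {x : Site d} (hx : Act (σ x)) :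
    x ∈ supA σ := by
  rw [supA, dif_pos h.finite]
  simpa using hx

lemma Small.topple {n : ℕ} {s : State d} (h : Small n s.1) (D : Set (Site d)) (τ : Stack d)
    {x : Site d} (hx : Act (s.1 x)) : Small n (topple D τ x s).1 := by
  intro T
  refine (sum_le_sum_of_subset (subset_insert x T)).trans (le_trans ?_ (h (insert x T)))
  by_cases h1 : (τ (x, s.2 x)).1 = true
  · refine sum_le_sum fun y _ => ?_
    rw [path_fst, if_pos h1, if_neg (show ¬ ((τ (x, s.2 x)).1 = false ∧ _) by simp [h1])]
    split_ifs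
    · rw [cnt_slp]
    · exact le_rfl
  · have h2 : ∀ y ∈ insert x T, cnt ((ARW.topple D τ x s).1 y) + (if y = x then 1 else 0) ≤
        cnt (s.1 y) + if y = nbr x (τ (x, s.2 x)).2 then 1 else 0 := fun y _ => by
      rw [path_fst, if_neg h1]
      by_cases h3 : y = x
      · rw [if_pos h3, if_pos h3, h3, hx.cnt_rem]
        exact Nat.le_add_right _ _
      · rw [if_neg h3, if_neg h3, add_zero]
        split_ifs with h4 h5 h5
        · rw [cnt_add]
        · exact absurd h4.2.1 h5
        · exact Nat.le_add_right _ _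
        · exact le_rfl
    have h3 := sum_le_sum h2
    rw [sum_add_distrib, sum_add_distrib, sum_ite_eq', sum_ite_eq',
      if_pos (mem_insert_self _ _)] at h3
    split_ifs at h3 <;> omega

lemma small_of_supp {V : Finset (Site d)} {σ : Site d → Loc} (h : ∀ y ∉ V, σ y = some 0) :
    Small (∑ y ∈ V, cnt (σ y)) σ := fun T => by
  refine (sum_le_sum_of_subset (subset_union_left (s₂ := V))).trans (le_of_eq ?_)
  refine (sum_subset subset_union_right fun y _ hy => ?_).symm
  rw [h y hy]
  rfl

lemma small_cut {V V' : Finset (Site d)} (h : V ⊆ V') (η : Site d → ℕ) :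
    Small (∑ y ∈ V', η y) (st0 (cut V η)).1 := fun T =>
  (small_of_supp (V := V') (fun y hy => by
    show some (cut V η y) = some 0
    rw [cut, if_neg fun k => hy (h k)]) T).trans (sum_le_sum fun y _ => by
    show cut V η y ≤ η y
    rw [cut]
    split_ifs
    · exact le_rfl
    · exact Nat.zero_le _)

/-- The effect of an instruction on the state of the continuous-time process. -/
noncomputable def app (D : Set (Site d)) (a : Instr d) (x : Site d) (s : CState d) : CState d :=
  if a.1 then (Function.update s.1 x (slp (s.1 x)), s.2) else jump D x a.2 s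

lemma app_fst (D : Set (Site d)) (τ : Stack d) (x : Site d) (s : CState d) (h : Site d → ℕ) :
    (app D (τ (x, h x)) x s).1 = (topple D τ x (s.1, h)).1 := by
  unfold app jump topple
  split_ifs <;> rfl

lemma app_snd (τ : Stack d) (x : Site d) {s : CState d} {h : Site d → ℕ}
    (hs : s.2 = visits τ h) :
    (app Set.univ (τ (x, h x)) x s).2 = visits τ (Function.update h x (h x + 1)) := by
  funext y
  rw [visits_update, ← hs]
  unfold app jump
  by_cases h1 : (τ (x, h x)).1 = true
  · simp [h1]
  · by_cases h2 : y = nbr x (τ (x, h x)).2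
    · subst h2
      simp [h1]
    · simp [h1, h2]

lemma Small.app {n : ℕ} {s : CState d} (h : Small n s.1) (D : Set (Site d)) (a : Instr d)
    {x : Site d} (hx : Act (s.1 x)) : Small n (app D a x s).1 := by
  have h1 := app_fst D (fun _ => a) x s fun _ => 0
  rw [h1]
  exact Small.topple (s := (s.1, fun _ => 0)) h D _ hx

end Pool.Agent.ARW
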