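import Mathlib

/-! Jump processes with bounded rates: uniformization and Poisson averages. -/

open Finset Filter Topology

namespace Pool.Agent.ARW

/-- Poisson average of a sequence. -/
noncomputable def Poi (x : ℝ) (u : ℕ → ℝ) : ℝ :=
  Real.exp (-x) * ∑' n : ℕ, x ^ n / n.factorial * u n

lemma poi_summable (x : ℝ) {u : ℕ → ℝ} {C : ℝ} (hu : ∀ n, |u n| ≤ C) :
    Summable fun n : ℕ => x ^ n / n.factorial * u n := by
  refine Summable.of_norm_bounded ((Real.summable_pow_div_factorial |x|).mul_right C) fun n => ?_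
  rw [Real.norm_eq_abs, abs_mul, abs_div, abs_pow, Nat.abs_cast]
  exact mul_le_mul_of_nonneg_left (hu n) (by positivity)

lemma poi_exp (x : ℝ) : ∑' n : ℕ, x ^ n / n.factorial = Real.exp x := by
  rw [Real.exp_eq_exp_ℝ, NormedSpace.exp_eq_tsum_div]

lemma poi_const (x g : ℝ) : Poi x (fun _ => g) = g := by
  rw [Poi, tsum_mul_right, poi_exp, ← mul_assoc, ← Real.exp_add, neg_add_cancel, Real.exp_zero,
    one_mul]

lemma poi_mono {x : ℝ} (hx : 0 ≤ x) {u v : ℕ → ℝ} {C : ℝ} (hu : ∀ n, |u n| ≤ C)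
    (hv : ∀ n, |v n| ≤ C) (h : ∀ n, u n ≤ v n) : Poi x u ≤ Poi x v :=
  mul_le_mul_of_nonneg_left ((poi_summable x hu).tsum_le_tsum
    (fun n => mul_le_mul_of_nonneg_left (h n) (by positivity)) (poi_summable x hv))
    (Real.exp_pos _).le

lemma poi_sub (x : ℝ) {u : ℕ → ℝ} {C : ℝ} (hu : ∀ n, |u n| ≤ C) (g : ℝ) :
    Poi x u - g = Poi x fun n => u n - g := by
  have h1 : Summable fun n : ℕ => x ^ n / n.factorial * g :=
    poi_summable x (u := fun _ => g) (C := |g|) fun _ => le_rfl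
  conv_lhs => rw [← poi_const x g]
  rw [Poi, Poi, Poi, ← mul_sub, ← (poi_summable x hu).tsum_sub h1]
  congr 2
  funext n
  ring

lemma poi_abs {x : ℝ} (hx : 0 ≤ x) {u : ℕ → ℝ} {C : ℝ} (hu : ∀ n, |u n| ≤ C) :
    |Poi x u| ≤ Poi x fun n => |u n| := by
  have h1 : ∀ n, |(|u n|)| ≤ C := fun n => by rw [abs_abs]; exact hu n
  rw [abs_le]
  refine ⟨?_, poi_mono hx hu h1 fun n => le_abs_self _⟩
  have h2 : Poi x (fun n => -|u n|) ≤ Poi x u :=
    poi_mono hx (fun n => by rw [abs_neg]; exact h1 n) hu fun n => neg_abs_le _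
  refine le_trans (le_of_eq ?_) h2
  rw [Poi, Poi, ← mul_neg, ← tsum_neg]
  congr 2
  funext n
  ring

lemma poi_tendsto {u : ℕ → ℝ} {C g : ℝ} (hu : ∀ n, |u n| ≤ C) (hg : Tendsto u atTop (𝓝 g)) :
    Tendsto (fun x => Poi x u) atTop (𝓝 g) := by
  rw [Metric.tendsto_atTop] at hg
  rw [Metric.tendsto_nhds]
  intro ε hε
  obtain ⟨N, hN⟩ := hg (ε / 2) (by positivity)
  set B := C + |g| with hB
  have hw : ∀ n, |u n - g| ≤ B := fun n => (abs_sub _ _).trans (add_le_add (hu n) le_rfl)
  have hB0 : 0 ≤ B := (abs_nonneg _).trans (hw 0)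
  have h1 : Tendsto (fun x : ℝ => ∑ n ∈ range N, x ^ n * Real.exp (-x) * (B / n.factorial))
      atTop (𝓝 (∑ n ∈ range N, 0 * (B / n.factorial))) :=
    tendsto_finsetSum _ fun n _ => (Real.tendsto_pow_mul_exp_neg_atTop_nhds_zero n).mul_const _
  simp only [zero_mul, sum_const_zero] at h1
  filter_upwards [h1.eventually (gt_mem_nhds (show 0 < ε / 2 by positivity)),
    eventually_ge_atTop (0 : ℝ)] with x hx hx0
  rw [Real.dist_eq, poi_sub x hu]
  refine (poi_abs hx0 hw).trans_lt ?_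
  have h2 : ∀ n, |u n - g| ≤ (if n < N then B else 0) + ε / 2 := fun n => by
    split_ifs with h
    · linarith [hw n]
    · have := hN n (not_lt.1 h)
      rw [Real.dist_eq] at this
      linarith
  have h3 : ∀ n, |(if n < N then B else 0) + ε / 2| ≤ B + ε / 2 := fun n => by
    rw [abs_of_nonneg (by split_ifs <;> positivity)]
    split_ifs <;> linarith
  have h4 : ∀ n, |(|u n - g|)| ≤ B + ε / 2 := fun n => by
    rw [abs_abs]
    linarith [hw n]
  refine (poi_mono hx0 h4 h3 h2).trans_lt ?_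
  have h5 := poi_sub x h3 (ε / 2)
  simp only [add_sub_cancel_right] at h5
  have h6 : Poi x (fun n => if n < N then B else 0) =
      ∑ n ∈ range N, x ^ n * Real.exp (-x) * (B / n.factorial) := by
    rw [Poi, tsum_eq_sum (s := range N) fun n hn => by
      rw [if_neg (by simpa using hn), mul_zero], mul_sum]
    refine sum_congr rfl fun n hn => ?_
    rw [if_pos (mem_range.1 hn)]
    ring
  linarith

section jump

variable {S ι : Type*} (E : S → Finset ι) (r : S → ι → ℝ) (T : S → ι → S)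

/-- Generator of the jump process with events `E s`, rates `r s` and targets `T s`. -/
noncomputable def GK : Module.End ℝ (S → ℝ) where
  toFun f s := ∑ x ∈ E s, r s x * (f (T s x) - f s)
  map_add' f g := by
    funext s
    simp only [Pi.add_apply, ← sum_add_distrib]
    exact sum_congr rfl fun x _ => by ring
  map_smul' c f := by
    funext s
    simp only [Pi.smul_apply, smul_eq_mul, RingHom.id_apply, mul_sum]
    exact sum_congr rfl fun x _ => by ring

lemma GK_apply (f : S → ℝ) (s : S) : GK E r T f s = ∑ x ∈ E s, r s x * (f (T s x) - f s) := rfl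

/-- The uniformized one-step operator. -/
noncomputable def MK (c : ℝ) (f : S → ℝ) (s : S) : ℝ := f s + GK E r T f s / c

/-- An invariant class of states on which the total rate is at most `c`. -/
structure Cls (c : ℝ) (I : S → Prop) : Prop where
  pos : 0 < c
  cl : ∀ s, I s → ∀ x ∈ E s, I (T s x)
  nn : ∀ s, I s → ∀ x ∈ E s, 0 ≤ r s x
  le : ∀ s, I s → ∑ x ∈ E s, r s x ≤ c

variable {E r T} {c : ℝ} {I : S → Prop}

lemma MK_eq (hc : 0 < c) (f : S → ℝ) (s : S) : MK E r T c f s =
    ((c - ∑ x ∈ E s, r s x) * f s + ∑ x ∈ E s, r s x * f (T s x)) / c := by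
  rw [MK, GK_apply]
  simp only [mul_sub, sum_sub_distrib, ← sum_mul]
  field_simp
  ring

lemma MK_mono (h : Cls E r T c I) {f g : S → ℝ} (hfg : ∀ s, I s → f s ≤ g s) (s : S) (hs : I s) :
    MK E r T c f s ≤ MK E r T c g s := by
  rw [MK_eq h.pos, MK_eq h.pos]
  refine div_le_div_of_nonneg_right (add_le_add
    (mul_le_mul_of_nonneg_left (hfg s hs) (sub_nonneg.2 (h.le s hs)))
    (sum_le_sum fun x hx => mul_le_mul_of_nonneg_left (hfg _ (h.cl s hs x hx)) (h.nn s hs x hx)))
    h.pos.le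

lemma MK_iter_mono (h : Cls E r T c I) {f g : S → ℝ} (hfg : ∀ s, I s → f s ≤ g s) (n : ℕ) :
    ∀ s, I s → (MK E r T c)^[n] f s ≤ (MK E r T c)^[n] g s := by
  induction n with
  | zero => exact hfg
  | succ n ih =>
    intro s hs
    rw [Function.iterate_succ_apply', Function.iterate_succ_apply']
    exact MK_mono h ih s hs

lemma MK_affine (a b : ℝ) (f : S → ℝ) :
    MK E r T c (fun s => a + b * f s) = fun s => a + b * MK E r T c f s := by
  funext s
  simp only [MK, GK_apply]
  have h1 : ∑ x ∈ E s, r s x * (a + b * f (T s x) - (a + b * f s)) =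
      b * ∑ x ∈ E s, r s x * (f (T s x) - f s) := by
    rw [mul_sum]
    exact sum_congr rfl fun x _ => by ring
  rw [h1]
  ring

lemma MK_iter_affine (a b : ℝ) (f : S → ℝ) (n : ℕ) :
    (MK E r T c)^[n] (fun s => a + b * f s) = fun s => a + b * (MK E r T c)^[n] f s := by
  induction n with
  | zero => rfl
  | succ n ih =>
    rw [Function.iterate_succ_apply', ih, MK_affine, Function.iterate_succ_apply']

lemma MK_iter_const (a : ℝ) (n : ℕ) : (MK E r T c)^[n] (fun _ => a) = fun _ => a := by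
  have h := MK_iter_affine (E := E) (r := r) (T := T) (c := c) a 0 (fun _ => 0) n
  simpa using h

lemma MK_iter_le (h : Cls E r T c I) {f : S → ℝ} {a : ℝ} (hf : ∀ s, I s → f s ≤ a) (n : ℕ) (s : S)
    (hs : I s) : (MK E r T c)^[n] f s ≤ a := by
  have h1 := MK_iter_mono h (g := fun _ => a) hf n s hs
  rwa [MK_iter_const] at h1

lemma MK_iter_ge (h : Cls E r T c I) {f : S → ℝ} {a : ℝ} (hf : ∀ s, I s → a ≤ f s) (n : ℕ) (s : S)
    (hs : I s) : a ≤ (MK E r T c)^[n] f s := by
  have h1 := MK_iter_mono h (f := fun _ => a) hf n s hs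
  rwa [MK_iter_const] at h1

lemma MK_iter_abs (h : Cls E r T c I) {f : S → ℝ} (hf : ∀ s, I s → |f s| ≤ 1) (n : ℕ) (s : S)
    (hs : I s) : |(MK E r T c)^[n] f s| ≤ 1 :=
  abs_le.2 ⟨MK_iter_ge h (fun s hs => (abs_le.1 (hf s hs)).1) n s hs,
    MK_iter_le h (fun s hs => (abs_le.1 (hf s hs)).2) n s hs⟩

lemma GK_pow_abs (h : Cls E r T c I) {f : S → ℝ} (hf : ∀ s, I s → |f s| ≤ 1) (n : ℕ) :
    ∀ s, I s → |(GK E r T ^ n) f s| ≤ (2 * c) ^ n := by
  induction n with
  | zero => simpa using hf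
  | succ n ih =>
    intro s hs
    rw [pow_succ', Module.End.mul_apply, GK_apply]
    refine (abs_sum_le_sum_abs _ _).trans ?_
    have h1 : ∀ x ∈ E s, |r s x * ((GK E r T ^ n) f (T s x) - (GK E r T ^ n) f s)| ≤
        r s x * (2 * (2 * c) ^ n) := fun x hx => by
      rw [abs_mul, abs_of_nonneg (h.nn s hs x hx)]
      refine mul_le_mul_of_nonneg_left ((abs_sub _ _).trans ?_) (h.nn s hs x hx)
      linarith [ih _ (h.cl s hs x hx), ih s hs]
    refine (sum_le_sum h1).trans ?_
    rw [← sum_mul]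
    have h2 : 0 ≤ 2 * (2 * c) ^ n := by have := h.pos; positivity
    calc _ ≤ c * (2 * (2 * c) ^ n) := mul_le_mul_of_nonneg_right (h.le s hs) h2
      _ = _ := by ring

lemma MK_iter_eq (hc : 0 < c) (f : S → ℝ) (n : ℕ) (s : S) :
    c ^ n * (MK E r T c)^[n] f s =
      ∑ m ∈ antidiagonal n, (n.choose m.1 : ℝ) * (c ^ m.1 * (GK E r T ^ m.2) f s) := by
  have h1 : ∀ n : ℕ, (fun s => c ^ n * (MK E r T c)^[n] f s) =
      ((c • (1 : Module.End ℝ (S → ℝ)) + GK E r T) ^ n) f := by
    intro n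
    induction n with
    | zero => simp
    | succ n ih =>
      rw [pow_succ' (c • (1 : Module.End ℝ (S → ℝ)) + GK E r T) n, Module.End.mul_apply, ← ih,
        Function.iterate_succ_apply']
      funext s
      have h2 : (fun s => c ^ n * (MK E r T c)^[n] f s) = c ^ n • (MK E r T c)^[n] f := rfl
      rw [h2, map_smul]
      simp only [LinearMap.add_apply, LinearMap.smul_apply, Module.End.one_apply, Pi.smul_apply,
        Pi.add_apply, smul_eq_mul, MK]
      field_simp
      ring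
  have h3 := congrFun (h1 n) s
  have hc' : Commute (c • (1 : Module.End ℝ (S → ℝ))) (GK E r T) :=
    (Commute.one_left _).smul_left c
  rw [h3, hc'.add_pow', LinearMap.sum_apply, Finset.sum_apply]
  refine sum_congr rfl fun m _ => ?_
  simp [smul_pow, mul_left_comm]

/-- Uniformization. -/
theorem uniformization (h : Cls E r T c I) {f : S → ℝ} (hf : ∀ s, I s → |f s| ≤ 1) (t : ℝ) (s : S)
    (hs : I s) : ∑' n : ℕ, t ^ n / n.factorial * (GK E r T ^ n) f s =
      Poi (c * t) fun n => (MK E r T c)^[n] f s := by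
  have h1 : Summable fun n : ℕ => ‖(c * t) ^ n / (n.factorial : ℝ)‖ := by
    refine (Real.summable_pow_div_factorial |c * t|).congr fun n => ?_
    rw [Real.norm_eq_abs, abs_div, abs_pow, Nat.abs_cast]
  have h2 : Summable fun n : ℕ => ‖t ^ n / (n.factorial : ℝ) * (GK E r T ^ n) f s‖ := by
    refine Summable.of_nonneg_of_le (fun _ => norm_nonneg _) (fun n => ?_)
      (Real.summable_pow_div_factorial (|t| * (2 * c)))
    rw [Real.norm_eq_abs, abs_mul, abs_div, abs_pow, Nat.abs_cast, mul_pow, mul_div_right_comm]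
    exact mul_le_mul_of_nonneg_left (GK_pow_abs h hf n s hs) (by positivity)
  have h3 := tsum_mul_tsum_eq_tsum_sum_antidiagonal_of_summable_norm h1 h2
  rw [poi_exp] at h3
  have h4 : ∀ n : ℕ, ∑ m ∈ antidiagonal n, (c * t) ^ m.1 / (m.1.factorial : ℝ) *
      (t ^ m.2 / (m.2.factorial : ℝ) * (GK E r T ^ m.2) f s) =
      (c * t) ^ n / n.factorial * (MK E r T c)^[n] f s := fun n => by
    have h5 : (c * t) ^ n / n.factorial * (MK E r T c)^[n] f s =
        t ^ n / n.factorial * (c ^ n * (MK E r T c)^[n] f s) := by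
      rw [mul_pow]
      ring
    rw [h5, MK_iter_eq h.pos, mul_sum]
    refine sum_congr rfl fun m hm => ?_
    have h6 := mem_antidiagonal.1 hm
    have h7 : (n.factorial : ℝ) = n.choose m.1 * m.1.factorial * m.2.factorial := by
      have h8 := Nat.add_choose_mul_factorial_mul_factorial m.2 m.1
      rw [add_comm, h6] at h8
      rw [← h8]
      push_cast
      ring
    have h9 : (n.choose m.1 : ℝ) ≠ 0 :=
      Nat.cast_ne_zero.2 (Nat.choose_pos (by omega)).ne'
    rw [h7, ← h6, pow_add, mul_pow, h6]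
    field_simp
  simp only [h4] at h3
  rw [Poi, ← h3, ← mul_assoc, ← Real.exp_add, neg_add_cancel, Real.exp_zero, one_mul]

/-- A nonincreasing integer potential that can always decrease reaches zero. -/
theorem MK_decay (h : Cls E r T c I) (δ : S → ℕ) {p : ℝ} (hp : 0 < p)
    (h1 : ∀ s, I s → ∀ x ∈ E s, δ (T s x) ≤ δ s)
    (h2 : ∀ s, I s → δ s ≠ 0 → ∃ x ∈ E s, p ≤ r s x ∧ δ (T s x) < δ s) {f : S → ℝ}
    (h3 : ∀ s, I s → 0 ≤ f s ∧ f s ≤ 1) (h4 : ∀ s, I s → δ s = 0 → f s = 0) (s : S) (hs : I s) :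
    Tendsto (fun n => (MK E r T c)^[n] f s) atTop (𝓝 0) := by
  classical
  have hc := h.pos
  set Ψ : S → ℝ := fun s => if δ s = 0 then 0 else 2 ^ δ s with hΨ
  have hm : ∀ a b, δ a ≤ δ b → Ψ a ≤ Ψ b := fun a b hab => by
    simp only [hΨ]
    split_ifs with ha hb hb
    · exact le_rfl
    · positivity
    · omega
    · exact pow_le_pow_right₀ (by norm_num) hab
  have hm2 : ∀ a b, δ a < δ b → Ψ a ≤ Ψ b / 2 := fun a b hab => by
    simp only [hΨ]
    rw [if_neg (show δ b ≠ 0 by omega)]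
    split_ifs with ha
    · positivity
    · rw [le_div_iff₀ (by norm_num), ← pow_succ]
      exact pow_le_pow_right₀ (by norm_num) hab
  have h0 : ∀ a, 0 ≤ Ψ a := fun a => by
    simp only [hΨ]
    split_ifs <;> positivity
  set q : ℝ := max 0 (1 - p / (2 * c)) with hq
  have hq0 : 0 ≤ q := le_max_left _ _
  have hq1 : q < 1 := max_lt one_pos (by have : 0 < p / (2 * c) := by positivity
                                         linarith)
  have hstep : ∀ a, I a → MK E r T c Ψ a ≤ 0 + q * Ψ a := fun a ha => by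
    have hterm : ∀ x ∈ E a, r a x * (Ψ (T a x) - Ψ a) ≤ 0 := fun x hx =>
      mul_nonpos_of_nonneg_of_nonpos (h.nn a ha x hx) (sub_nonpos.2 (hm _ _ (h1 a ha x hx)))
    rw [MK, GK_apply, zero_add]
    by_cases hδ : δ a = 0
    · have h5 : Ψ a = 0 := if_pos hδ
      have h6 : (∑ x ∈ E a, r a x * (Ψ (T a x) - Ψ a)) / c ≤ 0 :=
        div_nonpos_of_nonpos_of_nonneg (sum_nonpos hterm) hc.le
      rw [h5] at h6 ⊢
      linarith
    · obtain ⟨x, hx, hpx, hδx⟩ := h2 a ha hδ
      have h5 : ∑ y ∈ E a, r a y * (Ψ (T a y) - Ψ a) ≤ -(p * (Ψ a / 2)) := by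
        rw [← add_sum_erase _ _ hx]
        have h6 : ∑ y ∈ (E a).erase x, r a y * (Ψ (T a y) - Ψ a) ≤ 0 :=
          sum_nonpos fun y hy => hterm y (mem_of_mem_erase hy)
        have h7 := hm2 _ _ hδx
        have h8 := h0 a
        nlinarith
      have h6 : (∑ y ∈ E a, r a y * (Ψ (T a y) - Ψ a)) / c ≤ -(p * (Ψ a / 2)) / c :=
        div_le_div_of_nonneg_right h5 hc.le
      have h7 : Ψ a + -(p * (Ψ a / 2)) / c = (1 - p / (2 * c)) * Ψ a := by
        field_simp
        ring
      have h8 : (1 - p / (2 * c)) * Ψ a ≤ q * Ψ a :=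
        mul_le_mul_of_nonneg_right (le_max_right _ _) (h0 a)
      linarith
  have hit : ∀ n, ∀ a, I a → (MK E r T c)^[n] Ψ a ≤ q ^ n * Ψ a := by
    intro n
    induction n with
    | zero => intro a _; simp
    | succ n ih =>
      intro a ha
      rw [Function.iterate_succ_apply]
      have h5 := MK_iter_mono h hstep n a ha
      rw [MK_iter_affine] at h5
      have h6 := mul_le_mul_of_nonneg_left (ih a ha) hq0
      simp only at h5
      rw [pow_succ']
      linarith [mul_assoc q (q ^ n) (Ψ a)]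
  have hfΨ : ∀ a, I a → f a ≤ Ψ a := fun a ha => by
    simp only [hΨ]
    split_ifs with hδ
    · exact (h4 a ha hδ).le
    · exact (h3 a ha).2.trans (one_le_pow₀ (by norm_num))
  have hlim : Tendsto (fun n : ℕ => q ^ n * Ψ s) atTop (𝓝 0) := by
    simpa using (tendsto_pow_atTop_nhds_zero_of_lt_one hq0 hq1).mul_const (Ψ s)
  exact squeeze_zero (fun n => MK_iter_ge h (fun a ha => (h3 a ha).1) n s hs)
    (fun n => (MK_iter_mono h hfΨ n s hs).trans (hit n s hs)) hlim

end jump

end Pool.Agent.ARW
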