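import Pool.Agent.P.MP_3af8b7_pr.Bridge
import Pool.Agent.P.MP_3af8b7_pr.CTLoc
import Pool.Agent.P.MP_3af8b7_pr.CTPoi

/-! The semigroup is an average over the stacks of a process on toppling sequences. -/

open Classical Finset MeasureTheory Filter Topology

namespace Pool.Agent.ARW

variable {d : ℕ}

/-- Events: a site with an active particle and an instruction. -/
noncomputable def aE (s : CState d) : Finset (Site d × Instr d) := supA s.1 ×ˢ univ

/-- Their rates. -/
noncomputable def aR (lam : ℝ) (s : CState d) (e : Site d × Instr d) : ℝ :=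
  (1 + lam) * actv (s.1 e.1) * (instrLaw d lam).real {e.2}

/-- Their effects. -/
noncomputable def aT (D : Set (Site d)) (s : CState d) (e : Site d × Instr d) : CState d :=
  app D e.2 e.1 s

/-- States with the counters of used instructions. -/
abbrev QState (d : ℕ) := CState d × (Site d → ℕ)

/-- Events for fixed stacks: a site with an active particle. -/
noncomputable def qE (q : QState d) : Finset (Site d) := supA q.1.1

/-- Their rates. -/
noncomputable def qR (lam : ℝ) (q : QState d) (x : Site d) : ℝ := (1 + lam) * actv (q.1.1 x)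

/-- The state after instruction `a` at `x`. -/
noncomputable def qA (D : Set (Site d)) (q : QState d) (x : Site d) (a : Instr d) : QState d :=
  (app D a x q.1, Function.update q.2 x (q.2 x + 1))

/-- The effect of an event for fixed stacks. -/
noncomputable def qT (D : Set (Site d)) (τ : Stack d) (q : QState d) (x : Site d) : QState d :=
  qA D q x (τ (x, q.2 x))

/-- The value after `n` uniformized steps for fixed stacks. -/
noncomputable def Uq (lam : ℝ) (D : Set (Site d)) (c : ℝ) (f : CState d → ℝ) (n : ℕ)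
    (q : QState d) (τ : Stack d) : ℝ :=
  (MK qE (qR lam) (qT D τ) c)^[n] (fun q => f q.1) q

variable {lam c : ℝ} {D : Set (Site d)} {N : ℕ}

lemma sum_instr (hd : 1 ≤ d) (hl : 0 < lam) : ∑ a : Instr d, (instrLaw d lam).real {a} = 1 := by
  have := instrLaw_prob hd hl
  simp

lemma gen_eq (hd : 1 ≤ d) (hl : 0 < lam) (f : CState d → ℝ) {s : CState d} (hs : Small N s.1) :
    gen lam D f s = GK aE (aR lam) (aT D) f s := by
  have hd' : (0 : ℝ) < d := by exact_mod_cast hd
  rw [gen, finsum_eq_sum_of_support_subset (s := supA s.1), GK_apply, aE, sum_product]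
  · refine sum_congr rfl fun x _ => ?_
    simp only [aR, aT, bridge_instr hd hl]
    rw [Fintype.sum_prod_type (α₁ := Bool), Fintype.sum_bool, add_comm]
    congr 1
    · simp only [app, if_true, sum_const, card_univ, Fintype.card_prod, Fintype.card_fin,
        Fintype.card_bool, nsmul_eq_mul]
      split_ifs with h
      · rw [h]
        simp only [actv, slp, sleep]
        push_cast
        field_simp
      · have h1 : slp (s.1 x) = s.1 x := by
          rcases h2 : s.1 x with _ | _ | _ | k
          · rfl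
          · rfl
          · exact absurd h2 h
          · rfl
        rw [h1, Function.update_eq_self]
        simp
    · rw [mul_sum]
      refine sum_congr rfl fun j _ => ?_
      simp only [app, Bool.false_eq_true, if_false]
      field_simp
  · intro x hx
    by_contra hc
    have ha : ¬ Act (s.1 x) := fun h => hc (hs.mem_supA h)
    apply hx
    have h1 : s.1 x ≠ some 1 := fun h => ha ⟨0, h⟩
    simp only [actv_of_not_act ha, if_neg h1]
    simp

lemma cls_a (hd : 1 ≤ d) (hl : 0 < lam) (hc : 0 < c) (hN : (1 + lam) * N ≤ c) :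
    Cls (aE (d := d)) (aR lam) (aT D) c fun s => Small N s.1 where
  pos := hc
  cl := fun _ hs e he => hs.app D e.2 (act_of_mem_supA (mem_product.1 he).1)
  nn := fun s _ e _ => by
    have : 0 ≤ (instrLaw d lam).real {e.2} := measureReal_nonneg
    unfold aR
    positivity
  le := fun s hs => by
    rw [aE, sum_product]
    simp only [aR, ← mul_sum, sum_instr hd hl, mul_one]
    refine le_trans (mul_le_mul_of_nonneg_left ?_ (by positivity)) hN
    exact_mod_cast (sum_le_sum fun x _ => actv_le_cnt (s.1 x)).trans (hs _)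

lemma gen_iter (hd : 1 ≤ d) (hl : 0 < lam) (f : CState d → ℝ) (n : ℕ) :
    ∀ s : CState d, Small N s.1 → (gen lam D)^[n] f s = (GK aE (aR lam) (aT D) ^ n) f s := by
  induction n with
  | zero => intro s _; rfl
  | succ n ih =>
    intro s hs
    rw [Function.iterate_succ_apply', gen_eq hd hl _ hs, pow_succ', Module.End.mul_apply,
      GK_apply, GK_apply]
    refine sum_congr rfl fun e he => ?_
    rw [ih s hs, ih (aT D s e) (hs.app D e.2 (act_of_mem_supA (mem_product.1 he).1))]

lemma q_dep (f : CState d → ℝ) (n : ℕ) : ∀ q : QState d, ∃ T : Finset (Site d × ℕ),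
    (∀ e ∈ T, q.2 e.1 ≤ e.2) ∧ DependsOn (Uq lam D c f n q) (T : Set (Site d × ℕ)) := by
  induction n with
  | zero => exact fun q => ⟨∅, by simp, fun _ _ _ => rfl⟩
  | succ n ih =>
    intro q
    choose T hT hT' using ih
    refine ⟨T q ∪ (qE q).biUnion fun x => insert (x, q.2 x) (univ.biUnion fun a => T (qA D q x a)),
      fun e he => ?_, fun τ τ' h => ?_⟩
    · rcases mem_union.1 he with he | he
      · exact hT q e he
      · obtain ⟨x, -, he⟩ := mem_biUnion.1 he
        rcases mem_insert.1 he with rfl | he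
        · exact le_rfl
        · obtain ⟨a, -, he⟩ := mem_biUnion.1 he
          refine le_trans ?_ (hT _ e he)
          show q.2 e.1 ≤ Function.update q.2 x (q.2 x + 1) e.1
          rw [Function.update_apply]
          split_ifs with h1
          · rw [h1]
            exact Nat.le_succ _
          · exact le_rfl
    · have h0 : Uq lam D c f n q τ = Uq lam D c f n q τ' :=
        hT' q fun e he => h e (mem_coe.2 (mem_union_left _ he))
      have h1 : ∀ x ∈ qE q, Uq lam D c f n (qT D τ q x) τ = Uq lam D c f n (qT D τ' q x) τ' := by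
        intro x hx
        have h2 : τ (x, q.2 x) = τ' (x, q.2 x) :=
          h _ (mem_coe.2 (mem_union_right _ (mem_biUnion.2 ⟨x, hx, mem_insert_self _ _⟩)))
        rw [qT, qT, h2]
        exact hT' _ fun e he => h e (mem_coe.2 (mem_union_right _ (mem_biUnion.2
          ⟨x, hx, mem_insert_of_mem (mem_biUnion.2 ⟨_, mem_univ _, he⟩)⟩)))
      unfold Uq at h0 h1 ⊢
      rw [Function.iterate_succ_apply', Function.iterate_succ_apply', MK, MK, GK_apply, GK_apply,
        h0]
      congr 2
      exact sum_congr rfl fun x hx => by rw [h1 x hx]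

lemma q_meas (f : CState d → ℝ) (n : ℕ) (q : QState d) : Measurable (Uq lam D c f n q) := by
  obtain ⟨T, -, hT⟩ := q_dep (lam := lam) (D := D) (c := c) f n q
  exact bridge_meas T hT

lemma q_int (hd : 1 ≤ d) (hl : 0 < lam) (f : CState d → ℝ) (n : ℕ) : ∀ q : QState d,
    ∫ τ, Uq lam D c f n q τ ∂(stackLaw d lam) = (MK aE (aR lam) (aT D) c)^[n] f q.1 := by
  have hp := stackLaw_prob hd hl
  have hi := instrLaw_prob hd hl
  induction n with
  | zero =>
    intro q
    simp [Uq]
  | succ n ih =>
    intro q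
    choose T hT hT' using q_dep (lam := lam) (D := D) (c := c) f n
    have i0 : Integrable (Uq lam D c f n q) (stackLaw d lam) := bridge_int _ _ (hT' q)
    have hx : ∀ x, (x, q.2 x) ∉ univ.biUnion fun a => T (qA D q x a) := fun x hx => by
      obtain ⟨a, -, he⟩ := mem_biUnion.1 hx
      have h1 := hT _ _ he
      simp [qA] at h1
    have hdep : ∀ x a, DependsOn (Uq lam D c f n (qA D q x a))
        ((univ.biUnion fun a => T (qA D q x a) : Finset _) : Set (Site d × ℕ)) := fun x a =>
      (hT' _).mono fun e he => mem_coe.2 (mem_biUnion.2 ⟨a, mem_univ _, he⟩)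
    have i1 : ∀ x, Integrable (fun τ => Uq lam D c f n (qT D τ q x) τ) (stackLaw d lam) := by
      intro x
      refine bridge_int _ (insert (x, q.2 x) (univ.biUnion fun a => T (qA D q x a)))
        fun τ τ' h => ?_
      have h2 : τ (x, q.2 x) = τ' (x, q.2 x) := h _ (mem_coe.2 (mem_insert_self _ _))
      simp only [qT, h2]
      exact hdep x _ fun e he => h e (mem_coe.2 (mem_insert_of_mem he))
    have e1 : ∀ x, ∫ τ, Uq lam D c f n (qT D τ q x) τ ∂(stackLaw d lam) =
        ∑ a, (instrLaw d lam).real {a} * (MK aE (aR lam) (aT D) c)^[n] f (app D a x q.1) := by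
      intro x
      have h1 := bridge_fresh (instrLaw d lam) _ (x, q.2 x) (hx x)
        (fun a => Uq lam D c f n (qA D q x a)) (hdep x)
      refine h1.trans (sum_congr rfl fun a _ => ?_)
      exact congrArg _ (ih (qA D q x a))
    have e2 : ∀ τ, Uq lam D c f (n + 1) q τ = Uq lam D c f n q τ +
        (∑ x ∈ qE q, qR lam q x * (Uq lam D c f n (qT D τ q x) τ - Uq lam D c f n q τ)) / c :=
      fun τ => by
        unfold Uq
        rw [Function.iterate_succ_apply', MK, GK_apply]
    have i2 : ∀ x ∈ qE q, Integrable (fun τ => qR lam q x *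
        (Uq lam D c f n (qT D τ q x) τ - Uq lam D c f n q τ)) (stackLaw d lam) :=
      fun x _ => ((i1 x).sub i0).const_mul _
    simp only [e2]
    rw [integral_add i0 ((integrable_finsetSum _ i2).div_const c), integral_div,
      integral_finsetSum _ i2, Function.iterate_succ_apply', MK, GK_apply, ih q, aE, sum_product]
    congr 2
    refine sum_congr rfl fun x _ => ?_
    rw [integral_const_mul, integral_sub (i1 x) i0, e1, ih q]
    simp only [aR, aT, qR, mul_assoc, ← mul_sum, mul_sub ((instrLaw d lam).real _),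
      sum_sub_distrib, ← sum_mul, sum_instr hd hl, one_mul]

/-- The semigroup as a Poisson average of averages over the stacks. -/
theorem semi_eq (hd : 1 ≤ d) (hl : 0 < lam) (hc : 0 < c) (hN : (1 + lam) * N ≤ c)
    {f : CState d → ℝ} (hf : ∀ s, |f s| ≤ 1) (t : ℝ) {s : CState d} (hs : Small N s.1)
    (h : Site d → ℕ) :
    semi lam D t f s = Poi (c * t) fun n => ∫ τ, Uq lam D c f n (s, h) τ ∂(stackLaw d lam) := by
  simp only [q_int hd hl]
  rw [← uniformization (cls_a hd hl hc hN) (fun s _ => hf s) t s hs, semi]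
  exact tsum_congr fun n => by rw [gen_iter hd hl f n s hs]

lemma qR_sum (hl : 0 < lam) {q : QState d} (hq : Small N q.1.1) :
    ∑ x ∈ qE q, qR lam q x ≤ (1 + lam) * N := by
  simp only [qR, ← mul_sum]
  refine mul_le_mul_of_nonneg_left ?_ (by positivity)
  exact_mod_cast (sum_le_sum fun x _ => actv_le_cnt (q.1.1 x)).trans (hq _)

lemma qR_nonneg (hl : 0 < lam) (q : QState d) (x : Site d) : 0 ≤ qR lam q x := by
  unfold qR
  positivity

lemma cls_q (hl : 0 < lam) (hc : 0 < c) (hN : (1 + lam) * N ≤ c) (τ : Stack d)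
    {I : QState d → Prop} (h1 : ∀ q, I q → Small N q.1.1)
    (h2 : ∀ q, I q → ∀ x, Act (q.1.1 x) → I (qT D τ q x)) : Cls qE (qR lam) (qT D τ) c I where
  pos := hc
  cl := fun q hq x hx => h2 q hq x (act_of_mem_supA hx)
  nn := fun q _ x _ => qR_nonneg hl q x
  le := fun q hq => (qR_sum hl (h1 q hq)).trans hN

lemma qT_small {q : QState d} (hq : Small N q.1.1) (τ : Stack d) {x : Site d}
    (hx : Act (q.1.1 x)) : Small N (qT D τ q x).1.1 := hq.app D _ hx

lemma qT_topple (τ : Stack d) (q : QState d) (x : Site d) :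
    ((qT D τ q x).1.1, (qT D τ q x).2) = topple D τ x (q.1.1, q.2) :=
  Prod.ext (app_fst D τ x q.1 q.2) rfl

lemma Uq_abs (hl : 0 < lam) (hc : 0 < c) (hN : (1 + lam) * N ≤ c) {f : CState d → ℝ}
    (hf : ∀ s, |f s| ≤ 1) (n : ℕ) {q : QState d} (hq : Small N q.1.1) (τ : Stack d) :
    |Uq lam D c f n q τ| ≤ 1 :=
  MK_iter_abs (cls_q hl hc hN τ (fun _ h => h) fun _ h _ hx => qT_small h τ hx)
    (fun q _ => hf q.1) n q hq

/-- Long time limit of the semigroup from the limit for fixed stacks. -/
theorem semi_tendsto (hd : 1 ≤ d) (hl : 0 < lam) (hc : 0 < c) (hN : (1 + lam) * N ≤ c)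
    {f : CState d → ℝ} (hf : ∀ s, |f s| ≤ 1) {s : CState d} (hs : Small N s.1) (h : Site d → ℕ)
    {W : Set (Stack d)}
    (hW : ∀ τ, Tendsto (fun n => Uq lam D c f n (s, h) τ) atTop (𝓝 (W.indicator 1 τ))) :
    MeasurableSet W ∧
      Tendsto (fun t : NNReal => semi lam D t f s) atTop (𝓝 ((stackLaw d lam).real W)) := by
  have hp := stackLaw_prob hd hl
  have hm : Measurable (W.indicator (1 : Stack d → ℝ)) :=
    measurable_of_tendsto_metrizable (fun n => q_meas f n (s, h)) (tendsto_pi_nhds.2 hW)
  have hWm : MeasurableSet W := by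
    have h1 := hm (measurableSet_singleton 1)
    have h2 : W.indicator (1 : Stack d → ℝ) ⁻¹' {1} = W := by
      ext τ
      by_cases h3 : τ ∈ W <;> simp [h3]
    rwa [h2] at h1
  refine ⟨hWm, ?_⟩
  have h1 := tendsto_integral_of_dominated_convergence (μ := stackLaw d lam) (fun _ => (1 : ℝ))
    (fun n => (q_meas f n (s, h)).aestronglyMeasurable) (integrable_const _)
    (fun n => ae_of_all _ fun τ => Uq_abs hl hc hN hf n hs τ) (ae_of_all _ hW)
  rw [integral_indicator_one hWm] at h1
  have h2 : ∀ n, |∫ τ, Uq lam D c f n (s, h) τ ∂(stackLaw d lam)| ≤ 1 := fun n => by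
    have h3 := norm_integral_le_of_norm_le_const (μ := stackLaw d lam)
      (f := Uq lam D c f n (s, h)) (C := 1) (ae_of_all _ fun τ => Uq_abs hl hc hN hf n hs τ)
    simpa using h3
  simp only [fun t => semi_eq (D := D) hd hl hc hN hf t hs h]
  exact (poi_tendsto h2 h1).comp
    (NNReal.tendsto_coe_atTop.2 tendsto_id |>.const_mul_atTop hc)

/-- Comparison of the semigroup from a comparison for fixed stacks. -/
theorem semi_le (hd : 1 ≤ d) (hl : 0 < lam) (hc : 0 < c) (hN : (1 + lam) * N ≤ c)
    {f : CState d → ℝ} (hf : ∀ s, |f s| ≤ 1) {s : CState d} (hs : Small N s.1) (h : Site d → ℕ)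
    {t : ℝ} (ht : 0 ≤ t) {u : ℕ → Stack d → ℝ} (hu : ∀ n, Measurable (u n))
    (hu1 : ∀ n τ, |u n τ| ≤ 1) :
    ((∀ n τ, Uq lam D c f n (s, h) τ ≤ u n τ) →
      semi lam D t f s ≤ Poi (c * t) fun n => ∫ τ, u n τ ∂(stackLaw d lam)) ∧
    ((∀ n τ, u n τ ≤ Uq lam D c f n (s, h) τ) →
      (Poi (c * t) fun n => ∫ τ, u n τ ∂(stackLaw d lam)) ≤ semi lam D t f s) := by
  have hp := stackLaw_prob hd hl
  have b : ∀ {v : Stack d → ℝ}, (∀ τ, |v τ| ≤ 1) → |∫ τ, v τ ∂(stackLaw d lam)| ≤ 1 :=
    fun {v} hv => by
      have h3 := norm_integral_le_of_norm_le_const (μ := stackLaw d lam) (f := v) (C := 1)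
        (ae_of_all _ hv)
      simpa using h3
  have i : ∀ {v : Stack d → ℝ}, Measurable v → (∀ τ, |v τ| ≤ 1) → Integrable v (stackLaw d lam) :=
    fun hm hv => Integrable.of_bound hm.aestronglyMeasurable 1 (ae_of_all _ hv)
  have h1 := fun n τ => Uq_abs (D := D) hl hc hN hf n (q := (s, h)) hs τ
  rw [semi_eq hd hl hc hN hf t hs h]
  exact ⟨fun hle => poi_mono (by positivity) (fun n => b (h1 n)) (fun n => b (hu1 n))
      fun n => integral_mono (i (q_meas f n _) (h1 n)) (i (hu n) (hu1 n)) (hle n),
    fun hle => poi_mono (by positivity) (fun n => b (hu1 n)) (fun n => b (h1 n))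
      fun n => integral_mono (i (hu n) (hu1 n)) (i (q_meas f n _) (h1 n)) (hle n)⟩

end Pool.Agent.ARW
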