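import Pool.Agent.P.MP_3af8b7_pr.CTQ

/-! The law of the numbers of visits of the continuous-time process on `ℤ^d`. -/

open Classical Finset MeasureTheory Filter Topology

namespace Pool.Agent.ARW

variable {d : ℕ} {lam c : ℝ} {N : ℕ}

/-- Indicator of at most `K x` visits to each `x ∈ F`. -/
noncomputable def phiV (F : Finset (Site d)) (K : Site d → ℕ) (s : CState d) : ℝ :=
  if ∀ x ∈ F, s.2 x ≤ K x then 1 else 0

/-- Stacks for which all legal sequences respect the bounds. -/
def BV (F : Finset (Site d)) (K : Site d → ℕ) (η : Site d → ℕ) : Set (Stack d) :=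
  {τ | ∀ s, Reach Set.univ τ (st0 η) s → ∀ x ∈ F, visits τ s.2 x ≤ K x}

/-- Reachable states. -/
def JV (N : ℕ) (τ : Stack d) (η : Site d → ℕ) (q : QState d) : Prop :=
  Small N q.1.1 ∧ Reach Set.univ τ (st0 η) (q.1.1, q.2) ∧ q.1.2 = visits τ q.2

lemma phiV_mem (F : Finset (Site d)) (K : Site d → ℕ) (s : CState d) :
    0 ≤ phiV F K s ∧ phiV F K s ≤ 1 := by
  unfold phiV
  split_ifs <;> norm_num

lemma phiV_abs (F : Finset (Site d)) (K : Site d → ℕ) (s : CState d) : |phiV F K s| ≤ 1 := by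
  rw [abs_of_nonneg (phiV_mem F K s).1]
  exact (phiV_mem F K s).2

lemma JV.step {τ : Stack d} {η : Site d → ℕ} (q : QState d) (hq : JV N τ η q) (x : Site d)
    (hx : Act (q.1.1 x)) : JV N τ η (qT Set.univ τ q x) := by
  refine ⟨qT_small hq.1 τ hx, ?_, app_snd τ x hq.2.2⟩
  rw [qT_topple]
  exact hq.2.1.tail ⟨x, Set.mem_univ _, hx, rfl⟩

lemma JV.start {η : Site d → ℕ} (h : Small N (st0 η).1) (τ : Stack d) :
    JV N τ η (st0 η, fun _ => 0) :=
  ⟨h, Relation.ReflTransGen.refl, funext fun x => (visits_zero τ x).symm⟩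

lemma cls_J (hl : 0 < lam) (hc : 0 < c) (hN : (1 + lam) * N ≤ c) (τ : Stack d)
    (η : Site d → ℕ) : Cls qE (qR lam) (qT Set.univ τ) c (JV N τ η) :=
  cls_q hl hc hN τ (fun _ h => h.1) JV.step

lemma qT_snd (D : Set (Site d)) (τ : Stack d) (q : QState d) (x y : Site d) :
    (qT D τ q x).2 y = if y = x then q.2 y + 1 else q.2 y := by
  show Function.update q.2 x (q.2 x + 1) y = _
  rw [Function.update_apply]
  split_ifs with h
  · rw [h]
  · rfl

lemma Uq_ge (hl : 0 < lam) (hc : 0 < c) (hN : (1 + lam) * N ≤ c) (F : Finset (Site d))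
    (K : Site d → ℕ) {η : Site d → ℕ} (h : Small N (st0 η).1) (n : ℕ) (τ : Stack d) :
    (BV F K η).indicator 1 τ ≤ Uq lam Set.univ c (phiV F K) n (st0 η, fun _ => 0) τ := by
  refine MK_iter_ge (cls_J hl hc hN τ η) (fun q hq => ?_) n _ (JV.start h τ)
  by_cases hτ : τ ∈ BV F K η
  · rw [Set.indicator_of_mem hτ]
    refine le_of_eq (if_pos fun x hx => ?_).symm
    rw [hq.2.2]
    exact hτ _ hq.2.1 x hx
  · rw [Set.indicator_of_notMem hτ]
    exact (phiV_mem F K _).1

lemma Uq_lim (hl : 0 < lam) (hc : 0 < c) (hN : (1 + lam) * N ≤ c) (F : Finset (Site d))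
    (K : Site d → ℕ) {η : Site d → ℕ} (h : Small N (st0 η).1) (τ : Stack d) :
    Tendsto (fun n => Uq lam Set.univ c (phiV F K) n (st0 η, fun _ => 0) τ) atTop
      (𝓝 ((BV F K η).indicator 1 τ)) := by
  by_cases hτ : τ ∈ BV F K η
  · refine tendsto_const_nhds.congr fun n => le_antisymm (Uq_ge hl hc hN F K h n τ) ?_
    rw [Set.indicator_of_mem hτ]
    exact MK_iter_le (cls_J hl hc hN τ η) (fun q _ => (phiV_mem F K _).2) n _ (JV.start h τ)
  · rw [Set.indicator_of_notMem hτ]
    simp only [BV, Set.mem_ofPred_eq, not_forall, not_le] at hτ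
    obtain ⟨g, hg, z, hz, hK⟩ := hτ
    obtain ⟨T, hT⟩ := reach_fin hg
    have hδ : ∀ q : QState d, ∑ y ∈ T, (g.2 y - q.2 y) = 0 ↔ ∀ y, g.2 y ≤ q.2 y := fun q => by
      rw [sum_eq_zero_iff]
      refine ⟨fun k y => ?_, fun k y _ => Nat.sub_eq_zero_of_le (k y)⟩
      by_cases hy : y ∈ T
      · exact Nat.le_of_sub_eq_zero (k y hy)
      · rw [hT y hy]
        exact Nat.zero_le _
    have hmono : ∀ (q : QState d) x y, g.2 y - (qT Set.univ τ q x).2 y ≤ g.2 y - q.2 y :=
      fun q x y => by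
        rw [qT_snd]
        split_ifs <;> omega
    refine MK_decay (cls_J hl hc hN τ η) (fun q => ∑ y ∈ T, (g.2 y - q.2 y)) (p := 1) one_pos
      (fun q _ x _ => sum_le_sum fun y _ => hmono q x y) (fun q hq h0 => ?_)
      (fun q _ => phiV_mem F K _) (fun q hq h0 => if_neg fun k => ?_) _ (JV.start h τ)
    · obtain ⟨x, hx, ha⟩ := reach_deficit hg hq.2.1 (mt (hδ q).2 h0)
      simp only at hx ha
      refine ⟨x, hq.1.mem_supA ha, ?_, sum_lt_sum (fun y _ => hmono q x y) ⟨x, ?_, ?_⟩⟩
      · have h2 : (1 : ℝ) ≤ actv (q.1.1 x) := by exact_mod_cast one_le_actv ha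
        unfold qR
        nlinarith
      · by_contra hc
        rw [hT x hc] at hx
        exact Nat.not_lt_zero _ hx
      · rw [qT_snd, if_pos rfl]
        omega
    · have h1 := k z hz
      rw [hq.2.2] at h1
      exact absurd ((visits_mono τ ((hδ q).1 h0) z).trans h1) (not_le.2 hK)

/-- Monotone coupling: more particles give more visits. -/
lemma Uq_anti (hl : 0 < lam) (hc : 0 < c) (hN : 2 * ((1 + lam) * N) ≤ c) (F : Finset (Site d))
    (K : Site d → ℕ) {η η' : Site d → ℕ} (hη : ∀ y, η y ≤ η' y) (τ : Stack d) (n : ℕ) :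
    ∀ q q' : QState d, JV N τ η q → JV N τ η' q' → (∀ y, q.2 y ≤ q'.2 y) →
      Uq lam Set.univ c (phiV F K) n q' τ ≤ Uq lam Set.univ c (phiV F K) n q τ := by
  induction n with
  | zero =>
    intro q q' hq hq' hh
    show phiV F K q'.1 ≤ phiV F K q.1
    by_cases h : ∀ x ∈ F, q'.1.2 x ≤ K x
    · refine (phiV_mem F K _).2.trans (le_of_eq (if_pos fun x hx => ?_).symm)
      have h1 := h x hx
      rw [hq'.2.2] at h1
      rw [hq.2.2]
      exact (visits_mono τ hh x).trans h1
    · exact (le_of_eq (if_neg h)).trans (phiV_mem F K _).1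
  | succ n ih =>
    intro q q' hq hq' hh
    obtain ⟨f, hf⟩ : ∃ f : QState d → ℝ, f = fun q => Uq lam Set.univ c (phiV F K) n q τ :=
      ⟨_, rfl⟩
    have ih' : ∀ q q' : QState d, JV N τ η q → JV N τ η' q' → (∀ y, q.2 y ≤ q'.2 y) →
        f q' ≤ f q := by
      rw [hf]
      exact ih
    have e : ∀ {ξ : Site d → ℕ} {p : QState d}, JV N τ ξ p → ∀ U : Finset (Site d), qE p ⊆ U →
        Uq lam Set.univ c (phiV F K) (n + 1) p τ =
          f p + (∑ x ∈ U, qR lam p x * (f (qT Set.univ τ p x) - f p)) / c ∧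
        ∑ x ∈ U, qR lam p x ≤ (1 + lam) * N := fun {ξ p} hp U hU => by
      have h0 : ∀ x ∈ U, x ∉ qE p → qR lam p x = 0 := fun x _ hx => by
        rw [qR, actv_of_not_act fun k => hx (hp.1.mem_supA k)]
        simp
      constructor
      · rw [← sum_subset hU fun x hx hx' => by rw [h0 x hx hx', zero_mul], hf]
        unfold Uq
        rw [Function.iterate_succ_apply', MK, GK_apply]
      · rw [← sum_subset hU h0]
        exact qR_sum hl hp.1
    obtain ⟨e1, s1⟩ := e hq (qE q ∪ qE q') subset_union_left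
    obtain ⟨e2, s2⟩ := e hq' (qE q ∪ qE q') subset_union_right
    have h0 := ih' q q' hq hq' hh
    have key : ∀ x ∈ qE q ∪ qE q', qR lam q' x * (f (qT Set.univ τ q' x) - f q') ≤
        qR lam q x * (f (qT Set.univ τ q x) - f q) +
          (qR lam q x + qR lam q' x) * (f q - f q') := by
      intro x _
      have r0 := qR_nonneg hl q x
      have r1 := qR_nonneg hl q' x
      have a1 : 0 ≤ qR lam q' x * (f q - f (qT Set.univ τ q' x)) := by
        by_cases ha : Act (q'.1.1 x)
        · refine mul_nonneg r1 (sub_nonneg.2 (ih' _ _ hq (hq'.step _ x ha) fun y => ?_))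
          rw [qT_snd]
          have := hh y
          split_ifs <;> omega
        · rw [qR, actv_of_not_act ha]
          simp
      by_cases ha : Act (q.1.1 x)
      · rcases (hh x).lt_or_eq with hx | hx
        · have a2 : f q' ≤ f (qT Set.univ τ q x) := ih' _ _ (hq.step _ x ha) hq' fun y => by
            rw [qT_snd]
            have := hh y
            split_ifs with k
            · rw [k]
              omega
            · exact this
          nlinarith [mul_nonneg r0 (sub_nonneg.2 a2)]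
        · have hcode := reach_code hq.2.1 hq'.2.1 (hη x) hh hx
          have ha' : Act (q'.1.1 x) := path_code_act hcode ha
          have r2 : qR lam q x ≤ qR lam q' x :=
            mul_le_mul_of_nonneg_left (by exact_mod_cast actv_le_of_code hcode) (by positivity)
          have a2 : f (qT Set.univ τ q' x) ≤ f (qT Set.univ τ q x) :=
            ih' _ _ (hq.step _ x ha) (hq'.step _ x ha') fun y => by
              rw [qT_snd, qT_snd]
              have := hh y
              split_ifs <;> omega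
          have a3 : f (qT Set.univ τ q' x) ≤ f q := ih' _ _ hq (hq'.step _ x ha') fun y => by
            rw [qT_snd]
            have := hh y
            split_ifs <;> omega
          nlinarith [mul_nonneg r0 (sub_nonneg.2 a2), mul_nonneg r0 (sub_nonneg.2 h0),
            mul_nonneg (sub_nonneg.2 r2) (sub_nonneg.2 a3)]
      · have r2 : qR lam q x = 0 := by
          rw [qR, actv_of_not_act ha]
          simp
        rw [r2]
        nlinarith
    have h1 := sum_le_sum key
    rw [sum_add_distrib, ← sum_mul, sum_add_distrib] at h1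
    have h2 : (∑ x ∈ qE q ∪ qE q', qR lam q x + ∑ x ∈ qE q ∪ qE q', qR lam q' x) *
        (f q - f q') ≤ c * (f q - f q') :=
      mul_le_mul_of_nonneg_right (by linarith) (sub_nonneg.2 h0)
    rw [e1, e2, ← sub_nonneg]
    have h3 : ∀ a b u v : ℝ, a + u / c - (b + v / c) = (c * (a - b) + u - v) / c := by
      intro a b u v
      field_simp
      ring
    rw [h3]
    exact div_nonneg (by linarith) hc.le

/-- The probability of the bounds at time `t` for the particles of `η` in `V`. -/
noncomputable def aV (lam : ℝ) (F : Finset (Site d)) (K : Site d → ℕ) (t : NNReal)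
    (V : Finset (Site d)) (η : Site d → ℕ) : ℝ :=
  semi lam Set.univ t (phiV F K) (st0 (cut V η))

lemma aV_anti (hd : 1 ≤ d) (hl : 0 < lam) (F : Finset (Site d)) (K : Site d → ℕ) (t : NNReal)
    {V V' : Finset (Site d)} (h : V ⊆ V') (η : Site d → ℕ) :
    aV lam F K t V' η ≤ aV lam F K t V η := by
  obtain ⟨N, hN⟩ : ∃ N, N = ∑ y ∈ V', η y := ⟨_, rfl⟩
  have s1 : Small N (st0 (cut V η)).1 := hN ▸ small_cut h η
  have s2 : Small N (st0 (cut V' η)).1 := hN ▸ small_cut Subset.rfl η
  have hc : (0 : ℝ) < 2 * ((1 + lam) * N) + 1 := by positivity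
  have h0 : (0 : ℝ) ≤ (1 + lam) * N := by positivity
  have hN1 : (1 + lam) * N ≤ 2 * ((1 + lam) * N) + 1 := by linarith
  have hη : ∀ y, cut V η y ≤ cut V' η y := fun y => by
    unfold cut
    split_ifs with h1 h2
    · exact le_rfl
    · exact absurd (h h1) h2
    · exact Nat.zero_le _
    · exact le_rfl
  have h1 := semi_le (D := Set.univ) hd hl hc hN1 (phiV_abs F K) s2 (fun _ => 0) t.coe_nonneg
    (u := fun n => Uq lam Set.univ (2 * ((1 + lam) * N) + 1) (phiV F K) n
      (st0 (cut V η), fun _ => 0))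
    (fun n => q_meas _ n _) fun n τ => Uq_abs hl hc hN1 (phiV_abs F K) n s1 τ
  have h2 := h1.1 fun n τ => Uq_anti hl hc (by linarith) F K hη τ n _ _ (JV.start s1 τ)
    (JV.start s2 τ) fun _ => le_rfl
  rw [← semi_eq hd hl hc hN1 (phiV_abs F K) t s1] at h2
  exact h2

lemma aV_spec (hd : 1 ≤ d) (hl : 0 < lam) (F : Finset (Site d)) (K : Site d → ℕ)
    (V : Finset (Site d)) (η : Site d → ℕ) :
    MeasurableSet (BV F K (cut V η)) ∧
      Tendsto (fun t => aV lam F K t V η) atTop (𝓝 ((stackLaw d lam).real (BV F K (cut V η)))) ∧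
      ∀ t, (stackLaw d lam).real (BV F K (cut V η)) ≤ aV lam F K t V η ∧ aV lam F K t V η ≤ 1 := by
  have hp := stackLaw_prob hd hl
  obtain ⟨N, hN⟩ : ∃ N, N = ∑ y ∈ V, η y := ⟨_, rfl⟩
  have s1 : Small N (st0 (cut V η)).1 := hN ▸ small_cut Subset.rfl η
  have hc : (0 : ℝ) < (1 + lam) * N + 1 := by positivity
  have hN1 : (1 + lam) * N ≤ (1 + lam) * N + 1 := by linarith
  obtain ⟨hm, ht⟩ := semi_tendsto hd hl hc hN1 (phiV_abs F K) s1 (fun _ => 0)
    (Uq_lim hl hc hN1 F K s1)
  refine ⟨hm, ht, fun t => ⟨?_, ?_⟩⟩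
  · have h0 : ∀ τ, |(BV F K (cut V η)).indicator (1 : Stack d → ℝ) τ| ≤ 1 := fun τ => by
      by_cases h : τ ∈ BV F K (cut V η)
      · rw [Set.indicator_of_mem h, Pi.one_apply, abs_one]
      · rw [Set.indicator_of_notMem h, abs_zero]
        exact zero_le_one
    have h2 : ∀ _ : ℕ, Measurable ((BV F K (cut V η)).indicator (1 : Stack d → ℝ)) :=
      fun _ => measurable_one.indicator hm
    have h3 := semi_le (D := Set.univ) hd hl hc hN1 (phiV_abs F K) s1 (fun _ => 0)
      t.coe_nonneg (u := fun _ => (BV F K (cut V η)).indicator 1) h2 (fun _ => h0)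
    have h1 := h3.2 (Uq_ge hl hc hN1 F K s1)
    rwa [poi_const, integral_indicator_one hm] at h1
  · have h3 := semi_le (D := Set.univ) hd hl hc hN1 (phiV_abs F K) s1 (fun _ => 0)
      t.coe_nonneg (u := fun _ _ => 1) (fun _ => measurable_const) (fun _ _ => abs_one.le)
    have h1 := h3.1 fun n τ => (abs_le.1 (Uq_abs hl hc hN1 (phiV_abs F K) n s1 τ)).2
    rw [poi_const] at h1
    simpa [aV] using h1

end Pool.Agent.ARW
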