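import Pool.Agent.P.MP_3af8b7_pr.CTQ

/-! The wired chain in continuous time is the wired chain of the stack representation. -/

open Classical Finset MeasureTheory Filter Topology

namespace Pool.Agent.ARW

variable {d : ℕ} {lam : ℝ}

lemma pathSteps_cases {V : Set (Site d)} {τ : Stack d} {m : ℕ} {s f : State d}
    (h : PathSteps V τ m s f) : s = f ∨ ∃ x ∈ V, Act (s.1 x) ∧ s.2 x < f.2 x := by
  cases h with
  | refl => exact Or.inl rfl
  | step x hx ha hs =>
    have h1 := path_le hs x
    rw [path_snd, if_pos rfl] at h1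
    exact Or.inr ⟨x, hx, ha, h1⟩

lemma sup_eq_of_tendsto {u : NNReal → ℝ} {g : ℝ} (hb : ∀ t, u t ≤ g)
    (ht : Tendsto u atTop (𝓝 g)) : ⨆ t, u t = g :=
  le_antisymm (ciSup_le hb)
    (le_of_tendsto' ht fun t => le_ciSup ⟨g, Set.forall_mem_range.2 hb⟩ t)

theorem wiredCT_eq (hd : 1 ≤ d) (hl : 0 < lam) (V w w' : Finset (Site d)) (hw : w ⊆ V)
    {v : Site d} (hv : v ∈ V) : wiredCT lam V w v w' = wired lam V w v w' := by
  have hp := stackLaw_prob hd hl
  set σ : Site d → Loc := Function.update (conf w) v (add (conf w v)) with hσ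
  have hσ0 : ∀ y ∉ V, σ y = some 0 := fun y hy => by
    rw [hσ, Function.update_of_ne fun e => hy (by rw [e]; exact hv), conf,
      if_neg fun k => hy (hw k)]
  set N := ∑ y ∈ V, cnt (σ y) with hN
  have hs : Small N σ := small_of_supp hσ0
  set c : ℝ := (1 + lam) * N + 1 with hc
  have hc0 : 0 < c := by positivity
  have hcN : (1 + lam) * N ≤ c := by linarith
  set f : CState d → ℝ := fun s => if s.1 = conf w' then 1 else 0 with hf
  have hf0 : ∀ s, 0 ≤ f s ∧ f s ≤ 1 := fun s => by
    simp only [hf]
    split_ifs <;> norm_num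
  have hf1 : ∀ s, |f s| ≤ 1 := fun s => by
    rw [abs_of_nonneg (hf0 s).1]
    exact (hf0 s).2
  set W : Set (Stack d) := {τ | ∃ h, Reach (V : Set (Site d)) τ (σ, fun _ => 0) (conf w', h)}
    with hW
  obtain ⟨q₀, hq₀⟩ : ∃ q : QState d, q = ((σ, fun _ => 0), fun _ => 0) := ⟨_, rfl⟩
  let I : Stack d → QState d → Prop := fun τ q => Small N q.1.1 ∧ (∀ y ∉ V, q.1.1 y = some 0) ∧
    Reach (V : Set (Site d)) τ (σ, fun _ => 0) (q.1.1, q.2)
  have hIV : ∀ τ q x, I τ q → Act (q.1.1 x) → x ∈ V := fun τ q x hq hx => by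
    by_contra hc
    rw [hq.2.1 x hc] at hx
    exact not_act_iff.2 (Or.inr rfl) hx
  have hI : ∀ τ q, I τ q → ∀ x, Act (q.1.1 x) → I τ (qT V τ q x) := fun τ q hq x hx => by
    have hxV := hIV τ q x hq hx
    refine ⟨qT_small hq.1 τ hx, fun y hy => ?_, ?_⟩
    · have h1 := congrFun (congrArg Prod.fst (qT_topple (D := V) τ q x)) y
      rw [path_fst, if_neg fun e => hy (by rw [e]; exact hxV), if_neg fun k => hy k.2.2] at h1
      exact h1.trans (hq.2.1 y hy)
    · rw [qT_topple]
      exact hq.2.2.tail ⟨x, hxV, hx, rfl⟩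
  have hI0 : ∀ τ, I τ q₀ := fun τ => by
    rw [hq₀]
    exact ⟨hs, hσ0, Relation.ReflTransGen.refl⟩
  have hle : ∀ n τ, Uq lam V c f n q₀ τ ≤ W.indicator 1 τ := fun n τ => by
    refine MK_iter_le (cls_q hl hc0 hcN τ (fun _ h => h.1) (hI τ)) (fun q hq => ?_) n q₀ (hI0 τ)
    by_cases h : τ ∈ W
    · rw [Set.indicator_of_mem h]
      exact (hf0 _).2
    · rw [Set.indicator_of_notMem h]
      exact le_of_eq (if_neg fun e => h ⟨q.2, by rw [← e]; exact hq.2.2⟩)
  have hlim : ∀ τ, Tendsto (fun n => Uq lam V c f n q₀ τ) atTop (𝓝 (W.indicator 1 τ)) := by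
    intro τ
    by_cases h : τ ∈ W
    · rw [Set.indicator_of_mem h]
      obtain ⟨H, hH⟩ := h
      have hst : ∀ x ∈ (V : Set (Site d)), ¬ Act ((conf w', H).1 x) :=
        fun x _ => bridge_conf_stable w' x
      let I' : QState d → Prop := fun q => I τ q ∧
        ∃ m, PathSteps (V : Set (Site d)) τ m (q.1.1, q.2) (conf w', H)
      have hI' : ∀ q, I' q → ∀ x, Act (q.1.1 x) → I' (qT V τ q x) := fun q hq x hx => by
        obtain ⟨m, hm⟩ := hq.2
        obtain ⟨k, -, hk⟩ := path_diamond hm hst (hIV τ q x hq.1 hx) hx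
        exact ⟨hI τ q hq.1 x hx, k, by rw [qT_topple]; exact hk⟩
      have h1 := MK_decay (cls_q hl hc0 hcN τ (fun _ h => h.1.1) hI')
        (fun q => ∑ y ∈ V, (H y - q.2 y)) (p := 1) one_pos
        (fun q _ x _ => sum_le_sum fun y _ => by
          show H y - Function.update q.2 x (q.2 x + 1) y ≤ _
          rw [Function.update_apply]
          split_ifs with e
          · rw [e]
            omega
          · exact le_rfl)
        (fun q hq h0 => by
          obtain ⟨m, hm⟩ := hq.2
          rcases pathSteps_cases hm with e | ⟨x, hx, ha, hlt⟩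
          · exact absurd (sum_eq_zero fun y _ => by
              rw [show q.2 = H from congrArg Prod.snd e, Nat.sub_self]) h0
          · refine ⟨x, hq.1.1.mem_supA ha, ?_, sum_lt_sum (fun y _ => ?_) ⟨x, hx, ?_⟩⟩
            · have h2 : (1 : ℝ) ≤ actv (q.1.1 x) := by exact_mod_cast one_le_actv ha
              unfold qR
              nlinarith
            · show H y - Function.update q.2 x (q.2 x + 1) y ≤ _
              rw [Function.update_apply]
              split_ifs with e
              · rw [e]
                omega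
              · exact le_rfl
            · show H x - Function.update q.2 x (q.2 x + 1) x < _
              rw [Function.update_self]
              simp only at hlt
              omega)
        (f := fun q => 1 + -1 * f q.1)
        (fun q _ => by constructor <;> linarith [hf0 q.1])
        (fun q hq h0 => by
          obtain ⟨m, hm⟩ := hq.2
          rcases pathSteps_cases hm with e | ⟨x, hx, -, hlt⟩
          · have h2 : f q.1 = 1 := if_pos (congrArg Prod.fst e)
            rw [h2]
            ring
          · have h2 := sum_eq_zero_iff.1 h0 x hx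
            simp only at hlt
            omega)
        q₀ ⟨hI0 τ, by rw [hq₀]; exact path_reach.1 hH⟩
      simp only [MK_iter_affine] at h1
      have h2 := (h1.const_mul (-1)).const_add 1
      simp only [mul_zero, add_zero] at h2
      refine h2.congr fun n => ?_
      unfold Uq
      ring
    · rw [Set.indicator_of_notMem h]
      refine tendsto_const_nhds.congr fun n => le_antisymm ?_ ?_
      · exact MK_iter_ge (cls_q hl hc0 hcN τ (fun _ h => h.1) (hI τ)) (fun q _ => (hf0 _).1) n q₀
          (hI0 τ)
      · have h1 := hle n τ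
        rwa [Set.indicator_of_notMem h] at h1
  rw [hq₀] at hle hlim
  obtain ⟨hWm, ht⟩ := semi_tendsto hd hl hc0 hcN hf1 (s := (σ, fun _ => 0)) hs _ hlim
  have hb : ∀ t : NNReal, semi lam V t f (σ, fun _ => 0) ≤ (stackLaw d lam).real W := fun t => by
    have h0 : ∀ τ, |W.indicator (1 : Stack d → ℝ) τ| ≤ 1 := fun τ => by
      by_cases h : τ ∈ W
      · rw [Set.indicator_of_mem h, Pi.one_apply, abs_one]
      · rw [Set.indicator_of_notMem h, abs_zero]
        exact zero_le_one
    have h2 : ∀ _ : ℕ, Measurable (W.indicator (1 : Stack d → ℝ)) :=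
      fun _ => measurable_one.indicator hWm
    have h3 := semi_le (D := V) hd hl hc0 hcN hf1 (s := (σ, fun _ => 0)) hs (fun _ => 0)
      t.coe_nonneg (u := fun _ => W.indicator 1) h2 (fun _ => h0)
    have h1 := h3.1 hle
    rwa [poi_const, integral_indicator_one hWm] at h1
  have h1 := sup_eq_of_tendsto hb ht
  unfold wiredCT wired
  exact h1

theorem chainCT_eq (hd : 1 ≤ d) (hl : 0 < lam) (V : Finset (Site d)) (k : ℕ) :
    chainCT lam V k = chain lam V k := by
  induction k with
  | zero => rfl
  | succ k ih =>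
    funext w'
    simp only [chainCT, chain, ih]
    refine sum_congr rfl fun w hw => ?_
    rw [sum_congr rfl fun v hv => wiredCT_eq hd hl V w w' (mem_powerset.1 hw) hv]

end Pool.Agent.ARW
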