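import Pool.Agent.P.MP_3af8b7_pr.Defs

/-!
Value functions of activated random walk on a finite set of sites with a general jump kernel.
-/

open Classical Finset

namespace Pool.Agent.ARW

/-- Number of particles at a site. -/
def cnt : Loc → ℕ
  | none => 1
  | some k => k

variable {α : Type*} [Fintype α]

/-- Put an active particle at a site (nothing happens for `none`, the sink). -/
noncomputable def put (σ : α → Loc) : Option α → (α → Loc)
  | none => σ
  | some y => Function.update σ y (add (σ y))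

/-- A particle jumps from `x` to `z`. -/
noncomputable def jmp (σ : α → Loc) (x : α) (z : Option α) : α → Loc :=
  put (Function.update σ x (rem (σ x))) z

/-- A sleep instruction at `x`. -/
noncomputable def slpAt (σ : α → Loc) (x : α) : α → Loc := Function.update σ x (slp (σ x))

/-- Toppling operator at `x`. -/
noncomputable def Top (Q : α → Option α → ℝ) (a : α → ℝ) (x : α) (Φ : (α → Loc) → ℝ)
    (σ : α → Loc) : ℝ :=
  a x * Φ (slpAt σ x) + (1 - a x) * ∑ z, Q x z * Φ (jmp σ x z)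

/-- `x ∈ S` holds an active particle. -/
def Unst (S : Set α) (σ : α → Loc) (x : α) : Prop := x ∈ S ∧ Act (σ x)

/-- Expected value of `ψ` at the final state, on the event of stabilizing `S` within `n` steps. -/
noncomputable def Fn (Q : α → Option α → ℝ) (a : α → ℝ) (S : Set α) (ψ : (α → Loc) → ℝ) :
    ℕ → (α → Loc) → ℝ
  | 0 => fun σ => if ∃ x, Unst S σ x then 0 else ψ σ
  | n + 1 => fun σ => if h : ∃ x, Unst S σ x then Top Q a h.choose (Fn Q a S ψ n) σ else ψ σ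

/-- Expected value of `ψ` after stabilizing `S`. -/
noncomputable def Fv (Q : α → Option α → ℝ) (a : α → ℝ) (S : Set α) (ψ : (α → Loc) → ℝ)
    (σ : α → Loc) : ℝ := ⨆ n, Fn Q a S ψ n σ

/-- Total number of particles. -/
noncomputable def tot (σ : α → Loc) : ℕ := ∑ x, cnt (σ x)

/-- Nonnegative weights, sleep probabilities in `[0,1)`. -/
def Ok (Q : α → Option α → ℝ) (a : α → ℝ) : Prop :=
  (∀ x z, 0 ≤ Q x z) ∧ ∀ x, 0 ≤ a x ∧ a x < 1

/-- Row sums at most one. -/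
def Sub (Q : α → Option α → ℝ) : Prop := ∀ x, ∑ z, Q x z ≤ 1

/-- Row sums equal to one. -/
def Sto (Q : α → Option α → ℝ) : Prop := ∀ x, ∑ z, Q x z = 1

/-- Transience, witnessed by a Lyapunov function. -/
def Tr (Q : α → Option α → ℝ) : Prop :=
  ∃ τ : α → ℝ, (∀ x, 0 ≤ τ x) ∧ ∀ x, ∑ y, Q x (some y) * τ y ≤ τ x - 1

/-- The set `I` contains the successors of `σ` that have positive weight under toppling `x`. -/
def Closed (Q : α → Option α → ℝ) (a : α → ℝ) (I : (α → Loc) → Prop) (σ : α → Loc) (x : α) :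
    Prop :=
  (a x = 0 ∨ I (slpAt σ x)) ∧ ∀ z, Q x z = 0 ∨ I (jmp σ x z)

/-- No sleeping particle. -/
def AllAct (σ : α → Loc) : Prop := ∀ x, σ x ≠ none

lemma Sto.sub {Q : α → Option α → ℝ} (h : Sto Q) : Sub Q := fun x => (h x).le

/-! ### Local algebra -/

lemma act_add (s : Loc) : Act (add s) := by
  rcases s with _ | k
  · exact ⟨1, rfl⟩
  · exact ⟨k, rfl⟩

lemma add_ne_none (s : Loc) : add s ≠ none := by rcases s with _ | k <;> simp [add]

lemma Act.ne_none {s : Loc} (h : Act s) : s ≠ none := by obtain ⟨k, rfl⟩ := h; simp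

lemma Act.rem_ne_none {s : Loc} (h : Act s) : rem s ≠ none := by
  obtain ⟨k, rfl⟩ := h; simp [rem]

lemma rem_add {s : Loc} (h : s ≠ none) : rem (add s) = s := by
  rcases s with _ | k
  · exact absurd rfl h
  · simp [add, rem]

lemma Act.add_rem {s : Loc} (h : Act s) : add (rem s) = s := by
  obtain ⟨k, rfl⟩ := h; simp [add, rem]

lemma Act.rem_add_comm {s : Loc} (h : Act s) : rem (add s) = add (rem s) := by
  rw [rem_add h.ne_none, h.add_rem]

lemma Act.add_slp {s : Loc} (h : Act s) : add (slp s) = add s := by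
  obtain ⟨k, rfl⟩ := h
  rcases k with _ | k <;> simp [add, slp]

lemma Act.slp_add {s : Loc} (h : Act s) : slp (add s) = add s := by
  obtain ⟨k, rfl⟩ := h; simp [add, slp]

lemma cnt_add (s : Loc) : cnt (add s) = cnt s + 1 := by rcases s with _ | k <;> simp [add, cnt]

lemma cnt_slp (s : Loc) : cnt (slp s) = cnt s := by
  rcases s with _ | _ | _ | k <;> simp [slp, cnt]

lemma Act.cnt_rem {s : Loc} (h : Act s) : cnt (rem s) + 1 = cnt s := by
  obtain ⟨k, rfl⟩ := h; simp [rem, cnt]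

lemma not_act_iff {s : Loc} : ¬ Act s ↔ s = none ∨ s = some 0 := by
  rcases s with _ | _ | k <;> simp [Act]

lemma cnt_le_one_of_not_act {s : Loc} (h : ¬ Act s) : cnt s ≤ 1 := by
  rcases not_act_iff.1 h with rfl | rfl <;> simp [cnt]

omit [Fintype α] in
lemma put_apply (σ : α → Loc) (z : Option α) (y : α) :
    put σ z y = if z = some y then add (σ y) else σ y := by
  rcases z with _ | z
  · simp [put]
  · by_cases h : z = y
    · subst h; simp [put]
    · simp [put, h, Function.update_of_ne (Ne.symm h)]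

omit [Fintype α] in
lemma jmp_apply (σ : α → Loc) (x : α) (z : Option α) (y : α) :
    jmp σ x z y = if z = some y then add (if y = x then rem (σ y) else σ y)
      else (if y = x then rem (σ y) else σ y) := by
  unfold jmp
  rw [put_apply]
  by_cases h : y = x
  · subst h; simp
  · simp [h]

omit [Fintype α] in
lemma slpAt_apply (σ : α → Loc) (x y : α) :
    slpAt σ x y = if y = x then slp (σ y) else σ y := by
  unfold slpAt
  by_cases h : y = x
  · subst h; simp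
  · simp [h]

omit [Fintype α] in
lemma Unst.slpAt {S : Set α} {σ : α → Loc} {x y : α} (h : Unst S σ x) (hxy : x ≠ y) :
    Unst S (slpAt σ y) x := ⟨h.1, by rw [slpAt_apply, if_neg hxy]; exact h.2⟩

omit [Fintype α] in
lemma Unst.jmp {S : Set α} {σ : α → Loc} {x y : α} (h : Unst S σ x) (hxy : x ≠ y)
    (z : Option α) : Unst S (jmp σ y z) x := ⟨h.1, by
  rw [jmp_apply, if_neg hxy]
  split_ifs
  · exact act_add _
  · exact h.2⟩

omit [Fintype α] in
lemma put_comm (σ : α → Loc) (z z' : Option α) : put (put σ z) z' = put (put σ z') z := by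
  funext y
  simp only [put_apply]
  split_ifs <;> rfl

omit [Fintype α] in
lemma slpAt_put {σ : α → Loc} {x : α} (hx : Act (σ x)) (z : Option α) :
    slpAt (put σ z) x = put (slpAt σ x) z := by
  funext y
  simp only [put_apply, slpAt_apply]
  by_cases h1 : y = x
  · subst h1
    by_cases h2 : z = some y
    · simp [h2, hx.add_slp, hx.slp_add]
    · simp [h2]
  · simp [h1]

omit [Fintype α] in
lemma jmp_put {σ : α → Loc} {x : α} (hx : Act (σ x)) (z z' : Option α) :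
    jmp (put σ z) x z' = put (jmp σ x z') z := by
  funext y
  simp only [put_apply, jmp_apply]
  by_cases h1 : y = x
  · subst h1
    by_cases h2 : z = some y <;> by_cases h3 : z' = some y <;> simp [h2, h3, hx.rem_add_comm]
  · by_cases h2 : z = some y <;> by_cases h3 : z' = some y <;> simp [h1, h2, h3]

omit [Fintype α] in
lemma slpAt_comm (σ : α → Loc) {x y : α} (h : x ≠ y) :
    slpAt (slpAt σ x) y = slpAt (slpAt σ y) x := by
  funext u
  simp only [slpAt_apply]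
  by_cases h1 : u = x <;> by_cases h2 : u = y <;> simp_all

omit [Fintype α] in
lemma slpAt_jmp {σ : α → Loc} {x y : α} (h : x ≠ y) (hx : Act (σ x)) (z : Option α) :
    slpAt (jmp σ y z) x = jmp (slpAt σ x) y z := by
  unfold jmp
  rw [slpAt_put (by rw [Function.update_of_ne h]; exact hx)]
  congr 1
  funext u
  simp only [slpAt_apply, Function.update_apply]
  by_cases h1 : u = x <;> by_cases h2 : u = y <;> simp_all

omit [Fintype α] in
lemma jmp_jmp {σ : α → Loc} {x y : α} (h : x ≠ y) (hx : Act (σ x)) (hy : Act (σ y))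
    (z z' : Option α) : jmp (jmp σ y z) x z' = jmp (jmp σ x z') y z := by
  funext u
  simp only [jmp_apply]
  by_cases h1 : u = x
  · subst h1
    by_cases h2 : z = some u <;> by_cases h3 : z' = some u <;> simp [h, h2, h3, hx.rem_add_comm]
  · by_cases h4 : u = y
    · subst h4
      by_cases h2 : z = some u <;> by_cases h3 : z' = some u <;>
        simp [h1, h2, h3, hy.rem_add_comm]
    · by_cases h2 : z = some u <;> by_cases h3 : z' = some u <;> simp [h1, h2, h3, h4]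

lemma Top_comm (Q : α → Option α → ℝ) (a : α → ℝ) {x y : α} (h : x ≠ y) (Φ : (α → Loc) → ℝ)
    {σ : α → Loc} (hx : Act (σ x)) (hy : Act (σ y)) :
    Top Q a y (Top Q a x Φ) σ = Top Q a x (Top Q a y Φ) σ := by
  unfold Top
  simp only [slpAt_comm σ h, slpAt_jmp h hx, slpAt_jmp h.symm hy]
  have e : ∑ z, Q y z * ∑ z', Q x z' * Φ (jmp (jmp σ y z) x z')
      = ∑ z', Q x z' * ∑ z, Q y z * Φ (jmp (jmp σ x z') y z) := by
    simp only [Finset.mul_sum]
    rw [Finset.sum_comm]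
    refine Finset.sum_congr rfl fun z' _ => Finset.sum_congr rfl fun z _ => ?_
    rw [jmp_jmp h hx hy]; ring
  simp only [mul_add, Finset.sum_add_distrib, mul_left_comm (Q y _) (a x),
    mul_left_comm (Q y _) (1 - a x), mul_left_comm (Q x _) (a y), mul_left_comm (Q x _) (1 - a y),
    ← Finset.mul_sum, e]
  ring

lemma Top_congr (Q : α → Option α → ℝ) (a : α → ℝ) (x : α) {Φ Ψ : (α → Loc) → ℝ} {σ : α → Loc}
    (h1 : Φ (slpAt σ x) = Ψ (slpAt σ x)) (h2 : ∀ z, Φ (jmp σ x z) = Ψ (jmp σ x z)) :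
    Top Q a x Φ σ = Top Q a x Ψ σ := by
  unfold Top; simp only [h1, h2]

lemma Top_mono {Q : α → Option α → ℝ} {a : α → ℝ} (hok : Ok Q a) (x : α)
    {Φ Ψ : (α → Loc) → ℝ} {σ : α → Loc}
    (h1 : a x = 0 ∨ Φ (slpAt σ x) ≤ Ψ (slpAt σ x))
    (h2 : ∀ z, Q x z = 0 ∨ Φ (jmp σ x z) ≤ Ψ (jmp σ x z)) :
    Top Q a x Φ σ ≤ Top Q a x Ψ σ := by
  unfold Top
  refine add_le_add ?_ (mul_le_mul_of_nonneg_left (Finset.sum_le_sum fun z _ => ?_)
    (by linarith [(hok.2 x).2]))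
  · rcases h1 with h | h
    · simp [h]
    · exact mul_le_mul_of_nonneg_left h (hok.2 x).1
  · rcases h2 z with h | h
    · simp [h]
    · exact mul_le_mul_of_nonneg_left h (hok.1 x z)

lemma Top_add (Q : α → Option α → ℝ) (a : α → ℝ) (x : α) (Φ Ψ : (α → Loc) → ℝ) (σ : α → Loc) :
    Top Q a x (fun s => Φ s + Ψ s) σ = Top Q a x Φ σ + Top Q a x Ψ σ := by
  unfold Top; simp only [mul_add, Finset.sum_add_distrib]; ring

lemma Top_mul (Q : α → Option α → ℝ) (a : α → ℝ) (x : α) (c : ℝ) (Φ : (α → Loc) → ℝ)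
    (σ : α → Loc) : Top Q a x (fun s => c * Φ s) σ = c * Top Q a x Φ σ := by
  unfold Top; simp only [mul_add, Finset.mul_sum]
  congr 1
  · ring
  · exact Finset.sum_congr rfl fun z _ => by ring

lemma Top_const (Q : α → Option α → ℝ) (a : α → ℝ) (x : α) (c : ℝ) (σ : α → Loc) :
    Top Q a x (fun _ => c) σ = c * (a x + (1 - a x) * ∑ z, Q x z) := by
  unfold Top; rw [← Finset.sum_mul]; ring

lemma Top_const_le {Q : α → Option α → ℝ} {a : α → ℝ} (hok : Ok Q a) (hs : Sub Q) (x : α) {c : ℝ}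
    (hc : 0 ≤ c) (σ : α → Loc) : Top Q a x (fun _ => c) σ ≤ c := by
  rw [Top_const]
  have := mul_le_mul_of_nonneg_left (hs x) (show 0 ≤ 1 - a x by linarith [(hok.2 x).2])
  nlinarith

variable {Q : α → Option α → ℝ} {a : α → ℝ} {S : Set α} {ψ : (α → Loc) → ℝ}

lemma Fn_stable (n : ℕ) {σ : α → Loc} (h : ¬ ∃ x, Unst S σ x) : Fn Q a S ψ n σ = ψ σ := by
  cases n <;> simp [Fn, h]

lemma Fn_zero_unst {σ : α → Loc} {x : α} (h : Unst S σ x) : Fn Q a S ψ 0 σ = 0 := by
  simp only [Fn]; rw [if_pos ⟨x, h⟩]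

/-- Abelian property in law. -/
theorem Fn_succ (n : ℕ) : ∀ {σ : α → Loc} {x : α}, Unst S σ x →
    Fn Q a S ψ (n + 1) σ = Top Q a x (Fn Q a S ψ n) σ := by
  induction n with
  | zero =>
    intro σ x hx
    have h : ∃ x, Unst S σ x := ⟨x, hx⟩
    have hy := h.choose_spec
    simp only [Fn, dif_pos h]
    by_cases e : h.choose = x
    · rw [e]
    · have e1 : Top Q a h.choose (Fn Q a S ψ 0) σ = Top Q a h.choose (fun _ => 0) σ :=
        Top_congr _ _ _ (Fn_zero_unst (hx.slpAt (Ne.symm e)))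
          fun z => Fn_zero_unst (hx.jmp (Ne.symm e) z)
      have e2 : Top Q a x (Fn Q a S ψ 0) σ = Top Q a x (fun _ => 0) σ :=
        Top_congr _ _ _ (Fn_zero_unst (hy.slpAt e)) fun z => Fn_zero_unst (hy.jmp e z)
      simp only [Fn] at e1 e2
      rw [e1, e2, Top_const, Top_const]; simp
  | succ n ih =>
    intro σ x hx
    have h : ∃ x, Unst S σ x := ⟨x, hx⟩
    have hy := h.choose_spec
    rw [Fn]
    simp only [dif_pos h]
    by_cases e : h.choose = x
    · rw [e]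
    · have e1 : Top Q a h.choose (Fn Q a S ψ (n + 1)) σ
          = Top Q a h.choose (Top Q a x (Fn Q a S ψ n)) σ :=
        Top_congr _ _ _ (ih (hx.slpAt (Ne.symm e))) fun z => ih (hx.jmp (Ne.symm e) z)
      have e2 : Top Q a x (Fn Q a S ψ (n + 1)) σ
          = Top Q a x (Top Q a h.choose (Fn Q a S ψ n)) σ :=
        Top_congr _ _ _ (ih (hy.slpAt e)) fun z => ih (hy.jmp e z)
      rw [e1, e2, Top_comm Q a (Ne.symm e) _ hx.2 hy.2]

/-- Comparison with a supersolution, `n`-step form (no condition on the row sums). -/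
theorem Fn_le_of_super (hok : Ok Q a) (I : (α → Loc) → Prop) (Φ : (α → Loc) → ℝ)
    (h0 : ∀ σ, I σ → 0 ≤ Φ σ)
    (hst : ∀ σ, I σ → (¬ ∃ x, Unst S σ x) → ψ σ ≤ Φ σ)
    (hun : ∀ σ, I σ → (∃ x, Unst S σ x) → (∀ n, Fn Q a S ψ n σ ≤ Φ σ) ∨
      ∃ x, Unst S σ x ∧ Closed Q a I σ x ∧ Top Q a x Φ σ ≤ Φ σ) :
    ∀ n σ, I σ → Fn Q a S ψ n σ ≤ Φ σ := by
  intro n
  induction n with
  | zero =>
    intro σ hσ
    by_cases h : ∃ x, Unst S σ x
    · obtain ⟨x, hx⟩ := h
      rw [Fn_zero_unst hx]; exact h0 σ hσ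
    · rw [Fn_stable _ h]; exact hst σ hσ h
  | succ n ih =>
    intro σ hσ
    by_cases h : ∃ x, Unst S σ x
    · rcases hun σ hσ h with h1 | ⟨x, hx, hc, hT⟩
      · exact h1 _
      · rw [Fn_succ n hx]
        refine le_trans (Top_mono hok x ?_ fun z => ?_) hT
        · exact hc.1.imp id fun h => ih _ h
        · exact (hc.2 z).imp id fun h => ih _ h
    · rw [Fn_stable _ h]; exact hst σ hσ h

lemma Fn_nonneg (hok : Ok Q a) (hψ : ∀ σ, 0 ≤ ψ σ) (n : ℕ) : ∀ σ, 0 ≤ Fn Q a S ψ n σ := by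
  induction n with
  | zero => intro σ; simp only [Fn]; split_ifs; exacts [le_rfl, hψ σ]
  | succ n ih =>
    intro σ
    by_cases h : ∃ x, Unst S σ x
    · obtain ⟨x, hx⟩ := h
      rw [Fn_succ n hx]
      have := Top_mono hok x (Φ := fun _ => 0) (Ψ := Fn Q a S ψ n) (σ := σ) (Or.inr (ih _))
        (fun z => Or.inr (ih _))
      rw [Top_const] at this; simpa using this
    · rw [Fn_stable _ h]; exact hψ σ

lemma Fn_mono (hok : Ok Q a) (hψ : ∀ σ, 0 ≤ ψ σ) (σ : α → Loc) :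
    Monotone fun n => Fn Q a S ψ n σ := by
  refine monotone_nat_of_le_succ fun n => ?_
  induction n generalizing σ with
  | zero =>
    by_cases h : ∃ x, Unst S σ x
    · obtain ⟨x, hx⟩ := h
      rw [Fn_zero_unst hx]; exact Fn_nonneg hok hψ _ _
    · rw [Fn_stable _ h, Fn_stable _ h]
  | succ n ih =>
    by_cases h : ∃ x, Unst S σ x
    · obtain ⟨x, hx⟩ := h
      rw [Fn_succ _ hx, Fn_succ _ hx]
      exact Top_mono hok x (Or.inr (ih _)) fun z => Or.inr (ih _)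
    · rw [Fn_stable _ h, Fn_stable _ h]

lemma tot_update (σ : α → Loc) (x : α) (s : Loc) :
    tot (Function.update σ x s) + cnt (σ x) = tot σ + cnt s := by
  unfold tot
  rw [← Finset.add_sum_erase _ _ (Finset.mem_univ x),
    ← Finset.add_sum_erase _ (fun y => cnt (σ y)) (Finset.mem_univ x)]
  have : ∑ y ∈ univ.erase x, cnt (Function.update σ x s y) = ∑ y ∈ univ.erase x, cnt (σ y) :=
    Finset.sum_congr rfl fun y hy => by rw [Function.update_of_ne (Finset.ne_of_mem_erase hy)]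
  rw [this]; simp; ring

lemma tot_slpAt (σ : α → Loc) (x : α) : tot (slpAt σ x) = tot σ := by
  have := tot_update σ x (slp (σ x))
  rw [cnt_slp] at this
  unfold slpAt; omega

lemma tot_put (σ : α → Loc) (z : Option α) :
    tot (put σ z) = tot σ + (if z = none then 0 else 1) := by
  rcases z with _ | y
  · simp [put]
  · have := tot_update σ y (add (σ y))
    rw [cnt_add] at this
    simp only [put]; simp; omega

lemma tot_jmp {σ : α → Loc} {x : α} (hx : Act (σ x)) (z : Option α) :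
    tot (jmp σ x z) + 1 = tot σ + (if z = none then 0 else 1) := by
  have h1 := tot_update σ x (rem (σ x))
  have h2 := hx.cnt_rem
  unfold jmp; rw [tot_put]; omega

lemma tot_jmp_le {σ : α → Loc} {x : α} (hx : Act (σ x)) (z : Option α) :
    tot (jmp σ x z) ≤ tot σ := by
  have := tot_jmp hx z
  split_ifs at this <;> omega

lemma finite_tot_le (n : ℕ) : {σ : α → Loc | tot σ ≤ n}.Finite := by
  have h : ∀ _x : α, {s : Loc | cnt s ≤ n}.Finite := fun _ => by
    refine ((Set.finite_Iic n).image some).insert none |>.subset ?_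
    rintro (_ | k) hk
    · simp
    · simpa [cnt] using hk
  refine (Set.Finite.pi' h).subset fun σ hσ x => ?_
  exact le_trans (Finset.single_le_sum (f := fun y => cnt (σ y)) (fun _ _ => Nat.zero_le _)
    (Finset.mem_univ x)) hσ

lemma exists_bound (Φ : (α → Loc) → ℝ) (n : ℕ) : ∃ C, 0 ≤ C ∧ ∀ σ, tot σ ≤ n → Φ σ ≤ C := by
  obtain ⟨C, hC⟩ := ((finite_tot_le (α := α) n).image Φ).bddAbove
  exact ⟨max C 0, le_max_right _ _, fun σ h => (hC ⟨σ, h, rfl⟩).trans (le_max_left _ _)⟩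

lemma closed_tot {σ : α → Loc} {x : α} (hx : Act (σ x)) {n : ℕ} (h : tot σ ≤ n) :
    Closed Q a (fun s => tot s ≤ n) σ x :=
  ⟨Or.inr ((tot_slpAt σ x).trans_le h), fun z => Or.inr ((tot_jmp_le hx z).trans h)⟩

lemma Fn_bdd (hok : Ok Q a) (hs : Sub Q) (σ : α → Loc) :
    BddAbove (Set.range fun n => Fn Q a S ψ n σ) := by
  obtain ⟨C, hC0, hC⟩ := exists_bound ψ (tot σ)
  refine ⟨C, ?_⟩
  rintro _ ⟨n, rfl⟩
  refine Fn_le_of_super hok (fun s => tot s ≤ tot σ) (fun _ => C) (fun _ _ => hC0)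
    (fun s hs _ => hC s hs) (fun s h ⟨x, hx⟩ => Or.inr ⟨x, hx, closed_tot hx.2 h, ?_⟩) n σ le_rfl
  exact Top_const_le hok hs x hC0 s

lemma Fn_le_Fv (hok : Ok Q a) (hs : Sub Q) (n : ℕ) (σ : α → Loc) :
    Fn Q a S ψ n σ ≤ Fv Q a S ψ σ := le_ciSup (Fn_bdd hok hs σ) n

lemma Fv_le {σ : α → Loc} {c : ℝ} (h : ∀ n, Fn Q a S ψ n σ ≤ c) : Fv Q a S ψ σ ≤ c := ciSup_le h

lemma Fn_tendsto (hok : Ok Q a) (hs : Sub Q) (hψ : ∀ σ, 0 ≤ ψ σ) (σ : α → Loc) :
    Filter.Tendsto (fun n => Fn Q a S ψ n σ) Filter.atTop (nhds (Fv Q a S ψ σ)) :=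
  tendsto_atTop_ciSup (Fn_mono hok hψ σ) (Fn_bdd hok hs σ)

lemma Fv_nonneg (hok : Ok Q a) (hs : Sub Q) (hψ : ∀ σ, 0 ≤ ψ σ) (σ : α → Loc) :
    0 ≤ Fv Q a S ψ σ := (Fn_nonneg hok hψ 0 σ).trans (Fn_le_Fv hok hs 0 σ)

lemma Fv_stable {σ : α → Loc} (h : ¬ ∃ x, Unst S σ x) : Fv Q a S ψ σ = ψ σ := by
  unfold Fv; simp only [Fn_stable _ h]; exact ciSup_const

lemma Top_tendsto (x : α) {Φ : ℕ → (α → Loc) → ℝ} {Ψ : (α → Loc) → ℝ}
    (h : ∀ s, Filter.Tendsto (fun n => Φ n s) Filter.atTop (nhds (Ψ s))) (σ : α → Loc) :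
    Filter.Tendsto (fun n => Top Q a x (Φ n) σ) Filter.atTop (nhds (Top Q a x Ψ σ)) := by
  unfold Top
  exact ((h _).const_mul _).add
    ((tendsto_finsetSum _ fun z _ => (h _).const_mul _).const_mul _)

/-- The value function is harmonic for every legal toppling. -/
theorem Fv_eq_Top (hok : Ok Q a) (hs : Sub Q) (hψ : ∀ σ, 0 ≤ ψ σ) {σ : α → Loc} {x : α}
    (hx : Unst S σ x) : Fv Q a S ψ σ = Top Q a x (Fv Q a S ψ) σ := by
  have h1 := (Fn_tendsto (S := S) hok hs hψ σ).comp (Filter.tendsto_add_atTop_nat 1)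
  have h2 := Top_tendsto (Q := Q) (a := a) x (Fn_tendsto (S := S) hok hs hψ) σ
  refine tendsto_nhds_unique h1 (h2.congr fun n => ?_)
  simp [Fn_succ n hx]

/-- Comparison with a supersolution. -/
theorem Fv_le_of_super (hok : Ok Q a) (hs : Sub Q) (I : (α → Loc) → Prop) (Φ : (α → Loc) → ℝ)
    (h0 : ∀ σ, I σ → 0 ≤ Φ σ)
    (hst : ∀ σ, I σ → (¬ ∃ x, Unst S σ x) → ψ σ ≤ Φ σ)
    (hun : ∀ σ, I σ → (∃ x, Unst S σ x) → Fv Q a S ψ σ ≤ Φ σ ∨
      ∃ x, Unst S σ x ∧ Closed Q a I σ x ∧ Top Q a x Φ σ ≤ Φ σ) :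
    ∀ σ, I σ → Fv Q a S ψ σ ≤ Φ σ := fun σ hσ =>
  Fv_le fun n => Fn_le_of_super hok I Φ h0 hst (fun s h1 h2 => (hun s h1 h2).imp
    (fun h n => (Fn_le_Fv hok hs n s).trans h) id) n σ hσ

/-- Additive functional `∑ g(position)` over all particles. -/
noncomputable def lin (g : α → ℝ) (σ : α → Loc) : ℝ := ∑ x, g x * cnt (σ x)

lemma lin_update (g : α → ℝ) (σ : α → Loc) (x : α) (s : Loc) :
    lin g (Function.update σ x s) = lin g σ + g x * (cnt s - cnt (σ x)) := by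
  unfold lin
  rw [← Finset.add_sum_erase _ _ (Finset.mem_univ x),
    ← Finset.add_sum_erase _ (fun y => g y * cnt (σ y)) (Finset.mem_univ x)]
  have : ∑ y ∈ univ.erase x, g y * cnt (Function.update σ x s y)
      = ∑ y ∈ univ.erase x, g y * cnt (σ y) :=
    Finset.sum_congr rfl fun y hy => by rw [Function.update_of_ne (Finset.ne_of_mem_erase hy)]
  rw [this]; simp; ring

lemma lin_slpAt (g : α → ℝ) (σ : α → Loc) (x : α) : lin g (slpAt σ x) = lin g σ := by
  unfold slpAt; rw [lin_update, cnt_slp]; ring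

lemma lin_put (g : α → ℝ) (σ : α → Loc) (z : Option α) :
    lin g (put σ z) = lin g σ + z.elim 0 g := by
  rcases z with _ | y
  · simp [put]
  · simp only [put]; rw [lin_update, cnt_add]; simp

lemma lin_jmp (g : α → ℝ) {σ : α → Loc} {x : α} (hx : Act (σ x)) (z : Option α) :
    lin g (jmp σ x z) = lin g σ - g x + z.elim 0 g := by
  unfold jmp
  rw [lin_put, lin_update]
  have : (cnt (σ x) : ℝ) = cnt (rem (σ x)) + 1 := by exact_mod_cast hx.cnt_rem.symm
  rw [this]; ring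

lemma lin_nonneg {g : α → ℝ} (hg : ∀ x, 0 ≤ g x) (σ : α → Loc) : 0 ≤ lin g σ :=
  Finset.sum_nonneg fun x _ => mul_nonneg (hg x) (Nat.cast_nonneg _)

lemma le_lin {g : α → ℝ} (hg : ∀ x, 0 ≤ g x) {σ : α → Loc} {x : α} (hx : Act (σ x)) :
    g x ≤ lin g σ := by
  have h1 : g x * cnt (σ x) ≤ lin g σ :=
    Finset.single_le_sum (f := fun y => g y * cnt (σ y))
      (fun y _ => mul_nonneg (hg y) (Nat.cast_nonneg _)) (Finset.mem_univ x)
  have h2 : (1 : ℝ) ≤ cnt (σ x) := by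
    have := hx.cnt_rem
    exact_mod_cast (by omega : 1 ≤ cnt (σ x))
  nlinarith [hg x]

lemma Top_lin (g : α → ℝ) {σ : α → Loc} {x : α} (hx : Act (σ x)) :
    Top Q a x (lin g) σ = a x * lin g σ +
      (1 - a x) * ((lin g σ - g x) * ∑ z, Q x z + ∑ y, Q x (some y) * g y) := by
  unfold Top
  rw [lin_slpAt]
  simp only [lin_jmp g hx, mul_add, Finset.sum_add_distrib, ← Finset.sum_mul]
  rw [Fintype.sum_option (fun z => Q x z * z.elim 0 g)]
  simp only [Option.elim_none, Option.elim_some]; ring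

/-- Comparison with a subsolution (uses transience). -/
theorem le_Fv_of_sub (hok : Ok Q a) (hs : Sub Q) (ht : Tr Q) (hψ : ∀ σ, 0 ≤ ψ σ)
    (I : (α → Loc) → Prop) (Φ : (α → Loc) → ℝ)
    (hst : ∀ σ, I σ → (¬ ∃ x, Unst S σ x) → Φ σ ≤ ψ σ)
    (hun : ∀ σ, I σ → (∃ x, Unst S σ x) → Φ σ ≤ Fv Q a S ψ σ ∨
      ∃ x, Unst S σ x ∧ Closed Q a I σ x ∧ Φ σ ≤ Top Q a x Φ σ) :
    ∀ σ, I σ → Φ σ ≤ Fv Q a S ψ σ := by
  intro σ0 h0
  obtain ⟨τ, hτ0, hτ⟩ := ht
  have key : ∀ ε : ℝ, 0 < ε → Φ σ0 - Fv Q a S ψ σ0 - ε * lin τ σ0 ≤ 0 := by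
    intro ε hε
    set H : (α → Loc) → ℝ := fun s => Φ s - Fv Q a S ψ s - ε * lin τ s with hH
    have hfin : {s | tot s ≤ tot σ0 ∧ I s}.Finite :=
      (finite_tot_le (tot σ0)).subset fun s hs => hs.1
    obtain ⟨s, hsm, hmax⟩ := hfin.exists_maximalFor H _ ⟨σ0, le_rfl, h0⟩
    have hmax' : ∀ t, tot t ≤ tot σ0 → I t → H t ≤ H s := fun t h1 h2 => by
      rcases le_total (H t) (H s) with h | h
      · exact h
      · exact hmax ⟨h1, h2⟩ h
    refine (hmax' σ0 le_rfl h0).trans ?_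
    by_contra hpos
    push Not at hpos
    have hl := mul_nonneg hε.le (lin_nonneg hτ0 s)
    by_cases h : ∃ x, Unst S s x
    · rcases hun s hsm.2 h with h1 | ⟨x, hx, hc, hT⟩
      · simp only [hH] at hpos; linarith
      · have e1 : Top Q a x H s ≤ H s := by
          refine le_trans (Top_mono hok x (Ψ := fun _ => H s) ?_ fun z => ?_)
            (Top_const_le hok hs x hpos.le s)
          · exact hc.1.imp id fun h => hmax' _ (by rw [tot_slpAt]; exact hsm.1) h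
          · exact (hc.2 z).imp id fun h => hmax' _ ((tot_jmp_le hx.2 z).trans hsm.1) h
        have e2 : Top Q a x H s
            = Top Q a x Φ s - Top Q a x (Fv Q a S ψ) s - ε * Top Q a x (lin τ) s := by
          have : H = fun t => (Φ t + (-1) * Fv Q a S ψ t) + (-ε) * lin τ t := by
            funext t; simp only [hH]; ring
          rw [this, Top_add, Top_add, Top_mul, Top_mul]; ring
        have e3 : Top Q a x (lin τ) s < lin τ s := by
          rw [Top_lin τ hx.2]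
          have h1 := le_lin hτ0 hx.2
          have h2 := mul_le_mul_of_nonneg_left (hs x) (sub_nonneg.2 h1)
          have h3 := hτ x
          have h4 := (hok.2 x).2
          nlinarith
        rw [e2, ← Fv_eq_Top hok hs hψ hx] at e1
        simp only [hH] at e1
        nlinarith
    · have := hst s hsm.2 h
      simp only [hH, Fv_stable h] at hpos; linarith
  by_contra hlt
  push Not at hlt
  have hl := lin_nonneg hτ0 σ0
  have := key ((Φ σ0 - Fv Q a S ψ σ0) / (lin τ σ0 + 1)) (div_pos (by linarith) (by linarith))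
  have e : (Φ σ0 - Fv Q a S ψ σ0) / (lin τ σ0 + 1) * lin τ σ0
      < Φ σ0 - Fv Q a S ψ σ0 := by
    rw [div_mul_eq_mul_div, div_lt_iff₀ (by linarith)]; nlinarith
  linarith

lemma Fn_add (ψ' : (α → Loc) → ℝ) (n : ℕ) : ∀ σ,
    Fn Q a S (fun s => ψ s + ψ' s) n σ = Fn Q a S ψ n σ + Fn Q a S ψ' n σ := by
  induction n with
  | zero => intro σ; simp only [Fn]; split_ifs <;> simp
  | succ n ih =>
    intro σ
    by_cases h : ∃ x, Unst S σ x
    · obtain ⟨x, hx⟩ := h
      rw [Fn_succ _ hx, Fn_succ _ hx, Fn_succ _ hx, ← Top_add]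
      exact Top_congr _ _ _ (ih _) fun z => ih _
    · simp only [Fn_stable _ h]

lemma Fn_mul (c : ℝ) (n : ℕ) : ∀ σ, Fn Q a S (fun s => c * ψ s) n σ = c * Fn Q a S ψ n σ := by
  induction n with
  | zero => intro σ; simp only [Fn]; split_ifs <;> simp
  | succ n ih =>
    intro σ
    by_cases h : ∃ x, Unst S σ x
    · obtain ⟨x, hx⟩ := h
      rw [Fn_succ _ hx, Fn_succ _ hx, ← Top_mul]
      exact Top_congr _ _ _ (ih _) fun z => ih _
    · simp only [Fn_stable _ h]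

lemma Fv_add (hok : Ok Q a) (hs : Sub Q) {ψ' : (α → Loc) → ℝ} (hψ : ∀ σ, 0 ≤ ψ σ)
    (hψ' : ∀ σ, 0 ≤ ψ' σ) (σ : α → Loc) :
    Fv Q a S (fun s => ψ s + ψ' s) σ = Fv Q a S ψ σ + Fv Q a S ψ' σ :=
  tendsto_nhds_unique (Fn_tendsto hok hs (fun s => add_nonneg (hψ s) (hψ' s)) σ)
    (((Fn_tendsto hok hs hψ σ).add (Fn_tendsto hok hs hψ' σ)).congr fun n => (Fn_add ψ' n σ).symm)

lemma Fv_mul (hok : Ok Q a) (hs : Sub Q) (hψ : ∀ σ, 0 ≤ ψ σ) {c : ℝ} (hc : 0 ≤ c)
    (σ : α → Loc) : Fv Q a S (fun s => c * ψ s) σ = c * Fv Q a S ψ σ :=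
  tendsto_nhds_unique (Fn_tendsto hok hs (fun s => mul_nonneg hc (hψ s)) σ)
    (((Fn_tendsto hok hs hψ σ).const_mul c).congr fun n => (Fn_mul c n σ).symm)

lemma Fv_zero (hok : Ok Q a) (hs : Sub Q) (σ : α → Loc) : Fv Q a S (fun _ => 0) σ = 0 := by
  have := Fv_mul (S := S) (ψ := fun _ => 0) hok hs (fun _ => le_rfl) (c := 0) le_rfl σ
  simpa using this

lemma Fv_sum {ι : Type*} (hok : Ok Q a) (hs : Sub Q) (t : Finset ι) {f : ι → (α → Loc) → ℝ}
    (hf : ∀ i σ, 0 ≤ f i σ) (σ : α → Loc) :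
    Fv Q a S (fun s => ∑ i ∈ t, f i s) σ = ∑ i ∈ t, Fv Q a S (f i) σ := by
  induction t using Finset.induction_on with
  | empty => simpa using Fv_zero hok hs σ
  | insert i t hi ih =>
    simp only [Finset.sum_insert hi]
    rw [Fv_add hok hs (hf i) (fun s => Finset.sum_nonneg fun j _ => hf j s), ih]

/-- Monotonicity in the test function; it is enough to compare on stable states of a closed set. -/
theorem Fv_mono_on (hok : Ok Q a) (hs : Sub Q) {ψ' : (α → Loc) → ℝ} (hψ' : ∀ σ, 0 ≤ ψ' σ)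
    (I : (α → Loc) → Prop) (hI : ∀ σ x, I σ → Unst S σ x → Closed Q a I σ x)
    (h : ∀ σ, I σ → (¬ ∃ x, Unst S σ x) → ψ σ ≤ ψ' σ) (σ : α → Loc) (hσ : I σ) :
    Fv Q a S ψ σ ≤ Fv Q a S ψ' σ :=
  Fv_le_of_super hok hs I _ (fun s _ => Fv_nonneg hok hs hψ' s)
    (fun s h1 h2 => by rw [Fv_stable h2]; exact h s h1 h2)
    (fun s h1 ⟨x, hx⟩ => Or.inr ⟨x, hx, hI s x h1 hx, (Fv_eq_Top hok hs hψ' hx).ge⟩) σ hσ

theorem Fv_mono (hok : Ok Q a) (hs : Sub Q) {ψ' : (α → Loc) → ℝ} (hψ' : ∀ σ, 0 ≤ ψ' σ)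
    (h : ∀ σ, (¬ ∃ x, Unst S σ x) → ψ σ ≤ ψ' σ) (σ : α → Loc) :
    Fv Q a S ψ σ ≤ Fv Q a S ψ' σ :=
  Fv_mono_on hok hs hψ' (fun _ => True) (fun _ _ _ _ => ⟨Or.inr trivial, fun _ => Or.inr trivial⟩)
    (fun s _ => h s) σ trivial

lemma Fv_const_le (hok : Ok Q a) (hs : Sub Q) {c : ℝ} (hc : 0 ≤ c) (σ : α → Loc) :
    Fv Q a S (fun _ => c) σ ≤ c :=
  Fv_le_of_super hok hs (fun _ => True) (fun _ => c) (fun _ _ => hc) (fun _ _ _ => le_rfl)
    (fun s _ ⟨x, hx⟩ => Or.inr ⟨x, hx, ⟨Or.inr trivial, fun _ => Or.inr trivial⟩,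
      Top_const_le hok hs x hc s⟩) σ trivial

lemma Fv_const (hok : Ok Q a) (hs : Sto Q) (ht : Tr Q) {c : ℝ} (hc : 0 ≤ c) (σ : α → Loc) :
    Fv Q a S (fun _ => c) σ = c :=
  le_antisymm (Fv_const_le hok hs.sub hc σ)
    (le_Fv_of_sub hok hs.sub ht (fun _ => hc) (fun _ => True) (fun _ => c) (fun _ _ _ => le_rfl)
      (fun s _ ⟨x, hx⟩ => Or.inr ⟨x, hx, ⟨Or.inr trivial, fun _ => Or.inr trivial⟩, by
        rw [Top_const, hs x]; simp⟩) σ trivial)

/-- Tower property: stabilize a subset first. -/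
theorem Fv_tower (hok : Ok Q a) (hs : Sub Q) (ht : Tr Q) (hψ : ∀ σ, 0 ≤ ψ σ) {S' : Set α}
    (hS : S' ⊆ S) (σ : α → Loc) : Fv Q a S' (Fv Q a S ψ) σ = Fv Q a S ψ σ :=
  le_antisymm
    (Fv_le_of_super hok hs (fun _ => True) _ (fun s _ => Fv_nonneg hok hs hψ s)
      (fun _ _ _ => le_rfl)
      (fun _ _ ⟨x, hx⟩ => Or.inr ⟨x, hx, ⟨Or.inr trivial, fun _ => Or.inr trivial⟩,
        (Fv_eq_Top hok hs hψ ⟨hS hx.1, hx.2⟩).ge⟩) σ trivial)
    (le_Fv_of_sub hok hs ht (Fv_nonneg hok hs hψ) (fun _ => True) _ (fun _ _ _ => le_rfl)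
      (fun _ _ ⟨x, hx⟩ => Or.inr ⟨x, hx, ⟨Or.inr trivial, fun _ => Or.inr trivial⟩,
        (Fv_eq_Top hok hs hψ ⟨hS hx.1, hx.2⟩).le⟩) σ trivial)

/-- Adding a particle commutes with stabilization. -/
theorem Fv_put (hok : Ok Q a) (hs : Sub Q) (ht : Tr Q) (hψ : ∀ σ, 0 ≤ ψ σ) (z : Option α)
    (σ : α → Loc) : Fv Q a S (fun s => Fv Q a S ψ (put s z)) σ = Fv Q a S ψ (put σ z) := by
  have key : ∀ s x, Unst S s x →
      Fv Q a S ψ (put s z) = Top Q a x (fun s => Fv Q a S ψ (put s z)) s := fun s x hx => by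
    have hx' : Unst S (put s z) x := ⟨hx.1, by
      rw [put_apply]; split_ifs; exacts [act_add _, hx.2]⟩
    rw [Fv_eq_Top hok hs hψ hx']
    unfold Top
    simp only [slpAt_put hx.2, jmp_put hx.2]
  exact le_antisymm
    (Fv_le_of_super hok hs (fun _ => True) _ (fun s _ => Fv_nonneg hok hs hψ _)
      (fun _ _ _ => le_rfl)
      (fun s _ ⟨x, hx⟩ => Or.inr ⟨x, hx, ⟨Or.inr trivial, fun _ => Or.inr trivial⟩,
        (key s x hx).ge⟩) σ trivial)
    (le_Fv_of_sub hok hs ht (fun s => Fv_nonneg hok hs hψ _) (fun _ => True) _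
      (fun _ _ _ => le_rfl)
      (fun s _ ⟨x, hx⟩ => Or.inr ⟨x, hx, ⟨Or.inr trivial, fun _ => Or.inr trivial⟩,
        (key s x hx).le⟩) σ trivial)

end Pool.Agent.ARW
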