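import Mathlib

/-!
Activated random walk on `ℤ^d` in the site-wise (stack of instructions) representation.
-/

open MeasureTheory
open Classical

namespace Pool.Agent.ARW

/-- Sites of `ℤ^d`. -/
abbrev Site (d : ℕ) := Fin d → ℤ

/-- Content of a site: `none` is one sleeping particle, `some k` is `k` active particles. -/
abbrev Loc := Option ℕ

/-- An active particle arrives (a sleeping particle is woken up). -/
def add : Loc → Loc
  | none => some 2
  | some k => some (k + 1)

/-- Effect of a sleep instruction: a lone active particle falls asleep, otherwise nothing. -/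
def slp : Loc → Loc
  | some 1 => none
  | s => s

/-- An active particle leaves. -/
def rem : Loc → Loc
  | none => none
  | some k => some (k - 1)

/-- The site holds at least one active particle. -/
def Act (s : Loc) : Prop := ∃ k, s = some (k + 1)

/-- Instructions: `(true, _)` is a sleep instruction, `(false, j)` is a jump in direction `j`. -/
abbrev Instr (d : ℕ) := Bool × (Fin d × Bool)

/-- The neighbour `x ± e_i` of `x` in direction `(i, ±)`. -/
def nbr {d : ℕ} (x : Site d) (j : Fin d × Bool) : Site d :=
  x + Pi.single j.1 (if j.2 then 1 else -1)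

/-- Law of one instruction: sleep with probability `lam/(1+lam)`, otherwise a jump to a uniform
neighbour. -/
noncomputable def instrLaw (d : ℕ) (lam : ℝ) : Measure (Instr d) :=
  ∑ i : Instr d,
    ENNReal.ofReal ((if i.1 then lam / (1 + lam) else 1 / (1 + lam)) / (2 * d)) • Measure.dirac i

/-- Stacks of instructions: `τ (x, m)` is used at the `m`-th toppling of `x`. -/
abbrev Stack (d : ℕ) := Site d × ℕ → Instr d

/-- Law of the stacks: all instructions are i.i.d. -/
noncomputable def stackLaw (d : ℕ) (lam : ℝ) : Measure (Stack d) :=
  Measure.infinitePi (fun _ : Site d × ℕ => instrLaw d lam)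

/-- A state: the configuration and the number of instructions already used at each site. -/
abbrev State (d : ℕ) := (Site d → Loc) × (Site d → ℕ)

/-- Toppling `x`: apply the next unused instruction at `x`; a particle that jumps out of `D` is
deleted. -/
noncomputable def topple {d : ℕ} (D : Set (Site d)) (τ : Stack d) (x : Site d) (s : State d) :
    State d :=
  (if (τ (x, s.2 x)).1 then Function.update s.1 x (slp (s.1 x))
    else if nbr x (τ (x, s.2 x)).2 ∈ D then
      Function.update (Function.update s.1 x (rem (s.1 x))) (nbr x (τ (x, s.2 x)).2)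
        (add (s.1 (nbr x (τ (x, s.2 x)).2)))
    else Function.update s.1 x (rem (s.1 x)),
   Function.update s.2 x (s.2 x + 1))

/-- `s'` is reached from `s` by finitely many legal topplings (of sites of `D` that hold an active
particle). -/
def Reach {d : ℕ} (D : Set (Site d)) (τ : Stack d) : State d → State d → Prop :=
  Relation.ReflTransGen (fun s s' => ∃ x ∈ D, Act (s.1 x) ∧ s' = topple D τ x s)

/-- Number of jumps onto `x` among the instructions used so far (`h y` of them at `y`). -/
noncomputable def visits {d : ℕ} (τ : Stack d) (h : Site d → ℕ) (x : Site d) : ℕ :=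
  ∑ j : Fin d × Bool,
    ((Finset.range (h (x - nbr 0 j))).filter (fun m => τ (x - nbr 0 j, m) = (false, j))).card

/-- The configuration `η` of active particles on `ℤ^d` stabilizes: every site is visited a bounded
number of times along legal toppling sequences. -/
def Stabilizes {d : ℕ} (τ : Stack d) (η : Site d → ℕ) : Prop :=
  ∀ x, ∃ K : ℕ, ∀ s, Reach Set.univ τ (fun y => some (η y), fun _ => 0) s → visits τ s.2 x ≤ K

/-- Translation of a configuration. -/
def shift {d : ℕ} (v : Site d) (η : Site d → ℕ) : Site d → ℕ := fun x => η (x + v)

/-- Stationary ergodic probability measures on `ℕ^(ℤ^d)`. -/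
def StatErg {d : ℕ} (μ : Measure (Site d → ℕ)) : Prop :=
  IsProbabilityMeasure μ ∧ (∀ v, MeasurePreserving (shift v) μ μ) ∧
    ∀ s, MeasurableSet s → (∀ v, shift v ⁻¹' s = s) → μ s = 0 ∨ μ s = 1

/-- `ζc` is the threshold density: a stationary ergodic configuration of active particles
stabilizes a.s. if its mean is below `ζc`, and a.s. does not if its mean is above `ζc`. -/
def IsThreshold (d : ℕ) (lam ζc : ℝ) : Prop :=
  ∀ μ : Measure (Site d → ℕ), StatErg μ → Integrable (fun η => (η 0 : ℝ)) μ →
    (∫ η, (η 0 : ℝ) ∂μ < ζc → ∀ᵐ p ∂(μ.prod (stackLaw d lam)), Stabilizes p.2 p.1) ∧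
    (ζc < ∫ η, (η 0 : ℝ) ∂μ → ∀ᵐ p ∂(μ.prod (stackLaw d lam)), ¬ Stabilizes p.2 p.1)

/-- The box `[1, L]^d`. -/
noncomputable def box (d L : ℕ) : Finset (Site d) := Fintype.piFinset (fun _ => Finset.Icc (1 : ℤ) L)

/-- The stable configuration with one sleeping particle at each site of `w`. -/
noncomputable def conf {d : ℕ} (w : Finset (Site d)) : Site d → Loc :=
  fun x => if x ∈ w then none else some 0

/-- Probability that the wired stabilization in `V` of `w + δ_v` is `w'`. -/
noncomputable def wired {d : ℕ} (lam : ℝ) (V w : Finset (Site d)) (v : Site d)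
    (w' : Finset (Site d)) : ℝ :=
  (stackLaw d lam).real {τ | ∃ h, Reach (V : Set (Site d)) τ
    (Function.update (conf w) v (add (conf w v)), fun _ => 0) (conf w', h)}

/-- Law at time `k` of the wired chain on `V` with uniform driving, started empty:
`chain lam V k w = P(w_k = w)`. -/
noncomputable def chain {d : ℕ} (lam : ℝ) (V : Finset (Site d)) : ℕ → Finset (Site d) → ℝ
  | 0 => fun w' => if w' = ∅ then 1 else 0
  | k + 1 => fun w' => ∑ w ∈ V.powerset, chain lam V k w * ((∑ v ∈ V, wired lam V w v w') / V.card)

end Pool.Agent.ARW
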