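import Pool.Agent.P.MP_3af8b7_pr.Core

/-!
Auxiliary definitions shared by the modules of the proof.
-/

open Classical Finset MeasureTheory

namespace Pool.Agent.ARW

section abstract
variable {α : Type*} [Fintype α]

/-- Nondecreasing nonnegative functions of the number of particles. -/
def Test (φ : ℕ → ℝ) : Prop := Monotone φ ∧ ∀ n, 0 ≤ φ n

/-- Move mass `ε` of the edge `y → x` to `y → (one more jump from x)`. -/
noncomputable def skip (Q : α → Option α → ℝ) (y x : α) (ε : ℝ) : α → Option α → ℝ :=
  fun u z => if u = y then Q y z - (if z = some x then ε else 0) + ε * Q x z else Q u z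

/-- The row vector `w (I - Q)`. -/
noncomputable def drift (Q : α → Option α → ℝ) (w : α → ℝ) (z : Option α) : ℝ :=
  z.elim 0 w - ∑ s, w s * Q s z

/-- Multiply the row of `x` by `t`. -/
noncomputable def scale (Q : α → Option α → ℝ) (x : α) (t : ℝ) : α → Option α → ℝ :=
  fun y z => if y = x then t * Q y z else Q y z

/-- One active particle everywhere. -/
def full (α : Type*) : α → Loc := fun _ => some 1

/-- Number of empty sites. -/
noncomputable def holes (σ : α → Loc) : ℕ := (univ.filter fun x => σ x = some 0).card

/-- Total number of particles as a real test function. -/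
noncomputable def totR (σ : α → Loc) : ℝ := tot σ

/-- Kernel on `α ⊕ α`: `inl y` is a source that sends its particles to the real site `inr y`. -/
noncomputable def srcQ (Q : α → Option α → ℝ) : α ⊕ α → Option (α ⊕ α) → ℝ
  | Sum.inl y, z => if z = some (Sum.inr y) then 1 else 0
  | Sum.inr y, none => Q y none
  | Sum.inr _, some (Sum.inl _) => 0
  | Sum.inr y, some (Sum.inr x) => Q y (some x)

/-- Sources never sleep. -/
def srcA (a0 : ℝ) : α ⊕ α → ℝ := Sum.elim (fun _ => 0) (fun _ => a0)

/-- All particles start at the sources. -/
def srcS (η : α → ℕ) : α ⊕ α → Loc := Sum.elim (fun y => some (η y)) (fun _ => some 0)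

end abstract

variable {d : ℕ}

/-- Target of a jump from `x` inside `V` (`none` if it leaves `V`). -/
noncomputable def tgt (V : Finset (Site d)) (x : Site d) (j : Fin d × Bool) : Option V :=
  if h : nbr x j ∈ V then some ⟨nbr x j, h⟩ else none

/-- Simple random walk killed outside `V`. -/
noncomputable def QV (V : Finset (Site d)) : V → Option V → ℝ :=
  fun x z => ((univ.filter fun j => tgt V x j = z).card : ℝ) / (2 * d)

/-- Active configuration restricted to `V`. -/
def act (V : Finset (Site d)) (η : Site d → ℕ) : V → Loc := fun x => some (η x)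

/-- Expected density of the stationary configuration of the wired chain on `[1,l]^d`. -/
noncomputable def dens (d : ℕ) (a0 : ℝ) (l : ℕ) : ℝ :=
  Fv (QV (box d l)) (fun _ => a0) Set.univ totR (full (box d l)) / (l : ℝ) ^ d

/-- The critical density. -/
noncomputable def rho (d : ℕ) (a0 : ℝ) : ℝ := ⨆ l : ℕ, dens d a0 (l + 1)

/-- Sup-distance at most `r`. -/
def near (r : ℕ) (x y : Site d) : Prop := ∀ i, |x i - y i| ≤ r

/-- The cube `s + [0, w)^d`. -/
noncomputable def cube (s : Site d) (w : ℕ) : Finset (Site d) :=
  Fintype.piFinset fun i => Finset.Ico (s i) (s i + w)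

/-- Number of windows `s + [0,w)^d` inside `[1,L]^d` with fewer than `μ w^d` particles. -/
noncomputable def bad (L w : ℕ) (μ : ℝ) (η : Site d → ℕ) : ℕ :=
  ((box d L).filter fun s => cube s w ⊆ box d L ∧
    ((∑ y ∈ cube s w, η y : ℕ) : ℝ) < μ * (w : ℝ) ^ d).card

/-- Block label of a site (blocks are cubes of side `l`). -/
def blk (l : ℕ) (y : Site d) : Site d := fun i => y i / l

/-- Slab index of a site in direction `i0`, modulo `n`. -/
def slab (i0 : Fin d) (l n : ℕ) (y : Site d) : ℕ := ((y i0 / l) % n).toNat

/-- Number of jump instructions used at `x`. -/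
noncomputable def jumps (τ : Stack d) (h : Site d → ℕ) (x : Site d) : ℕ :=
  ((Finset.range (h x)).filter fun m => (τ (x, m)).1 = false).card

/-- Legal topplings of sites of `W`, particles deleted outside `D`. -/
def ReachIn (W D : Set (Site d)) (τ : Stack d) : State d → State d → Prop :=
  Relation.ReflTransGen (fun s s' => ∃ x ∈ W, Act (s.1 x) ∧ s' = topple D τ x s)

/-- Along legal topplings inside `W` (no deletion), at most `K` jumps from `x`. -/
def Bnd (τ : Stack d) (η : Site d → ℕ) (W : Set (Site d)) (x : Site d) (K : ℕ) : Prop :=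
  ∀ s, ReachIn W Set.univ τ (fun y => some (η y), fun _ => 0) s → jumps τ s.2 x ≤ K

/-- Deterministic stabilization procedure in `V`: topple a chosen unstable site of `V`. -/
noncomputable def run (V : Finset (Site d)) (τ : Stack d) : ℕ → State d → State d
  | 0 => fun s => s
  | n + 1 => fun s =>
    if h : ∃ x : V, Act (s.1 x) then run V τ n (topple V τ (h.choose : V) s) else s

/-- Sites of `V` with a neighbour outside `V`. -/
noncomputable def bdry (V : Finset (Site d)) : Finset (Site d) :=
  V.filter fun x => ∃ j, nbr x j ∉ V

/-- Uniform average over `k` independent uniform points of `V` added to `σ`. -/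
noncomputable def avg {α : Type*} [Fintype α] (G : (α → Loc) → ℝ) : ℕ → (α → Loc) → ℝ
  | 0 => G
  | k + 1 => fun σ => (∑ v, avg G k (put σ (some v))) / Fintype.card α

end Pool.Agent.ARW
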