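import Pool.Agent.P.MP_3af8b7_pr.Defs2

open Classical Finset MeasureTheory Filter Topology

namespace Pool.Agent.ARW

variable {d : ℕ}

lemma eg_card (s : Site d) (w : ℕ) : (cube s w).card = w ^ d := by
  simp [cube, Fintype.card_piFinset]

lemma eg_mem {s y : Site d} {w : ℕ} : y ∈ cube s w ↔ ∀ i, s i ≤ y i ∧ y i < s i + w := by
  simp [cube, Fintype.mem_piFinset]

lemma eg_sum_shift {E : Type*} [AddCommMonoid E] (F : Site d → E) (v : Site d) (w : ℕ) :
    ∑ y ∈ cube (0 : Site d) w, F (y + v) = ∑ y ∈ cube v w, F y := by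
  refine sum_bij' (fun y _ => y + v) (fun y _ => y - v) ?_ ?_ ?_ ?_ ?_
  · intro y hy
    rw [eg_mem] at hy ⊢
    intro i; have := hy i; simp only [Pi.zero_apply, Pi.add_apply] at this ⊢; omega
  · intro y hy
    rw [eg_mem] at hy ⊢
    intro i; have := hy i; simp only [Pi.zero_apply, Pi.sub_apply] at this ⊢; omega
  · intro y _; simp
  · intro y _; simp
  · intro y _; rfl

lemma eg_folner (v : Site d) : Tendsto (fun w : ℕ =>
    (((w : ℝ) ^ d - ((cube v w ∩ cube (0 : Site d) w).card : ℝ)) / (w : ℝ) ^ d)) atTop (𝓝 0) := by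
  obtain ⟨r, hr⟩ : ∃ r : ℕ, ∀ i, |v i| ≤ r := by
    refine ⟨∑ i, (v i).natAbs, fun i => ?_⟩
    rw [← Int.natCast_natAbs]
    exact_mod_cast single_le_sum (f := fun i => (v i).natAbs) (fun _ _ => Nat.zero_le _) (mem_univ i)
  have h1 : Tendsto (fun w : ℕ => 1 - (1 - (2 * r : ℝ) / w) ^ d) atTop (𝓝 0) := by
    have := ((tendsto_const_nhds (x := (1 : ℝ))).sub
      (tendsto_const_div_atTop_nhds_zero_nat (2 * r : ℝ))).pow d
    simpa using (tendsto_const_nhds (x := (1 : ℝ))).sub this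
  refine tendsto_of_tendsto_of_tendsto_of_le_of_le' tendsto_const_nhds h1 ?_ ?_
  · refine Eventually.of_forall fun w => div_nonneg ?_ (by positivity)
    have : (cube v w ∩ cube (0 : Site d) w).card ≤ w ^ d := by
      rw [← eg_card v w]; exact card_le_card inter_subset_left
    have : ((cube v w ∩ cube (0 : Site d) w).card : ℝ) ≤ (w : ℝ) ^ d := by exact_mod_cast this
    linarith
  · filter_upwards [eventually_ge_atTop (2 * r + 1)] with w hw
    have hw0 : (0 : ℝ) < w := by exact_mod_cast (by omega : 0 < w)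
    have hsub : cube (fun _ => (r : ℤ)) (w - 2 * r) ⊆ cube v w ∩ cube (0 : Site d) w := by
      intro y hy
      rw [mem_inter, eg_mem, eg_mem]
      rw [eg_mem] at hy
      have hc : ((w - 2 * r : ℕ) : ℤ) = w - 2 * r := by omega
      refine ⟨fun i => ?_, fun i => ?_⟩
      · have := hy i; have := abs_le.1 (hr i); omega
      · have := hy i; simp only [Pi.zero_apply]; omega
    have h2 := card_le_card hsub
    rw [eg_card] at h2
    have h3 : ((w : ℝ) - 2 * r) ^ d ≤ ((cube v w ∩ cube (0 : Site d) w).card : ℝ) := by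
      have : ((w - 2 * r : ℕ) : ℝ) = w - 2 * r := by
        rw [Nat.cast_sub (by omega)]; push_cast; ring
      rw [← this]; exact_mod_cast h2
    have e : (1 - (2 * r : ℝ) / w) ^ d = ((w : ℝ) - 2 * r) ^ d / (w : ℝ) ^ d := by
      rw [← div_pow]; congr 1; field_simp
    rw [e, div_le_iff₀ (by positivity), sub_mul, div_mul_cancel₀ _ (by positivity)]
    linarith

section hilbert
variable {H : Type*} [NormedAddCommGroup H] [InnerProductSpace ℝ H]

noncomputable def egT (U : Site d → H →ₗᵢ[ℝ] H) (w : ℕ) (x : H) : H :=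
  ((w : ℝ) ^ d)⁻¹ • ∑ y ∈ cube (0 : Site d) w, U y x

lemma egT_norm (U : Site d → H →ₗᵢ[ℝ] H) (w : ℕ) (x : H) : ‖egT U w x‖ ≤ ‖x‖ := by
  rw [egT, norm_smul, norm_inv, Real.norm_of_nonneg (by positivity)]
  have h1 : ‖∑ y ∈ cube (0 : Site d) w, U y x‖ ≤ (w : ℝ) ^ d * ‖x‖ := by
    refine (norm_sum_le _ _).trans ?_
    simp [eg_card]
  rcases eq_or_lt_of_le (by positivity : (0 : ℝ) ≤ (w : ℝ) ^ d) with h | h
  · rw [← h]; simp
  · rw [inv_mul_le_iff₀ h]; exact h1

lemma egT_sub (U : Site d → H →ₗᵢ[ℝ] H) (w : ℕ) (x x' : H) :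
    egT U w (x - x') = egT U w x - egT U w x' := by
  simp [egT, sum_sub_distrib, smul_sub]

lemma eg_cob (U : Site d → H →ₗᵢ[ℝ] H) (hU : ∀ y v x, U y (U v x) = U (y + v) x) (v : Site d)
    (x : H) : Tendsto (fun w => egT U w (U v x - x)) atTop (𝓝 0) := by
  have h1 := (eg_folner v).mul_const (2 * ‖x‖)
  rw [zero_mul] at h1
  refine squeeze_zero_norm (fun w => ?_) h1
  have e : egT U w (U v x - x) = ((w : ℝ) ^ d)⁻¹ •
      (∑ y ∈ cube v w \ (cube v w ∩ cube 0 w), U y x -
        ∑ y ∈ cube (0 : Site d) w \ (cube v w ∩ cube 0 w), U y x) := by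
    rw [egT]
    congr 1
    simp only [map_sub, hU, sum_sub_distrib]
    rw [eg_sum_shift (fun y => U y x), ← sum_sdiff (s₂ := cube v w) inter_subset_left,
      ← sum_sdiff (s₂ := cube (0 : Site d) w) (inter_subset_right (s₁ := cube v w))]
    abel
  have hb : ∀ s : Site d, cube v w ∩ cube 0 w ⊆ cube s w →
      ‖∑ y ∈ cube s w \ (cube v w ∩ cube 0 w), U y x‖ ≤
        ((w : ℝ) ^ d - ((cube v w ∩ cube (0 : Site d) w).card : ℝ)) * ‖x‖ := by
    intro s hs
    refine (norm_sum_le _ _).trans ?_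
    simp only [LinearIsometry.norm_map, sum_const, nsmul_eq_mul]
    rw [card_sdiff_of_subset hs, Nat.cast_sub (card_le_card hs), eg_card]
    push_cast; exact le_rfl
  rw [e, norm_smul, norm_inv, Real.norm_of_nonneg (by positivity), div_eq_inv_mul, mul_assoc]
  refine mul_le_mul_of_nonneg_left ((norm_sub_le _ _).trans ?_) (by positivity)
  have := hb v inter_subset_left
  have := hb 0 inter_subset_right
  linarith

theorem eg_mean [CompleteSpace H] (U : Site d → H →ₗᵢ[ℝ] H)
    (hU : ∀ y v x, U y (U v x) = U (y + v) x) (x : H)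
    (hx : ∀ h, (∀ v, U v h = h) → inner ℝ h x = 0) :
    Tendsto (fun w => egT U w x) atTop (𝓝 0) := by
  let N : Submodule ℝ H :=
    { carrier := {x | Tendsto (fun w => egT U w x) atTop (𝓝 0)}
      add_mem' := fun {a b} ha hb => by
        have := Tendsto.add ha hb
        simp only [add_zero] at this
        refine this.congr fun w => ?_
        simp [egT, sum_add_distrib]
      zero_mem' := by simp [egT]
      smul_mem' := fun c a ha => by
        have := Tendsto.const_smul ha c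
        simp only [smul_zero] at this
        refine this.congr fun w => ?_
        simp only [egT, map_smul, ← smul_sum]
        rw [smul_comm] }
  have hcl : x ∈ N.topologicalClosure := by
    rw [← Submodule.orthogonal_orthogonal_eq_closure, Submodule.mem_orthogonal]
    intro h hh
    refine hx h fun v => ?_
    have h1 : inner ℝ (U v h - h) h = 0 := (Submodule.mem_orthogonal _ _).1 hh _ (eg_cob U hU v h)
    rw [inner_sub_left, real_inner_self_eq_norm_sq] at h1
    have h2 : ‖U v h - h‖ ^ 2 = 0 := by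
      rw [norm_sub_sq_real, LinearIsometry.norm_map]; linarith
    exact sub_eq_zero.1 (norm_eq_zero.1 (pow_eq_zero_iff two_ne_zero |>.1 h2))
  rw [Metric.tendsto_atTop]
  intro ε hε
  obtain ⟨z, hz, hd⟩ := Metric.mem_closure_iff.1 hcl (ε / 2) (half_pos hε)
  obtain ⟨w0, hw0⟩ := Metric.tendsto_atTop.1 hz (ε / 2) (half_pos hε)
  refine ⟨w0, fun w hw => ?_⟩
  have h1 := hw0 w hw
  rw [dist_zero_right] at h1 ⊢
  have h2 := egT_norm U w (x - z)
  rw [egT_sub, ← dist_eq_norm x z] at h2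
  have h3 := norm_add_le (egT U w x - egT U w z) (egT U w z)
  rw [sub_add_cancel] at h3
  linarith

end hilbert

lemma eg_shift_meas (v : Site d) : Measurable (shift v : (Site d → ℕ) → (Site d → ℕ)) :=
  measurable_pi_lambda _ fun x => measurable_pi_apply (x + v)

lemma eg_shift_shift (u v : Site d) (η : Site d → ℕ) : shift u (shift v η) = shift (u + v) η := by
  funext x; simp [shift, add_assoc]

lemma eg_const {μ : Measure (Site d → ℕ)} (hμ : StatErg μ) {g : (Site d → ℕ) → ℝ}
    (hg : Measurable g) (hinv : ∀ v, g ∘ shift v =ᵐ[μ] g) : ∃ c, g =ᵐ[μ] Function.const _ c := by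
  have := hμ.1
  refine exists_eventuallyEq_const_of_forall_separating MeasurableSet fun U hU => ?_
  set s : Set (Site d → ℕ) := ⋂ v, shift v ⁻¹' (g ⁻¹' U) with hs
  have hm : MeasurableSet s := MeasurableSet.iInter fun v => eg_shift_meas v (hg hU)
  have hi : ∀ v, shift v ⁻¹' s = s := by
    intro v
    ext η
    simp only [hs, Set.mem_preimage, Set.mem_iInter, eg_shift_shift]
    refine ⟨fun h u => ?_, fun h u => h _⟩
    simpa using h (u - v)
  have he : ∀ᵐ η ∂μ, ∀ v, g (shift v η) = g η := ae_all_iff.2 hinv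
  rcases hμ.2.2 s hm hi with h | h
  · right
    filter_upwards [he, measure_eq_zero_iff_ae_notMem.1 h] with η h1 h2 h3
    refine h2 ?_
    simp only [hs, Set.mem_preimage, Set.mem_iInter, h1]
    exact fun _ => h3
  · left
    filter_upwards [he, (mem_ae_iff_prob_eq_one hm).2 h] with η h1 h2
    simp only [hs, Set.mem_preimage, Set.mem_iInter, h1] at h2
    exact h2 0

lemma eg_trunc {μ : Measure (Site d → ℕ)} (hint : Integrable (fun η => (η 0 : ℝ)) μ) {m : ℝ}
    (hm : m < ∫ η, (η 0 : ℝ) ∂μ) : ∃ M : ℕ, m < ∫ η, ((min (η 0) M : ℕ) : ℝ) ∂μ := by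
  have h : Tendsto (fun M : ℕ => ∫ η, ((min (η 0) M : ℕ) : ℝ) ∂μ) atTop
      (𝓝 (∫ η, (η 0 : ℝ) ∂μ)) := by
    refine tendsto_integral_of_dominated_convergence (fun η => (η 0 : ℝ)) (fun M => ?_) hint
      (fun M => Eventually.of_forall fun η => ?_) (Eventually.of_forall fun η => ?_)
    · exact ((measurable_from_top (f := fun n : ℕ => ((min n M : ℕ) : ℝ))).comp
        (measurable_pi_apply 0)).aestronglyMeasurable
    · rw [Real.norm_of_nonneg (Nat.cast_nonneg _)]
      exact_mod_cast min_le_left _ _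
    · refine tendsto_const_nhds.congr' ?_
      filter_upwards [eventually_ge_atTop (η 0)] with M hM
      rw [min_eq_left hM]
  exact (h.eventually (lt_mem_nhds hm)).exists

/-- Weak ergodic theorem for cubes (lower tail). -/
theorem erg_lower {μ : Measure (Site d → ℕ)} (hμ : StatErg μ)
    (hint : Integrable (fun η => (η 0 : ℝ)) μ) {m : ℝ} (hm : m < ∫ η, (η 0 : ℝ) ∂μ) :
    ∃ M : ℕ, Tendsto (fun w : ℕ =>
      μ.real {η | ((∑ y ∈ cube (0 : Site d) w, min (η y) M : ℕ) : ℝ) < m * (w : ℝ) ^ d})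
      atTop (𝓝 0) := by
  have := hμ.1
  obtain ⟨M, hM⟩ := eg_trunc hint hm
  refine ⟨M, ?_⟩
  set c := ∫ η, ((min (η 0) M : ℕ) : ℝ) ∂μ with hc
  have hgm : Measurable fun η : Site d → ℕ => ((min (η 0) M : ℕ) : ℝ) :=
    (measurable_from_top (f := fun n : ℕ => ((min n M : ℕ) : ℝ))).comp (measurable_pi_apply 0)
  have hg2 : MemLp (fun η : Site d → ℕ => ((min (η 0) M : ℕ) : ℝ)) 2 μ :=
    MemLp.of_bound hgm.aestronglyMeasurable M (Eventually.of_forall fun η => by
      rw [Real.norm_of_nonneg (Nat.cast_nonneg _)]; exact_mod_cast min_le_right _ _)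
  have hf2 : MemLp (fun η : Site d → ℕ => ((min (η 0) M : ℕ) : ℝ) - c) 2 μ :=
    hg2.sub (memLp_const c)
  set U : Site d → Lp ℝ 2 μ →ₗᵢ[ℝ] Lp ℝ 2 μ :=
    fun v => Lp.compMeasurePreservingₗᵢ ℝ (shift v) (hμ.2.1 v) with hUdef
  have hUc : ∀ v (x : Lp ℝ 2 μ), U v x =ᵐ[μ] x ∘ shift v := fun v x =>
    Lp.coeFn_compMeasurePreserving x (hμ.2.1 v)
  have hU : ∀ y v x, U y (U v x) = U (y + v) x := by
    intro y v x
    apply Lp.ext
    filter_upwards [hUc y (U v x), hUc (y + v) x,
      (hμ.2.1 y).quasiMeasurePreserving.ae_eq_comp (hUc v x)] with η h1 h2 h3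
    rw [h1, h2, h3]
    simp only [Function.comp, eg_shift_shift, add_comm]
  have hx : ∀ h : Lp ℝ 2 μ, (∀ v, U v h = h) → inner ℝ h (hf2.toLp _) = 0 := by
    intro h hh
    have hme := (Lp.aestronglyMeasurable h).ae_eq_mk
    obtain ⟨k, hk⟩ := eg_const hμ (Lp.aestronglyMeasurable h).measurable_mk (fun v => by
      have h1 := hUc v h
      rw [hh v] at h1
      exact ((hμ.2.1 v).quasiMeasurePreserving.ae_eq_comp hme).symm.trans (h1.symm.trans hme))
    rw [L2.inner_def]
    have e : ∀ᵐ η ∂μ, inner ℝ (h η) ((hf2.toLp _) η) = k * (((min (η 0) M : ℕ) : ℝ) - c) := by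
      filter_upwards [hme, hk, hf2.coeFn_toLp] with η h1 h2 h3
      rw [h1, h2, h3]
      simp [mul_comm]
    rw [integral_congr_ae e, integral_const_mul,
      integral_sub (hg2.integrable one_le_two) (integrable_const c)]
    simp [hc]
  have hT := eg_mean U hU _ hx
  have hδ : 0 < c - m := by linarith
  have h1 : Tendsto (fun w => ‖egT U w (hf2.toLp _)‖ ^ 2 / (c - m) ^ 2) atTop (𝓝 0) := by
    have := ((tendsto_zero_iff_norm_tendsto_zero.1 hT).pow 2).div_const ((c - m) ^ 2)
    simpa using this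
  refine tendsto_of_tendsto_of_tendsto_of_le_of_le' tendsto_const_nhds h1
    (Eventually.of_forall fun w => measureReal_nonneg) ?_
  filter_upwards [eventually_ge_atTop 1] with w hw
  have hw0 : (0 : ℝ) < (w : ℝ) ^ d := by positivity
  set X := egT U w (hf2.toLp _) with hX
  have hXe : ∀ᵐ η ∂μ, X η = ((w : ℝ) ^ d)⁻¹ *
      (((∑ y ∈ cube (0 : Site d) w, min (η y) M : ℕ) : ℝ) - (w : ℝ) ^ d * c) := by
    have h2 : ∀ᵐ η ∂μ, ∀ y, U y (hf2.toLp _) η = ((min (η y) M : ℕ) : ℝ) - c := by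
      refine ae_all_iff.2 fun y => ?_
      filter_upwards [hUc y (hf2.toLp _),
        (hμ.2.1 y).quasiMeasurePreserving.ae_eq_comp hf2.coeFn_toLp] with η h3 h4
      rw [h3, h4]
      simp [shift]
    filter_upwards [Lp.coeFn_smul ((w : ℝ) ^ d)⁻¹ (∑ y ∈ cube (0 : Site d) w, U y (hf2.toLp _)),
      Lp.coeFn_finsetSum (cube (0 : Site d) w) (fun y => U y (hf2.toLp _)), h2] with η h3 h4 h5
    rw [hX, egT, h3, Pi.smul_apply, h4, smul_eq_mul]
    simp only [Finset.sum_apply, h5, sum_sub_distrib, sum_const, eg_card, nsmul_eq_mul]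
    push_cast
    rfl
  have hsq : ∫ η, (X η) ^ 2 ∂μ = ‖X‖ ^ 2 := by
    rw [← real_inner_self_eq_norm_sq, L2.inner_def]
    refine integral_congr_ae (Eventually.of_forall fun η => ?_)
    simp
  have h6 := mul_meas_ge_le_integral_of_nonneg (μ := μ) (f := fun η => (X η) ^ 2)
    (Eventually.of_forall fun η => sq_nonneg _) (Lp.memLp X).integrable_sq ((c - m) ^ 2)
  rw [hsq] at h6
  rw [le_div_iff₀ (by positivity), mul_comm]
  refine le_trans (mul_le_mul_of_nonneg_left ?_ (sq_nonneg _)) h6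
  refine ENNReal.toReal_mono (measure_ne_top _ _) (measure_mono_ae ?_)
  filter_upwards [hXe] with η h7 h8
  have h9 : X η ≤ -(c - m) := by
    rw [h7, inv_mul_le_iff₀ hw0]
    have h10 : ((∑ y ∈ cube (0 : Site d) w, min (η y) M : ℕ) : ℝ) < m * (w : ℝ) ^ d := h8
    linarith
  show (c - m) ^ 2 ≤ (X η) ^ 2
  nlinarith

end Pool.Agent.ARW
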