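import Pool.Agent.P.MP_3af8b7_pr.Lin

open Classical Finset MeasureTheory Filter Topology

namespace Pool.Agent.ARW

variable {α : Type*} [Fintype α]

/-- The kernel obtained from `Q0` after skipping with occupation measures `w`. -/
noncomputable def ffQ (Q0 : α → Option α → ℝ) (w : α → α → ℝ) : α → Option α → ℝ :=
  fun y z => Q0 y z - drift Q0 (w y) z

/-- The occupation measures after one more skip. -/
noncomputable def ffW (w : α → α → ℝ) (y x : α) (ε : ℝ) : α → α → ℝ :=
  fun y' s => if y' = y then w y s + (if s = x then ε else 0) + ε * w x s else w y' s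

/-- Admissible occupation measures. -/
structure FFAdm (Q0 : α → Option α → ℝ) (G : (α → Option α → ℝ) → Prop) (T : α → Option α → ℝ)
    (u : α → α → ℝ) (Z Lo Up : α → α → Prop) (w : α → α → ℝ) : Prop where
  good : G (ffQ Q0 w)
  w0 : ∀ y s, 0 ≤ w y s
  wu : ∀ y s, w y s ≤ u y s
  q0 : ∀ y z, 0 ≤ ffQ Q0 w y z
  zero : ∀ y s, Z y s → w y s = 0
  lo : ∀ y x, Lo y x → T y (some x) ≤ ffQ Q0 w y (some x)
  up : ∀ y x, Up y x → ffQ Q0 w y (some x) ≤ T y (some x)

section

variable {Q0 : α → Option α → ℝ} {G : (α → Option α → ℝ) → Prop} {T : α → Option α → ℝ}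
  {u : α → α → ℝ} {Z Lo Up : α → α → Prop} {w : α → α → ℝ}

lemma ff_drift_sub (Q0 : α → Option α → ℝ) (a b : α → ℝ) (z : Option α) :
    drift Q0 (fun s => a s - b s) z = drift Q0 a z - drift Q0 b z := by
  cases z <;> simp only [drift, Option.elim_none, Option.elim_some, sub_mul, sum_sub_distrib] <;>
    ring

lemma ff_drift_sum (Q0 : α → Option α → ℝ) (I : Finset α) (c : α → ℝ) (a : α → α → ℝ) (x : α) :
    drift Q0 (fun s => ∑ i ∈ I, c i * a i s) (some x) = ∑ i ∈ I, c i * drift Q0 (a i) (some x) := by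
  simp only [drift, Option.elim_some, mul_sub, sum_sub_distrib, sum_mul, mul_sum, mul_assoc]
  rw [sum_comm]

lemma ffW_ne (w : α → α → ℝ) {y y' : α} (x : α) (ε : ℝ) (h : y' ≠ y) : ffW w y x ε y' = w y' := by
  funext s
  simp only [ffW, if_neg h]

lemma ffW_self (w : α → α → ℝ) (y x : α) (ε : ℝ) (s : α) :
    ffW w y x ε y s = w y s + (if s = x then ε else 0) + ε * w x s := by
  simp only [ffW, if_true]

lemma ffQ_ffW (Q0 : α → Option α → ℝ) (w : α → α → ℝ) (y x : α) (ε : ℝ) :
    ffQ Q0 (ffW w y x ε) = skip (ffQ Q0 w) y x ε := by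
  funext y' z
  by_cases h : y' = y
  · subst h
    have h1 : ∑ s, (if s = x then ε else 0) * Q0 s z = ε * Q0 x z := by
      simp only [ite_mul, zero_mul, sum_ite_eq', mem_univ, if_true]
    have h2 : ∑ s, ε * w x s * Q0 s z = ε * ∑ s, w x s * Q0 s z := by
      simp only [mul_sum, mul_assoc]
    cases z with
    | none =>
      simp only [skip, ffQ, drift, ffW_self, if_true, add_mul, sum_add_distrib, h1, h2,
        Option.elim_none, reduceCtorEq, if_false]
      ring
    | some s =>
      simp only [skip, ffQ, drift, ffW_self, if_true, add_mul, sum_add_distrib, h1, h2,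
        Option.elim_some, Option.some.injEq]
      ring
  · simp only [skip, ffQ, if_neg h, ffW_ne w x ε h]

lemma ffQ_sub (hs : Sub Q0) (hw : ∀ y s, 0 ≤ w y s) : Sub (ffQ Q0 w) := by
  intro y
  have h1 : ∑ z, ∑ s, w y s * Q0 s z ≤ ∑ s, w y s := by
    rw [sum_comm]
    refine sum_le_sum fun s _ => ?_
    rw [← mul_sum]
    exact mul_le_of_le_one_right (hw y s) (hs s)
  have h2 : ∑ z : Option α, z.elim 0 (w y) = ∑ s, w y s := by
    rw [Fintype.sum_option]
    simp
  simp only [ffQ, drift, sum_sub_distrib, h2]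
  linarith [hs y]

lemma ffQ_cont (Q0 : α → Option α → ℝ) (y : α) (z : Option α) :
    Continuous fun w : α → α → ℝ => ffQ Q0 w y z := by
  cases z <;> simp only [ffQ, drift, Option.elim_none, Option.elim_some] <;> fun_prop

lemma ff_closed_forall {X : Type*} [TopologicalSpace X] {ι : Sort*} {p : ι → X → Prop}
    (h : ∀ i, IsClosed {w | p i w}) : IsClosed {w | ∀ i, p i w} := by
  rw [Set.setOf_forall]
  exact isClosed_iInter h

lemma ff_compact (hGc : IsClosed {Q | G Q}) : IsCompact {w | FFAdm Q0 G T u Z Lo Up w} := by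
  have hc : Continuous fun w : α → α → ℝ => ffQ Q0 w :=
    continuous_pi fun y => continuous_pi fun z => ffQ_cont Q0 y z
  have hw : ∀ y s, Continuous fun w : α → α → ℝ => w y s := fun y s => by fun_prop
  have h1 : IsClosed {w : α → α → ℝ | G (ffQ Q0 w)} := hGc.preimage hc
  have h2 : IsClosed {w : α → α → ℝ | ∀ y z, 0 ≤ ffQ Q0 w y z} :=
    ff_closed_forall fun y => ff_closed_forall fun z =>
      isClosed_le continuous_const (ffQ_cont Q0 y z)
  have h3 : IsClosed {w : α → α → ℝ | ∀ y s, Z y s → w y s = 0} :=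
    ff_closed_forall fun y => ff_closed_forall fun s => ff_closed_forall fun _ =>
      isClosed_eq (hw y s) continuous_const
  have h4 : IsClosed {w : α → α → ℝ | ∀ y x, Lo y x → T y (some x) ≤ ffQ Q0 w y (some x)} :=
    ff_closed_forall fun y => ff_closed_forall fun s => ff_closed_forall fun _ =>
      isClosed_le continuous_const (ffQ_cont Q0 y _)
  have h5 : IsClosed {w : α → α → ℝ | ∀ y x, Up y x → ffQ Q0 w y (some x) ≤ T y (some x)} :=
    ff_closed_forall fun y => ff_closed_forall fun s => ff_closed_forall fun _ =>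
      isClosed_le (ffQ_cont Q0 y _) continuous_const
  have h6 := (isCompact_Icc (a := (0 : α → α → ℝ)) (b := u)).inter_right
    ((((h1.inter h2).inter h3).inter h4).inter h5)
  have e : {w | FFAdm Q0 G T u Z Lo Up w} = Set.Icc (0 : α → α → ℝ) u ∩
      (((({w | G (ffQ Q0 w)} ∩ {w | ∀ y z, 0 ≤ ffQ Q0 w y z}) ∩
        {w | ∀ y s, Z y s → w y s = 0}) ∩
        {w | ∀ y x, Lo y x → T y (some x) ≤ ffQ Q0 w y (some x)}) ∩
        {w | ∀ y x, Up y x → ffQ Q0 w y (some x) ≤ T y (some x)}) := by
    ext w
    exact ⟨fun h => ⟨⟨h.w0, h.wu⟩, ⟨⟨⟨h.good, h.q0⟩, h.zero⟩, h.lo⟩, h.up⟩,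
      fun h => ⟨h.2.1.1.1.1, h.1.1, h.1.2, h.2.1.1.1.2, h.2.1.1.2, h.2.1.2, h.2.2⟩⟩
  rw [e]
  exact h6

/-- Filling: a maximal admissible `w` has no excess on `X`. -/
lemma ff_fill (hGc : IsClosed {Q | G Q}) (X : α → α → Prop) (h : FFAdm Q0 G T u Z Lo Up w)
    (step : ∀ w y x, FFAdm Q0 G T u Z Lo Up w → X y x → T y (some x) < ffQ Q0 w y (some x) →
      FFAdm Q0 G T u Z Lo Up (ffW w y x (ffQ Q0 w y (some x) - T y (some x)))) :
    ∃ w', FFAdm Q0 G T u Z Lo Up w' ∧ ∀ y x, X y x → ffQ Q0 w' y (some x) ≤ T y (some x) := by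
  obtain ⟨w', hw', hmax⟩ := (ff_compact (Q0 := Q0) (T := T) (u := u) (Z := Z) (Lo := Lo)
    (Up := Up) hGc).exists_isMaxOn ⟨w, h⟩ (f := fun w => ∑ y, ∑ s, w y s) (by fun_prop)
  refine ⟨w', hw', fun y x hX => ?_⟩
  by_contra hc
  have hlt := not_le.mp hc
  have h1 := hmax (step w' y x hw' hX hlt)
  simp only [Set.mem_setOf_eq] at h1
  refine absurd h1 (not_le.mpr ?_)
  have hε : 0 < ffQ Q0 w' y (some x) - T y (some x) := sub_pos.mpr hlt
  generalize ffQ Q0 w' y (some x) - T y (some x) = ε at hε
  have hle : ∀ s, w' y s + (if s = x then ε else 0) ≤ ffW w' y x ε y s := fun s => by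
    rw [ffW_self]
    exact le_add_of_nonneg_right (mul_nonneg hε.le (FFAdm.w0 hw' x s))
  refine sum_lt_sum (fun y' _ => ?_) ⟨y, mem_univ y, ?_⟩
  · by_cases e : y' = y
    · subst e
      refine sum_le_sum fun s _ => le_trans ?_ (hle s)
      split_ifs <;> linarith
    · rw [ffW_ne w' x ε e]
  · refine lt_of_lt_of_le ?_ (sum_le_sum fun s _ => hle s)
    rw [sum_add_distrib, sum_ite_eq']
    simp only [mem_univ, if_true]
    linarith

/-- The parts of admissibility that every skip preserves. -/
lemma ff_step (hs : Sub Q0)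
    (hGs : ∀ Q y x ε, (∀ x z, 0 ≤ Q x z) → Sub Q → G Q → 0 ≤ ε → ε ≤ Q y (some x) →
      G (skip Q y x ε)) (hT0 : ∀ y z, 0 ≤ T y z)
    (h : FFAdm Q0 G T u Z Lo Up w) {y x : α} {ε : ℝ} (he : ε = ffQ Q0 w y (some x) - T y (some x))
    (hε : 0 < ε) (hu : ∀ s, ffW w y x ε y s ≤ u y s)
    (hZ : ∀ s, Z y s → s ≠ x ∧ w x s = 0) (hUp : ∀ s, Up y s → ffQ Q0 w x (some s) = 0) :
    FFAdm Q0 G T u Z Lo Up (ffW w y x ε) := by
  have hrow : ∀ z, ffQ Q0 (ffW w y x ε) y z =
      ffQ Q0 w y z - (if z = some x then ε else 0) + ε * ffQ Q0 w x z := fun z => by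
    rw [ffQ_ffW]
    simp only [skip, if_true]
  have hoth : ∀ y', y' ≠ y → ffQ Q0 (ffW w y x ε) y' = ffQ Q0 w y' := fun y' e => by
    funext z
    simp only [ffQ, ffW_ne w x ε e]
  refine ⟨?_, fun y' s => ?_, fun y' s => ?_, fun y' z => ?_, fun y' s hz => ?_,
    fun y' s hl => ?_, fun y' s hl => ?_⟩
  · rw [ffQ_ffW]
    exact hGs _ y x ε h.q0 (ffQ_sub hs h.w0) h.good hε.le (by linarith [hT0 y (some x)])
  · by_cases e : y' = y
    · subst e
      rw [ffW_self]
      have := mul_nonneg hε.le (h.w0 x s)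
      have := h.w0 y' s
      split_ifs <;> linarith
    · rw [ffW_ne w x ε e]
      exact h.w0 y' s
  · by_cases e : y' = y
    · subst e
      exact hu s
    · rw [ffW_ne w x ε e]
      exact h.wu y' s
  · by_cases e : y' = y
    · subst e
      rw [hrow]
      have := mul_nonneg hε.le (h.q0 x z)
      have := h.q0 y' z
      split_ifs with e'
      · subst e'
        linarith [hT0 y' (some x)]
      · linarith
    · rw [hoth y' e]
      exact h.q0 y' z
  · by_cases e : y' = y
    · subst e
      rw [ffW_self, h.zero y' s hz, if_neg (hZ s hz).1, (hZ s hz).2]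
      ring
    · rw [ffW_ne w x ε e]
      exact h.zero y' s hz
  · by_cases e : y' = y
    · subst e
      rw [hrow]
      have := mul_nonneg hε.le (h.q0 x (some s))
      have := h.lo y' s hl
      split_ifs with e'
      · obtain rfl := Option.some.inj e'
        linarith
      · linarith
    · rw [hoth y' e]
      exact h.lo y' s hl
  · by_cases e : y' = y
    · subst e
      rw [hrow, hUp s hl]
      have := h.up y' s hl
      split_ifs <;> linarith
    · rw [hoth y' e]
      exact h.up y' s hl

/-- The excess is bounded by the drift of the remaining room. -/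
lemma ff_excess (hbal : ∀ y z, Q0 y z - drift Q0 (u y) z ≤ T y z) (w : α → α → ℝ) (y : α)
    (z : Option α) : ffQ Q0 w y z - T y z ≤ drift Q0 (fun s => u y s - w y s) z := by
  rw [ff_drift_sub]
  have := hbal y z
  simp only [ffQ]
  linarith

lemma ff_excess' (h0 : ∀ x z, 0 ≤ Q0 x z) (hbal : ∀ y z, Q0 y z - drift Q0 (u y) z ≤ T y z)
    (hwu : ∀ y s, w y s ≤ u y s) (y : α) (z : Option α) :
    ffQ Q0 w y z - T y z ≤ z.elim 0 (fun s => u y s - w y s) := by
  refine (ff_excess hbal w y z).trans ?_
  have : 0 ≤ ∑ s, (u y s - w y s) * Q0 s z :=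
    sum_nonneg fun s _ => mul_nonneg (sub_nonneg.mpr (hwu y s)) (h0 s z)
  simp only [drift]
  linarith

/-- Restricting a row vector to `P` adds the outside part to the drift on `P`. -/
lemma ff_drift_restrict (Q0 : α → Option α → ℝ) (P : α → Prop) [DecidablePred P] (m : α → ℝ)
    {x : α} (hx : P x) :
    drift Q0 (fun s => if P s then m s else 0) (some x) =
      drift Q0 m (some x) + ∑ s ∈ univ.filter (fun s => ¬ P s), m s * Q0 s (some x) := by
  simp only [drift, Option.elim_some, if_pos hx, ite_mul, zero_mul]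
  rw [← sum_filter, ← sum_filter_add_sum_filter_not univ P (fun s => m s * Q0 s (some x))]
  ring

end

/-- Feed-forward ghosting: abstract filling scheme. -/
theorem feedforward (Q0 : α → Option α → ℝ) (h0 : ∀ x z, 0 ≤ Q0 x z) (hs : Sub Q0) (ht : Tr Q0)
    (G : (α → Option α → ℝ) → Prop) (hG0 : G Q0) (hGc : IsClosed {Q | G Q})
    (hGs : ∀ Q y x ε, (∀ x z, 0 ≤ Q x z) → Sub Q → G Q → 0 ≤ ε → ε ≤ Q y (some x) →
      G (skip Q y x ε))
    (lev : α → ℕ) (K : ℕ) (T : α → Option α → ℝ) (u : α → α → ℝ) (hu : ∀ y s, 0 ≤ u y s)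
    (hT0 : ∀ y z, 0 ≤ T y z)
    (hbal : ∀ y z, Q0 y z - drift Q0 (u y) z ≤ T y z)
    (hlow : ∀ y x, lev y ≤ K → lev x < lev y → T y (some x) = 0)
    (hsame : ∀ y x, lev y ≤ K → lev x = lev y → T y (some x) ≤ Q0 y (some x))
    (htop1 : ∀ y x, K < lev y → lev x ≤ K → T y (some x) = 0)
    (htop2 : ∀ y x, K < lev y → K < lev x → u y x = 0) :
    ∃ w : α → α → ℝ, G (fun y z => Q0 y z - drift Q0 (w y) z) ∧
      (∀ y s, 0 ≤ w y s ∧ w y s ≤ u y s) ∧
      ∀ y z, 0 ≤ Q0 y z - drift Q0 (w y) z ∧ Q0 y z - drift Q0 (w y) z ≤ T y z := by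
  have hT : ∀ y x, lev x < lev y → lev x ≤ K → T y (some x) = 0 := fun y x h1 h2 => by
    by_cases h : lev y ≤ K
    exacts [hlow y x h h1, htop1 y x (not_le.mp h) h2]
  have key : ∀ i, i ≤ K + 1 → ∃ w, FFAdm Q0 G T u (fun y s => i ≤ lev y ∧ i ≤ lev s)
      (fun _ _ => False) (fun y x => lev y < i ∨ lev x < i) w := by
    intro i
    induction i with
    | zero =>
      intro _
      have e : ffQ Q0 (fun _ _ => 0) = Q0 := by
        funext y z
        cases z <;> simp [ffQ, drift]
      exact ⟨fun _ _ => 0, by rwa [e], fun _ _ => le_rfl, hu, by rwa [e], fun _ _ _ => rfl,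
        fun _ _ h => h.elim, fun _ _ h => by omega⟩
    | succ i ih =>
      intro hi
      obtain ⟨w0, hw0⟩ := ih (by omega)
      have g0 : FFAdm Q0 G T u (fun y s => i ≤ lev y ∧ i < lev s)
          (fun y x => i ≤ lev y ∧ lev x ≤ i) (fun y x => lev y < i ∨ lev x < i) w0 := by
        refine ⟨hw0.good, hw0.w0, hw0.wu, hw0.q0, fun y s h => hw0.zero y s ⟨h.1, h.2.le⟩,
          fun y x h => ?_, hw0.up⟩
        by_cases e : lev x < lev y
        · rw [hT y x e (by omega)]
          exact hw0.q0 y _
        · refine (hsame y x (by omega) (by omega)).trans ?_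
          have : 0 ≤ ∑ s, w0 y s * Q0 s (some x) :=
            sum_nonneg fun s _ => mul_nonneg (hw0.w0 y s) (h0 s _)
          simp only [ffQ, drift, Option.elim_some, hw0.zero y x ⟨h.1, by omega⟩]
          linarith
      obtain ⟨w1, hw1, f1⟩ := ff_fill hGc (fun y x => i ≤ lev y ∧ lev x = i) g0 (by
        intro w y x h hX hlt
        have hε := sub_pos.mpr hlt
        have hZ : ∀ s, i ≤ lev y ∧ i < lev s → s ≠ x ∧ w x s = 0 := fun s hs' =>
          ⟨fun e => by rw [e] at hs'; omega, h.zero x s ⟨hX.2.ge, hs'.2⟩⟩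
        have hUp : ∀ s, lev y < i ∨ lev s < i → ffQ Q0 w x (some s) = 0 := fun s hs' => by
          have h1 : lev s < i := by omega
          have h2 := h.up x s (Or.inr h1)
          rw [hT x s (by omega) (by omega)] at h2
          exact le_antisymm h2 (h.q0 x _)
        generalize he : ffQ Q0 w y (some x) - T y (some x) = ε at hε
        have h' := ff_step (u := fun y' s => u y' s + ffW w y x ε y' s) hs hGs hT0
          ⟨h.good, h.w0, fun y' s => by
            have h1 := h.wu y' s
            by_cases e : y' = y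
            · subst e
              rw [ffW_self]
              have := mul_nonneg hε.le (h.w0 x s)
              have := h.w0 y' s
              split_ifs <;> linarith
            · rw [ffW_ne w x ε e]
              linarith [h.w0 y' s], h.q0, h.zero, h.lo, h.up⟩ he.symm hε
          (fun s => le_add_of_nonneg_left (hu y s)) hZ hUp
        refine ff_step hs hGs hT0 h he.symm hε (fun s => ?_) hZ hUp
        have hm := max_row h0 ht {s | lev s ≤ i}
          (fun s => if lev s ≤ i then u y s - ffW w y x ε y s else 0) (fun x' hx' => by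
            have hx'' : lev x' ≤ i := hx'
            have h1 := ff_excess hbal (ffW w y x ε) y (some x')
            have h2 := h'.lo y x' ⟨hX.1, hx''⟩
            have h3 : 0 ≤ ∑ s ∈ univ.filter (fun s => ¬ lev s ≤ i),
                (u y s - ffW w y x ε y s) * Q0 s (some x') := by
              refine sum_nonneg fun s hs' => mul_nonneg ?_ (h0 s _)
              rw [h'.zero y s ⟨hX.1, not_le.mp (mem_filter.mp hs').2⟩, sub_zero]
              exact hu y s
            have h4 := ff_drift_restrict Q0 (fun s => lev s ≤ i)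
              (fun s => u y s - ffW w y x ε y s) hx''
            rw [h4]
            linarith)
          (fun s hs' => if_neg hs') s
        by_cases e : lev s ≤ i
        · rw [if_pos e] at hm
          linarith
        · rw [h'.zero y s ⟨hX.1, not_le.mp e⟩]
          exact hu y s)
      have r0 : FFAdm Q0 G T u (fun y s => i < lev y ∧ i < lev s)
          (fun y x => lev y = i ∧ lev x ≤ i) (fun y x => lev y < i ∨ lev x ≤ i) w1 := by
        refine ⟨hw1.good, hw1.w0, hw1.wu, hw1.q0, fun y s h => hw1.zero y s ⟨h.1.le, h.2⟩,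
          fun y x h => hw1.lo y x ⟨h.1.ge, h.2⟩, fun y x h => ?_⟩
        by_cases e : lev y < i ∨ lev x < i
        · exact hw1.up y x e
        · exact f1 y x ⟨by omega, by omega⟩
      obtain ⟨w2, hw2, f2⟩ := ff_fill hGc (fun y x => lev y = i ∧ i < lev x) r0 (by
        intro w y x h hX hlt
        have hε := sub_pos.mpr hlt
        have hq : ∀ x' s, i < lev x' → lev s ≤ i → ffQ Q0 w x' (some s) = 0 := fun x' s h1 h2 => by
          have h3 := h.up x' s (Or.inr h2)
          rw [hT x' s (by omega) (by omega)] at h3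
          exact le_antisymm h3 (h.q0 x' _)
        refine ff_step hs hGs hT0 h rfl hε (fun s => ?_) (fun s hs' => by omega)
          (fun s hs' => hq x s hX.2 (by omega))
        have hex : ffQ Q0 w y (some x) - T y (some x) ≤ u y x - w y x :=
          ff_excess' h0 hbal h.wu y (some x)
        generalize ffQ Q0 w y (some x) - T y (some x) = ε at hε hex
        rw [ffW_self]
        by_cases e : lev s ≤ i
        · have hm := max_row h0 ht {s | lev s ≤ i}
            (fun s => (if lev s ≤ i then u y s - w y s else 0) -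
              ∑ x' ∈ univ.filter (fun x' => ¬ lev x' ≤ i), (u y x' - w y x') * w x' s)
            (fun x' hx' => by
              have hx'' : lev x' ≤ i := hx'
              have h1 := ff_excess hbal w y (some x')
              have h2 := h.lo y x' ⟨hX.1, hx''⟩
              have h4 := ff_drift_restrict Q0 (fun s => lev s ≤ i)
                (fun s => u y s - w y s) hx''
              have h7 : ∑ s ∈ univ.filter (fun s => ¬ lev s ≤ i),
                  (u y s - w y s) * drift Q0 (w s) (some x') =
                  ∑ s ∈ univ.filter (fun s => ¬ lev s ≤ i),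
                  (u y s - w y s) * Q0 s (some x') := by
                refine sum_congr rfl fun s hs' => ?_
                have h8 := hq s x' (not_le.mp (mem_filter.mp hs').2) hx''
                simp only [ffQ] at h8
                rw [← sub_eq_zero.mp h8]
              rw [ff_drift_sub, ff_drift_sum, h7, h4]
              linarith)
            (fun s hs' => by
              have hs'' : ¬ lev s ≤ i := hs'
              rw [if_neg hs'', sum_eq_zero, sub_zero]
              intro x' hx'
              rw [h.zero x' s ⟨not_le.mp (mem_filter.mp hx').2, not_le.mp hs''⟩, mul_zero]) s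
          rw [if_pos e] at hm
          have h1 := single_le_sum (s := univ.filter (fun x' => ¬ lev x' ≤ i))
            (f := fun x' => (u y x' - w y x') * w x' s)
            (fun x' _ => mul_nonneg (sub_nonneg.mpr (h.wu y x')) (h.w0 x' s))
            (mem_filter.mpr ⟨mem_univ x, not_le.mpr hX.2⟩)
          have h2 := mul_le_mul_of_nonneg_right hex (h.w0 x s)
          rw [if_neg (fun e' => by rw [e'] at e; omega)]
          linarith
        · rw [h.zero x s ⟨hX.2, not_le.mp e⟩]
          have := h.wu y s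
          split_ifs with e'
          · rw [e']
            linarith
          · linarith)
      refine ⟨w2, hw2.good, hw2.w0, hw2.wu, hw2.q0, fun y s h => hw2.zero y s ⟨h.1, h.2⟩,
        fun _ _ h => h.elim, fun y x h => ?_⟩
      by_cases e : lev y < i ∨ lev x ≤ i
      · exact hw2.up y x e
      · exact f2 y x ⟨by omega, by omega⟩
  obtain ⟨w, hw⟩ := key (K + 1) le_rfl
  refine ⟨w, hw.good, fun y s => ⟨hw.w0 y s, hw.wu y s⟩, fun y z => ⟨hw.q0 y z, ?_⟩⟩
  have hex := ff_excess' h0 hbal hw.wu y z
  cases z with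
  | none => exact sub_nonpos.mp hex
  | some x =>
    by_cases e : lev y < K + 1 ∨ lev x < K + 1
    · exact hw.up y x e
    · simp only [Option.elim_some, htop2 y x (by omega) (by omega)] at hex
      exact sub_nonpos.mp (hex.trans (by linarith [hw.w0 y x]))

end Pool.Agent.ARW
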