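import Pool.Agent.P.MP_3af8b7_pr.FV3

open Classical Finset MeasureTheory Filter Topology

namespace Pool.Agent.ARW

variable {d : ℕ}

section
variable {i0 : Fin d} {l n w r D K : ℕ} {ε C a0 : ℝ} {H Rm U : ℕ → Site d → Site d → ℝ}
  {g : Site d → ℕ → Site d → ℝ} {ω : Site d → Site d → ℝ} {V : Finset (Site d)} {o : V → V → ℝ}

lemma Design.col_le (h : Design i0 l n w ε r D C H Rm U g ω) (hn : 1 ≤ n) (s : Site d)
    (Y : Finset V) : ∑ z ∈ Y, ω z s ≤ n := by
  rw [← Finset.sum_fiberwise_of_maps_to (g := fun y : V => slab i0 l n y)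
    (t := Finset.range n) fun y _ => Finset.mem_range.2 (fv_slab_lt i0 l hn _)]
  refine (Finset.sum_le_card_nsmul _ _ 1 fun j _ => ?_).trans (by simp)
  have := h.wcol j s ((Y.filter fun y : V => slab i0 l n y = j).map
    (Function.Embedding.subtype _)) fun z hz => by
      obtain ⟨y, hy, rfl⟩ := Finset.mem_map.1 hz
      exact (Finset.mem_filter.1 hy).2
  rwa [Finset.sum_map] at this

theorem Design.retention (hd : 1 ≤ d) (hl : 1 ≤ l) (hw : 1 ≤ w) (ha : 0 ≤ a0 ∧ a0 < 1)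
    (hε : 0 < ε) (hn : 1 ≤ n) (h : Design i0 l n w ε r D C H Rm U g ω) (hC : 0 ≤ C)
    (ho : Hit V (fun y => slab i0 l n y < K) o)
    (hf : (l : ℝ) ^ d * (n / (w : ℝ) ^ d) ≤ ε / (1 + ε)) {ζ b : ℝ} (hζ : 0 ≤ ζ)
    (η : Site d → ℕ) {m : ℕ} (hm : m ≤ K)
    (hb : ∀ i < m, (1 + ε) * dens d a0 l * i + 2 * b ≤ ζ * (1 - 2 * ε) * n) :
    dens d a0 l * ((V.filter fun y => slab i0 l n y < m ∧
        deep V (D + r + l + w + 2 + l) y).card : ℝ)
      - Real.exp (-b) * V.card - (badSet V w ζ η).card / ε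
      ≤ Fv (ghT (QV V) (nu V i0 l n K r Rm U o) (ups V r Rm U o 0)) (srcA a0) Set.univ
        (Ghost.earlyR (fun y : V => lvl i0 l n K y) K) (srcS fun y : V => η y) := by
  have hB := h.blocks (a0 := a0) hd hl ha hC ho
  have hok := hB.ok
  have hsub := hB.sto.sub
  have := lab_finite (V := V) (i0 := i0) (n := n) (K := K) hl
  have := Fintype.ofFinite (Lab V i0 l n K)
  have hσ : AllAct (srcS fun y : V => η y) := fun x => by rcases x with x | x <;> simp [srcS]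
  set J : Finset (Lab V i0 l n K) := univ.filter fun k => blB k ≤ m ∧
    ∀ x, deep V (D + r + l + w + 2) (siteOf (k, x) : Site d) with hJ
  set Y : Finset V := (J ×ˢ (univ : Finset (box d l))).image siteOf with hY
  have sumY : ∀ F : V → ℝ, ∑ y ∈ Y, F y = ∑ k ∈ J, ∑ x, F (siteOf (k, x)) := fun F => by
    rw [hY, Finset.sum_image fun _ _ _ _ e => siteOf_inj hl e, Finset.sum_product]
  have hcard : (Fintype.card (box d l) : ℝ) = (l : ℝ) ^ d := by
    rw [Fintype.card_coe, card_box]; push_cast; rfl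
  have hρ : 0 ≤ dens d a0 l :=
    div_nonneg (Fv_nonneg hB.okb hB.stob.sub (fun _ => Nat.cast_nonneg _) _) (by positivity)
  have h1 : Fv (ghT (QV V) (nu V i0 l n K r Rm U o) (ups V r Rm U o 0)) (srcA a0) Set.univ
      (fun s => ∑ k ∈ J, totR (s ∘ eB k)) (srcS fun y : V => η y)
      ≤ Fv (ghT (QV V) (nu V i0 l n K r Rm U o) (ups V r Rm U o 0)) (srcA a0) Set.univ
        (Ghost.earlyR (fun y : V => lvl i0 l n K y) K) (srcS fun y : V => η y) := by
    refine Fv_mono hok hsub Ghost.earlyR_nonneg (fun s _ => ?_) _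
    have e : ∑ k ∈ J, totR (s ∘ eB k) = ∑ y ∈ Y, (cnt (s (Sum.inr y)) : ℝ) := by
      rw [sumY]; unfold totR tot; push_cast; rfl
    rw [e]
    refine Finset.sum_le_sum_of_subset_of_nonneg (fun y hy => ?_) fun _ _ _ => Nat.cast_nonneg _
    obtain ⟨p, -, rfl⟩ := Finset.mem_image.1 hy
    exact Finset.mem_filter.2 ⟨Finset.mem_univ _,
      (hB.hlev p.1 trivial p.2).trans_le p.1.2.2⟩
  refine le_trans ?_ h1
  rw [Fv_sum hok hsub J (f := fun k s => totR (s ∘ eB k)) fun _ _ => Nat.cast_nonneg _]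
  have h2 : ∀ k ∈ J, ∑ x : box d l, (dens d a0 l - (Real.exp (-b)
      + (∑ s ∈ badSet V w ζ η, ω (siteOf (k, x) : Site d) s) / (ε * n)))
      ≤ Fv (ghT (QV V) (nu V i0 l n K r Rm U o) (ups V r Rm U o 0)) (srcA a0) Set.univ
        (fun s => totR (s ∘ eB k)) (srcS fun y : V => η y) := by
    intro k hk
    refine le_trans ?_ (hB.ret_lower (k := k) trivial hσ)
    rw [Finset.sum_sub_distrib, Finset.sum_const, Finset.card_univ, nsmul_eq_mul, hcard]
    have hk' := (Finset.mem_filter.1 hk).2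
    refine sub_le_sub (le_of_eq ?_) (Finset.sum_le_sum fun x _ => ?_)
    · unfold dens; field_simp
    · have e := slab_siteOf hl (k, x)
      simp only at e
      have := h.hole (a0 := a0) (b := b) hd hl hw ha hε hn hC ho hf hζ η (siteOf (k, x)) (hk'.2 x)
        (by have := hk'.1; omega) (hb _ (by have := hk'.1; omega))
      refine le_trans (le_of_eq ?_) this
      congr 1
      ext y
      simp only [Set.mem_ofPred_eq]
      omega
  refine le_trans ?_ (Finset.sum_le_sum h2)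
  rw [← sumY fun z => dens d a0 l - (Real.exp (-b)
      + (∑ s ∈ badSet V w ζ η, ω (z : Site d) s) / (ε * n)), Finset.sum_sub_distrib,
    Finset.sum_add_distrib, Finset.sum_const, Finset.sum_const, nsmul_eq_mul, nsmul_eq_mul,
    ← Finset.sum_div, Finset.sum_comm]
  have h3 : (Y.card : ℝ) ≤ V.card := by
    exact_mod_cast (Finset.card_le_univ Y).trans_eq (Fintype.card_coe V)
  have h4 : ((V.filter fun y => slab i0 l n y < m ∧
      deep V (D + r + l + w + 2 + l) y).card : ℝ) ≤ Y.card := by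
    rw [← Finset.card_map (Function.Embedding.subtype _) (s := Y)]
    refine Nat.cast_le.2 (Finset.card_le_card fun y hy => ?_)
    obtain ⟨hyV, hy1, hy2⟩ := Finset.mem_filter.1 hy
    obtain ⟨p, hp⟩ := exists_lab (i0 := i0) (n := n) (K := K) hl ⟨y, hyV⟩
      (hy2.of_near (near_refl 0 _) (by omega)) (by simpa using hy1.trans_le hm)
    refine Finset.mem_map.2 ⟨⟨y, hyV⟩, Finset.mem_image.2 ⟨p, Finset.mem_product.2
      ⟨Finset.mem_filter.2 ⟨Finset.mem_univ _, ?_, fun x => ?_⟩, Finset.mem_univ _⟩, hp⟩, rfl⟩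
    · have := slab_siteOf hl p
      rw [hp] at this
      simp only at this; omega
    · have e := blk_siteOf hl p
      rw [hp] at e
      have hn' := near_emb hl y x.2
      simp only at e
      rw [e] at hn'
      exact hy2.of_near hn' (by omega)
  have h5 : (∑ s ∈ badSet V w ζ η, ∑ z ∈ Y, ω z s) / (ε * n) ≤ (badSet V w ζ η).card / ε := by
    have := Finset.sum_le_card_nsmul (badSet V w ζ η) _ (n : ℝ) fun s _ => h.col_le hn s Y
    rw [nsmul_eq_mul] at this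
    have hn' : (0 : ℝ) < n := by exact_mod_cast hn
    rw [div_le_div_iff₀ (by positivity) hε]
    nlinarith
  nlinarith [mul_le_mul_of_nonneg_left h4 hρ, mul_le_mul_of_nonneg_left h3 (Real.exp_pos (-b)).le]

end

lemma card_slabs (i0 : Fin d) {l n : ℕ} (hl : 1 ≤ l) (L : ℕ) (T : Finset ℕ) (hT : ∀ j ∈ T, j < n) :
    T.card * ((L : ℝ) ^ d / n - l * (L : ℝ) ^ (d - 1))
      ≤ ((box d L).filter fun y => slab i0 l n y ∈ T).card := by
  rw [Finset.card_eq_sum_card_fiberwise (f := fun y => slab i0 l n y) (t := T)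
    (s := (box d L).filter fun y => slab i0 l n y ∈ T)
    fun y hy => (Finset.mem_filter.1 (Finset.mem_coe.1 hy)).2]
  push_cast
  rw [← nsmul_eq_mul]
  refine Finset.card_nsmul_le_sum _ _ _ fun j hj => (card_box_slab i0 hl (hT j hj) L).trans ?_
  refine Nat.cast_le.2 (Finset.card_le_card fun y hy => ?_)
  obtain ⟨h1, h2⟩ := Finset.mem_filter.1 hy
  exact Finset.mem_filter.2 ⟨Finset.mem_filter.2 ⟨h1, h2 ▸ hj⟩, h2⟩

lemma dens_le_one (hd : 1 ≤ d) {a0 : ℝ} (ha : 0 ≤ a0 ∧ a0 < 1) {l : ℕ} (hl : 1 ≤ l) :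
    dens d a0 l ≤ 1 := by
  have := Fv_totR_le_card (Q := QV (box d l)) (a := fun _ => a0) ⟨QV_nonneg _, fun _ => ha⟩
    (QV_sto hd _).sub (full (box d l))
  rw [Fintype.card_coe, card_box] at this
  unfold dens
  rw [div_le_one (by positivity)]
  exact_mod_cast this

/-- The finite volume estimate. -/
theorem finite_volume_strong (hd : 1 ≤ d) {a0 : ℝ} (ha : 0 < a0 ∧ a0 < 1) {ζ0 : ℝ}
    (hζ : ζ0 < rho d a0) :
    ∃ γ : ℝ, 0 < γ ∧ ∀ ζ : ℝ, 0 ≤ ζ → ζ ≤ ζ0 → ∀ δ : ℝ, 0 < δ → ∃ ε : ℝ, 0 < ε ∧ ∃ p w0 : ℕ, 1 ≤ p ∧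
      ∀ w, w0 ≤ w → p ∣ w → ∃ C D : ℝ, 0 ≤ C ∧ 0 ≤ D ∧ ∀ L : ℕ,
        ∃ X : Finset (box d L), γ * (L : ℝ) ^ d - D * (L : ℝ) ^ (d - 1) ≤ X.card ∧
        ∀ η : Site d → ℕ,
        ((ζ - δ) * (L : ℝ) ^ d - bad L w ζ η / ε - D * (L : ℝ) ^ (d - 1)
          ≤ Fv (QV (box d L)) (fun _ => a0) Set.univ totR (act (box d L) η)) ∧
          ∀ t : ℝ, 0 ≤ t → t ≤ 1 →
            ∑ x ∈ X, (1 - Fv (scale (QV (box d L)) x t) (fun _ => a0) Set.univ (fun _ => 1)
                (act (box d L) η))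
              ≤ (((∑ y ∈ box d L, η y : ℕ) : ℝ)
                  - ((ζ - δ) * (L : ℝ) ^ d - bad L w ζ η / ε - D * (L : ℝ) ^ (d - 1))) / a0
                + (1 - t) * C * ((∑ y ∈ box d L, η y : ℕ) : ℝ) := by
  have ha' : 0 ≤ a0 ∧ a0 < 1 := ⟨ha.1.le, ha.2⟩
  obtain ⟨l', hl'⟩ := exists_lt_of_lt_ciSup hζ
  set l := l' + 1 with hldef
  have hl : 1 ≤ l := by omega
  set ρ := dens d a0 l with hρdef
  have hρ1 : ρ ≤ 1 := dens_le_one hd ha' hl
  obtain ⟨q', hq'⟩ := exists_nat_one_div_lt (show 0 < ρ - ζ0 by linarith)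
  set q := q' + 2 with hq
  have hq0 : (0 : ℝ) < q := by positivity
  have hq1 : 1 / (q : ℝ) ≤ ρ - ζ0 := by
    refine le_trans (one_div_le_one_div_of_le (by positivity) ?_) hq'.le
    simp only [hq]; push_cast; linarith
  refine ⟨1 / q, by positivity, fun ζ hζ0 hζ1 δ hδ => ?_⟩
  have hρ0 : 0 < ρ := by linarith
  set ε := min (δ / 8) (1 / 8) with hεdef
  have hε : 0 < ε := lt_min (by linarith) (by norm_num)
  have hε1 : ε ≤ δ / 8 := min_le_left _ _
  have hε2 : ε ≤ 1 / 8 := min_le_right _ _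
  obtain ⟨m, hm⟩ := exists_nat_gt (max (4 / δ) (8 / (δ * ε)))
  have hm1 : 4 / δ < m := (le_max_left _ _).trans_lt hm
  have hm2 : 8 / (δ * ε) < m := (le_max_right _ _).trans_lt hm
  have hm0 : (0 : ℝ) < m := lt_trans (by positivity) hm1
  have hm0' : 1 ≤ m := by exact_mod_cast hm0
  set n := q * m with hndef
  set K := (q' + 1) * m with hK
  have hnK : n = K + m := by simp only [hndef, hK, hq]; ring
  have hn2 : 2 ≤ n := by simp only [hndef, hq]; nlinarith
  have hn0 : (0 : ℝ) < n := by positivity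
  have hmn : (m : ℝ) ≤ n := by exact_mod_cast (by omega : m ≤ n)
  let i0 : Fin d := ⟨0, hd⟩
  obtain ⟨w0, hw0⟩ := exists_design i0 hl hn2 hε
  obtain ⟨w1, hw1⟩ := exists_nat_ge ((l : ℝ) ^ d * n * (1 + ε) / ε)
  refine ⟨ε, hε, l * n, max w0 (max w1 1), by nlinarith, fun w hw hdiv => ?_⟩
  obtain ⟨r, D, C, H, Rm, U, g, ω, hC, h⟩ := hw0 w (le_of_max_le_left hw) hdiv
  have hw' : 1 ≤ w := le_of_max_le_right (le_of_max_le_right hw)
  have hw'' : (w1 : ℝ) ≤ w := by exact_mod_cast le_of_max_le_left (le_of_max_le_right hw)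
  have hf : (l : ℝ) ^ d * (n / (w : ℝ) ^ d) ≤ ε / (1 + ε) := by
    have h1 : (w : ℝ) ≤ (w : ℝ) ^ d := le_self_pow₀ (by exact_mod_cast hw') (by omega)
    rw [← mul_div_assoc, div_le_div_iff₀ (by positivity) (by linarith)]
    rw [div_le_iff₀ hε] at hw1
    nlinarith
  set R := D + r + l + w + 2 + l with hR
  refine ⟨C * (K + 1), n * l + 2 * d * R, by positivity, by positivity, fun L => ?_⟩
  obtain ⟨o, ho⟩ := exists_Hit hd (box d L) (fun y => slab i0 l n y < K)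
  have hG := h.ghost hd hC ho
  set x := (ζ * (1 - 2 * ε) - ε) * n / ((1 + ε) * ρ) with hx
  have hden : 0 < (1 + ε) * ρ := by positivity
  have hxK : ⌊x⌋₊ ≤ K := by
    refine Nat.floor_le_of_le ?_
    rw [hx, div_le_iff₀ hden]
    have e1 : (K : ℝ) = n - n / q := by
      have : (n : ℝ) / q = m := by simp only [hndef]; push_cast; field_simp
      rw [this, hnK]; push_cast; ring
    have e2 : ζ * n ≤ K * ρ := by
      rw [e1]
      have : (n : ℝ) / q * ρ ≤ n * (1 / q) := by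
        rw [mul_one_div]; exact mul_le_of_le_one_right (by positivity) hρ1
      nlinarith
    have e3 : 0 ≤ (K : ℝ) * ρ * ε := by positivity
    have e4 : 0 ≤ ζ * ε * n := by positivity
    nlinarith
  have hb : ∀ i < ⌊x⌋₊, (1 + ε) * ρ * i + 2 * (ε * n / 2) ≤ ζ * (1 - 2 * ε) * n := by
    intro i hi
    have h1 : (i : ℝ) ≤ x := by
      have : ((i + 1 : ℕ) : ℝ) ≤ x := (Nat.le_floor_iff' (by omega)).1 hi
      push_cast at this; linarith
    rw [hx, le_div_iff₀ hden] at h1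
    linarith
  have hLd : (0 : ℝ) ≤ (L : ℝ) ^ d := by positivity
  have hLd' : (0 : ℝ) ≤ (L : ℝ) ^ (d - 1) := by positivity
  have hcount : ⌊x⌋₊ * ((L : ℝ) ^ d / n) - (n * l + 2 * d * R) * (L : ℝ) ^ (d - 1)
      ≤ (((box d L).filter fun y => slab i0 l n y < ⌊x⌋₊ ∧ deep (box d L) R y).card : ℝ) := by
    have c1 := card_slabs i0 (n := n) hl L (Finset.range ⌊x⌋₊) fun j hj => by
      have := Finset.mem_range.1 hj; omega
    have c2 := card_shallow hd L R
    have c3 : ((box d L).filter fun y => slab i0 l n y ∈ Finset.range ⌊x⌋₊).card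
        ≤ ((box d L).filter fun y => slab i0 l n y < ⌊x⌋₊ ∧ deep (box d L) R y).card
          + ((box d L).filter fun x => ¬ ∀ y, near R x y → y ∈ box d L).card := by
      refine le_trans (Finset.card_le_card fun y hy => ?_) (Finset.card_union_le _ _)
      obtain ⟨h1, h2⟩ := Finset.mem_filter.1 hy
      by_cases h3 : deep (box d L) R y
      · exact Finset.mem_union_left _ (Finset.mem_filter.2 ⟨h1, Finset.mem_range.1 h2, h3⟩)
      · exact Finset.mem_union_right _ (Finset.mem_filter.2 ⟨h1, h3⟩)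
    have c4 : (⌊x⌋₊ : ℝ) ≤ n := by exact_mod_cast (by omega : ⌊x⌋₊ ≤ n)
    have c5 := mul_le_mul_of_nonneg_right c4 (show 0 ≤ (l : ℝ) * (L : ℝ) ^ (d - 1) by positivity)
    have c3' := (Nat.cast_le (α := ℝ)).2 c3
    rw [Finset.card_range] at c1
    push_cast at c3'
    nlinarith
  have hmain : ζ - δ ≤ ρ * (⌊x⌋₊ / n) - Real.exp (-(ε * n / 2)) := by
    have e1 : Real.exp (-(ε * n / 2)) ≤ δ / 4 := by
      have h1 : ε * n / 2 + 1 ≤ Real.exp (ε * n / 2) := Real.add_one_le_exp _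
      rw [Real.exp_neg, inv_le_comm₀ (Real.exp_pos _) (by positivity)]
      rw [div_lt_iff₀ (by positivity)] at hm2
      have h2 : (δ / 4)⁻¹ ≤ ε * n / 2 := by
        rw [inv_div, div_le_iff₀ hδ]
        nlinarith [mul_le_mul_of_nonneg_left hmn (show 0 ≤ δ * ε by positivity)]
      linarith
    have e2 : 1 / (n : ℝ) ≤ δ / 4 := by
      rw [div_lt_iff₀ hδ] at hm1
      rw [div_le_iff₀ hn0]; nlinarith
    have e3 : x - 1 ≤ ⌊x⌋₊ := (Nat.sub_one_lt_floor x).le
    have e4 : ρ * (x / n) = (ζ * (1 - 2 * ε) - ε) / (1 + ε) := by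
      rw [hx]; field_simp
    have e5 : ζ - 4 * ε ≤ (ζ * (1 - 2 * ε) - ε) / (1 + ε) := by
      rw [le_div_iff₀ (by linarith)]
      have : ζ ≤ 1 := by linarith
      nlinarith
    have e6 : ρ * ((x - 1) / n) ≤ ρ * (⌊x⌋₊ / n) :=
      mul_le_mul_of_nonneg_left (div_le_div_of_nonneg_right e3 hn0.le) hρ0.le
    have e7 : ρ * (1 / n) ≤ 1 / n := mul_le_of_le_one_left (by positivity) hρ1
    rw [sub_div, mul_sub] at e6
    linarith
  have hRet : ∀ η : Site d → ℕ, (ζ - δ) * (L : ℝ) ^ d - bad L w ζ η / ε - (n * l + 2 * d * R) * (L : ℝ) ^ (d - 1)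
      ≤ Fv (ghT (QV (box d L)) (nu (box d L) i0 l n K r Rm U o) (ups (box d L) r Rm U o 0))
        (srcA a0) Set.univ (Ghost.earlyR (fun y : box d L => lvl i0 l n K y) K)
        (srcS fun y : box d L => η y) := by
    intro η
    refine le_trans ?_
      (h.retention (a0 := a0) hd hl hw' ha' hε (by omega) hC ho hf hζ0 η hxK hb)
    have e1 : (bad L w ζ η : ℝ) = (badSet (box d L) w ζ η).card := rfl
    rw [card_box, ← e1, ← hρdef, ← hR]
    have e2 := mul_le_mul_of_nonneg_left hcount hρ0.le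
    have e3 := mul_le_mul_of_nonneg_right hmain hLd
    have e4 := mul_le_of_le_one_left
      (show 0 ≤ ((n : ℝ) * l + 2 * d * R) * (L : ℝ) ^ (d - 1) by positivity) hρ1
    have e5 : ρ * (⌊x⌋₊ * ((L : ℝ) ^ d / n)) = ρ * (⌊x⌋₊ / n) * (L : ℝ) ^ d := by ring
    push_cast
    nlinarith
  refine ⟨univ.filter fun s : box d L => K < lvl i0 l n K s, ?_,
    fun η => ⟨(hRet η).trans (hG.early_le ha' _), fun t t0 t1 => ?_⟩⟩
  · have c1 := card_slabs i0 (n := n) hl L (Finset.Ico K n) fun j hj => (Finset.mem_Ico.1 hj).2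
    have c2 : ((box d L).filter fun y => slab i0 l n y ∈ Finset.Ico K n).card
        ≤ (univ.filter fun s : box d L => K < lvl i0 l n K s).card := by
      rw [← Finset.card_map (Function.Embedding.subtype _)
        (s := univ.filter fun s : box d L => K < lvl i0 l n K s)]
      refine Finset.card_le_card fun y hy => ?_
      obtain ⟨h1, h2⟩ := Finset.mem_filter.1 hy
      refine Finset.mem_map.2 ⟨⟨y, h1⟩, Finset.mem_filter.2 ⟨Finset.mem_univ _, ?_⟩, rfl⟩
      have := (Finset.mem_Ico.1 h2).1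
      unfold lvl; simp only; omega
    have c2' := (Nat.cast_le (α := ℝ)).2 c2
    rw [Nat.card_Ico, show n - K = m by omega] at c1
    have e1 : (m : ℝ) * ((L : ℝ) ^ d / n) = 1 / q * (L : ℝ) ^ d := by
      simp only [hndef]; push_cast; field_simp
    have c5 := mul_le_mul_of_nonneg_right hmn (show 0 ≤ (l : ℝ) * (L : ℝ) ^ (d - 1) by positivity)
    have c6 : (0 : ℝ) ≤ 2 * d * R * (L : ℝ) ^ (d - 1) := by positivity
    nlinarith
  · have := hG.trap_sum ha (fun y : box d L => η y) t0 t1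
    rw [Finset.sum_coe_sort (box d L) η] at this
    refine this.trans (add_le_add (div_le_div_of_nonneg_right (by linarith [hRet η]) ha.1.le) le_rfl)

/-- The finite volume estimate. -/
theorem finite_volume (hd : 1 ≤ d) {a0 : ℝ} (ha : 0 < a0 ∧ a0 < 1) {ζ0 : ℝ}
    (hζ : ζ0 < rho d a0) :
    ∃ γ : ℝ, 0 < γ ∧ ∀ ζ : ℝ, 0 ≤ ζ → ζ ≤ ζ0 → ∀ δ : ℝ, 0 < δ → ∃ ε : ℝ, 0 < ε ∧ ∃ p w0 : ℕ, 1 ≤ p ∧
      ∀ w, w0 ≤ w → p ∣ w → ∃ C D : ℝ, 0 ≤ C ∧ 0 ≤ D ∧ ∀ (L : ℕ) (η : Site d → ℕ),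
        ((ζ - δ) * (L : ℝ) ^ d - bad L w ζ η / ε - D * (L : ℝ) ^ (d - 1)
          ≤ Fv (QV (box d L)) (fun _ => a0) Set.univ totR (act (box d L) η)) ∧
        ∃ X : Finset (box d L), γ * (L : ℝ) ^ d - D * (L : ℝ) ^ (d - 1) ≤ X.card ∧
          ∀ t : ℝ, 0 ≤ t → t ≤ 1 →
            ∑ x ∈ X, (1 - Fv (scale (QV (box d L)) x t) (fun _ => a0) Set.univ (fun _ => 1)
                (act (box d L) η))
              ≤ (((∑ y ∈ box d L, η y : ℕ) : ℝ)
                  - ((ζ - δ) * (L : ℝ) ^ d - bad L w ζ η / ε - D * (L : ℝ) ^ (d - 1))) / a0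
                + (1 - t) * C * ((∑ y ∈ box d L, η y : ℕ) : ℝ) := by
  obtain ⟨γ, hγ, h⟩ := finite_volume_strong hd ha hζ
  refine ⟨γ, hγ, fun ζ h0 h1 δ hδ => ?_⟩
  obtain ⟨ε, hε, p, w0, hp, hw⟩ := h ζ h0 h1 δ hδ
  refine ⟨ε, hε, p, w0, hp, fun w h2 h3 => ?_⟩
  obtain ⟨C, D, hC, hD, hL⟩ := hw w h2 h3
  refine ⟨C, D, hC, hD, fun L η => ?_⟩
  obtain ⟨X, hX, hη⟩ := hL L
  exact ⟨(hη η).1, X, hX, (hη η).2⟩

end Pool.Agent.ARW
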