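import Pool.Agent.P.MP_3af8b7_pr.FF
import Pool.Agent.P.MP_3af8b7_pr.Abs2

/-! The ghost system on `β ⊕ β` built from landing rules (abstract part). -/

open Classical Finset

namespace Pool.Agent.ARW

variable {β : Type*} [Fintype β]

/-- Landing distribution of a ghost started at `x` with occupation measure `m`. -/
noncomputable def land (Q : β → Option β → ℝ) (m : β → ℝ) (x : β) (z : Option β) : ℝ :=
  (if z = some x then 1 else 0) - drift Q m z

/-- Extension of a row to `β ⊕ β` (no mass on the sources). -/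
def lift (f : Option β → ℝ) : Option (β ⊕ β) → ℝ
  | none => f none
  | some (Sum.inl _) => 0
  | some (Sum.inr s) => f (some s)

lemma sum_lift (f : Option β → ℝ) (F : Option (β ⊕ β) → ℝ) :
    ∑ z, lift f z * F z = ∑ z : Option β, f z * F (z.map Sum.inr) := by
  rw [Fintype.sum_option, Fintype.sum_option, Fintype.sum_sum_type]
  simp [lift]

lemma sum_lift_some (f : Option β → ℝ) (F : β ⊕ β → ℝ) :
    ∑ z, lift f (some z) * F z = ∑ s : β, f (some s) * F (Sum.inr s) := by
  rw [Fintype.sum_sum_type]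
  simp [lift]

lemma drift_src (Q : β → Option β → ℝ) (m : β → ℝ) (z : Option (β ⊕ β)) :
    drift (srcQ Q) (Sum.elim (fun _ => 0) m) z = lift (drift Q m) z := by
  unfold drift
  rw [Fintype.sum_sum_type]
  rcases z with _ | z | z <;> simp [lift, srcQ]

lemma drift_sum (Q : β → Option β → ℝ) (c : β → ℝ) (m : β → β → ℝ) (z : Option β) :
    drift Q (fun s => ∑ x, c x * m x s) z = ∑ x, c x * drift Q (m x) z := by
  unfold drift
  simp only [mul_sub, Finset.sum_sub_distrib, Finset.sum_mul, Finset.mul_sum]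
  congr 1
  · cases z <;> simp
  · rw [Finset.sum_comm]
    exact Finset.sum_congr rfl fun _ _ => Finset.sum_congr rfl fun _ _ => by ring

lemma drift_add (Q : β → Option β → ℝ) (m m' : β → ℝ) (z : Option β) :
    drift Q (fun s => m s + m' s) z = drift Q m z + drift Q m' z := by
  unfold drift
  simp only [add_mul, Finset.sum_add_distrib]
  cases z <;> simp <;> ring

lemma sum_drift {γ : Type*} [Fintype γ] (Q : γ → Option γ → ℝ) (m : γ → ℝ) :
    ∑ z, drift Q m z = ∑ s, m s * (1 - ∑ z, Q s z) := by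
  unfold drift
  rw [Finset.sum_sub_distrib, Fintype.sum_option, Finset.sum_comm]
  simp only [mul_sub, Finset.sum_sub_distrib, Finset.mul_sum]
  simp

lemma sum_drift_mul {γ : Type*} [Fintype γ] (Q : γ → Option γ → ℝ) (m τ : γ → ℝ) :
    ∑ y, drift Q m (some y) * τ y = ∑ s, m s * (τ s - ∑ y, Q s (some y) * τ y) := by
  unfold drift
  simp only [sub_mul, mul_sub, Finset.sum_sub_distrib, Finset.mul_sum, Finset.sum_mul]
  rw [Finset.sum_comm]
  simp only [Option.elim_some, mul_assoc]

lemma tr_sub_drift {γ : Type*} [Fintype γ] {Q : γ → Option γ → ℝ} (ht : Tr Q) {u : γ → γ → ℝ}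
    (hu : ∀ y s, 0 ≤ u y s) : Tr fun y z => Q y z - drift Q (u y) z := by
  obtain ⟨τ, h0, h⟩ := ht
  refine ⟨τ, h0, fun x => ?_⟩
  simp only [sub_mul, Finset.sum_sub_distrib, sum_drift_mul]
  have : 0 ≤ ∑ s, u x s * (τ s - ∑ y, Q s (some y) * τ y) :=
    Finset.sum_nonneg fun s _ => mul_nonneg (hu x s) (by linarith [h s])
  linarith [h x]

/-- Landing rules. -/
structure Ghost (Q : β → Option β → ℝ) (lv : β → ℕ) (K : ℕ) (same : β → β → Prop)
    (ν : β → β → β → ℝ) (ν0 : β → β → ℝ) (C : ℝ) : Prop where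
  Q0 : ∀ x z, 0 ≤ Q x z
  sto : Sto Q
  tr : Tr Q
  lv1 : ∀ y, 1 ≤ lv y
  lvK : ∀ y, lv y ≤ K + 1
  n0 : ∀ y x s, 0 ≤ ν y x s
  n00 : ∀ y s, 0 ≤ ν0 y s
  l0 : ∀ y x z, 0 ≤ land Q (ν y x) x z
  l00 : ∀ y z, 0 ≤ land Q (ν0 y) y z
  hsame : ∀ y x, lv y ≤ K → same y x → (∀ s, ν y x s = 0) ∧ lv x = lv y
  other : ∀ y x s, lv y ≤ K → ¬ same y x → lv s ≤ lv y → land Q (ν y x) x (some s) = 0
  top1 : ∀ y x s, K < lv y → lv s ≤ K → land Q (ν y x) x (some s) = 0
  top2 : ∀ y x s, K < lv y → K < lv s → ν y x s = 0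
  C0 : 0 ≤ C
  cost : ∀ y x, ∑ s ∈ univ.filter (fun s => K < lv s), ν y x s ≤ C
  cost0 : ∀ y, ∑ s ∈ univ.filter (fun s => K < lv s), ν0 y s ≤ C

/-- Occupation measures of the ghost trips. -/
noncomputable def gu (Q : β → Option β → ℝ) (ν : β → β → β → ℝ) (ν0 : β → β → ℝ) :
    β ⊕ β → β ⊕ β → ℝ
  | Sum.inl y => Sum.elim (fun _ => 0) (ν0 y)
  | Sum.inr y => Sum.elim (fun _ => 0) (fun s => ∑ x, Q y (some x) * ν y x s)

/-- The ghost kernel. -/
noncomputable def ghT (Q : β → Option β → ℝ) (ν : β → β → β → ℝ) (ν0 : β → β → ℝ) :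
    β ⊕ β → Option (β ⊕ β) → ℝ :=
  fun y z => srcQ Q y z - drift (srcQ Q) (gu Q ν ν0 y) z

/-- Levels on `β ⊕ β`. -/
def glev (lv : β → ℕ) : β ⊕ β → ℕ := Sum.elim (fun _ => 0) lv

lemma ghT_inl (Q : β → Option β → ℝ) (ν : β → β → β → ℝ) (ν0 : β → β → ℝ) (y : β)
    (z : Option (β ⊕ β)) : ghT Q ν ν0 (Sum.inl y) z = lift (land Q (ν0 y) y) z := by
  unfold ghT gu
  rw [drift_src]
  rcases z with _ | z | z <;> simp [lift, srcQ, land]

lemma ghT_inr (Q : β → Option β → ℝ) (ν : β → β → β → ℝ) (ν0 : β → β → ℝ) (y : β)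
    (z : Option (β ⊕ β)) : ghT Q ν ν0 (Sum.inr y) z = lift (fun z =>
      (if z = none then Q y none else 0) + ∑ x, Q y (some x) * land Q (ν y x) x z) z := by
  unfold ghT gu
  rw [drift_src]
  rcases z with _ | z | z
  · simp [lift, srcQ, land, drift_sum, sub_eq_add_neg]
  · simp [lift, srcQ]
  · simp [lift, srcQ, land, drift_sum, mul_sub, Finset.sum_sub_distrib]

variable {Q : β → Option β → ℝ} {lv : β → ℕ} {K : ℕ} {same : β → β → Prop}
  {ν : β → β → β → ℝ} {ν0 : β → β → ℝ} {C a0 : ℝ}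

lemma land_zero {m : β → ℝ} (h : ∀ s, m s = 0) (x : β) (z : Option β) :
    land Q m x z = if z = some x then 1 else 0 := by
  unfold land drift
  cases z <;> simp [h]

namespace Ghost

lemma gu_nonneg (h : Ghost Q lv K same ν ν0 C) (y s : β ⊕ β) : 0 ≤ gu Q ν ν0 y s := by
  rcases y with y | y <;> rcases s with s | s <;> simp only [gu, Sum.elim_inl, Sum.elim_inr, le_refl]
  · exact h.n00 _ _
  · exact Finset.sum_nonneg fun x _ => mul_nonneg (h.Q0 _ _) (h.n0 _ _ _)

lemma ghT_nonneg (h : Ghost Q lv K same ν ν0 C) (y : β ⊕ β) (z : Option (β ⊕ β)) :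
    0 ≤ ghT Q ν ν0 y z := by
  rcases y with y | y
  · rw [ghT_inl]
    rcases z with _ | z | z <;> simp only [lift, le_refl] <;> exact h.l00 _ _
  · rw [ghT_inr]
    have key : ∀ z : Option β, 0 ≤ (if z = none then Q y none else 0)
        + ∑ x, Q y (some x) * land Q (ν y x) x z := fun z =>
      add_nonneg (by split_ifs; exacts [h.Q0 _ _, le_rfl])
        (Finset.sum_nonneg fun x _ => mul_nonneg (h.Q0 _ _) (h.l0 _ _ _))
    rcases z with _ | z | z
    exacts [key none, le_rfl, key (some z)]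

lemma ghT_ok (h : Ghost Q lv K same ν ν0 C) (ha : 0 ≤ a0 ∧ a0 < 1) :
    Ok (ghT Q ν ν0) (srcA a0) :=
  ⟨h.ghT_nonneg, fun x => by rcases x with x | x <;> simp [srcA, ha]⟩

lemma ghT_sto (h : Ghost Q lv K same ν ν0 C) : Sto (ghT Q ν ν0) := fun y => by
  unfold ghT
  rw [Finset.sum_sub_distrib, sum_drift]
  simp [srcQ_sto h.sto _]

lemma ghT_tr (h : Ghost Q lv K same ν ν0 C) : Tr (ghT Q ν ν0) :=
  tr_sub_drift (srcQ_tr h.tr) h.gu_nonneg

lemma ghT_early (h : Ghost Q lv K same ν ν0 C) {y s : β} (hy : lv y ≤ K) (hs : lv s ≤ lv y) :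
    ghT Q ν ν0 (Sum.inr y) (some (Sum.inr s)) = if same y s then Q y (some s) else 0 := by
  rw [ghT_inr]
  simp only [lift, reduceCtorEq, if_false, zero_add]
  rw [Finset.sum_eq_single s]
  · split_ifs with h1
    · rw [land_zero (h.hsame y s hy h1).1]; simp
    · rw [h.other y s s hy h1 hs, mul_zero]
  · intro x _ hx
    by_cases h1 : same y x
    · rw [land_zero (h.hsame y x hy h1).1]; simp [Ne.symm hx]
    · rw [h.other y x s hy h1 hs, mul_zero]
  · simp

lemma ghT_mono (h : Ghost Q lv K same ν ν0 C) (y x : β ⊕ β) (hl : glev lv x < glev lv y) :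
    ghT Q ν ν0 y (some x) = 0 := by
  rcases y with y | y
  · simp [glev] at hl
  · rcases x with x | x
    · rw [ghT_inr]; rfl
    · simp only [glev, Sum.elim_inr] at hl
      by_cases hy : lv y ≤ K
      · rw [h.ghT_early hy hl.le, if_neg]
        intro hs
        have := (h.hsame y x hy hs).2
        omega
      · rw [ghT_inr]
        simp only [lift, reduceCtorEq, if_false, zero_add]
        refine Finset.sum_eq_zero fun x' _ => ?_
        rw [h.top1 y x' x (by omega) (by have := h.lvK y; omega), mul_zero]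

/-- Feed-forward comparison for a kernel obtained by lowering the row of a top site. -/
lemma compare (h : Ghost Q lv K same ν ν0 C) (ha : 0 ≤ a0 ∧ a0 < 1) (Q' : β → Option β → ℝ)
    (h0 : ∀ y z, 0 ≤ Q' y z ∧ Q' y z ≤ Q y z) (h1 : ∀ y, lv y ≤ K → Q' y = Q y) {φ : ℕ → ℝ}
    (hφ : Test φ) (η : β → ℕ) :
    ∃ w : β ⊕ β → β ⊕ β → ℝ, (∀ y s, 0 ≤ w y s ∧ w y s ≤ gu Q ν ν0 y s) ∧
      (∀ y z, 0 ≤ srcQ Q' y z - drift (srcQ Q') (w y) z ∧
        srcQ Q' y z - drift (srcQ Q') (w y) z ≤ ghT Q ν ν0 y z) ∧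
      Fv (fun y z => srcQ Q' y z - drift (srcQ Q') (w y) z) (srcA a0) Set.univ
          (fun s => φ (tot s)) (srcS η)
        ≤ Fv Q' (fun _ => a0) Set.univ (fun s => φ (tot s)) (fun y => some (η y)) := by
  have hok : Ok Q' fun _ => a0 := ⟨fun y z => (h0 y z).1, fun _ => ha⟩
  have hsub : Sub Q' := fun y =>
    (Finset.sum_le_sum fun z _ => (h0 y z).2).trans (h.sto y).le
  have htr : Tr Q' := by
    obtain ⟨τ, t0, t1⟩ := h.tr
    exact ⟨τ, t0, fun x => le_trans (Finset.sum_le_sum fun y _ =>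
      mul_le_mul_of_nonneg_right (h0 _ _).2 (t0 y)) (t1 x)⟩
  have hle : ∀ y z, srcQ Q' y z ≤ srcQ Q y z := fun y z => by
    rcases y with y | y
    · exact le_rfl
    · rcases z with _ | z | z
      exacts [(h0 _ _).2, le_rfl, (h0 _ _).2]
  have hA : ∀ x, 0 ≤ srcA a0 x ∧ srcA (α := β) a0 x < 1 := (srcQ_ok hok).2
  have hσ : ∀ x, srcS η x ≠ none := fun x => by rcases x with x | x <;> simp [srcS]
  obtain ⟨w, hG, hw, hT⟩ := feedforward (srcQ Q') (srcQ_ok hok).1 (srcQ_sub hsub) (srcQ_tr htr)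
    (fun R => ∀ n, Fn R (srcA a0) Set.univ (fun s => φ (tot s)) n (srcS η)
      ≤ Fv Q' (fun _ => a0) Set.univ (fun s => φ (tot s)) (fun y => some (η y)))
    (fun n => (Fn_le_Fv (srcQ_ok hok) (srcQ_sub hsub) n _).trans (Fv_src_le hok hsub hφ η))
    (by
      simp only [Set.ofPred_forall]
      exact isClosed_iInter fun n => isClosed_le (Fn_continuous _ _ _ _ _) continuous_const)
    (fun R y x ε r0 rs rG e0 e1 n =>
      (Fv_skip_le ⟨r0, hA⟩ rs hφ y x e0 e1 (hσ x) n).trans (Fv_le rG))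
    (glev lv) K (ghT Q ν ν0) (gu Q ν ν0) h.gu_nonneg h.ghT_nonneg
    (fun y z => by
      unfold ghT drift
      have : ∑ s, gu Q ν ν0 y s * srcQ Q' s z ≤ ∑ s, gu Q ν ν0 y s * srcQ Q s z :=
        Finset.sum_le_sum fun s _ => mul_le_mul_of_nonneg_left (hle s z) (h.gu_nonneg y s)
      linarith [hle y z])
    (fun y x _ hl => h.ghT_mono y x hl)
    (fun y x hy hl => by
      rcases y with y | y <;> rcases x with x | x
      · rw [ghT_inl]; simp [lift, srcQ]
      · simp only [glev, Sum.elim_inl, Sum.elim_inr] at hl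
        have := h.lv1 x; omega
      · rw [ghT_inr]; simp [lift, srcQ]
      · simp only [glev, Sum.elim_inr] at hl hy
        rw [h.ghT_early hy hl.le]
        simp only [srcQ, h1 y hy]
        split_ifs
        exacts [le_rfl, h.Q0 _ _])
    (fun y x hy hx => h.ghT_mono y x (by omega))
    (fun y x hy hx => by
      rcases y with y | y
      · simp [glev] at hy
      · rcases x with x | x
        · rfl
        · simp only [glev, Sum.elim_inr] at hy hx
          simp only [gu, Sum.elim_inr]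
          exact Finset.sum_eq_zero fun x' _ => by rw [h.top2 y x' x hy hx, mul_zero])
  exact ⟨w, hw, hT, Fv_le hG⟩

/-- The ghost system keeps fewer particles than the true one. -/
theorem tot_le (h : Ghost Q lv K same ν ν0 C) (ha : 0 ≤ a0 ∧ a0 < 1) (η : β → ℕ) :
    Fv (ghT Q ν ν0) (srcA a0) Set.univ totR (srcS η)
      ≤ Fv Q (fun _ => a0) Set.univ totR (fun y => some (η y)) := by
  obtain ⟨w, -, hT, hF⟩ := h.compare ha Q (fun y z => ⟨h.Q0 y z, le_rfl⟩) (fun _ _ => rfl)
    (φ := fun n => (n : ℝ)) ⟨fun _ _ => Nat.cast_le.2, fun n => Nat.cast_nonneg n⟩ η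
  have e : (fun y z => srcQ Q y z - drift (srcQ Q) (w y) z) = ghT Q ν ν0 := by
    funext y
    have hs : ∑ z, (srcQ Q y z - drift (srcQ Q) (w y) z) = ∑ z, ghT Q ν ν0 y z := by
      rw [h.ghT_sto y, Finset.sum_sub_distrib, sum_drift]
      simp [srcQ_sto h.sto _]
    funext z
    exact (Finset.sum_eq_sum_iff_of_le fun z _ => (hT y z).2).1 hs z (Finset.mem_univ z)
  rw [e] at hF
  exact hF

/-- Number of particles on real sites of level at most `K`. -/
noncomputable def earlyR (lv : β → ℕ) (K : ℕ) (s : β ⊕ β → Loc) : ℝ :=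
  ∑ y ∈ univ.filter (fun y => lv y ≤ K), (cnt (s (Sum.inr y)) : ℝ)

lemma earlyR_nonneg (s : β ⊕ β → Loc) : 0 ≤ earlyR lv K s :=
  Finset.sum_nonneg fun _ _ => Nat.cast_nonneg _

lemma earlyR_add_le (s : β ⊕ β → Loc) :
    earlyR lv K s + ∑ x ∈ univ.filter (fun s => K < lv s),
      (if s (Sum.inr x) = none then (1 : ℝ) else 0) ≤ totR s := by
  unfold earlyR totR tot
  rw [Fintype.sum_sum_type]
  push_cast
  have e : ∑ y, (cnt (s (Sum.inr y)) : ℝ) = ∑ y ∈ univ.filter (fun y => lv y ≤ K),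
      (cnt (s (Sum.inr y)) : ℝ) + ∑ y ∈ univ.filter (fun y => K < lv y),
      (cnt (s (Sum.inr y)) : ℝ) := by
    rw [← Finset.sum_filter_add_sum_filter_not univ (fun y => lv y ≤ K)]
    simp only [not_le]
  have e2 : ∑ x ∈ univ.filter (fun s => K < lv s), (if s (Sum.inr x) = none then (1 : ℝ) else 0)
      ≤ ∑ y ∈ univ.filter (fun y => K < lv y), (cnt (s (Sum.inr y)) : ℝ) :=
    Finset.sum_le_sum fun x _ => by
      split_ifs with hx
      · simp [hx, cnt]
      · exact Nat.cast_nonneg _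
  have e3 : 0 ≤ ∑ y, (cnt (s (Sum.inl y)) : ℝ) := Finset.sum_nonneg fun _ _ => Nat.cast_nonneg _
  linarith

lemma earlyR_le (s : β ⊕ β → Loc) : earlyR lv K s ≤ totR s := by
  have h1 := earlyR_add_le (lv := lv) (K := K) s
  have h2 : 0 ≤ ∑ x ∈ univ.filter (fun s => K < lv s),
      (if s (Sum.inr x) = none then (1 : ℝ) else 0) :=
    Finset.sum_nonneg fun x _ => by split_ifs <;> norm_num
  linarith

theorem early_le (h : Ghost Q lv K same ν ν0 C) (ha : 0 ≤ a0 ∧ a0 < 1) (η : β → ℕ) :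
    Fv (ghT Q ν ν0) (srcA a0) Set.univ (earlyR lv K) (srcS η)
      ≤ Fv Q (fun _ => a0) Set.univ totR (fun y => some (η y)) :=
  (Fv_mono (h.ghT_ok ha) h.ghT_sto.sub (fun _ => Nat.cast_nonneg _) (fun s _ => earlyR_le s) _).trans
    (h.tot_le ha η)

lemma tot_srcS (η : β → ℕ) : tot (srcS η) = ∑ y, η y := by
  unfold tot; rw [Fintype.sum_sum_type]; simp [srcS, cnt]

theorem trap_sum (h : Ghost Q lv K same ν ν0 C) (ha : 0 < a0 ∧ a0 < 1) (η : β → ℕ) {t : ℝ}
    (t0 : 0 ≤ t) (t1 : t ≤ 1) :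
    ∑ x ∈ univ.filter (fun s => K < lv s),
        (1 - Fv (scale Q x t) (fun _ => a0) Set.univ (fun _ => 1) (fun y => some (η y)))
      ≤ (((∑ y, η y : ℕ) : ℝ) - Fv (ghT Q ν ν0) (srcA a0) Set.univ (earlyR lv K) (srcS η)) / a0
        + (1 - t) * (C * (K + 1)) * ((∑ y, η y : ℕ) : ℝ) := by
  have ha' : 0 ≤ a0 ∧ a0 < 1 := ⟨ha.1.le, ha.2⟩
  have hok := h.ghT_ok ha'
  set X := univ.filter (fun s => K < lv s) with hX
  obtain ⟨Γ, Γ0, Γ1, Γ2⟩ := exists_gamma h.ghT_nonneg h.ghT_sto h.ghT_tr (glev lv) K h.ghT_mono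
    (fun y => by rcases y with y | y; exacts [by simp [glev], h.lvK y]) X
    (fun x y => if K < lv x then gu Q ν ν0 y (Sum.inr x) else 0)
    (fun x y => by split_ifs; exacts [h.gu_nonneg _ _, le_rfl]) C h.C0
    (fun x y hy => by
      split_ifs with hx
      · rcases y with y | y
        · simp [glev] at hy
        · simp only [gu, Sum.elim_inr]
          exact Finset.sum_eq_zero fun x' _ => by rw [h.top2 y x' x hy hx, mul_zero]
      · rfl)
    (fun y hy => by
      have e : ∑ i ∈ X, (if K < lv i then gu Q ν ν0 y (Sum.inr i) else 0)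
          = ∑ i ∈ X, gu Q ν ν0 y (Sum.inr i) :=
        Finset.sum_congr rfl fun i hi => if_pos (Finset.mem_filter.1 hi).2
      rw [e, Finset.sum_filter (fun x => glev lv x = glev lv y), Fintype.sum_sum_type]
      rcases y with y | y
      · have e1 : ∀ x, ¬ (lv x = 0) := fun x => by have := h.lv1 x; omega
        simpa [ghT_inl, lift, glev, e1, gu] using h.cost0 y
      · simp only [glev, Sum.elim_inr] at hy
        have e1 : ∑ x, (if glev lv (Sum.inr x) = glev lv (Sum.inr y)
            then ghT Q ν ν0 (Sum.inr y) (some (Sum.inr x)) else 0)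
            = ∑ x, if same y x then Q y (some x) else 0 :=
          Finset.sum_congr rfl fun x _ => by
            simp only [glev, Sum.elim_inr]
            split_ifs with h1 h2 h2
            · rw [h.ghT_early hy h1.le, if_pos h2]
            · rw [h.ghT_early hy h1.le, if_neg h2]
            · exact absurd (h.hsame y x hy h2).2 h1
            · rfl
        have e2 : ∑ x, (if glev lv (Sum.inl x) = glev lv (Sum.inr y)
            then ghT Q ν ν0 (Sum.inr y) (some (Sum.inl x)) else 0) = 0 :=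
          Finset.sum_eq_zero fun x _ => by simp [ghT_inr, lift]
        rw [e1, e2]
        simp only [gu, Sum.elim_inr]
        rw [Finset.sum_comm]
        have e3 : ∑ x, ∑ i ∈ X, Q y (some x) * ν y x i
            ≤ ∑ x, C * (Q y (some x) - if same y x then Q y (some x) else 0) :=
          Finset.sum_le_sum fun x _ => by
            rw [← Finset.mul_sum]
            split_ifs with h1
            · simp [(h.hsame y x hy h1).1]
            · rw [sub_zero, mul_comm C]
              exact mul_le_mul_of_nonneg_left (h.cost y x) (h.Q0 _ _)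
        rw [← Finset.mul_sum, Finset.sum_sub_distrib] at e3
        refine e3.trans (mul_le_mul_of_nonneg_left ?_ h.C0)
        have := h.sto y
        rw [Fintype.sum_option] at this
        linarith [h.Q0 y none])
  have key : ∀ x ∈ X, 1 - Fv (scale Q x t) (fun _ => a0) Set.univ (fun _ => 1)
      (fun y => some (η y)) ≤ Fv (ghT Q ν ν0) (srcA a0) Set.univ
        (fun s => if s (Sum.inr x) = none then 1 else 0) (srcS η) / a0
        + (1 - t) * lin (Γ x) (srcS η) := by
    intro x hx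
    have hx' : K < lv x := (Finset.mem_filter.1 hx).2
    obtain ⟨w, hw, hT, hF⟩ := h.compare ha' (scale Q x t)
      (fun y z => by
        unfold scale
        split_ifs
        · exact ⟨mul_nonneg t0 (h.Q0 _ _), by nlinarith [h.Q0 y z]⟩
        · exact ⟨h.Q0 _ _, le_rfl⟩)
      (fun y hy => by
        funext z; unfold scale
        rw [if_neg]; rintro rfl; omega)
      (φ := fun _ => 1) ⟨fun _ _ _ => le_rfl, fun _ => zero_le_one⟩ η
    have hrow : ∀ s : β ⊕ β, ∑ z, srcQ (scale Q x t) s z = if s = Sum.inr x then t else 1 := by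
      intro s
      rcases s with s | s
      · simp [srcQ]
      · have e := h.sto s
        rw [Fintype.sum_option] at e
        rw [Fintype.sum_option, Fintype.sum_sum_type]
        by_cases hs : s = x
        · subst hs
          simp only [srcQ, scale, if_true, ← Finset.mul_sum, Finset.sum_const_zero, zero_add]
          rw [← mul_add, e, mul_one]
        · simp [srcQ, scale, hs, e]
    have := trap_bound hok h.ghT_sto h.ghT_tr (Sum.inr x) (by simpa [srcA] using ha.1) _ hT
      (fun y => (1 - t) * gu Q ν ν0 y (Sum.inr x)) (fun y => (1 - t) * Γ x y)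
      (fun y hy => by
        rw [Finset.sum_sub_distrib, sum_drift]
        simp only [hrow, if_neg hy]
        rw [Finset.sum_eq_single (Sum.inr x) (fun s _ hs => by simp [hs]) (by simp)]
        simp only [if_true]
        nlinarith [(hw y (Sum.inr x)).2])
      (fun y => mul_nonneg (by linarith) (Γ0 x y))
      (fun y _ => by
        have e := mul_le_mul_of_nonneg_left (Γ1 x y) (show 0 ≤ 1 - t by linarith)
        simp only [if_pos hx', mul_add, Finset.mul_sum] at e
        refine le_trans (le_of_eq ?_) e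
        congr 1
        exact Finset.sum_congr rfl fun _ _ => by ring)
      (σ := srcS η) (by simp [srcS])
    have e : lin (fun y => (1 - t) * Γ x y) (srcS η) = (1 - t) * lin (Γ x) (srcS η) := by
      unfold lin; rw [Finset.mul_sum]; exact Finset.sum_congr rfl fun _ _ => by ring
    rw [e] at this
    simp only [srcA, Sum.elim_inr] at this hF ⊢
    linarith
  refine (Finset.sum_le_sum key).trans ?_
  rw [Finset.sum_add_distrib, ← Finset.sum_div, ← Finset.mul_sum]
  have hind : ∀ (x : β) (s : β ⊕ β → Loc),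
      0 ≤ (if s (Sum.inr x) = none then (1 : ℝ) else 0) := fun x s => by split_ifs <;> norm_num
  refine add_le_add (div_le_div_of_nonneg_right ?_ ha.1.le) ?_
  · rw [← Fv_sum hok h.ghT_sto.sub X hind, le_sub_iff_add_le', ← Fv_add hok h.ghT_sto.sub
      earlyR_nonneg (fun s => Finset.sum_nonneg fun x _ => hind x s), ← tot_srcS]
    refine (Fv_mono hok h.ghT_sto.sub (ψ' := fun s => (tot s : ℝ)) (fun _ => Nat.cast_nonneg _)
      (fun s _ => earlyR_add_le s) _).trans ?_
    exact Fv_le_test hok h.ghT_sto.sub (φ := fun n => (n : ℝ))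
      ⟨fun _ _ => Nat.cast_le.2, fun n => Nat.cast_nonneg n⟩ _ _
  · rw [mul_assoc]
    refine mul_le_mul_of_nonneg_left ?_ (by linarith)
    unfold lin
    rw [Finset.sum_comm, ← tot_srcS]
    unfold tot
    push_cast
    rw [Finset.mul_sum]
    refine Finset.sum_le_sum fun y _ => ?_
    rw [← Finset.sum_mul]
    exact mul_le_mul_of_nonneg_right (Γ2 y) (Nat.cast_nonneg _)

end Ghost

end Pool.Agent.ARW
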