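import Pool.Agent.P.MP_3af8b7_pr.Geo2Aux

open Classical Finset MeasureTheory Filter Topology

namespace Pool.Agent.ARW

variable {d : ℕ}

/-- Landing kernels `H j` (landing in slab `j`), remainders `Rm j`, occupation kernels `U j`, and
the backward test functions. -/
structure Design (i0 : Fin d) (l n w : ℕ) (ε : ℝ) (r D : ℕ) (C : ℝ)
    (H Rm U : ℕ → Site d → Site d → ℝ) (g : Site d → ℕ → Site d → ℝ)
    (ω : Site d → Site d → ℝ) : Prop where
  H0 : ∀ j x z, 0 ≤ H j x z
  R0 : ∀ j x z, 0 ≤ Rm j x z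
  U0 : ∀ j x z, 0 ≤ U j x z
  Hloc : ∀ j x z, H j x z ≠ 0 → near r x z ∧ slab i0 l n z = j
  Rloc : ∀ j x z, Rm j x z ≠ 0 → near r x z
  Uloc : ∀ j x z, U j x z ≠ 0 → near r x z
  bal : ∀ j x z, H j x z + Rm j x z
    = (if x = z then 1 else 0) - U j x z + (∑ v : Fin d × Bool, U j x (nbr z v)) / (2 * d)
  cost : ∀ j x (Y : Finset (Site d)), ∑ s ∈ Y, U j x s ≤ C
  gtop : ∀ z y, g z (slab i0 l n z + 1) y = if y = z then 1 else 0
  g0 : ∀ z j y, 0 ≤ g z j y
  gle : ∀ z j y, j ≤ slab i0 l n z → g z j y ≤ n / (w : ℝ) ^ d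
  gloc : ∀ z j y, j ≤ slab i0 l n z → g z j y ≠ 0 →
    near D z y ∧ (1 ≤ j → slab i0 l n y + 1 = j)
  gblk : ∀ z j y y', 1 ≤ j → j ≤ slab i0 l n z → blk l y = blk l y' → g z j y = g z j y'
  gmass : ∀ z j (Y : Finset (Site d)), 1 ≤ j → j ≤ slab i0 l n z → ∑ y ∈ Y, g z j y ≤ 1
  gsub : ∀ z j y v (Y : Finset (Site d)), 1 ≤ j → j ≤ slab i0 l n z →
    (∀ s, near r (nbr y v) s → s ∈ Y) → g z j y ≤ ∑ s ∈ Y, H j (nbr y v) s * g z (j + 1) s
  gsrc : ∀ z y (Y : Finset (Site d)), (∀ s, near r y s → s ∈ Y) →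
    g z 0 y ≤ ∑ s ∈ Y, H 0 y s * g z 1 s
  gwin : ∀ z y (Y : Finset (Site d)),
    (∑ s ∈ Y, if y ∈ cube s w then ω z s else 0) / (w : ℝ) ^ d ≤ g z 0 y
  w0 : ∀ z s, 0 ≤ ω z s
  wloc : ∀ z s, ω z s ≠ 0 → near D z s
  wmass : ∀ z (Y : Finset (Site d)), (∀ s, near D z s → s ∈ Y) → (1 - ε) * n ≤ ∑ s ∈ Y, ω z s
  wcol : ∀ i s (Z : Finset (Site d)), (∀ z ∈ Z, slab i0 l n z = i) → ∑ z ∈ Z, ω z s ≤ 1

theorem grec_bal {I J V R u D : GE d} (hIJ : I + J = 1) (h : V + R = 1 - u * D) (N : ℕ) :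
    V * grec 0 I (J * V) N + grec 1 R (V * J) N = 1 - grec 0 u (V * J) N * D := by
  induction N with
  | zero => simp [grec]
  | succ N ih =>
    simp only [grec]
    have h1 : V * (I + J * V * grec 0 I (J * V) N) + (R + V * J * grec 1 R (V * J) N)
        = V * I + R + V * J * (V * grec 0 I (J * V) N + grec 1 R (V * J) N) := by noncomm_ring
    have h2 : V * I + R + V * J * (1 - grec 0 u (V * J) N * D)
        = V * (I + J) + R - V * J * grec 0 u (V * J) N * D := by
      rw [mul_sub, mul_add, mul_one, mul_assoc (V * J)]; abel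
    rw [h1, ih, h2, hIJ, mul_one, h, add_mul]
    abel

theorem grec_eq_zero {I b : GE d} {f : Site d → ℝ} (h : I f = 0) (N : ℕ) :
    grec 0 I b N f = 0 := by
  induction N with
  | zero => rfl
  | succ N ih =>
    change I f + b (grec 0 I b N f) = 0
    rw [h, ih, map_zero, add_zero]

theorem bd_phi (P : Site d → Prop) {V : GE d} (hV : Bd 1 V) (N : ℕ) :
    Bd 1 (grec 0 (gind P) (gind (fun x => ¬ P x) * V) N) := by
  induction N with
  | zero => exact fun f c hc _ x => by simpa [grec] using hc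
  | succ N ih =>
    intro f c hc hf x
    have h1 := hV.mul ih zero_le_one f c hc hf x
    change gind P f x + gind (fun x => ¬ P x) (V (grec 0 _ _ N f)) x ≤ _
    rw [gind_apply, gind_apply]
    by_cases h : P x
    · simpa [h] using hf x
    · simpa [h] using h1

theorem hasSum_phi {I b : GE d} {r : ℕ} (hI : Good r I) (hb : Good r b) {q : ℝ}
    (hq : ∀ f a, FS f → HasSum f a → HasSum (b f) (q * a)) {f : Site d → ℝ} {a : ℝ} (hF : FS f)
    (hf : HasSum (I f) a) (N : ℕ) : HasSum (grec 0 I b N f) (ggeo q N * a) := by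
  induction N with
  | zero => rw [ggeo, zero_mul]; exact hasSum_zero
  | succ N ih =>
    have := hf.add (hq _ _ ((good_rec (good_zero r) hI hb N).fs hF) ih)
    rw [ggeo, add_mul, one_mul, mul_assoc]
    exact this

theorem hasSum_out (i0 : Fin d) {l n j w : ℕ} (hl : 1 ≤ l) (hj : j < n) (hw : l * n ∣ w)
    (hw0 : 0 < w) (s : Site d) :
    HasSum ((gind (fun y => ¬ slab i0 l n y = j) * gop (unifA (cob 0 w)) : GE d) (gδ s))
      (1 - 1 / (n : ℝ)) := by
  have h1 := card_cube_slab i0 hl hj hw s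
  have h2 := card_filter_add_card_filter_not (s := cube s w) fun y => slab i0 l n y = j
  have h3 : (cube s w).card = w ^ d := by simp [cube, Fintype.card_piFinset]
  have hn : (0 : ℝ) < n := by exact_mod_cast (Nat.zero_le j).trans_lt hj
  have hw1 : (0 : ℝ) < (w : ℝ) ^ d := by positivity
  convert hasSum_const ((cube s w).filter fun y => ¬ slab i0 l n y = j) (1 / (w : ℝ) ^ d)
    fun y => ?_ using 1
  · rw [h3] at h2
    have h4 : (((cube s w).filter fun y => slab i0 l n y = j).card : ℝ) * n = (w : ℝ) ^ d := by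
      exact_mod_cast h1
    have h5 : (((cube s w).filter fun y => slab i0 l n y = j).card : ℝ) +
        (((cube s w).filter fun y => ¬ slab i0 l n y = j).card : ℝ) = (w : ℝ) ^ d := by
      exact_mod_cast h2
    field_simp
    nlinarith
  · rw [Module.End.mul_apply, gind_apply, gop_unif]
    simp only [gδ, sum_ite_eq', mem_cob, mem_filter]
    by_cases h : slab i0 l n y = j <;> by_cases h' : y ∈ cube s w <;> simp [h, h']

/-- The site just below the corner of the block. -/
def gcor (l : ℕ) (y : Site d) : Site d := fun i => (l : ℤ) * blk l y i - 1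

theorem gcor_bd {l : ℕ} (hl : 1 ≤ l) (y : Site d) (i : Fin d) :
    gcor l y i + 1 ≤ y i ∧ y i ≤ gcor l y i + l := by
  have hl0 : (0 : ℤ) < l := by exact_mod_cast hl
  have h1 := Int.mul_ediv_add_emod (y i) l
  have h2 := Int.emod_nonneg (y i) hl0.ne'
  have h3 := Int.emod_lt_of_pos (y i) hl0
  simp only [gcor, blk]
  constructor <;> linarith

/-- Block averaging operator. -/
noncomputable def gB (i0 : Fin d) (l n w m j : ℕ) : GE d where
  toFun f y := if slab i0 l n y + 1 = j then (∑ s ∈ cob (gcor l y) m, f s) / (w : ℝ) ^ d else 0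
  map_add' f g := by
    ext y; simp only [Pi.add_apply]; split_ifs <;> simp [sum_add_distrib, add_div]
  map_smul' c f := by
    ext y; simp only [Pi.smul_apply, smul_eq_mul, RingHom.id_apply]
    split_ifs <;> simp [← mul_sum, mul_div_assoc]

theorem gB_apply (i0 : Fin d) (l n w m j : ℕ) (f : Site d → ℝ) (y : Site d) :
    gB i0 l n w m j f y =
      if slab i0 l n y + 1 = j then (∑ s ∈ cob (gcor l y) m, f s) / (w : ℝ) ^ d else 0 := rfl

theorem good_B (i0 : Fin d) {l : ℕ} (hl : 1 ≤ l) (n w m j : ℕ) :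
    Good (l + m) (gB i0 l n w m j) :=
  good_avg _ (fun y => cob (gcor l y) m) (pow_nonneg w.cast_nonneg d) (fun y s hs i => by
    simp only [cob, Fintype.mem_piFinset, mem_Ioc] at hs
    have h1 := gcor_bd hl y i
    have h2 := hs i
    rw [abs_le]
    push_cast
    constructor <;> linarith [h1.1, h1.2, h2.1, h2.2]) (gB_apply i0 l n w m j)

theorem hasSum_B (i0 : Fin d) {l n j m : ℕ} (hl : 1 ≤ l) (hj1 : 1 ≤ j) (hj : j ≤ n)
    (hm : l * n ∣ m) (w : ℕ) (s : Site d) :
    HasSum (gB i0 l n w m j (gδ s)) (((m : ℝ) / w) ^ d / n) := by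
  obtain ⟨F, hF⟩ := (good_B i0 hl n w m j).fs (fs_δ s)
  have hap : ∀ y, gB i0 l n w m j (gδ s) y =
      if slab i0 l n y + 1 = j ∧ gcor l y ∈ cube s m then 1 / (w : ℝ) ^ d else 0 := fun y => by
    rw [gB_apply]
    simp only [gδ, sum_ite_eq', mem_cob]
    by_cases h : slab i0 l n y + 1 = j <;> by_cases h' : gcor l y ∈ cube s m <;> simp [h, h']
  have hn : (0 : ℝ) < n := by exact_mod_cast hj1.trans hj
  rcases eq_or_ne ((w : ℝ) ^ d) 0 with hw | hw
  · rw [div_pow, hw, div_zero, zero_div]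
    convert hasSum_zero using 2
    rw [hap, hw, div_zero, ite_self]
  have hmem : ∀ y, y ∈ F.filter (fun y => slab i0 l n y + 1 = j ∧ gcor l y ∈ cube s m) ↔
      slab i0 l n y + 1 = j ∧ gcor l y ∈ cube s m := fun y => by
    rw [mem_filter]
    refine ⟨fun h => h.2, fun h => ⟨by_contra fun hy => ?_, h⟩⟩
    have := hF y hy
    rw [hap, if_pos h] at this
    exact one_div_ne_zero hw this
  have h1 := card_corner_slab i0 hl (j := j - 1) (by omega) hm (s + 1) _ fun y => by
    rw [hmem]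
    refine and_congr (by omega) ?_
    simp only [cube, Fintype.mem_piFinset, mem_Ico, gcor, Pi.add_apply, Pi.one_apply]
    exact forall_congr' fun i => by constructor <;> rintro ⟨h1, h2⟩ <;> constructor <;> linarith
  convert hasSum_const _ (1 / (w : ℝ) ^ d) fun y => (hap y).trans (if_congr (hmem y).symm rfl rfl)
    using 1
  have h2 : ((F.filter fun y => slab i0 l n y + 1 = j ∧ gcor l y ∈ cube s m).card : ℝ) * n
      = (m : ℝ) ^ d := by exact_mod_cast h1
  rw [div_pow, ← h2]
  field_simp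

theorem cob_sub {l p m w : ℕ} (hl : 1 ≤ l) (hp : l < p) (hw : m + p = w) (y : Site d)
    (v : Fin d × Bool) : cob (gcor l y) m ⊆ cob (nbr y v) w := fun s hs => by
  simp only [cob, Fintype.mem_piFinset, mem_Ioc] at hs ⊢
  intro i
  have h1 := gcor_bd hl y i
  have h2 := hs i
  have h3 : y i - 1 ≤ nbr y v i ∧ nbr y v i ≤ y i + 1 := by
    simp only [nbr, Pi.add_apply, Pi.single_apply]
    split_ifs <;> constructor <;> linarith
  have h4 : (l : ℤ) < p := by exact_mod_cast hp
  rw [← hw]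
  push_cast
  constructor <;> linarith [h1.1, h1.2, h2.1, h2.2, h3.1, h3.2]

/-- The backward recursion. -/
noncomputable def gT (A : ℕ → GE d) (i : ℕ) : ℕ → GE d
  | 0 => 1
  | k + 1 => A (i - k) * gT A i k

theorem good_T {A : ℕ → GE d} {r : ℕ} (h : ∀ j, Good r (A j)) (i k : ℕ) :
    Good (k * r) (gT A i k) := by
  induction k with
  | zero => exact good_one _
  | succ k ih => exact ((h _).mul ih).mono (by rw [Nat.succ_mul, add_comm])

theorem bd_T {A : ℕ → GE d} (h : ∀ j, Bd 1 (A j)) (i k : ℕ) : Bd 1 (gT A i k) := by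
  induction k with
  | zero => exact fun f c _ hf x => by rw [one_mul]; exact hf x
  | succ k ih => exact (h _).mul ih zero_le_one

theorem gT_step (A : ℕ → GE d) {i j : ℕ} (hj : j ≤ i) :
    gT A i (i + 1 - j) = A j * gT A i (i + 1 - (j + 1)) := by
  rw [show i + 1 - j = (i - j) + 1 by omega, gT, show i - (i - j) = j by omega,
    show i + 1 - (j + 1) = i - j by omega]

theorem slab_lt (i0 : Fin d) (l : ℕ) {n : ℕ} (hn : 0 < n) (y : Site d) : slab i0 l n y < n := by
  have hn0 : (0 : ℤ) < n := by exact_mod_cast hn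
  have h2 := Int.emod_nonneg (y i0 / l) hn0.ne'
  have h3 := Int.emod_lt_of_pos (y i0 / l) hn0
  unfold slab
  omega

theorem gmass_lower {n i : ℕ} {a b ε : ℝ} (hi : i < n) (ha0 : 0 ≤ a) (ha : a ≤ 1) (hb0 : 0 ≤ b)
    (hb : b ≤ 1) (h1 : n * (1 - a) ≤ ε / 2) (h2 : n * (1 - b) ≤ ε / 2) :
    1 - ε ≤ a * (b * a) ^ i := by
  have h0 : 0 ≤ b * a := by positivity
  have h3 : b * a ≤ 1 := by nlinarith
  have h4 : (b * a) ^ n ≤ (b * a) ^ (i + 1) := pow_le_pow_of_le_one h0 h3 hi
  have h5 := one_add_mul_sub_le_pow (a := b * a) (by linarith) n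
  have h6 : (b * a) ^ (i + 1) ≤ a * (b * a) ^ i := by
    rw [pow_succ']
    exact mul_le_mul_of_nonneg_right (by nlinarith) (by positivity)
  have h7 : (0 : ℝ) ≤ n * ((1 - a) * (1 - b)) :=
    mul_nonneg n.cast_nonneg (mul_nonneg (by linarith) (by linarith))
  nlinarith

theorem exists_design (i0 : Fin d) {l n : ℕ} (hl : 1 ≤ l) (hn : 2 ≤ n) {ε : ℝ} (hε : 0 < ε) :
    ∃ w0 : ℕ, ∀ w, w0 ≤ w → l * n ∣ w → ∃ r D C H Rm U g ω,
      0 ≤ C ∧ Design i0 l n w ε r D C H Rm U g ω := by
  have hn0 : (0 : ℝ) < n := by positivity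
  obtain ⟨ε1, hε1, N, hN⟩ := gexists_N (n := n) (by exact_mod_cast hn) (half_pos hε)
  obtain ⟨w0, hw0⟩ := exists_nat_ge (2 * n * d * (l * n) / ε : ℝ)
  refine ⟨w0 + l * n + 1, fun w hw hdv => ?_⟩
  obtain ⟨m, hm⟩ : ∃ m, m + l * n = w := ⟨w - l * n, by omega⟩
  have hmd : l * n ∣ m := (Nat.dvd_add_left dvd_rfl).1 (hm ▸ hdv)
  have hwp : 0 < w := by omega
  have hwR : (0 : ℝ) < w := by exact_mod_cast hwp
  have hwd : (0 : ℝ) < (w : ℝ) ^ d := by positivity
  obtain ⟨κ, R, u, hκ, hR, hu, hbal, hk1, hk2⟩ := exists_unif i0.pos (cob (0 : Site d) w)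
    (card_pos.1 (by rw [card_cob]; positivity)) ε1 hε1
  obtain ⟨hΦ0, hΦ1, hΦ2⟩ := hN (mass κ) (gmass_nonneg κ hκ) hk1 hk2
  set Φ := mass κ * ggeo ((1 - 1 / (n : ℝ)) * mass κ) N with hΦ
  set A := gop (unifA (cob (0 : Site d) w)) with hA
  have hAap : ∀ f y, A f y = if True then (∑ s ∈ cob y w, f s) / (w : ℝ) ^ d else 0 :=
    fun f y => by rw [if_pos trivial, hA, gop_unif]
  have gA : Good w A := good_avg (fun _ => True) (fun y => cob y w) hwd.le (fun y s hs i => by
    simp only [cob, Fintype.mem_piFinset, mem_Ioc] at hs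
    rw [abs_le]
    constructor <;> linarith [(hs i).1, (hs i).2]) hAap
  have bA : Bd 1 A := 
    bd_avg (fun _ => True) (fun y => cob y w) hwd (fun y => by simp [card_cob]) hAap
  obtain ⟨r1, gK⟩ := good_op κ hκ
  obtain ⟨r2, gR⟩ := good_op R hR
  obtain ⟨r3, gu⟩ := good_op u hu
  have bK : Bd 1 (gop κ) := bd_op κ hκ hk2
  have hbal' : A * gop κ + gop R = 1 - gop u * (1 - gop (stepA d)) := by
    have := congrArg gop hbal
    rwa [mul_comm κ, map_add, map_mul, map_sub, map_mul, map_sub, map_one] at this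
  set I : ℕ → GE d := fun j => gind fun y => slab i0 l n y = j with hI
  set J : ℕ → GE d := fun j => gind fun y => ¬ slab i0 l n y = j with hJ
  set r0 := w + r1 + r2 + r3 with hr0
  have gV : Good r0 (A * gop κ) := (gA.mul gK).mono (by omega)
  have gJV : ∀ j, Good r0 (J j * (A * gop κ)) := fun j =>
    ((good_ind 0 _).mul gV).mono (by omega)
  have gVJ : ∀ j, Good r0 (A * gop κ * J j) := fun j => gV.mul (good_ind 0 _)
  set om : ℕ → GE d := fun j => gop κ * grec 0 (I j) (J j * (A * gop κ)) N with hom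
  set r4 := r1 + r0 * (N + 1) with hr4
  have gom : ∀ j, Good r4 (om j) := fun j =>
    gK.mul (good_rec (good_zero _) (good_ind _ _) (gJV j) N)
  have bom : ∀ j, Bd 1 (om j) := fun j => bK.mul (bd_phi _ (bA.mul bK zero_le_one) N) zero_le_one
  have som : ∀ j < n, ∀ f a, FS f → HasSum (I j f) a → HasSum (om j f) (Φ * a) := by
    intro j hj f a hF hf
    rw [hΦ, mul_assoc]
    refine hasSum_op κ (hasSum_phi (good_ind r0 _) (gJV j) (fun f a hF hf => ?_) hF hf N)
    rw [mul_assoc, ← mul_assoc (J j)]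
    exact hasSum_lin (hasSum_out i0 hl hj hdv hwp) (gK.fs hF) (hasSum_op κ hf)
  set B : ℕ → GE d := fun j => gB i0 l n w m j with hB
  have hmw : (m : ℝ) ≤ w := by exact_mod_cast hm ▸ Nat.le_add_right _ _
  have bB : ∀ j, Bd 1 (B j) := fun j => bd_avg _ (fun y => cob (gcor l y) m) hwd (fun y => by
    rw [card_cob]; push_cast; gcongr) (gB_apply i0 l n w m j)
  set T := gT fun j => B j * om j with hT
  have gT' : ∀ i k, Good (k * (l + m + r4)) (T i k) :=
    good_T fun j => (good_B i0 hl n w m j).mul (gom j)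
  have bT : ∀ i k, Bd 1 (T i k) := bd_T fun j => (bB j).mul (bom j) zero_le_one
  have hb0 : 0 ≤ ((m : ℝ) / w) ^ d := by positivity
  have hb1 : ((m : ℝ) / w) ^ d ≤ 1 := pow_le_one₀ (by positivity) ((div_le_one hwR).2 hmw)
  have ha0 : 0 ≤ Φ / n := by positivity
  have ha1 : Φ / n ≤ 1 := (div_le_one hn0).2 hΦ2
  set θ := ((m : ℝ) / w) ^ d * (Φ / n) with hθ
  have hθ0 : 0 ≤ θ := by positivity
  have hθ1 : ∀ k, θ ^ k ≤ 1 := fun k => pow_le_one₀ hθ0 (mul_le_one₀ hb1 ha0 ha1)
  have hsl := slab_lt i0 l (n := n) (by omega)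
  have hIT : ∀ z k, k ≤ slab i0 l n z →
      I (slab i0 l n z - k) (T (slab i0 l n z) k (gδ z)) = T (slab i0 l n z) k (gδ z) := by
    intro z k hk
    ext y
    rw [hI, gind_apply]
    split_ifs with h
    · rfl
    · cases k with
      | zero => exact (if_neg fun e : y = z => h (by rw [e]; rfl)).symm
      | succ k => exact ((gB_apply ..).trans (if_neg (by omega))).symm
  have sT : ∀ z k, k ≤ slab i0 l n z → HasSum (T (slab i0 l n z) k (gδ z)) (θ ^ k) := by
    intro z k
    induction k with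
    | zero => exact fun _ => by rw [pow_zero]; exact hasSum_δ z
    | succ k ih =>
      intro hk
      have h1 := ih (by omega)
      rw [← hIT z k (by omega)] at h1
      have h2 := (gT' (slab i0 l n z) k).fs (fs_δ z)
      have h3 := hasSum_lin (hasSum_B i0 hl (j := slab i0 l n z - k) (by omega)
        (by have := hsl z; omega) hmd w) ((gom _).fs h2)
        (som _ (by have := hsl z; omega) _ _ h2 h1)
      rw [show θ ^ (k + 1) = ((m : ℝ) / w) ^ d / n * (Φ * θ ^ k) by rw [pow_succ', hθ]; ring]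
      exact h3
  have pT : ∀ i k z y, 0 ≤ T i k (gδ z) y := fun i k z => (gT' i k).pos _ (gδ_nonneg z)
  have som' : ∀ z j, j ≤ slab i0 l n z →
      HasSum (om j (T (slab i0 l n z) (slab i0 l n z - j) (gδ z)))
        (Φ * θ ^ (slab i0 l n z - j)) := by
    intro z j hj
    refine som _ (by have := hsl z; omega) _ _ ((gT' _ _).fs (fs_δ z)) ?_
    have := hIT z (slab i0 l n z - j) (by omega)
    rw [show slab i0 l n z - (slab i0 l n z - j) = j by omega] at this
    rw [this]
    exact sT z _ (by omega)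
  have hle : ∀ z j, j ≤ slab i0 l n z → ∀ Y : Finset (Site d),
      ∑ s ∈ Y, om j (T (slab i0 l n z) (slab i0 l n z - j) (gδ z)) s ≤ n := fun z j hj Y =>
    (sum_le_hasSum Y (fun s _ => (gom j).pos _ (pT _ _ z) s) (som' z j hj)).trans
      ((mul_le_of_le_one_right hΦ0 (hθ1 _)).trans hΦ2)
  have hstep : ∀ i j, j ≤ i → ∀ f y, T i (i + 1 - j) f y = B j (om j (T i (i - j) f)) y := by
    intro i j hj f y
    rw [hT, gT_step _ hj, Nat.add_sub_add_right]
    rfl
  have gH : ∀ j, Good (w + r4) (A * om j) := fun j => gA.mul (gom j)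
  have gRm : ∀ j, Good (w + r4) (grec 1 (gop R) (A * gop κ * J j) N) := fun j =>
    (good_rec (good_one _) (gR.mono (by omega)) (gVJ j) N).mono (by omega)
  have gU : ∀ j, Good (w + r4) (grec 0 (gop u) (A * gop κ * J j) N) := fun j =>
    (good_rec (good_zero _) (gu.mono (by omega)) (gVJ j) N).mono (by omega)
  have hD : ∀ i < n, ∀ k ≤ i + 1, k * (l + m + r4) ≤ n * (l + m + r4) := fun i hi k hk =>
    Nat.mul_le_mul_right _ (by omega)
  have gω : ∀ z, Good (w + r4 + n * (l + m + r4)) (om 0 * T (slab i0 l n z) (slab i0 l n z)) :=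
    fun z => ((gom 0).mul (gT' _ _)).mono (by have := hD _ (hsl z) _ (Nat.le_succ _); omega)
  refine ⟨w + r4, w + r4 + n * (l + m + r4), N * mass u, fun j x z => (A * om j) (gδ z) x,
    fun j x z => grec 1 (gop R) (A * gop κ * J j) N (gδ z) x,
    fun j x z => grec 0 (gop u) (A * gop κ * J j) N (gδ z) x,
    fun z j => if j = 0 then (A * om 0) (T (slab i0 l n z) (slab i0 l n z) (gδ z))
      else T (slab i0 l n z) (slab i0 l n z + 1 - j) (gδ z),
    fun z => om 0 (T (slab i0 l n z) (slab i0 l n z) (gδ z)),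
    mul_nonneg N.cast_nonneg (gmass_nonneg u hu),
    fun j x z => (gH j).pos _ (gδ_nonneg z) x, fun j x z => (gRm j).pos _ (gδ_nonneg z) x,
    fun j x z => (gU j).pos _ (gδ_nonneg z) x, fun j x z h => ⟨(gH j).near h, ?_⟩,
    fun j x z h => (gRm j).near h, fun j x z h => (gU j).near h, fun j x z => ?_,
    fun j x Y => ?_, fun z y => ?_, fun z j y => ?_, fun z j y hj => ?_, fun z j y hj h => ?_,
    fun z j y y' hj1 hj h => ?_, fun z j Y hj1 hj => ?_, fun z j y v Y hj1 hj hY => ?_,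
    fun z y Y hY => ?_, fun z y Y => ?_, fun z s => (gom 0).pos _ (pT _ _ z) s,
    fun z s h => gnear_symm ((gω z).near h), fun z Y hY => ?_, fun i s Z hZ => ?_⟩
  · by_contra hz
    refine h ?_
    have : I j (gδ z) = 0 := funext fun y => by
      rw [hI, gind_apply]
      split_ifs with h
      · exact if_neg fun e : y = z => hz (e ▸ h)
      · rfl
    change A (gop κ (grec 0 (I j) (J j * (A * gop κ)) N (gδ z))) x = 0
    rw [grec_eq_zero this, map_zero, map_zero, Pi.zero_apply]
  · have := congrArg (fun X : GE d => X (gδ z) x) (grec_bal (gind_add _ : I j + J j = 1) hbal' N)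
    simp only [mul_sub, mul_one, LinearMap.add_apply, LinearMap.sub_apply, Module.End.mul_apply,
      Module.End.one_apply, Pi.add_apply, Pi.sub_apply, gop_step, map_smul, map_sum,
      Pi.smul_apply, Finset.sum_apply, smul_eq_mul] at this
    refine this.trans ?_
    simp only [gδ]
    ring
  · exact (bd_rec (gmass_nonneg u hu) (bd_op u hu le_rfl)
      ((bA.mul bK zero_le_one).mul (bd_ind _) zero_le_one) N).sum_le Y x
  · simp only [Nat.add_one_ne_zero, if_false, Nat.sub_self]
    rfl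
  · split_ifs
    exacts [(gH 0).pos _ (pT _ _ z) y, pT _ _ z y]
  · split_ifs with h
    · rw [Module.End.mul_apply, hA, gop_unif]
      gcongr
      exact hle z 0 (Nat.zero_le _) _
    · rw [hstep _ _ hj, hB, gB_apply]
      split_ifs
      · gcongr
        exact hle z j hj _
      · positivity
  · split_ifs at h with h0
    · refine ⟨gnear_symm (gnear_mono ?_ (((gH 0).mul (gT' _ _)).near h)), by omega⟩
      have := hD _ (hsl z) _ (Nat.le_succ _)
      omega
    · refine ⟨gnear_symm (gnear_mono ?_ ((gT' _ _).near h)), fun _ => by_contra fun h1 => h ?_⟩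
      · have := hD _ (hsl z) _ (Nat.sub_le (slab i0 l n z + 1) j)
        omega
      · rw [hstep _ _ hj, hB, gB_apply, if_neg h1]
  · have h1 : slab i0 l n y = slab i0 l n y' := congrArg (fun b : Site d => (b i0 % n).toNat) h
    have h2 : gcor l y = gcor l y' := by unfold gcor; rw [h]
    rw [if_neg (by omega), hstep _ _ hj, hstep _ _ hj, hB, gB_apply, gB_apply, h1, h2]
  · rw [if_neg (by omega)]
    exact (sum_le_hasSum Y (fun s _ => pT _ _ z s) (sT z _ (by omega))).trans (hθ1 _)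
  · rw [if_neg (by omega), if_neg (by omega), ← (gH j).expand _ _ Y hY, hstep _ _ hj, hB,
      gB_apply, Module.End.mul_apply A, hA, gop_unif, Nat.add_sub_add_right]
    have h0 := (gom j).pos _ (pT (slab i0 l n z) (slab i0 l n z - j) z)
    split_ifs
    · exact div_le_div_of_nonneg_right (sum_le_sum_of_subset_of_nonneg
        (cob_sub hl (by nlinarith) hm y v) fun s _ _ => h0 s) hwd.le
    · exact div_nonneg (sum_nonneg fun s _ => h0 s) hwd.le
  · rw [if_pos rfl, if_neg one_ne_zero, ← (gH 0).expand _ _ Y hY, Nat.add_sub_cancel]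
  · rw [if_pos rfl, Module.End.mul_apply A, hA, gop_unif, ← sum_filter]
    exact div_le_div_of_nonneg_right (sum_le_sum_of_subset_of_nonneg
      (fun s hs => mem_cob.2 (mem_filter.1 hs).2) fun s _ _ => (gom 0).pos _ (pT _ _ z) s) hwd.le
  · have h1 := (som' z 0 (Nat.zero_le _)).unique (hasSum_sum_of_ne_finset_zero (s := Y)
      fun s hs => by_contra fun h => hs (hY s (gnear_symm ((gω z).near h))))
    have h2 : n * (1 - ((m : ℝ) / w) ^ d) ≤ ε / 2 := by
      have h3 := one_add_mul_sub_le_pow (a := (m : ℝ) / w)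
        (le_trans (by norm_num) (div_nonneg m.cast_nonneg hwR.le)) d
      have h4 : (m : ℝ) / w - 1 = -(l * n / w) := by
        rw [← hm]
        push_cast
        field_simp
        ring
      have h5 : (w0 : ℝ) ≤ w := by exact_mod_cast (by omega : w0 ≤ w)
      have h6 : (n : ℝ) * (d * (l * n / w)) ≤ ε / 2 := by
        have h7 := (div_le_iff₀ hε).1 (hw0.trans h5)
        rw [show (n : ℝ) * (d * (l * n / w)) = n * d * (l * n) / w by ring, div_le_iff₀ hwR]
        linarith
      rw [h4] at h3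
      nlinarith
    have h3 := gmass_lower (hsl z) ha0 ha1 hb0 hb1 (by
      rw [mul_sub, mul_div_cancel₀ _ hn0.ne']; linarith) h2
    rw [Nat.sub_zero] at h1
    rw [← h1, show Φ * θ ^ slab i0 l n z = Φ / n * θ ^ slab i0 l n z * n by field_simp]
    exact mul_le_mul_of_nonneg_right h3 hn0.le
  · refine le_trans (le_of_eq (sum_congr rfl fun z hz => ?_))
      (((bom 0).mul (bT i i) zero_le_one).sum_le Z s)
    rw [hZ z hz]
    rfl

end Pool.Agent.ARW
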