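import Pool.Agent.P.MP_3af8b7_pr.FV1
import Pool.Agent.P.MP_3af8b7_pr.Geo2
import Pool.Agent.P.MP_3af8b7_pr.Walk

/-! The ghost system attached to a design. -/

open Classical Finset

namespace Pool.Agent.ARW

variable {d : ℕ}

/-- The ball of radius `r` around `x` lies in `V`. -/
def deep (V : Finset (Site d)) (r : ℕ) (x : Site d) : Prop := ∀ y, near r x y → y ∈ V

lemma near_refl (r : ℕ) (x : Site d) : near r x x := fun i => by simp

lemma near.trans {r r' : ℕ} {x y z : Site d} (h : near r x y) (h' : near r' y z) :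
    near (r + r') x z := fun i => by
  have h1 := h i; have h2 := h' i
  push_cast
  rw [abs_le] at *
  constructor <;> linarith [h1.1, h1.2, h2.1, h2.2]

lemma near.mono {r r' : ℕ} {x y : Site d} (h : near r x y) (hr : r ≤ r') : near r' x y :=
  fun i => (h i).trans (by exact_mod_cast hr)

lemma near_nbr (x : Site d) (j : Fin d × Bool) : near 1 x (nbr x j) := fun i => by
  unfold nbr
  simp only [Pi.add_apply, sub_add_cancel_left, abs_neg, Pi.single_apply]
  split_ifs <;> simp

lemma deep.of_near {V : Finset (Site d)} {R r r' : ℕ} {x y : Site d} (h : deep V R x)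
    (hy : near r x y) (hr : r + r' ≤ R) : deep V r' y :=
  fun z hz => h z ((hy.trans hz).mono hr)

lemma nbr_rev (x : Site d) (j : Fin d × Bool) : nbr (nbr x j) (j.1, !j.2) = x := by
  unfold nbr
  rw [add_assoc, ← Pi.single_add]
  rcases j with ⟨i, _ | _⟩ <;> simp

lemma nbr_eq_iff (x y : Site d) (j : Fin d × Bool) : nbr x j = y ↔ x = nbr y (j.1, !j.2) := by
  constructor
  · rintro rfl; exact (nbr_rev x j).symm
  · rintro rfl
    have := nbr_rev y (j.1, !j.2)
    simpa using this

lemma tgt_eq_some {V : Finset (Site d)} (x : Site d) (j : Fin d × Bool) (s : V) :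
    tgt V x j = some s ↔ nbr x j = s := by
  unfold tgt
  split_ifs with h
  · simp [Subtype.ext_iff]
  · simp only [false_iff]
    rintro e; exact h (e ▸ s.2)

lemma QV_some (V : Finset (Site d)) (x s : V) :
    QV V x (some s) = (∑ j : Fin d × Bool, if nbr x j = s then (1 : ℝ) else 0) / (2 * d) := by
  unfold QV
  simp only [tgt_eq_some]
  rw [Finset.sum_boole]

lemma QV_none {V : Finset (Site d)} {x : V} (h : ∀ j, nbr (x : Site d) j ∈ V) :
    QV V x none = 0 := by
  unfold QV
  rw [Finset.filter_false_of_mem]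
  · simp
  · intro j _; unfold tgt; rw [dif_pos (h j)]; simp

lemma sum_mul_QV (V : Finset (Site d)) (u : Site d → ℝ) (hu : ∀ y, u y ≠ 0 → y ∈ V) (s : V) :
    ∑ x : V, u x * QV V x (some s) = (∑ v : Fin d × Bool, u (nbr s v)) / (2 * d) := by
  simp only [QV_some, ← mul_div_assoc, ← Finset.sum_div, Finset.mul_sum]
  congr 1
  rw [Finset.sum_comm]
  let e : Fin d × Bool ≃ Fin d × Bool :=
    ⟨fun j => (j.1, !j.2), fun j => (j.1, !j.2), fun j => by simp, fun j => by simp⟩
  rw [← Equiv.sum_comp e (fun v => u (nbr s v))]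
  refine Finset.sum_congr rfl fun j _ => ?_
  simp only [nbr_eq_iff, mul_ite, mul_one, mul_zero]
  change _ = u (nbr s (j.1, !j.2))
  by_cases h : nbr (s : Site d) (j.1, !j.2) ∈ V
  · rw [Finset.sum_eq_single (⟨_, h⟩ : V)]
    · simp
    · intro b _ hb
      rw [if_neg]; intro e; exact hb (Subtype.ext e)
    · simp
  · rw [Finset.sum_eq_zero]
    · by_contra h0; exact h (hu _ (Ne.symm h0))
    · intro x _; rw [if_neg]; intro e; exact h (e ▸ x.2)

lemma fv_slab_lt (i0 : Fin d) (l : ℕ) {n : ℕ} (hn : 1 ≤ n) (y : Site d) : slab i0 l n y < n := by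
  unfold slab
  have h1 := Int.emod_lt_of_pos (y i0 / l) (show (0 : ℤ) < n by exact_mod_cast hn)
  have h2 := Int.emod_nonneg (y i0 / l) (show (n : ℤ) ≠ 0 by exact_mod_cast (by omega : n ≠ 0))
  omega

lemma slab_of_blk (i0 : Fin d) {l : ℕ} (n : ℕ) {x y : Site d} (h : blk l x = blk l y) :
    slab i0 l n x = slab i0 l n y := by
  have := congrFun h i0
  unfold blk at this
  unfold slab; rw [this]

/-- Hitting data for the set of top sites. -/
def Hit (V : Finset (Site d)) (P : Site d → Prop) (o : V → V → ℝ) : Prop :=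
  ∀ x, (∀ s, 0 ≤ o x s) ∧ (∀ s : V, ¬ P s → o x s = 0) ∧ (∀ z, 0 ≤ land (QV V) (o x) x z) ∧
    ∀ s : V, P s → land (QV V) (o x) x (some s) = 0

lemma exists_Hit (hd : 1 ≤ d) (V : Finset (Site d)) (P : Site d → Prop) : ∃ o, Hit V P o := by
  choose o h using exists_hit (QV_nonneg V) (QV_tr hd V) {s : V | P s}
  refine ⟨o, fun x => ⟨(h x).1, (h x).2.1, fun z => ?_, fun s hs => ?_⟩⟩
  · unfold land; convert (h x).2.2.1 z
  · unfold land
    have := (h x).2.2.2 s hs
    simp only [Option.some.injEq]
    convert this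

/-- Occupation measure of a ghost started at `x` and sent to slab `j`. -/
noncomputable def ups (V : Finset (Site d)) (r : ℕ) (Rm U : ℕ → Site d → Site d → ℝ)
    (o : V → V → ℝ) (j : ℕ) (x : V) : V → ℝ :=
  if deep V (r + 1) x then fun s => U j x s + ∑ s' : V, Rm j x s' * o s' s else o x

/-- Level of a real site. -/
def lvl (i0 : Fin d) (l n K : ℕ) (y : Site d) : ℕ := min (slab i0 l n y) K + 1

/-- Occupation measure of the ghost trip after a jump from `y` to `x`. -/
noncomputable def nu (V : Finset (Site d)) (i0 : Fin d) (l n K r : ℕ)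
    (Rm U : ℕ → Site d → Site d → ℝ) (o : V → V → ℝ) (y x : V) : V → ℝ :=
  if slab i0 l n y < K then
    (if blk l (y : Site d) = blk l x then fun _ => 0 else ups V r Rm U o (slab i0 l n y + 1) x)
  else o x

variable {i0 : Fin d} {l n w r D K : ℕ} {ε C : ℝ} {H Rm U : ℕ → Site d → Site d → ℝ}
  {g : Site d → ℕ → Site d → ℝ} {ω : Site d → Site d → ℝ} {V : Finset (Site d)} {o : V → V → ℝ}

lemma Design.land_U (h : Design i0 l n w ε r D C H Rm U g ω) (j : ℕ) {x : V}
    (hx : deep V (r + 1) x) (z : Option V) :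
    land (QV V) (fun s => U j x s) x z = z.elim 0 (fun s => H j x s + Rm j x s) := by
  unfold land drift
  rcases z with _ | s
  · simp only [reduceCtorEq, if_false, Option.elim_none, zero_sub, neg_neg]
    refine Finset.sum_eq_zero fun s _ => ?_
    by_cases h0 : U j x s = 0
    · rw [h0, zero_mul]
    · rw [QV_none fun v => hx _ ((h.Uloc j x s h0).trans (near_nbr _ v)), mul_zero]
  · rw [sum_mul_QV V (U j x) (fun y hy => hx y ((h.Uloc j x y hy).mono (by omega))) s]
    simp only [Option.elim_some, Option.some.injEq, h.bal j x s]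
    by_cases e : s = x
    · subst e; simp; ring
    · rw [if_neg e, if_neg fun e' => e (Subtype.ext e').symm]; ring

lemma Design.land_ups (h : Design i0 l n w ε r D C H Rm U g ω) (o : V → V → ℝ) (j : ℕ) {x : V}
    (hx : deep V (r + 1) x) (z : Option V) :
    land (QV V) (ups V r Rm U o j x) x z
      = z.elim 0 (fun s => H j x s) + ∑ s' : V, Rm j x s' * land (QV V) (o s') s' z := by
  have e := h.land_U j hx z
  unfold ups
  rw [if_pos hx]
  unfold land at e ⊢
  rw [drift_add, drift_sum, ← sub_sub, e]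
  simp only [mul_sub, Finset.sum_sub_distrib]
  rcases z with _ | s
  · simp
  · simp; ring

lemma Design.ups_spec (h : Design i0 l n w ε r D C H Rm U g ω) (hC : 0 ≤ C)
    (ho : Hit V (fun y => slab i0 l n y < K) o) (j : ℕ) (x : V) :
    (∀ s, 0 ≤ ups V r Rm U o j x s) ∧ (∀ z, 0 ≤ land (QV V) (ups V r Rm U o j x) x z) ∧
      (∀ s : V, slab i0 l n s < K → slab i0 l n s ≠ j →
        land (QV V) (ups V r Rm U o j x) x (some s) = 0) ∧
      ∑ s ∈ univ.filter (fun s : V => K < lvl i0 l n K s), ups V r Rm U o j x s ≤ C := by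
  have htop : ∀ s : V, K < lvl i0 l n K s → ¬ slab i0 l n s < K := fun s hs => by
    unfold lvl at hs; omega
  by_cases hx : deep V (r + 1) x
  · refine ⟨fun s => ?_, fun z => ?_, fun s h1 h2 => ?_, ?_⟩
    · unfold ups; rw [if_pos hx]
      exact add_nonneg (h.U0 _ _ _)
        (Finset.sum_nonneg fun s' _ => mul_nonneg (h.R0 _ _ _) ((ho s').1 s))
    · rw [h.land_ups o j hx]
      refine add_nonneg ?_
        (Finset.sum_nonneg fun s' _ => mul_nonneg (h.R0 _ _ _) ((ho s').2.2.1 z))
      cases z
      exacts [le_rfl, h.H0 _ _ _]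
    · rw [h.land_ups o j hx]
      have : H j x s = 0 := by
        by_contra h0; exact h2 (h.Hloc _ _ _ h0).2
      simp [this, fun s' => (ho s').2.2.2 s h1]
    · unfold ups; rw [if_pos hx]
      have e : ∑ s ∈ univ.filter (fun s : V => K < lvl i0 l n K s), (U j x s + ∑ s' : V, Rm j x s' * o s' s)
          = ∑ s ∈ univ.filter (fun s : V => K < lvl i0 l n K s), U j x s :=
        Finset.sum_congr rfl fun s hs => by
          simp [fun s' => (ho s').2.1 s (htop s (Finset.mem_filter.1 hs).2)]
      rw [e]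
      have := h.cost j x ((univ.filter fun s : V => K < lvl i0 l n K s).map
        (Function.Embedding.subtype _))
      rwa [Finset.sum_map] at this
  · unfold ups; rw [if_neg hx]
    refine ⟨(ho x).1, (ho x).2.2.1, fun s h1 _ => (ho x).2.2.2 s h1, ?_⟩
    rw [Finset.sum_eq_zero fun s hs => (ho x).2.1 s (htop s (Finset.mem_filter.1 hs).2)]
    exact hC

theorem Design.ghost (hd : 1 ≤ d) (h : Design i0 l n w ε r D C H Rm U g ω) (hC : 0 ≤ C)
    (ho : Hit V (fun y => slab i0 l n y < K) o) :
    Ghost (QV V) (fun y => lvl i0 l n K y) K (fun y x => blk l (y : Site d) = blk l x)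
      (nu V i0 l n K r Rm U o) (ups V r Rm U o 0) C where
  Q0 := QV_nonneg V
  sto := QV_sto hd V
  tr := QV_tr hd V
  lv1 y := by unfold lvl; omega
  lvK y := by unfold lvl; omega
  n0 y x s := by
    unfold nu; split_ifs
    exacts [le_rfl, (h.ups_spec hC ho _ x).1 s, (ho x).1 s]
  n00 y := (h.ups_spec hC ho 0 y).1
  l0 y x z := by
    unfold nu; split_ifs
    · rw [land_zero fun _ => rfl]; split_ifs <;> norm_num
    · exact (h.ups_spec hC ho _ x).2.1 z
    · exact (ho x).2.2.1 z
  l00 y := (h.ups_spec hC ho 0 y).2.1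
  hsame y x hy hs := by
    have h1 : slab i0 l n y < K := by unfold lvl at hy; omega
    refine ⟨fun s => by unfold nu; rw [if_pos h1, if_pos hs], ?_⟩
    unfold lvl; rw [slab_of_blk i0 n hs]
  other y x s hy hs hl := by
    have h1 : slab i0 l n y < K := by unfold lvl at hy; omega
    unfold nu; rw [if_pos h1, if_neg hs]
    unfold lvl at hl
    exact (h.ups_spec hC ho _ x).2.2.1 s (by omega) (by omega)
  top1 y x s hy hs := by
    unfold lvl at hy hs
    unfold nu; rw [if_neg (by omega)]
    exact (ho x).2.2.2 s (by show slab i0 l n s < K; omega)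
  top2 y x s hy hs := by
    unfold lvl at hy hs
    unfold nu; rw [if_neg (by omega)]
    exact (ho x).2.1 s (by show ¬ slab i0 l n s < K; omega)
  C0 := hC
  cost y x := by
    unfold nu; split_ifs
    · simpa using hC
    · exact (h.ups_spec hC ho _ x).2.2.2
    · rw [Finset.sum_eq_zero fun s hs => (ho x).2.1 s (by
        have := (Finset.mem_filter.1 hs).2
        unfold lvl at this
        show ¬ slab i0 l n s < K; omega)]
      exact hC
  cost0 y := (h.ups_spec hC ho 0 y).2.2.2

/-- The test function attached to a target site `z`. -/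
noncomputable def fz (V : Finset (Site d)) (i0 : Fin d) (l n : ℕ) (g : Site d → ℕ → Site d → ℝ)
    (z : Site d) : V ⊕ V → ℝ :=
  Sum.elim (fun y => g z 0 y)
    (fun y => if slab i0 l n y ≤ slab i0 l n z then g z (slab i0 l n y + 1) y else 0)

lemma Design.fz_nonneg (h : Design i0 l n w ε r D C H Rm U g ω) (z : Site d) (y : V ⊕ V) :
    0 ≤ fz V i0 l n g z y := by
  rcases y with y | y
  · exact h.g0 _ _ _
  · simp only [fz, Sum.elim_inr]; split_ifs; exacts [h.g0 _ _ _, le_rfl]

lemma Design.fz_le_one (h : Design i0 l n w ε r D C H Rm U g ω) (hw : (n : ℝ) / (w : ℝ) ^ d ≤ 1)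
    (z : Site d) (y : V ⊕ V) : fz V i0 l n g z y ≤ 1 := by
  rcases y with y | y
  · exact (h.gle _ _ _ (Nat.zero_le _)).trans hw
  · simp only [fz, Sum.elim_inr]
    split_ifs with h1
    · rcases h1.eq_or_lt with e | e
      · rw [e, h.gtop]; split_ifs <;> norm_num
      · exact (h.gle _ _ _ e).trans hw
    · exact zero_le_one

lemma Design.land_ge (h : Design i0 l n w ε r D C H Rm U g ω)
    (ho : Hit V (fun y => slab i0 l n y < K) o) (z : Site d) {j : ℕ} (hj : j ≤ slab i0 l n z)
    {x : V} (hx : deep V (r + 1) x) :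
    ∑ s ∈ V, H j x s * g z (j + 1) s
      ≤ ∑ s : V, land (QV V) (ups V r Rm U o j x) x (some s) * fz V i0 l n g z (Sum.inr s) := by
  rw [← Finset.sum_coe_sort V]
  refine Finset.sum_le_sum fun s _ => ?_
  rw [h.land_ups o j hx, add_mul]
  have h1 : 0 ≤ (∑ s' : V, Rm j x s' * land (QV V) (o s') s' (some s))
      * fz V i0 l n g z (Sum.inr s) :=
    mul_nonneg (Finset.sum_nonneg fun s' _ => mul_nonneg (h.R0 _ _ _) ((ho s').2.2.1 _))
      (h.fz_nonneg z _)
  have h2 : H j x s * g z (j + 1) s = H j x s * fz V i0 l n g z (Sum.inr s) := by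
    by_cases h0 : H j x s = 0
    · simp [h0]
    · have := (h.Hloc _ _ _ h0).2
      simp only [fz, Sum.elim_inr, this, if_pos hj]
  simp only [Option.elim_some]
  linarith

theorem Design.fz_sub (hd : 1 ≤ d) (h : Design i0 l n w ε r D C H Rm U g ω)
    (ho : Hit V (fun y => slab i0 l n y < K) o) {z : Site d} (hz : deep V (D + r + 2) z)
    (hK : slab i0 l n z < K) (y : V ⊕ V)
    (hy : glev (fun y : V => lvl i0 l n K y) y ≤ slab i0 l n z) :
    fz V i0 l n g z y ≤ ∑ x, ghT (QV V) (nu V i0 l n K r Rm U o) (ups V r Rm U o 0) y (some x)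
      * fz V i0 l n g z x := by
  rcases y with y | y
  · simp only [ghT_inl, sum_lift_some]
    by_cases h0 : g z 0 y = 0
    · refine le_trans (le_of_eq h0) (Finset.sum_nonneg fun s _ => mul_nonneg ?_ (h.fz_nonneg z _))
      exact (h.ups_spec (le_trans (by simp) (h.cost 0 0 ∅)) ho 0 y).2.1 _
    · have hy' : deep V (r + 1) y := hz.of_near (h.gloc z 0 y (Nat.zero_le _) h0).1 (by omega)
      exact (h.gsrc z y V fun s hs => hy' s (hs.mono (by omega))).trans
        (h.land_ge ho z (Nat.zero_le _) hy')
  · have hC : 0 ≤ C := le_trans (by simp) (h.cost 0 0 ∅)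
    have hG := h.ghost hd hC ho
    simp only [glev, Sum.elim_inr, lvl] at hy
    have hj : slab i0 l n y + 1 ≤ slab i0 l n z := by omega
    have hf : fz V i0 l n g z (Sum.inr y) = g z (slab i0 l n y + 1) y := by
      simp only [fz, Sum.elim_inr]; rw [if_pos (by omega)]
    by_cases h0 : g z (slab i0 l n y + 1) y = 0
    · rw [hf, h0]
      exact Finset.sum_nonneg fun s _ => mul_nonneg (hG.ghT_nonneg _ _) (h.fz_nonneg z _)
    · have hnear := (h.gloc z _ y hj h0).1
      simp only [ghT_inr, sum_lift_some, reduceCtorEq, if_false, zero_add, Finset.sum_mul]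
      rw [Finset.sum_comm]
      set F : Option V → ℝ := fun x => x.elim 0 fun x =>
        ∑ s, land (QV V) (nu V i0 l n K r Rm U o y x) x (some s) * fz V i0 l n g z (Sum.inr s)
        with hF
      have e : ∑ x : V, ∑ s : V, QV V y (some x) * land (QV V) (nu V i0 l n K r Rm U o y x) x
          (some s) * fz V i0 l n g z (Sum.inr s) = ∑ x, QV V y x * F x := by
        rw [Fintype.sum_option]
        simp only [hF, Option.elim_none, Option.elim_some, mul_zero, zero_add, Finset.mul_sum,
          mul_assoc]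
      rw [e, QV_sum, hf, le_div_iff₀ (by positivity)]
      have key : ∀ j : Fin d × Bool, g z (slab i0 l n y + 1) y ≤ F (tgt V y j) := by
        intro j
        have hn1 : near (D + 1) z (nbr y j) := hnear.trans (near_nbr _ j)
        have hin : nbr (y : Site d) j ∈ V := hz _ (hn1.mono (by omega))
        have hx : deep V (r + 1) (nbr (y : Site d) j) := hz.of_near hn1 (by omega)
        unfold tgt
        rw [dif_pos hin]
        simp only [hF, Option.elim_some]
        unfold nu
        rw [if_pos (by omega)]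
        split_ifs with hb
        · simp only [land_zero (m := fun _ : V => (0 : ℝ)) fun _ => rfl, Option.some.injEq, ite_mul,
            one_mul, zero_mul, Finset.sum_ite_eq', Finset.mem_univ, if_true, fz, Sum.elim_inr]
          rw [← slab_of_blk i0 n hb, if_pos (by omega)]
          exact (h.gblk z _ _ _ (by omega) hj hb).le
        · exact (h.gsub z _ y j V (by omega) hj fun s hs => hx s (hs.mono (by omega))).trans
            (h.land_ge ho z hj (x := ⟨_, hin⟩) hx)
      have := Finset.sum_le_sum fun j (_ : j ∈ univ) => key j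
      simpa [mul_comm] using this

end Pool.Agent.ARW
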