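import Pool.Agent.P.MP_3af8b7_pr.FV2
import Pool.Agent.P.MP_3af8b7_pr.Abs1

/-! Blocks, holes and retention in the ghost system. -/

open Classical Finset

namespace Pool.Agent.ARW

variable {d : ℕ}

/-- The site `x ∈ [1,l]^d` of the block with label `k`. -/
def emb (l : ℕ) (k x : Site d) : Site d := fun i => l * k i + x i - 1

lemma mem_box {L : ℕ} {x : Site d} : x ∈ box d L ↔ ∀ i, 1 ≤ x i ∧ x i ≤ L := by
  simp [box, Fintype.mem_piFinset]

lemma blk_emb {l : ℕ} (hl : 1 ≤ l) (k : Site d) {x : Site d} (hx : x ∈ box d l) :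
    blk l (emb l k x) = k := by
  funext i
  have h := mem_box.1 hx i
  have hl' : (0 : ℤ) < l := by exact_mod_cast hl
  unfold blk emb
  rw [show (l : ℤ) * k i + x i - 1 = (x i - 1) + l * k i by ring,
    Int.add_mul_ediv_left _ _ hl'.ne', Int.ediv_eq_zero_of_lt (by omega) (by omega), zero_add]

lemma exists_emb {l : ℕ} (hl : 1 ≤ l) (y : Site d) : ∃ x ∈ box d l, emb l (blk l y) x = y := by
  have hl' : (0 : ℤ) < l := by exact_mod_cast hl
  refine ⟨fun i => y i % l + 1, mem_box.2 fun i => ?_, funext fun i => ?_⟩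
  · have h1 := Int.emod_lt_of_pos (y i) hl'
    have h2 := Int.emod_nonneg (y i) hl'.ne'
    omega
  · have := Int.mul_ediv_add_emod (y i) l
    simp only [emb, blk]; omega

lemma nbr_emb (l : ℕ) (k x : Site d) (j : Fin d × Bool) :
    nbr (emb l k x) j = emb l k (nbr x j) := by
  funext i; simp only [nbr, emb, Pi.add_apply]; ring

lemma emb_inj (l : ℕ) (k : Site d) {x y : Site d} (h : emb l k x = emb l k y) : x = y := by
  funext i
  have := congrFun h i
  simp only [emb] at this; omega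

lemma near_emb {l : ℕ} (hl : 1 ≤ l) (y : Site d) {x : Site d} (hx : x ∈ box d l) :
    near l y (emb l (blk l y) x) := by
  obtain ⟨x', hx', e⟩ := exists_emb hl y
  intro i
  have h1 := mem_box.1 hx i
  have h2 := mem_box.1 hx' i
  have h3 := congrFun e i
  simp only [emb] at h3 ⊢
  rw [abs_le]; omega

/-- Labels of the early blocks contained in `V`. -/
def Lab (V : Finset (Site d)) (i0 : Fin d) (l n K : ℕ) : Type :=
  {k : Site d // (∀ x ∈ box d l, emb l k x ∈ V) ∧ (k i0 % n).toNat < K}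

variable {i0 : Fin d} {l n w r D K : ℕ} {ε C a0 : ℝ} {H Rm U : ℕ → Site d → Site d → ℝ}
  {g : Site d → ℕ → Site d → ℝ} {ω : Site d → Site d → ℝ} {V : Finset (Site d)} {o : V → V → ℝ}

/-- The site of `V` with given label and position in the block. -/
def siteOf (p : Lab V i0 l n K × box d l) : V := ⟨emb l p.1.1 p.2, p.1.2.1 _ p.2.2⟩

/-- Embedding of a block. -/
def eB (k : Lab V i0 l n K) (x : box d l) : V ⊕ V := Sum.inr (siteOf (k, x))

/-- Level of a block. -/
def blB (k : Lab V i0 l n K) : ℕ := (k.1 i0 % n).toNat + 1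

lemma blk_siteOf (hl : 1 ≤ l) (p : Lab V i0 l n K × box d l) :
    blk l (siteOf p : Site d) = p.1.1 := blk_emb hl _ p.2.2

lemma slab_siteOf (hl : 1 ≤ l) (p : Lab V i0 l n K × box d l) :
    slab i0 l n (siteOf p : Site d) + 1 = blB p.1 := by
  have := congrFun (blk_siteOf hl p) i0
  unfold blk at this
  unfold slab blB; rw [this]

lemma siteOf_inj (hl : 1 ≤ l) :
    Function.Injective (siteOf : Lab V i0 l n K × box d l → V) := by
  rintro ⟨k, x⟩ ⟨k', x'⟩ h
  have h1 : k = k' := Subtype.ext (by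
    have e1 := blk_siteOf hl (k, x)
    have e2 := blk_siteOf hl (k', x')
    rw [h] at e1; exact e1.symm.trans e2)
  subst h1
  have h2 : x = x' := Subtype.ext (emb_inj l k.1 (congrArg Subtype.val h))
  rw [h2]

lemma exists_siteOf (hl : 1 ≤ l) (k : Lab V i0 l n K) (y : V) (h : blk l (y : Site d) = k.1) :
    ∃ x, siteOf (k, x) = y := by
  obtain ⟨x, hx, e⟩ := exists_emb hl (y : Site d)
  exact ⟨⟨x, hx⟩, Subtype.ext (by rw [← e, h]; rfl)⟩

lemma exists_lab (hl : 1 ≤ l) (y : V) (hy : deep V l y) (hs : slab i0 l n y < K) :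
    ∃ p : Lab V i0 l n K × box d l, siteOf p = y := by
  obtain ⟨x, hx⟩ := exists_siteOf hl
    (⟨blk l y, fun x hx => hy _ (near_emb hl _ hx), hs⟩ : Lab V i0 l n K) y rfl
  exact ⟨_, hx⟩

lemma lab_finite (hl : 1 ≤ l) : Finite (Lab V i0 l n K) :=
  Finite.of_injective (fun k => siteOf (k, ⟨fun _ => 1, mem_box.2 fun _ =>
    ⟨le_rfl, by exact_mod_cast hl⟩⟩)) fun _ _ h => (Prod.ext_iff.1 (siteOf_inj hl h)).1

theorem Design.blocks (hd : 1 ≤ d) (hl : 1 ≤ l) (ha : 0 ≤ a0 ∧ a0 < 1)
    (h : Design i0 l n w ε r D C H Rm U g ω) (hC : 0 ≤ C)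
    (ho : Hit V (fun y => slab i0 l n y < K) o) :
    Blocks (ghT (QV V) (nu V i0 l n K r Rm U o) (ups V r Rm U o 0)) (srcA a0) (QV (box d l))
      (fun _ => a0) (glev fun y : V => lvl i0 l n K y) Set.univ
      (eB : Lab V i0 l n K → _) blB := by
  have hG := h.ghost hd hC ho
  have hlev : ∀ (k : Lab V i0 l n K) x, lvl i0 l n K (siteOf (k, x) : Site d) = blB k := by
    intro k x
    have h1 := slab_siteOf hl (k, x)
    have h2 := k.2.2
    unfold lvl
    unfold blB at h1 ⊢
    simp only at h1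
    omega
  have hK : ∀ k : Lab V i0 l n K, blB k ≤ K := fun k => k.2.2
  refine ⟨hG.ghT_ok ha, hG.ghT_sto, hG.ghT_tr, ⟨QV_nonneg _, fun _ => ha⟩, QV_sto hd _, QV_tr hd _,
    hG.ghT_mono, fun k _ x x' e => ?_, fun k _ k' _ x x' e => ?_, fun k _ x => hlev k x,
    fun k _ x y => ?_, fun k _ x => rfl, fun k _ y x hy hl' => ?_⟩
  · exact (Prod.ext_iff.1 (siteOf_inj hl (Sum.inr_injective e))).2
  · exact (Prod.ext_iff.1 (siteOf_inj hl (Sum.inr_injective e))).1
  · unfold eB
    rw [hG.ghT_early (by rw [hlev]; exact hK k) (by rw [hlev, hlev]),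
      if_pos (by rw [blk_siteOf hl, blk_siteOf hl]), QV_some, QV_some]
    congr 1
    refine Finset.sum_congr rfl fun j _ => ?_
    have : nbr (siteOf (k, x) : Site d) j = siteOf (k, y) ↔ nbr (x : Site d) j = y := by
      simp only [siteOf, nbr_emb]
      exact ⟨emb_inj l _, fun e => by rw [e]⟩
    simp only [this]
  · rcases y with y | y
    · simp only [glev, Sum.elim_inl, blB] at hl'; omega
    · simp only [glev, Sum.elim_inr] at hl'
      unfold eB
      rw [hG.ghT_early (by rw [hl']; exact hK k) (by rw [hlev, hl']), if_neg]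
      intro e
      rw [blk_siteOf hl] at e
      obtain ⟨x', hx'⟩ := exists_siteOf hl k y e
      exact hy x' (by unfold eB; rw [hx'])

lemma inv_pow_sub_one_le {f ε : ℝ} {N : ℕ} (h0 : 0 ≤ f) (hε : 0 < ε)
    (h1 : N * f ≤ ε / (1 + ε)) (hf : f ≤ 1) : (1 - f)⁻¹ ^ N - 1 ≤ (1 + ε) * (N * f) := by
  have hb : 1 - N * f ≤ (1 - f) ^ N := by
    have := one_add_mul_le_pow (show (-2 : ℝ) ≤ -f by linarith) N
    simpa [sub_eq_add_neg] using this
  have hN : 0 ≤ N * f := by positivity
  rw [le_div_iff₀ (by linarith)] at h1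
  have hp : 0 < 1 - N * f := by nlinarith
  rw [inv_pow, sub_le_iff_le_add]
  refine (inv_anti₀ hp hb).trans ?_
  rw [inv_le_iff_one_le_mul₀ hp]
  nlinarith

lemma amgm {P Q lam : ℝ} (hP : 0 ≤ P) (hl : 0 < lam) (h : P * Q = 1) :
    1 ≤ (1 / 2) * (lam * P) + (1 / 2) * (lam⁻¹ * Q) := by
  have hP' : 0 < P := lt_of_le_of_ne hP (by rintro rfl; simp at h)
  have hx : 0 < lam * P := mul_pos hl hP'
  have e : lam⁻¹ * Q = (lam * P)⁻¹ := by
    rw [mul_inv, eq_inv_of_mul_eq_one_right h]
  rw [e]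
  have : 0 ≤ (lam * P - 1) ^ 2 * (lam * P)⁻¹ := by positivity
  have e2 : (lam * P - 1) ^ 2 * (lam * P)⁻¹ = lam * P - 2 + (lam * P)⁻¹ := by
    field_simp; ring
  linarith

/-- The set of bad windows. -/
noncomputable def badSet (V : Finset (Site d)) (w : ℕ) (ζ : ℝ) (η : Site d → ℕ) :
    Finset (Site d) :=
  V.filter fun s => cube s w ⊆ V ∧ ((∑ y ∈ cube s w, η y : ℕ) : ℝ) < ζ * (w : ℝ) ^ d

lemma Design.lin_ge (h : Design i0 l n w ε r D C H Rm U g ω) (hw : 1 ≤ w) {ζ : ℝ} (hζ : 0 ≤ ζ)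
    (η : Site d → ℕ) {z : Site d} (hz : deep V (D + w) z) :
    ζ * ((1 - ε) * n - ∑ s ∈ badSet V w ζ η, ω z s)
      ≤ lin (fz V i0 l n g z) (srcS fun y : V => η y) := by
  have hw' : (0 : ℝ) < (w : ℝ) ^ d := by positivity
  have e1 : lin (fz V i0 l n g z) (srcS fun y : V => η y) = ∑ y ∈ V, g z 0 y * η y := by
    unfold lin
    rw [Fintype.sum_sum_type, ← Finset.sum_coe_sort V]
    simp [fz, srcS, cnt]
  have e2 : ∑ y ∈ V, (∑ s ∈ V, if y ∈ cube s w then ω z s else 0) / (w : ℝ) ^ d * η y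
      ≤ ∑ y ∈ V, g z 0 y * η y :=
    Finset.sum_le_sum fun y _ => mul_le_mul_of_nonneg_right (h.gwin z y V) (Nat.cast_nonneg _)
  have e3 : ∑ y ∈ V, (∑ s ∈ V, if y ∈ cube s w then ω z s else 0) / (w : ℝ) ^ d * η y
      = ∑ s ∈ V, ω z s * ((∑ y ∈ V, if y ∈ cube s w then (η y : ℝ) else 0) / (w : ℝ) ^ d) := by
    simp only [Finset.sum_div, Finset.sum_mul, Finset.mul_sum]
    rw [Finset.sum_comm]
    refine Finset.sum_congr rfl fun s _ => Finset.sum_congr rfl fun y _ => ?_
    split_ifs <;> ring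
  have e4 : ∑ s ∈ V, ζ * (ω z s - if s ∈ badSet V w ζ η then ω z s else 0)
      ≤ ∑ s ∈ V, ω z s * ((∑ y ∈ V, if y ∈ cube s w then (η y : ℝ) else 0) / (w : ℝ) ^ d) := by
    refine Finset.sum_le_sum fun s hs => ?_
    have hnn : 0 ≤ (∑ y ∈ V, if y ∈ cube s w then (η y : ℝ) else 0) / (w : ℝ) ^ d :=
      div_nonneg (Finset.sum_nonneg fun y _ => by split_ifs <;> positivity) hw'.le
    split_ifs with hb
    · simpa using mul_nonneg (h.w0 z s) hnn
    · by_cases h0 : ω z s = 0
      · simp [h0]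
      · have hsub : cube s w ⊆ V := fun y hy => hz y ((h.wloc z s h0).trans fun i => by
          have := Finset.mem_Ico.1 (Fintype.mem_piFinset.1 hy i)
          rw [abs_le]; omega)
        have hge : ζ * (w : ℝ) ^ d ≤ ((∑ y ∈ cube s w, η y : ℕ) : ℝ) := by
          by_contra hlt
          exact hb (Finset.mem_filter.2 ⟨hs, hsub, lt_of_not_ge hlt⟩)
        rw [← Finset.sum_filter, Finset.filter_mem_eq_inter, Finset.inter_eq_right.2 hsub,
          sub_zero, mul_comm]
        refine mul_le_mul_of_nonneg_left ?_ (h.w0 z s)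
        rw [le_div_iff₀ hw']
        exact_mod_cast hge
  rw [← Finset.mul_sum, Finset.sum_sub_distrib, ← Finset.sum_filter, Finset.filter_mem_eq_inter,
    Finset.inter_eq_right.2 (show badSet V w ζ η ⊆ V from Finset.filter_subset _ _)] at e4
  have e5 := h.wmass z V fun s hs => hz s (hs.mono (by omega))
  rw [e1]
  refine le_trans (mul_le_mul_of_nonneg_left (by linarith) hζ) (e4.trans (e3 ▸ e2))

lemma Design.fz_mass (h : Design i0 l n w ε r D C H Rm U g ω) (z : Site d) (Y : Finset V)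
    (hY : ∀ y ∈ Y, slab i0 l n y < slab i0 l n z) :
    ∑ y ∈ Y, fz V i0 l n g z (Sum.inr y) ≤ slab i0 l n z := by
  rw [← Finset.sum_fiberwise_of_maps_to (g := fun y : V => slab i0 l n y)
    (t := Finset.range (slab i0 l n z)) fun y hy => Finset.mem_range.2 (hY y hy)]
  refine (Finset.sum_le_card_nsmul _ _ 1 fun j hj => ?_).trans (by simp)
  have hj' := Finset.mem_range.1 hj
  have := h.gmass z (j + 1) ((Y.filter fun y : V => slab i0 l n y = j).map
    (Function.Embedding.subtype _)) (by omega) hj'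
  rw [Finset.sum_map] at this
  refine le_trans (le_of_eq (Finset.sum_congr rfl fun y hy => ?_)) this
  have e := (Finset.mem_filter.1 hy).2
  simp only [fz, Sum.elim_inr, e, if_pos hj'.le, Function.Embedding.coe_subtype]

theorem Design.hole (hd : 1 ≤ d) (hl : 1 ≤ l) (hw : 1 ≤ w) (ha : 0 ≤ a0 ∧ a0 < 1) (hε : 0 < ε)
    (hn : 1 ≤ n) (h : Design i0 l n w ε r D C H Rm U g ω) (hC : 0 ≤ C)
    (ho : Hit V (fun y => slab i0 l n y < K) o)
    (hf : (l : ℝ) ^ d * (n / (w : ℝ) ^ d) ≤ ε / (1 + ε)) {ζ b : ℝ} (hζ : 0 ≤ ζ)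
    (η : Site d → ℕ) (z : V) (hz : deep V (D + r + l + w + 2) z) (hK : slab i0 l n z < K)
    (hb : (1 + ε) * dens d a0 l * slab i0 l n z + 2 * b ≤ ζ * (1 - 2 * ε) * n) :
    Fv (ghT (QV V) (nu V i0 l n K r Rm U o) (ups V r Rm U o 0)) (srcA a0)
        {y | glev (fun y : V => lvl i0 l n K y) y ≤ slab i0 l n z}
        (fun s => if s (Sum.inr z) = some 0 then 1 else 0) (srcS fun y : V => η y)
      ≤ Real.exp (-b) + (∑ s ∈ badSet V w ζ η, ω z s) / (ε * n) := by
  have hB := h.blocks (a0 := a0) hd hl ha hC ho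
  have hok := hB.ok
  have hsub := hB.sto.sub
  have hεn : 0 < ε * n := by positivity
  have hω : 0 ≤ ∑ s ∈ badSet V w ζ η, ω z s := Finset.sum_nonneg fun s _ => h.w0 _ _
  by_cases hbad : ε * n ≤ ∑ s ∈ badSet V w ζ η, ω z s
  · refine le_trans ((Fv_mono hok hsub (ψ' := fun _ => 1) (fun _ => zero_le_one)
      (fun s _ => by split_ifs <;> norm_num) _).trans (Fv_const_le hok hsub zero_le_one _)) ?_
    have := (one_le_div hεn).2 hbad
    linarith [Real.exp_pos (-b)]
  push Not at hbad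
  have hl1 : (1 : ℝ) ≤ (l : ℝ) ^ d := one_le_pow₀ (by exact_mod_cast hl)
  have hfm0 : 0 ≤ (n : ℝ) / (w : ℝ) ^ d := by positivity
  have hε1 : ε / (1 + ε) < 1 := (div_lt_one (by linarith)).2 (by linarith)
  have hfm : (n : ℝ) / (w : ℝ) ^ d < 1 := by nlinarith
  have := lab_finite (V := V) (i0 := i0) (n := n) (K := K) hl
  have := Fintype.ofFinite (Lab V i0 l n K)
  set i := slab i0 l n z with hi
  set f := fz V i0 l n g z with hfdef
  set x1 : box d l := ⟨fun _ => 1, mem_box.2 fun _ => ⟨le_rfl, by exact_mod_cast hl⟩⟩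
  set I : Finset (Lab V i0 l n K) := univ.filter fun k => blB k ≤ i with hI
  have hfk : ∀ k ∈ I, ∀ x, f (eB k x) = g z (blB k) (siteOf (k, x1) : Site d) := by
    intro k hk x
    have hk' : blB k ≤ i := (Finset.mem_filter.1 hk).2
    have e := slab_siteOf hl (k, x)
    simp only at e
    simp only [hfdef, fz, eB, Sum.elim_inr, e]
    rw [if_pos (by omega)]
    exact h.gblk z _ _ _ (by unfold blB; omega) hk' (by rw [blk_siteOf hl, blk_siteOf hl])
  set c : Lab V i0 l n K → ℝ := fun k =>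
    if k ∈ I then (1 - g z (blB k) (siteOf (k, x1) : Site d))⁻¹ else 1 with hc
  have hg1 : ∀ k ∈ I, g z (blB k) (siteOf (k, x1) : Site d) ≤ n / (w : ℝ) ^ d := fun k hk =>
    h.gle _ _ _ (Finset.mem_filter.1 hk).2
  have hc1 : ∀ k, 1 ≤ c k := fun k => by
    simp only [hc]
    split_ifs with hk
    · have := hg1 k hk
      exact (one_le_inv₀ (by linarith)).2 (by linarith [h.g0 z (blB k) (siteOf (k, x1) : Site d)])
    · exact le_rfl
  have hσ : AllAct (srcS fun y : V => η y) := fun x => by rcases x with x | x <;> simp [srcS]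
  have hf01 : ∀ y, 0 ≤ f y ∧ f y ≤ 1 := fun y => ⟨h.fz_nonneg z y, h.fz_le_one hfm.le z y⟩
  have F1 := Fv_prod_le hok hB.sto {y | glev (fun y : V => lvl i0 l n K y) y ≤ i} f hf01
    (fun y hy => h.fz_sub hd ho (hz.of_near (near_refl 0 _) (by omega)) hK y hy)
    (Set.range Sum.inl) (by rintro _ ⟨y, rfl⟩; simp [glev, srcA]) hσ
  have F2 := hB.ret_upper i I (fun k hk => ⟨trivial, (Finset.mem_filter.1 hk).2⟩) c hc1 hσ
  have hcard : (Fintype.card (box d l) : ℝ) = (l : ℝ) ^ d := by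
    rw [Fintype.card_coe, card_box]; push_cast; rfl
  have hρ : 0 ≤ dens d a0 l :=
    div_nonneg (Fv_nonneg hB.okb hB.stob.sub (fun _ => Nat.cast_nonneg _) _) (by positivity)
  set Y : Finset V := (I ×ˢ (univ : Finset (box d l))).image siteOf with hY
  have hsumY : ∑ y ∈ Y, f (Sum.inr y)
      = ∑ k ∈ I, (l : ℝ) ^ d * g z (blB k) (siteOf (k, x1) : Site d) := by
    rw [hY, Finset.sum_image fun _ _ _ _ e => siteOf_inj hl e, Finset.sum_product]
    refine Finset.sum_congr rfl fun k hk => ?_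
    refine (Finset.sum_congr rfl fun x _ => hfk k hk x).trans ?_
    rw [Finset.sum_const, Finset.card_univ, nsmul_eq_mul, hcard]
  have hYle : ∑ y ∈ Y, f (Sum.inr y) ≤ i := h.fz_mass z Y fun y hy => by
    obtain ⟨p, hp, rfl⟩ := Finset.mem_image.1 hy
    have h1 := slab_siteOf hl p
    have h2 : blB p.1 ≤ i := (Finset.mem_filter.1 (Finset.mem_product.1 hp).1).2
    omega
  have F2' : ∏ k ∈ I, (1 + Fv (QV (box d l)) (fun _ => a0) Set.univ totR (full (box d l))
      / Fintype.card (box d l) * (c k ^ Fintype.card (box d l) - 1))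
      ≤ Real.exp ((1 + ε) * dens d a0 l * i) := by
    refine le_trans (Finset.prod_le_prod (g := fun k => Real.exp ((1 + ε) * dens d a0 l
      * ((l : ℝ) ^ d * g z (blB k) (siteOf (k, x1) : Site d)))) (fun k _ => ?_) fun k hk => ?_) ?_
    · rw [hcard]
      have := mul_nonneg hρ (sub_nonneg.2 (one_le_pow₀ (hc1 k) (n := Fintype.card (box d l))))
      unfold dens at this; linarith
    · refine le_trans ?_ (Real.add_one_le_exp _)
      have e := inv_pow_sub_one_le (N := Fintype.card (box d l))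
        (h.g0 z (blB k) (siteOf (k, x1) : Site d)) hε
        (by rw [hcard]; exact (mul_le_mul_of_nonneg_left (hg1 k hk) (by positivity)).trans hf)
        ((hg1 k hk).trans hfm.le)
      have e2 := mul_le_mul_of_nonneg_left e hρ
      simp only [hc, if_pos hk]
      rw [hcard] at e2 ⊢
      unfold dens at e2 ⊢
      linarith
    · rw [← Real.exp_sum, ← Finset.mul_sum, ← hsumY]
      exact Real.exp_le_exp.2 (mul_le_mul_of_nonneg_left hYle (by positivity))
  have F1' : Real.exp (- lin f (srcS fun y : V => η y)) ≤ Real.exp (-(ζ * (1 - 2 * ε) * n)) := by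
    refine Real.exp_le_exp.2 (neg_le_neg (le_trans ?_
      (h.lin_ge hw hζ η (hz.of_near (near_refl 0 _) (by omega)))))
    rw [mul_assoc]
    exact mul_le_mul_of_nonneg_left (by linarith) hζ
  set lam := Real.exp (b + (1 + ε) * dens d a0 l * i) with hlam
  have hlam0 : 0 < lam := Real.exp_pos _
  set P1 : (V ⊕ V → Loc) → ℝ := fun s =>
    ∏ y ∈ univ.filter (fun y => y ∉ Set.range Sum.inl), (1 - f y) ^ cnt (s y) with hP1
  set P2 : (V ⊕ V → Loc) → ℝ := fun s => ∏ k ∈ I, c k ^ tot (s ∘ eB k) with hP2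
  have p1 : ∀ s, 0 ≤ P1 s := fun s =>
    Finset.prod_nonneg fun y _ => pow_nonneg (sub_nonneg.2 (hf01 y).2) _
  have p2 : ∀ s, 0 ≤ P2 s := fun s =>
    Finset.prod_nonneg fun k _ => pow_nonneg (zero_le_one.trans (hc1 k)) _
  have hprod : ∀ s : V ⊕ V → Loc, s (Sum.inr z) = some 0 → P1 s * P2 s = 1 := by
    intro s hs
    have e1 : P1 s = ∏ y ∈ Y, (1 - f (Sum.inr y)) ^ cnt (s (Sum.inr y)) := by
      simp only [hP1]
      rw [Finset.prod_filter, Fintype.prod_sum_type]
      simp only [Set.mem_range, Sum.inl.injEq, exists_eq, not_true, if_false,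
        Finset.prod_const_one, one_mul, reduceCtorEq, exists_false, not_false_iff, if_true]
      refine (Finset.prod_subset (Finset.subset_univ Y) fun y _ hy => ?_).symm
      by_cases hyz : y = z
      · rw [hyz, hs]; simp [cnt]
      · suffices f (Sum.inr y) = 0 by simp [this]
        by_contra h0
        simp only [hfdef, fz, Sum.elim_inr] at h0
        split_ifs at h0 with h1
        · rcases h1.eq_or_lt with e | e
          · rw [e, h.gtop, if_neg fun e' => hyz (Subtype.ext e')] at h0; exact h0 rfl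
          · have hn := (h.gloc z _ y e h0).1
            obtain ⟨p, hp⟩ := exists_lab (i0 := i0) (n := n) (K := K) hl y
              (hz.of_near hn (by omega)) (by omega)
            refine hy (Finset.mem_image.2 ⟨p, Finset.mem_product.2
              ⟨Finset.mem_filter.2 ⟨Finset.mem_univ _, ?_⟩, Finset.mem_univ _⟩, hp⟩)
            have := slab_siteOf hl p
            rw [hp] at this; omega
        · exact h0 rfl
    rw [e1, hY, Finset.prod_image fun _ _ _ _ e => siteOf_inj hl e, Finset.prod_product]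
    simp only [hP2]
    rw [← Finset.prod_mul_distrib]
    refine Finset.prod_eq_one fun k hk => ?_
    have e2 : ∏ x : box d l, (1 - f (Sum.inr (siteOf (k, x)))) ^ cnt (s (Sum.inr (siteOf (k, x))))
        = (1 - g z (blB k) (siteOf (k, x1) : Site d)) ^ tot (s ∘ eB k) := by
      unfold tot
      rw [← Finset.prod_pow_eq_pow_sum]
      exact Finset.prod_congr rfl fun x _ => by rw [← hfk k hk x]; rfl
    rw [e2]
    simp only [hc, if_pos hk]
    rw [← mul_pow, mul_inv_cancel₀ (by have := hg1 k hk; linarith), one_pow]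
  have q1 : ∀ s, 0 ≤ lam * P1 s := fun s => mul_nonneg hlam0.le (p1 s)
  have q2 : ∀ s, 0 ≤ lam⁻¹ * P2 s := fun s => mul_nonneg (inv_nonneg.2 hlam0.le) (p2 s)
  refine (Fv_mono hok hsub
    (ψ' := fun s => (1 / 2) * (lam * P1 s) + (1 / 2) * (lam⁻¹ * P2 s))
    (fun s => by have := q1 s; have := q2 s; positivity) (fun s _ => ?_) _).trans ?_
  · split_ifs with hs
    · exact amgm (p1 s) hlam0 (hprod s hs)
    · have := q1 s; have := q2 s; positivity
  · rw [Fv_add hok hsub (fun s => by have := q1 s; positivity)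
      (fun s => by have := q2 s; positivity), Fv_mul hok hsub q1 (by norm_num),
      Fv_mul hok hsub q2 (by norm_num), Fv_mul hok hsub p1 hlam0.le,
      Fv_mul hok hsub p2 (inv_nonneg.2 hlam0.le)]
    have G1 : Fv (ghT (QV V) (nu V i0 l n K r Rm U o) (ups V r Rm U o 0)) (srcA a0)
        {y | glev (fun y : V => lvl i0 l n K y) y ≤ i} P1 (srcS fun y : V => η y)
        ≤ Real.exp (-(ζ * (1 - 2 * ε) * n)) := by
      refine le_trans (le_of_eq ?_) (F1.trans F1')
      congr 1
      funext s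
      simp only [hP1]
      congr
    have G2 : Fv (ghT (QV V) (nu V i0 l n K r Rm U o) (ups V r Rm U o 0)) (srcA a0)
        {y | glev (fun y : V => lvl i0 l n K y) y ≤ i} P2 (srcS fun y : V => η y)
        ≤ Real.exp ((1 + ε) * dens d a0 l * i) := F2.trans F2'
    have g1 := mul_le_mul_of_nonneg_left G1 hlam0.le
    have g2 := mul_le_mul_of_nonneg_left G2 (inv_nonneg.2 hlam0.le)
    have g3 : lam * Real.exp (-(ζ * (1 - 2 * ε) * n)) ≤ Real.exp (-b) := by
      rw [hlam, ← Real.exp_add]; exact Real.exp_le_exp.2 (by linarith)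
    have g4 : lam⁻¹ * Real.exp ((1 + ε) * dens d a0 l * i) = Real.exp (-b) := by
      rw [hlam, ← Real.exp_neg, ← Real.exp_add]; congr 1; ring
    have g5 := div_nonneg hω hεn.le
    linarith

end Pool.Agent.ARW
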