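import Pool.Agent.P.MP_3af8b7_pr.Bridge
import Pool.Agent.P.MP_3af8b7_pr.Erg

open Classical Finset MeasureTheory Filter Topology

namespace Pool.Agent.ARW

variable {d : ℕ}

lemma fix_bnd_mono {τ : Stack d} {η : Site d → ℕ} {W W' : Set (Site d)} (h : W ⊆ W') {x : Site d}
    {K : ℕ} (hB : Bnd τ η W' x K) : Bnd τ η W x K := by
  intro s hs
  apply hB s
  unfold ReachIn at hs ⊢
  induction hs with
  | refl => exact Relation.ReflTransGen.refl
  | tail _ h2 ih =>
    obtain ⟨y, hy, h3⟩ := h2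
    exact ih.tail ⟨y, h hy, h3⟩

lemma fix_meas_coord (y : Site d) : Measurable fun η : Site d → ℕ => (η y : ℝ) :=
  (measurable_from_top (f := fun n : ℕ => (n : ℝ))).comp (measurable_pi_apply y)

lemma fix_int_coord {μ : Measure (Site d → ℕ)} (hμ : StatErg μ)
    (hint : Integrable (fun η => (η 0 : ℝ)) μ) (y : Site d) :
    Integrable (fun η : Site d → ℕ => (η y : ℝ)) μ ∧
      ∫ η, (η y : ℝ) ∂μ = ∫ η, (η 0 : ℝ) ∂μ := by
  have hp := hμ.2.1 y
  have e : (fun η : Site d → ℕ => (η y : ℝ)) = (fun η : Site d → ℕ => (η 0 : ℝ)) ∘ shift y := by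
    funext η; simp [shift]
  constructor
  · rw [e]
    exact hp.integrable_comp_of_integrable hint
  · have h1 := integral_map (μ := μ) (φ := shift y) hp.measurable.aemeasurable
      (f := fun η : Site d → ℕ => (η 0 : ℝ)) (fix_meas_coord 0).aestronglyMeasurable
    rw [hp.map_eq] at h1
    rw [h1]
    simp [shift]

lemma fix_meas_win (s : Site d) (w : ℕ) (c : ℝ) :
    MeasurableSet {η : Site d → ℕ | ((∑ y ∈ cube s w, η y : ℕ) : ℝ) < c} := by
  have : Measurable fun η : Site d → ℕ => ((∑ y ∈ cube s w, η y : ℕ) : ℝ) := by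
    simp only [Nat.cast_sum]
    exact Finset.measurable_sum _ fun y _ => fix_meas_coord y
  exact measurableSet_lt this measurable_const

lemma fix_sum_cube (s : Site d) (w : ℕ) (η : Site d → ℕ) :
    ∑ y ∈ cube (0 : Site d) w, shift s η y = ∑ y ∈ cube s w, η y := by
  refine Finset.sum_bij' (fun y _ => y + s) (fun y _ => y - s) ?_ ?_ ?_ ?_ ?_
  · intro y hy
    simp only [cube, Fintype.mem_piFinset, mem_Ico, Pi.zero_apply, Pi.add_apply] at hy ⊢
    intro i; have := hy i; omega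
  · intro y hy
    simp only [cube, Fintype.mem_piFinset, mem_Ico, Pi.zero_apply, Pi.sub_apply] at hy ⊢
    intro i; have := hy i; omega
  · intro y _; simp
  · intro y _; simp
  · intro y _; rfl

lemma fix_win_shift {μ : Measure (Site d → ℕ)} (hμ : StatErg μ) (s : Site d) (w : ℕ) (c : ℝ) :
    μ.real {η | ((∑ y ∈ cube s w, η y : ℕ) : ℝ) < c}
      = μ.real {η | ((∑ y ∈ cube (0 : Site d) w, η y : ℕ) : ℝ) < c} := by
  have hp := hμ.2.1 s
  have h1 := hp.measureReal_preimage (fix_meas_win (0 : Site d) w c).nullMeasurableSet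
  rw [← h1]
  congr 1
  ext η
  simp only [Set.mem_ofPred_eq, Set.mem_preimage, fix_sum_cube]

lemma fix_badprob {μ : Measure (Site d → ℕ)} (hμ : StatErg μ)
    (hint : Integrable (fun η => (η 0 : ℝ)) μ) {ζ : ℝ} (h : ζ ≤ 0 ∨ ζ < ∫ η, (η 0 : ℝ) ∂μ) :
    Tendsto (fun w : ℕ =>
      μ.real {η | ((∑ y ∈ cube (0 : Site d) w, η y : ℕ) : ℝ) < ζ * (w : ℝ) ^ d}) atTop (𝓝 0) := by
  have := hμ.1
  rcases h with h | h
  · have e : ∀ w : ℕ,
        μ.real {η | ((∑ y ∈ cube (0 : Site d) w, η y : ℕ) : ℝ) < ζ * (w : ℝ) ^ d} = 0 := by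
      intro w
      have : {η : Site d → ℕ | ((∑ y ∈ cube (0 : Site d) w, η y : ℕ) : ℝ) < ζ * (w : ℝ) ^ d}
          = ∅ := by
        ext η
        simp only [Set.mem_ofPred_eq, Set.mem_empty_iff_false, iff_false, not_lt]
        exact le_trans (mul_nonpos_of_nonpos_of_nonneg h (by positivity)) (Nat.cast_nonneg _)
      rw [this]; simp
    simp only [e]
    exact tendsto_const_nhds
  · obtain ⟨M, hM⟩ := erg_lower hμ hint h
    refine squeeze_zero (fun _ => measureReal_nonneg) (fun w => ?_) hM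
    refine measureReal_mono (fun η hη => ?_)
    simp only [Set.mem_ofPred_eq] at hη ⊢
    refine lt_of_le_of_lt ?_ hη
    exact_mod_cast Finset.sum_le_sum fun y _ => min_le_left _ _

lemma fix_bad_le (L w : ℕ) (ζ : ℝ) (η : Site d → ℕ) :
    (bad L w ζ η : ℝ) ≤ ∑ s ∈ box d L,
      Set.indicator {η : Site d → ℕ | ((∑ y ∈ cube s w, η y : ℕ) : ℝ) < ζ * (w : ℝ) ^ d}
        (fun _ => (1 : ℝ)) η := by
  unfold bad
  rw [card_filter, Nat.cast_sum]
  refine Finset.sum_le_sum fun s _ => ?_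
  by_cases h : η ∈ {η : Site d → ℕ | ((∑ y ∈ cube s w, η y : ℕ) : ℝ) < ζ * (w : ℝ) ^ d}
  · rw [Set.indicator_of_mem h]; split_ifs <;> norm_num
  · rw [Set.indicator_of_notMem h, if_neg (fun h2 => h h2.2)]
    simp

lemma fix_fubini (hd : 1 ≤ d) {lam : ℝ} (hl : 0 < lam) {μ : Measure (Site d → ℕ)}
    [IsProbabilityMeasure μ] (W : Set (Site d)) (x : Site d) (K : ℕ) :
    Integrable (fun η => (stackLaw d lam).real {τ | Bnd τ η W x K}) μ ∧
    ∫ η, (stackLaw d lam).real {τ | Bnd τ η W x K} ∂μ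
      = (μ.prod (stackLaw d lam)).real {p | Bnd p.2 p.1 W x K} := by
  have := stackLaw_prob hd hl
  have hm := measurableSet_bnd W x K
  have h1 : Measurable fun η : Site d → ℕ => stackLaw d lam {τ | Bnd τ η W x K} :=
    measurable_measure_prodMk_left hm
  constructor
  · refine Integrable.of_bound (C := 1) h1.ennreal_toReal.aestronglyMeasurable ?_
    refine Eventually.of_forall fun η => ?_
    rw [Real.norm_eq_abs, abs_of_nonneg measureReal_nonneg]
    exact measureReal_le_one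
  · simp only [Measure.real]
    rw [integral_toReal h1.aemeasurable (Eventually.of_forall fun η => measure_lt_top _ _),
      Measure.prod_apply hm]
    rfl

lemma fix_bnd_shift (hd : 1 ≤ d) {lam : ℝ} (hl : 0 < lam) {μ : Measure (Site d → ℕ)}
    (hμ : StatErg μ) (R : ℕ) (x : Site d) (K : ℕ) :
    (μ.prod (stackLaw d lam)).real {p | Bnd p.2 p.1 {y | near R x y} x K}
      = (μ.prod (stackLaw d lam)).real {p | Bnd p.2 p.1 {y | near R 0 y} 0 K} := by
  have hp := jshift_preserving hd hl hμ x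
  have h1 := hp.measureReal_preimage
    (measurableSet_bnd {y | near R (0 : Site d) y} 0 K).nullMeasurableSet
  rw [← h1]
  congr 1
  ext p
  simp only [Set.mem_ofPred_eq, Set.mem_preimage, bnd_jshift, zero_add]
  have : {y : Site d | near R 0 (y - x)} = {y | near R x y} := by
    ext y
    simp only [Set.mem_ofPred_eq, near, Pi.zero_apply, Pi.sub_apply, zero_sub, neg_sub]
  rw [this]

lemma fix_scale_le (hd : 1 ≤ d) {a0 : ℝ} (ha : 0 < a0 ∧ a0 < 1) (V : Finset (Site d)) (x : V)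
    {t : ℝ} (ht : 0 ≤ t ∧ t ≤ 1) (σ : V → Loc) :
    Fv (scale (QV V) x t) (fun _ => a0) Set.univ (fun _ => 1) σ ≤ 1 := by
  refine Fv_const_le ⟨fun y z => ?_, fun _ => ⟨ha.1.le, ha.2⟩⟩ (fun y => ?_) zero_le_one σ
  · unfold scale
    split_ifs
    · exact mul_nonneg ht.1 (QV_nonneg V y z)
    · exact QV_nonneg V y z
  · have h1 := QV_sto hd V y
    unfold scale
    by_cases h : y = x
    · simp only [h, if_true]
      rw [← Finset.mul_sum, ← h, h1]; linarith [ht.2]
    · simp only [h, if_false]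
      exact h1.le

/-- From uniform bounds on balls to almost sure stabilization. -/
lemma fix_conclude (hd : 1 ≤ d) {lam : ℝ} (hl : 0 < lam) {μ : Measure (Site d → ℕ)}
    (hμ : StatErg μ)
    (h : ∀ θ : ℝ, 0 < θ → ∃ K : ℕ, ∀ R : ℕ,
      1 - θ ≤ (μ.prod (stackLaw d lam)).real {p | Bnd p.2 p.1 {y | near R 0 y} 0 K}) :
    ∀ᵐ p ∂(μ.prod (stackLaw d lam)), Stabilizes p.2 p.1 := by
  have := hμ.1
  have := stackLaw_prob hd hl
  set P := μ.prod (stackLaw d lam) with hP
  simp only [stabilizes_iff]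
  rw [ae_all_iff]
  intro x
  have hmeas : MeasurableSet {p : (Site d → ℕ) × Stack d | ∃ K, Bnd p.2 p.1 Set.univ x K} := by
    rw [Set.ofPred_exists]
    exact MeasurableSet.iUnion fun K => measurableSet_bnd _ _ _
  have key : ∀ θ : ℝ, 0 < θ → 1 - θ ≤ P.real {p | ∃ K, Bnd p.2 p.1 Set.univ x K} := by
    intro θ hθ
    obtain ⟨K, hK⟩ := h θ hθ
    have hanti : Antitone fun R : ℕ =>
        {p : (Site d → ℕ) × Stack d | Bnd p.2 p.1 {y | near R x y} x K} := by
      intro R R' hR p hp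
      refine fix_bnd_mono (fun y hy i => ?_) hp
      exact le_trans (hy i) (by exact_mod_cast hR)
    have h1 := tendsto_measure_iInter_atTop (μ := P)
      (fun R => (measurableSet_bnd {y | near R x y} x K).nullMeasurableSet) hanti
      ⟨0, measure_ne_top _ _⟩
    have h2 := (ENNReal.tendsto_toReal (measure_ne_top _ _)).comp h1
    have h3 : 1 - θ ≤ P.real (⋂ R : ℕ,
        {p : (Site d → ℕ) × Stack d | Bnd p.2 p.1 {y | near R x y} x K}) := by
      refine ge_of_tendsto' h2 fun R => ?_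
      have := hK R
      rw [← fix_bnd_shift hd hl hμ R x K] at this
      exact this
    refine le_trans h3 (measureReal_mono fun p hp => ?_)
    exact ⟨K, (bnd_univ_iff _ _ _ _).2 fun R => Set.mem_iInter.1 hp R⟩
  have h1 : P.real {p | ∃ K, Bnd p.2 p.1 Set.univ x K} = 1 := by
    refine le_antisymm measureReal_le_one ?_
    by_contra hlt
    push Not at hlt
    have := key ((1 - P.real {p | ∃ K, Bnd p.2 p.1 Set.univ x K}) / 2) (by linarith)
    linarith
  have h2 : P {p | ∃ K, Bnd p.2 p.1 Set.univ x K} = 1 := by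
    rw [← ENNReal.toReal_eq_one_iff]; exact h1
  exact (mem_ae_iff_prob_eq_one hmeas).2 h2

/-- The averaged estimate in the box of side `L`. -/
lemma fix_average (hd : 1 ≤ d) {lam : ℝ} (hl : 0 < lam) {μ : Measure (Site d → ℕ)}
    (hμ : StatErg μ) (hint : Integrable (fun η => (η 0 : ℝ)) μ) (L w R K : ℕ) (X : Finset (box d L))
    {ζ δ ε C D t : ℝ} (hε : 0 < ε) (ht : 0 ≤ t ∧ t ≤ 1)
    (hX : ∀ η : Site d → ℕ,
      ∑ x ∈ X, (1 - Fv (scale (QV (box d L)) x t) (fun _ => lam / (1 + lam)) Set.univ (fun _ => 1)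
          (act (box d L) η))
        ≤ (((∑ y ∈ box d L, η y : ℕ) : ℝ)
            - ((ζ - δ) * (L : ℝ) ^ d - bad L w ζ η / ε - D * (L : ℝ) ^ (d - 1))) / (lam / (1 + lam))
          + (1 - t) * C * ((∑ y ∈ box d L, η y : ℕ) : ℝ)) :
    ((X.filter fun x : box d L => ∀ y, near R (x : Site d) y → y ∈ box d L).card : ℝ)
        * (1 - (μ.prod (stackLaw d lam)).real {p | Bnd p.2 p.1 {y | near R 0 y} 0 K} - t ^ (K + 1))
      ≤ ((L : ℝ) ^ d * (∫ η, (η 0 : ℝ) ∂μ - ζ + δ + μ.real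
          {η | ((∑ y ∈ cube (0 : Site d) w, η y : ℕ) : ℝ) < ζ * (w : ℝ) ^ d} / ε)
          + D * (L : ℝ) ^ (d - 1)) / (lam / (1 + lam))
        + (1 - t) * C * ((L : ℝ) ^ d * ∫ η, (η 0 : ℝ) ∂μ) := by
  have := hμ.1
  set a0 := lam / (1 + lam) with ha0
  have ha : 0 < a0 ∧ a0 < 1 := ⟨by positivity, by rw [ha0, div_lt_one (by linarith)]; linarith⟩
  set X' := X.filter fun x : box d L => ∀ y, near R (x : Site d) y → y ∈ box d L with hX'
  set S : (Site d → ℕ) → ℝ := fun η => ∑ y ∈ box d L, (η y : ℝ) with hS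
  set I : (Site d → ℕ) → ℝ := fun η => ∑ s ∈ box d L,
      Set.indicator {η : Site d → ℕ | ((∑ y ∈ cube s w, η y : ℕ) : ℝ) < ζ * (w : ℝ) ^ d}
        (fun _ => (1 : ℝ)) η with hI
  set b : box d L → (Site d → ℕ) → ℝ := fun x η =>
    (stackLaw d lam).real {τ | Bnd τ η {y | near R (x : Site d) y} x K} with hb
  set c0 : ℝ := (-((ζ - δ) * (L : ℝ) ^ d) + D * (L : ℝ) ^ (d - 1)) / a0
    - X'.card * (1 - t ^ (K + 1)) with hc0
  have hpt : ∀ η, 0 ≤ (1 / a0 + (1 - t) * C) * S η + (1 / (ε * a0)) * I η + c0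
      + ∑ x ∈ X', b x η := by
    intro η
    have h1 : ∑ x ∈ X', (1 - t ^ (K + 1) - b x η) ≤ ∑ x ∈ X', (1 - Fv (scale (QV (box d L)) x t)
        (fun _ => a0) Set.univ (fun _ => 1) (act (box d L) η)) := by
      refine Finset.sum_le_sum fun x hx => ?_
      have h2 := bnd_lower hd hl (box d L) x {y | near R (x : Site d) y}
        (fun y hy => (mem_filter.1 hx).2 y hy) ht η K
      simp only [hb]
      linarith
    have h3 : ∑ x ∈ X', (1 - Fv (scale (QV (box d L)) x t)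
        (fun _ => a0) Set.univ (fun _ => 1) (act (box d L) η))
        ≤ ∑ x ∈ X, (1 - Fv (scale (QV (box d L)) x t)
        (fun _ => a0) Set.univ (fun _ => 1) (act (box d L) η)) :=
      Finset.sum_le_sum_of_subset_of_nonneg (filter_subset _ _) fun x _ _ => by
        linarith [fix_scale_le hd ha (box d L) x ht (act (box d L) η)]
    have h4 := hX η
    have h5 : (bad L w ζ η : ℝ) / ε / a0 ≤ (1 / (ε * a0)) * I η := by
      have := fix_bad_le L w ζ η
      rw [div_div, div_eq_mul_one_div, mul_comm]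
      exact mul_le_mul_of_nonneg_left this (by have := ha.1; positivity)
    rw [Finset.sum_sub_distrib, sum_const, nsmul_eq_mul] at h1
    have h6 : (((∑ y ∈ box d L, η y : ℕ) : ℝ)
            - ((ζ - δ) * (L : ℝ) ^ d - bad L w ζ η / ε - D * (L : ℝ) ^ (d - 1))) / a0
          + (1 - t) * C * ((∑ y ∈ box d L, η y : ℕ) : ℝ)
        = (1 / a0 + (1 - t) * C) * S η + (bad L w ζ η : ℝ) / ε / a0
          + (-((ζ - δ) * (L : ℝ) ^ d) + D * (L : ℝ) ^ (d - 1)) / a0 := by
      simp only [hS, Nat.cast_sum]; ring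
    rw [h6] at h4
    simp only [hc0]
    linarith
  have hSi : Integrable S μ := integrable_finsetSum _ fun y _ => (fix_int_coord hμ hint y).1
  have hSv : ∫ η, S η ∂μ = (L : ℝ) ^ d * ∫ η, (η 0 : ℝ) ∂μ := by
    simp only [hS]
    rw [integral_finsetSum _ fun y _ => (fix_int_coord hμ hint y).1,
      Finset.sum_congr rfl fun y _ => (fix_int_coord hμ hint y).2, sum_const, card_box]
    simp
  have hIi1 : ∀ s : Site d, Integrable (fun η => Set.indicator
      {η : Site d → ℕ | ((∑ y ∈ cube s w, η y : ℕ) : ℝ) < ζ * (w : ℝ) ^ d}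
        (fun _ => (1 : ℝ)) η) μ := fun s => (integrable_const (1 : ℝ)).indicator (fix_meas_win s w _)
  have hIi : Integrable I μ := integrable_finsetSum _ fun s _ => hIi1 s
  have hIv : ∫ η, I η ∂μ = (L : ℝ) ^ d * μ.real
      {η | ((∑ y ∈ cube (0 : Site d) w, η y : ℕ) : ℝ) < ζ * (w : ℝ) ^ d} := by
    simp only [hI]
    rw [integral_finsetSum _ fun s _ => hIi1 s]
    have : ∀ s ∈ box d L, ∫ η, Set.indicator
        {η : Site d → ℕ | ((∑ y ∈ cube s w, η y : ℕ) : ℝ) < ζ * (w : ℝ) ^ d}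
          (fun _ => (1 : ℝ)) η ∂μ = μ.real
        {η | ((∑ y ∈ cube (0 : Site d) w, η y : ℕ) : ℝ) < ζ * (w : ℝ) ^ d} := by
      intro s _
      rw [integral_indicator_const _ (fix_meas_win s w _), fix_win_shift hμ]
      simp
    rw [Finset.sum_congr rfl this, sum_const, card_box]
    simp
  have hbi : ∀ x, Integrable (b x) μ := fun x => (fix_fubini hd hl _ _ _).1
  have hbv : ∫ η, ∑ x ∈ X', b x η ∂μ = X'.card *
      (μ.prod (stackLaw d lam)).real {p | Bnd p.2 p.1 {y | near R 0 y} 0 K} := by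
    rw [integral_finsetSum _ fun x _ => hbi x]
    have : ∀ x ∈ X', ∫ η, b x η ∂μ
        = (μ.prod (stackLaw d lam)).real {p | Bnd p.2 p.1 {y | near R 0 y} 0 K} := by
      intro x _
      simp only [hb]
      rw [(fix_fubini hd hl _ _ _).2, fix_bnd_shift hd hl hμ]
    rw [Finset.sum_congr rfl this, sum_const, nsmul_eq_mul]
  have hnn : 0 ≤ ∫ η, ((1 / a0 + (1 - t) * C) * S η + (1 / (ε * a0)) * I η + c0
      + ∑ x ∈ X', b x η) ∂μ := integral_nonneg fun η => hpt η
  have i1 : Integrable (fun η => (1 / a0 + (1 - t) * C) * S η) μ := hSi.const_mul _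
  have i2 : Integrable (fun η => (1 / (ε * a0)) * I η) μ := hIi.const_mul _
  have i3 : Integrable (fun η => ∑ x ∈ X', b x η) μ := integrable_finsetSum _ fun x _ => hbi x
  have i12 : Integrable (fun η => (1 / a0 + (1 - t) * C) * S η + (1 / (ε * a0)) * I η) μ :=
    i1.add i2
  have i123 : Integrable
      (fun η => (1 / a0 + (1 - t) * C) * S η + (1 / (ε * a0)) * I η + c0) μ :=
    i12.add (integrable_const _)
  rw [integral_add i123 i3, integral_add i12 (integrable_const _), integral_add i1 i2,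
    integral_const_mul, integral_const_mul, hSv, hIv, hbv, integral_const] at hnn
  simp only [probReal_univ, smul_eq_mul, one_mul, hc0] at hnn
  have e : ((L : ℝ) ^ d * (∫ η, (η 0 : ℝ) ∂μ - ζ + δ + μ.real
          {η | ((∑ y ∈ cube (0 : Site d) w, η y : ℕ) : ℝ) < ζ * (w : ℝ) ^ d} / ε)
          + D * (L : ℝ) ^ (d - 1)) / a0
      = 1 / a0 * ((L : ℝ) ^ d * ∫ η, (η 0 : ℝ) ∂μ) + 1 / (ε * a0) * ((L : ℝ) ^ d * μ.real
          {η | ((∑ y ∈ cube (0 : Site d) w, η y : ℕ) : ℝ) < ζ * (w : ℝ) ^ d})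
        + (-((ζ - δ) * (L : ℝ) ^ d) + D * (L : ℝ) ^ (d - 1)) / a0 := by
    have := ha.1.ne'
    field_simp
    ring
  rw [e]
  nlinarith

lemma fix_card_deep (hd : 1 ≤ d) (L R : ℕ) (X : Finset (box d L)) :
    (X.card : ℝ) - 2 * d * R * (L : ℝ) ^ (d - 1)
      ≤ ((X.filter fun x : box d L => ∀ y, near R (x : Site d) y → y ∈ box d L).card : ℝ) := by
  have h1 := card_shallow hd L R
  have h2 := card_filter_add_card_filter_not (s := X)
    (fun x : box d L => ∀ y, near R (x : Site d) y → y ∈ box d L)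
  have h3 : (X.filter fun x : box d L => ¬ ∀ y, near R (x : Site d) y → y ∈ box d L).card
      ≤ ((box d L).filter fun x => ¬ ∀ y, near R x y → y ∈ box d L).card := by
    refine card_le_card_of_injOn (fun x => (x : Site d)) (fun x hx => ?_)
      (fun x _ y _ h => Subtype.ext h)
    have hx' := (mem_filter.1 (mem_coe.1 hx)).2
    exact mem_coe.2 (mem_filter.2 ⟨x.2, hx'⟩)
  have h4 : ((X.filter fun x : box d L => ¬ ∀ y, near R (x : Site d) y → y ∈ box d L).card : ℝ)
      ≤ (((box d L).filter fun x => ¬ ∀ y, near R x y → y ∈ box d L).card : ℝ) := by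
    exact_mod_cast h3
  have h5 : ((X.filter fun x : box d L => ∀ y, near R (x : Site d) y → y ∈ box d L).card : ℝ)
      + ((X.filter fun x : box d L => ¬ ∀ y, near R (x : Site d) y → y ∈ box d L).card : ℝ)
      = X.card := by exact_mod_cast h2
  linarith

/-- Fixation from the finite volume estimate, with a set `X` that does not depend on `η`. -/
theorem fix_of_fv (hd : 1 ≤ d) {lam : ℝ} (hl : 0 < lam) {μ : Measure (Site d → ℕ)}
    (hμ : StatErg μ) (hint : Integrable (fun η => (η 0 : ℝ)) μ) {γ : ℝ} (hγ : 0 < γ)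
    (hfv : ∀ ζ : ℝ, 0 ≤ ζ → ζ ≤ ∫ η, (η 0 : ℝ) ∂μ → ∀ δ : ℝ, 0 < δ → ∃ ε : ℝ, 0 < ε ∧
      ∃ p w0 : ℕ, 1 ≤ p ∧ ∀ w, w0 ≤ w → p ∣ w → ∃ C D : ℝ, 0 ≤ C ∧ 0 ≤ D ∧ ∀ L : ℕ,
        ∃ X : Finset (box d L), γ * (L : ℝ) ^ d - D * (L : ℝ) ^ (d - 1) ≤ X.card ∧
          ∀ (η : Site d → ℕ) (t : ℝ), 0 ≤ t → t ≤ 1 →
            ∑ x ∈ X, (1 - Fv (scale (QV (box d L)) x t) (fun _ => lam / (1 + lam)) Set.univ
                (fun _ => 1) (act (box d L) η))
              ≤ (((∑ y ∈ box d L, η y : ℕ) : ℝ)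
                  - ((ζ - δ) * (L : ℝ) ^ d - bad L w ζ η / ε - D * (L : ℝ) ^ (d - 1)))
                  / (lam / (1 + lam))
                + (1 - t) * C * ((∑ y ∈ box d L, η y : ℕ) : ℝ)) :
    ∀ᵐ p ∂(μ.prod (stackLaw d lam)), Stabilizes p.2 p.1 := by
  refine fix_conclude hd hl hμ fun θ hθ => ?_
  set a0 := lam / (1 + lam) with ha0
  have ha : 0 < a0 := by positivity
  set m := ∫ η, (η 0 : ℝ) ∂μ with hm
  have hm0 : 0 ≤ m := integral_nonneg fun η => Nat.cast_nonneg _
  set κ := γ * θ * a0 / 24 with hκ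
  have hκ0 : 0 < κ := by positivity
  set ζ := max (m - κ) 0 with hζ
  have hζ1 : ζ ≤ m := max_le (by linarith) hm0
  have hζ2 : m - κ ≤ ζ := le_max_left _ _
  obtain ⟨ε, hε, p, w0, hp, hw⟩ := hfv ζ (le_max_right _ _) hζ1 κ hκ0
  have hbad := fix_badprob hμ hint (ζ := ζ) (by
    rcases le_total (m - κ) 0 with h | h
    · left; rw [hζ, max_eq_right h]
    · right; rw [hζ, max_eq_left h]; linarith)
  obtain ⟨w1, hw1⟩ := eventually_atTop.1 (hbad.eventually (gt_mem_nhds (mul_pos hε hκ0)))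
  set w := p * (w0 + w1) with hwdef
  have hww : w0 + w1 ≤ w := Nat.le_mul_of_pos_left _ hp
  obtain ⟨C, D, hC, hD, hL⟩ := hw w (by omega) (dvd_mul_right _ _)
  have hb := hw1 w (by omega)
  set u := min 1 (γ * θ / 8 / (C * m + 1)) with hu
  have hCm : 0 ≤ C * m := mul_nonneg hC hm0
  have hu0 : 0 < u := lt_min one_pos (by positivity)
  have hu1 : u ≤ 1 := min_le_left _ _
  have hu2 : u * (C * m) ≤ γ * θ / 8 := by
    have h1 : u ≤ γ * θ / 8 / (C * m + 1) := min_le_right _ _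
    rw [le_div_iff₀ (by linarith)] at h1
    nlinarith
  obtain ⟨K, hK⟩ := exists_pow_lt_of_lt_one (half_pos hθ) (show 1 - u < 1 by linarith)
  have hK1 : (1 - u) ^ (K + 1) ≤ θ / 2 := by
    rw [pow_succ]
    have : 0 ≤ (1 - u) ^ K := pow_nonneg (by linarith) _
    nlinarith
  refine ⟨K, fun R => ?_⟩
  by_contra hlt
  push Not at hlt
  set β := (μ.prod (stackLaw d lam)).real {p | Bnd p.2 p.1 {y | near R 0 y} 0 K} with hβ
  obtain ⟨L, hLb⟩ := exists_nat_gt (((D + 2 * d * R) * (θ / 2) + D / a0) / (γ * θ / 4))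
  have hE0 : 0 ≤ (D + 2 * d * R) * (θ / 2) + D / a0 := by positivity
  have hL0 : (0 : ℝ) < L := lt_of_le_of_lt (by positivity) hLb
  rw [div_lt_iff₀ (by positivity)] at hLb
  obtain ⟨X, hX1, hX2⟩ := hL L
  have h1 := fix_average hd hl hμ hint L w R K X hε (t := 1 - u) ⟨by linarith, by linarith⟩
    (fun η => hX2 η (1 - u) (by linarith) (by linarith))
  have h2 := fix_card_deep hd L R X
  rw [← hβ, ← hm, ← ha0] at h1
  set N : ℝ := ((X.filter fun x : box d L => ∀ y, near R (x : Site d) y → y ∈ box d L).card : ℝ)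
  have hN0 : 0 ≤ N := Nat.cast_nonneg _
  set q := μ.real {η | ((∑ y ∈ cube (0 : Site d) w, η y : ℕ) : ℝ) < ζ * (w : ℝ) ^ d}
  set A : ℝ := (L : ℝ) ^ (d - 1) with hA
  have hA0 : 0 < A := by positivity
  have hLd : (L : ℝ) ^ d = L * A := by
    rw [hA, ← pow_succ']; congr 1; omega
  rw [hLd] at h1 hX1
  have h3 : q / ε ≤ κ := by rw [div_le_iff₀ hε]; linarith
  have h4 : N * (θ / 2) ≤ N * (1 - β - (1 - u) ^ (K + 1)) :=
    mul_le_mul_of_nonneg_left (by linarith) hN0
  have h5 : (L * A * (m - ζ + κ + q / ε) + D * A) / a0 ≤ A * (L * (γ * θ / 8) + D / a0) := by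
    rw [div_le_iff₀ ha]
    have h6 : L * A * (m - ζ + κ + q / ε) ≤ L * A * (3 * κ) :=
      mul_le_mul_of_nonneg_left (by linarith) (by positivity)
    have h7 : A * (L * (γ * θ / 8) + D / a0) * a0 = L * A * (3 * κ) + D * A := by
      rw [hκ]; field_simp; ring
    linarith
  have h8 : (1 - (1 - u)) * C * (L * A * m) ≤ A * (L * (γ * θ / 8)) := by
    have h9 : (1 - (1 - u)) * C * (L * A * m) = (L * A) * (u * (C * m)) := by ring
    rw [h9]
    have := mul_le_mul_of_nonneg_left hu2 (show (0 : ℝ) ≤ L * A by positivity)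
    linarith
  have h10 : A * (γ * L - (D + 2 * d * R)) * (θ / 2) ≤ N * (θ / 2) :=
    mul_le_mul_of_nonneg_right (by linarith) (by positivity)
  have h11 : A * ((γ * L - (D + 2 * d * R)) * (θ / 2))
      ≤ A * (L * (γ * θ / 4) + D / a0) := by linarith
  have h12 := le_of_mul_le_mul_left h11 hA0
  linarith

end Pool.Agent.ARW
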