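import Pool.Agent.P.MP_3af8b7_pr.FV
import Pool.Agent.P.MP_3af8b7_pr.FixAux

open Classical Finset MeasureTheory Filter Topology

namespace Pool.Agent.ARW

variable {d : ℕ}

theorem fixation (hd : 1 ≤ d) {lam : ℝ} (hl : 0 < lam) {μ : Measure (Site d → ℕ)}
    (hμ : StatErg μ) (hint : Integrable (fun η => (η 0 : ℝ)) μ)
    (hm : ∫ η, (η 0 : ℝ) ∂μ < rho d (lam / (1 + lam))) :
    ∀ᵐ p ∂(μ.prod (stackLaw d lam)), Stabilizes p.2 p.1 := by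
  have ha : 0 < lam / (1 + lam) ∧ lam / (1 + lam) < 1 :=
    ⟨by positivity, by rw [div_lt_one (by linarith)]; linarith⟩
  obtain ⟨γ, hγ, h⟩ := finite_volume_strong hd ha hm
  refine fix_of_fv hd hl hμ hint hγ fun ζ h0 h1 δ hδ => ?_
  obtain ⟨ε, hε, p, w0, hp, hw⟩ := h ζ h0 h1 δ hδ
  refine ⟨ε, hε, p, w0, hp, fun w h2 h3 => ?_⟩
  obtain ⟨C, D, hC, hD, hL⟩ := hw w h2 h3
  refine ⟨C, D, hC, hD, fun L => ?_⟩
  obtain ⟨X, hX, hη⟩ := hL L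
  exact ⟨X, hX, fun η => (hη η).2⟩

end Pool.Agent.ARW
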