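import Pool.Agent.P.MP_3af8b7_pr.Defs2

open Classical Finset MeasureTheory Filter Topology

namespace Pool.Agent.ARW

variable {d : ℕ}

/-- Finitely supported real functions on `ℤ^d` (a commutative ring under convolution). -/
abbrev Alg (d : ℕ) := AddMonoidAlgebra ℝ (Site d)

/-- One step of simple random walk. -/
noncomputable def stepA (d : ℕ) : Alg d :=
  ∑ j : Fin d × Bool, AddMonoidAlgebra.single (nbr 0 j) (1 / (2 * d) : ℝ)

/-- Uniform distribution on a finite set. -/
noncomputable def unifA (W : Finset (Site d)) : Alg d :=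
  ∑ s ∈ W, AddMonoidAlgebra.single s (1 / (W.card : ℝ))

/-- Total mass. -/
noncomputable def mass (f : Alg d) : ℝ := ∑ x ∈ f.coeff.support, f.coeff x

/-- nonnegative coefficients -/
private def NN (f : Alg d) : Prop := ∀ x, 0 ≤ f.coeff x

private theorem NN.add {f g : Alg d} (hf : NN f) (hg : NN g) : NN (f + g) :=
  fun x => add_nonneg (hf x) (hg x)

private theorem NN.mul {f g : Alg d} (hf : NN f) (hg : NN g) : NN (f * g) := by
  intro x
  rw [AddMonoidAlgebra.coeff_mul]
  refine sum_nonneg fun a _ => sum_nonneg fun b _ => ?_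
  dsimp only
  split_ifs
  · exact mul_nonneg (hf a) (hg b)
  · exact le_rfl

private theorem NN.smul {f : Alg d} {c : ℝ} (hc : 0 ≤ c) (hf : NN f) : NN (c • f) :=
  fun x => mul_nonneg hc (hf x)

private theorem nn_single (v : Site d) {c : ℝ} (hc : 0 ≤ c) : NN (AddMonoidAlgebra.single v c) := by
  intro x
  rw [AddMonoidAlgebra.coeff_single, Finsupp.single_apply]
  split_ifs
  · exact hc
  · exact le_rfl

private theorem nn_sum {ι : Type*} (s : Finset ι) {f : ι → Alg d} (h : ∀ i ∈ s, NN (f i)) :
    NN (∑ i ∈ s, f i) :=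
  sum_induction f NN (fun _ _ => NN.add) (fun _ => le_rfl) h

private theorem NN.pow {f : Alg d} (hf : NN f) (n : ℕ) : NN (f ^ n) := by
  induction n with
  | zero => exact nn_single 0 zero_le_one
  | succ n ih => rw [pow_succ]; exact ih.mul hf

private theorem nn_step : NN (stepA d) := nn_sum _ fun _ _ => nn_single _ (by positivity)

private noncomputable def massH (d : ℕ) : Alg d →ₐ[ℝ] ℝ := AddMonoidAlgebra.lift ℝ ℝ (Site d) 1

private theorem mass_eq (f : Alg d) : mass f = massH d f := by
  simp [mass, massH, AddMonoidAlgebra.lift_apply, Finsupp.sum]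

private theorem massH_single (v : Site d) (c : ℝ) : massH d (AddMonoidAlgebra.single v c) = c := by
  simp [massH]

private theorem massH_step (hd : 1 ≤ d) : massH d (stepA d) = 1 := by
  have : (d : ℝ) ≠ 0 := by positivity
  simp only [stepA, map_sum, massH_single, sum_const, card_univ, Fintype.card_prod,
    Fintype.card_fin, Fintype.card_bool, nsmul_eq_mul]
  push_cast
  field_simp

private theorem exists_pow (hd : 1 ≤ d) (v : Site d) :
    ∃ (n : ℕ) (c : ℝ), 0 < c ∧ NN (stepA d ^ n - AddMonoidAlgebra.single v c) := by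
  let S : AddSubmonoid (Site d) :=
    { carrier := {v | ∃ (n : ℕ) (c : ℝ), 0 < c ∧ NN (stepA d ^ n - AddMonoidAlgebra.single v c)}
      zero_mem' := ⟨0, 1, one_pos, by
        rw [pow_zero, ← AddMonoidAlgebra.one_def, sub_self]
        exact fun _ => le_rfl⟩
      add_mem' := by
        rintro a b ⟨n, c, hc, h⟩ ⟨n', c', hc', h'⟩
        refine ⟨n + n', c * c', mul_pos hc hc', ?_⟩
        have := (h.mul (nn_step.pow n')).add ((nn_single a hc.le).mul h')
        rw [← AddMonoidAlgebra.single_mul_single]
        convert this using 1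
        ring }
  have h1 : ∀ j : Fin d × Bool, nbr 0 j ∈ S := by
    intro j
    refine ⟨1, 1 / (2 * d), by positivity, ?_⟩
    rw [pow_one, stepA, ← add_sum_erase _ _ (mem_univ j), add_sub_cancel_left]
    exact nn_sum _ fun _ _ => nn_single _ (by positivity)
  have h2 : ∀ (i : Fin d) (k : ℤ), Pi.single i k ∈ S := by
    intro i k
    induction k using Int.induction_on with
    | zero => rw [Pi.single_zero]; exact S.zero_mem
    | succ k ih => rw [Pi.single_add]; exact S.add_mem ih (by simpa [nbr] using h1 (i, true))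
    | pred k ih =>
      rw [sub_eq_add_neg, Pi.single_add]
      exact S.add_mem ih (by simpa [nbr] using h1 (i, false))
  have h3 : ∑ i, Pi.single i (v i) ∈ S := S.sum_mem fun i _ => h2 i (v i)
  rwa [univ_sum_single] at h3

/-- A translation invariant stopping rule that is uniform on a window up to a small remainder:
`κ * U + R = 1 - u * (1 - p)`. -/
theorem exists_unif (hd : 1 ≤ d) (W : Finset (Site d)) (hW : W.Nonempty) (ε : ℝ) (hε : 0 < ε) :
    ∃ κ R u : Alg d, (∀ x, 0 ≤ κ.coeff x) ∧ (∀ x, 0 ≤ R.coeff x) ∧ (∀ x, 0 ≤ u.coeff x) ∧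
      κ * unifA W + R = 1 - u * (1 - stepA d) ∧ 1 - ε ≤ mass κ ∧ mass κ ≤ 1 := by
  choose n c hc hn using exists_pow hd
  obtain ⟨v0, -, hv0⟩ := exists_min_image W c hW
  have hcard : (0 : ℝ) < W.card := by exact_mod_cast hW.card_pos
  have hU : massH d (unifA W) = 1 := by
    simp only [unifA, map_sum, massH_single, sum_const, nsmul_eq_mul]
    field_simp
  set D : Alg d := ∑ v ∈ W, (1 / (W.card : ℝ)) • stepA d ^ n v - c v0 • unifA W with hD
  set u0 : Alg d := ∑ v ∈ W, (1 / (W.card : ℝ)) • ∑ i ∈ range (n v), stepA d ^ i with hu0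
  have hDn : NN D := by
    rw [hD, unifA, smul_sum, ← sum_sub_distrib]
    refine nn_sum _ fun v hv => ?_
    have := ((hn v).add (nn_single v (sub_nonneg.mpr (hv0 v hv)))).smul
      (c := 1 / (W.card : ℝ)) (by positivity)
    convert this using 1
    rw [AddMonoidAlgebra.single_sub, sub_add_sub_cancel, smul_sub, AddMonoidAlgebra.smul_single,
      AddMonoidAlgebra.smul_single, smul_eq_mul, smul_eq_mul, mul_comm]
  have hu0n : NN u0 := nn_sum _ fun v _ => (nn_sum _ fun i _ => nn_step.pow i).smul (by positivity)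
  have hbal : c v0 • unifA W + D = 1 - u0 * (1 - stepA d) := by
    rw [hD, add_sub_cancel, hu0, sum_mul]
    simp only [smul_mul_assoc, geom_sum_mul_neg, smul_sub, sum_sub_distrib, sum_const]
    rw [← Nat.cast_smul_eq_nsmul ℝ, smul_smul, mul_one_div_cancel hcard.ne', one_smul]
    ring
  have hmD : massH d D = 1 - c v0 := by
    have := congrArg (massH d) hbal
    simp only [map_add, map_smul, map_sub, map_mul, map_one, hU, massH_step hd, smul_eq_mul] at this
    linarith
  have hmD0 : 0 ≤ massH d D := by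
    rw [← mass_eq]
    exact sum_nonneg fun x _ => hDn x
  have hit : ∀ N : ℕ, ∃ κ u : Alg d, NN κ ∧ NN u ∧ κ * unifA W + D ^ N = 1 - u * (1 - stepA d) := by
    intro N
    induction N with
    | zero => exact ⟨0, 0, fun _ => le_rfl, fun _ => le_rfl, by simp⟩
    | succ N ih =>
      obtain ⟨κ, u, h1, h2, h3⟩ := ih
      refine ⟨κ + c v0 • D ^ N, u + D ^ N * u0, h1.add ((hDn.pow N).smul (hc v0).le),
        h2.add ((hDn.pow N).mul hu0n), ?_⟩
      rw [add_mul κ, smul_mul_assoc, ← mul_smul_comm]
      linear_combination h3 + D ^ N * hbal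
  obtain ⟨N, hN⟩ := exists_pow_lt_of_lt_one hε (show massH d D < 1 by linarith [hc v0])
  obtain ⟨κ, u, h1, h2, h3⟩ := hit N
  have h4 := congrArg (massH d) h3
  simp only [map_add, map_sub, map_mul, map_one, map_pow, hU, massH_step hd] at h4
  have h5 := pow_nonneg hmD0 N
  refine ⟨κ, D ^ N, u, h1, hDn.pow N, h2, h3, ?_, ?_⟩ <;> rw [mass_eq] <;> linarith

private theorem card_line {l n j m : ℕ} (hl : 1 ≤ l) (hj : j < n) (hm : l * n ∣ m) (s : ℤ) :
    ((Finset.Ico s (s + m)).filter fun t : ℤ => ((t / l) % n).toNat = j).card * n = m := by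
  obtain ⟨q, rfl⟩ := hm
  have hl0 : (0 : ℤ) < l := by exact_mod_cast hl
  have hn0 : (0 : ℤ) < n := by exact_mod_cast (by omega : 0 < n)
  have hr : (0 : ℤ) < l * n := mul_pos hl0 hn0
  have h1 : ((Finset.Ico s (s + (l * n * q : ℕ))).filter fun t : ℤ => ((t / l) % n).toNat = j).card =
      ∑ r ∈ Finset.range l, q := by
    rw [card_eq_sum_card_fiberwise (f := fun t : ℤ => (t % l).toNat) (t := Finset.range l)]
    · refine sum_congr rfl fun r hr' => ?_
      have h2 := Int.Ico_filter_modEq_card s (s + (l * n * q : ℕ)) hr (l * j + r)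
      have h3 : ((s + (l * n * q : ℕ) : ℤ) - (l * j + r : ℤ) : ℚ) / ((l * n : ℤ) : ℚ) =
          ((s : ℚ) - (l * j + r : ℤ)) / ((l * n : ℤ) : ℚ) + (q : ℕ) := by
        have : ((l * n : ℤ) : ℚ) ≠ 0 := by exact_mod_cast hr.ne'
        rw [div_add' _ _ _ this]
        push_cast
        ring
      rw [h3, Int.ceil_add_natCast, add_sub_cancel_left, max_eq_left (Int.natCast_nonneg q)] at h2
      rw [← Nat.cast_inj (R := ℤ), ← h2, filter_filter]
      congr 2
      refine filter_congr fun t _ => ?_
      have hr2 : (r : ℤ) < l := by exact_mod_cast mem_range.mp hr'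
      have hj' : (j : ℤ) < n := by exact_mod_cast hj
      have a1 := Int.emod_nonneg (t / l) hn0.ne'
      have a2 := Int.emod_nonneg t hl0.ne'
      constructor
      · rintro ⟨h4, h5⟩
        have b1 : t / l % n = j := by omega
        have b2 : t % l = r := by omega
        have b3 := Int.mul_ediv_add_emod t l
        have b4 := Int.mul_ediv_add_emod (t / l) n
        rw [b1] at b4
        rw [b2, ← b4] at b3
        exact (Int.modEq_iff_dvd.mpr ⟨t / l / n, by linear_combination -b3⟩).symm
      · intro h4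
        obtain ⟨k, hk⟩ := Int.modEq_iff_dvd.mp h4.symm
        have b1 : t = r + l * (j + n * k) := by linear_combination hk
        have b2 : t / l = j + n * k := by
          rw [b1, Int.add_mul_ediv_left _ _ hl0.ne', Int.ediv_eq_zero_of_lt (by omega) hr2, zero_add]
        have b3 : t % l = r := by
          rw [b1, Int.add_mul_emod_self_left, Int.emod_eq_of_lt (by omega) hr2]
        rw [b2, b3, Int.add_mul_emod_self_left, Int.emod_eq_of_lt (by omega) hj']
        simp
    · intro t _
      have a2 := Int.emod_nonneg t hl0.ne'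
      have a3 := Int.emod_lt_of_pos t hl0
      simp only [coe_range, Set.mem_Iio]
      omega
  rw [h1, sum_const, card_range, smul_eq_mul]
  ring

/-- Number of sites of a slab in a cube whose side is a multiple of the period. -/
theorem card_cube_slab (i0 : Fin d) {l n j m : ℕ} (hl : 1 ≤ l) (hj : j < n) (hm : l * n ∣ m)
    (s : Site d) : ((cube s m).filter fun y => slab i0 l n y = j).card * n = m ^ d := by
  have h1 : ((cube s m).filter fun y => slab i0 l n y = j) = Fintype.piFinset fun i =>
      (Finset.Ico (s i) (s i + m)).filter fun t : ℤ => i = i0 → ((t / l) % n).toNat = j := by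
    ext y
    simp only [cube, slab, mem_filter, Fintype.mem_piFinset]
    exact ⟨fun h i => ⟨h.1 i, fun e => e ▸ h.2⟩, fun h => ⟨fun i => (h i).1, (h i0).2 rfl⟩⟩
  have h2 : m ^ d = ∏ _i : Fin d, m := by simp
  rw [h1, Fintype.card_piFinset, h2, ← mul_prod_erase _ _ (mem_univ i0),
    ← mul_prod_erase _ _ (mem_univ i0), mul_right_comm]
  congr 1
  · simpa using card_line hl hj hm (s i0)
  · refine prod_congr rfl fun i hi => ?_
    rw [filter_true_of_mem fun t _ e => absurd e (ne_of_mem_erase hi)]
    simp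

/-- Same count, selecting sites through the corner of their block. -/
theorem card_corner_slab (i0 : Fin d) {l n j m : ℕ} (hl : 1 ≤ l) (hj : j < n) (hm : l * n ∣ m)
    (s : Site d) (Y : Finset (Site d))
    (hY : ∀ y, y ∈ Y ↔ slab i0 l n y = j ∧ (fun i => (l : ℤ) * blk l y i) ∈ cube s m) :
    Y.card * n = m ^ d := by
  have hl0 : (0 : ℤ) < l := by exact_mod_cast hl
  obtain ⟨k, hk⟩ : l ∣ m := (Dvd.intro _ rfl).trans hm
  rw [← card_cube_slab i0 hl hj hm fun i => l * ((s i + l - 1) / l)]
  congr 2
  ext y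
  rw [hY, mem_filter, and_comm]
  refine and_congr_left' ?_
  simp only [cube, blk, Fintype.mem_piFinset, Finset.mem_Ico]
  refine forall_congr' fun i => ?_
  have key : ∀ q : ℤ, (s i + l - 1) / l ≤ q ↔ s i ≤ l * q := fun q => by
    rw [← Int.lt_add_one_iff, Int.ediv_lt_iff_lt_mul hl0]
    constructor <;> intro h <;> linarith
  have hk' : (m : ℤ) = l * k := by exact_mod_cast hk
  refine and_congr ?_ ?_
  · rw [← key, Int.le_ediv_iff_mul_le hl0, mul_comm]
  · rw [hk', ← mul_add, mul_comm (l : ℤ) (_ + _), ← Int.ediv_lt_iff_lt_mul hl0, ← not_le, ← not_le,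
      ← le_sub_iff_add_le (b := (k : ℤ)), key, mul_sub, le_sub_iff_add_le]

end Pool.Agent.ARW
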