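import Pool.Agent.P.MP_3af8b7_pr.Geo1

/-! Positive local operators on functions on `ℤ^d`. -/

open Classical Finset MeasureTheory Filter Topology

namespace Pool.Agent.ARW

variable {d : ℕ}

/-- Linear operators on real functions on `ℤ^d`. -/
abbrev GE (d : ℕ) := Module.End ℝ (Site d → ℝ)

/-- Indicator of a point. -/
noncomputable def gδ (s : Site d) : Site d → ℝ := fun y => if y = s then 1 else 0

/-- Translations. -/
noncomputable def gtr (d : ℕ) : Multiplicative (Site d) →* GE d where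
  toFun v :=
    { toFun := fun f x => f (x + v.toAdd)
      map_add' := fun _ _ => rfl
      map_smul' := fun _ _ => rfl }
  map_one' := by ext f x; simp
  map_mul' v w := by ext f x; simp [add_assoc]

/-- Averaging operator of a finitely supported function. -/
noncomputable def gop : Alg d →ₐ[ℝ] GE d := AddMonoidAlgebra.lift ℝ (GE d) (Site d) (gtr d)

theorem gop_apply (ν : Alg d) (f : Site d → ℝ) (x : Site d) :
    gop ν f x = ∑ v ∈ ν.coeff.support, ν.coeff v * f (x + v) := by
  rw [gop, AddMonoidAlgebra.lift_apply, Finsupp.sum, LinearMap.sum_apply, Finset.sum_apply]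
  rfl

theorem gop_single (v : Site d) (c : ℝ) (f : Site d → ℝ) (x : Site d) :
    gop (AddMonoidAlgebra.single v c) f x = c * f (x + v) := by
  rw [gop, AddMonoidAlgebra.lift_single]
  rfl

/-- Multiplication by an indicator. -/
noncomputable def gind (P : Site d → Prop) : GE d where
  toFun f x := if P x then f x else 0
  map_add' f g := by ext x; by_cases h : P x <;> simp [h]
  map_smul' c f := by ext x; by_cases h : P x <;> simp [h]

theorem gind_apply (P : Site d → Prop) (f : Site d → ℝ) (x : Site d) :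
    gind P f x = if P x then f x else 0 := rfl

theorem gind_add (P : Site d → Prop) : gind P + gind (fun x => ¬ P x) = 1 := by
  ext f x
  by_cases h : P x <;> simp [gind_apply, h]

theorem gnear_symm {r : ℕ} {x y : Site d} (h : near r x y) : near r y x := fun i => by
  rw [abs_sub_comm]; exact h i

theorem gnear_trans {r s : ℕ} {x y z : Site d} (h : near r x y) (h' : near s y z) :
    near (r + s) x z := fun i => by
  have := abs_sub_le (x i) (y i) (z i)
  have h1 := h i
  have h2 := h' i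
  push_cast
  linarith

theorem gnear_mono {r s : ℕ} {x y : Site d} (hrs : r ≤ s) (h : near r x y) : near s x y :=
  fun i => (h i).trans (by exact_mod_cast hrs)

theorem gnear_refl (r : ℕ) (x : Site d) : near r x x := fun i => by simp

/-- Positive operators of range at most `r`. -/
structure Good (r : ℕ) (A : GE d) : Prop where
  pos : ∀ f : Site d → ℝ, (∀ x, 0 ≤ f x) → ∀ x, 0 ≤ A f x
  loc : ∀ (f : Site d → ℝ) x, (∀ y, near r x y → f y = 0) → A f x = 0

theorem Good.mono {r s : ℕ} {A : GE d} (h : Good r A) (hrs : r ≤ s) : Good s A :=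
  ⟨h.pos, fun f x hf => h.loc f x fun y hy => hf y (gnear_mono hrs hy)⟩

theorem Good.add {r : ℕ} {A B : GE d} (h : Good r A) (h' : Good r B) : Good r (A + B) :=
  ⟨fun f hf x => add_nonneg (h.pos f hf x) (h'.pos f hf x), fun f x hf => by
    change A f x + B f x = 0
    rw [h.loc f x hf, h'.loc f x hf, add_zero]⟩

theorem Good.mul {r s : ℕ} {A B : GE d} (h : Good r A) (h' : Good s B) : Good (r + s) (A * B) :=
  ⟨fun f hf => h.pos _ (h'.pos f hf), fun f x hf =>
    h.loc _ x fun y hy => h'.loc f y fun z hz => hf z (gnear_trans hy hz)⟩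

theorem good_zero (r : ℕ) : Good r (0 : GE d) := ⟨fun _ _ _ => le_rfl, fun _ _ _ => rfl⟩

theorem good_one (r : ℕ) : Good r (1 : GE d) :=
  ⟨fun _ hf => hf, fun _ x hf => hf x (gnear_refl r x)⟩

theorem good_ind (r : ℕ) (P : Site d → Prop) : Good r (gind P) :=
  ⟨fun f hf x => by rw [gind_apply]; split_ifs; exacts [hf x, le_rfl], fun f x hf => by
    rw [gind_apply, hf x (gnear_refl r x), ite_self]⟩

theorem gexists_rad (F : Finset (Site d)) : ∃ r : ℕ, ∀ v ∈ F, ∀ x, near r x (x + v) := by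
  refine ⟨F.sup fun v => univ.sup fun i => (v i).natAbs, fun v hv x i => ?_⟩
  have h1 : (v i).natAbs ≤ F.sup fun v => univ.sup fun i => (v i).natAbs :=
    (Finset.le_sup (f := fun i => (v i).natAbs) (mem_univ i)).trans
      (Finset.le_sup (f := fun v : Site d => univ.sup fun i => (v i).natAbs) hv)
  have h2 : x i - (x + v) i = - v i := by simp
  rw [h2, abs_neg, Int.abs_eq_natAbs]
  exact_mod_cast h1

theorem good_op (ν : Alg d) (hν : ∀ x, 0 ≤ ν.coeff x) : ∃ r, Good r (gop ν) := by
  obtain ⟨r, hr⟩ := gexists_rad ν.coeff.support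
  refine ⟨r, fun f hf x => ?_, fun f x hf => ?_⟩
  · rw [gop_apply]
    exact sum_nonneg fun v _ => mul_nonneg (hν v) (hf _)
  · rw [gop_apply]
    exact sum_eq_zero fun v hv => by rw [hf _ (hr v hv x), mul_zero]

theorem gδ_nonneg (s x : Site d) : 0 ≤ gδ s x := by
  unfold gδ; split_ifs <;> norm_num

theorem Good.near {r : ℕ} {A : GE d} (h : Good r A) {x z : Site d} (hx : A (gδ z) x ≠ 0) :
    near r x z := by
  by_contra hn
  exact hx (h.loc _ x fun y hy => if_neg fun e : y = z => hn (e ▸ hy))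

theorem gsum_δ (Y : Finset (Site d)) (f : Site d → ℝ) (y : Site d) :
    (∑ s ∈ Y, f s • gδ s) y = if y ∈ Y then f y else 0 := by
  simp [gδ, Finset.sum_apply]

theorem Good.expand {r : ℕ} {A : GE d} (h : Good r A) (f : Site d → ℝ) (x : Site d)
    (Y : Finset (Site d)) (hY : ∀ s, Pool.Agent.ARW.near r x s → s ∈ Y) :
    A f x = ∑ s ∈ Y, A (gδ s) x * f s := by
  have h1 := h.loc (f - ∑ s ∈ Y, f s • gδ s) x fun y hy => by
    rw [Pi.sub_apply, gsum_δ, if_pos (hY y hy), sub_self]
  rw [map_sub, Pi.sub_apply, sub_eq_zero, map_sum, Finset.sum_apply] at h1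
  rw [h1]
  exact sum_congr rfl fun s _ => by rw [map_smul, Pi.smul_apply, smul_eq_mul, mul_comm]

/-- Operators with row sums at most `C`. -/
def Bd (C : ℝ) (A : GE d) : Prop :=
  ∀ (f : Site d → ℝ) (c : ℝ), 0 ≤ c → (∀ x, f x ≤ c) → ∀ x, A f x ≤ C * c

theorem Bd.add {C C' : ℝ} {A B : GE d} (h : Bd C A) (h' : Bd C' B) : Bd (C + C') (A + B) :=
  fun f c hc hf x => by
    change A f x + B f x ≤ _
    rw [add_mul]
    exact add_le_add (h f c hc hf x) (h' f c hc hf x)

theorem Bd.mul {C : ℝ} {A B : GE d} (h : Bd 1 A) (h' : Bd C B) (hC : 0 ≤ C) : Bd C (A * B) :=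
  fun f c hc hf x => by
    have := h _ _ (mul_nonneg hC hc) (h' f c hc hf) x
    rwa [one_mul] at this

theorem bd_ind (P : Site d → Prop) : Bd 1 (gind P) := fun f c hc hf x => by
  rw [gind_apply, one_mul]; split_ifs; exacts [hf x, hc]

theorem bd_op (ν : Alg d) (hν : ∀ x, 0 ≤ ν.coeff x) {C : ℝ} (hC : mass ν ≤ C) : Bd C (gop ν) :=
  fun f c hc hf x => by
    rw [gop_apply]
    refine le_trans ?_ (mul_le_mul_of_nonneg_right hC hc)
    rw [mass, sum_mul]
    exact sum_le_sum fun v _ => mul_le_mul_of_nonneg_left (hf _) (hν v)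

theorem Bd.sum_le {C : ℝ} {A : GE d} (h : Bd C A) (Y : Finset (Site d)) (x : Site d) :
    ∑ s ∈ Y, A (gδ s) x ≤ C := by
  have := h (∑ s ∈ Y, (1 : ℝ) • gδ s) 1 zero_le_one (fun y => by
    rw [gsum_δ Y (fun _ => 1)]; split_ifs <;> norm_num) x
  simpa [map_sum, Finset.sum_apply] using this

theorem gmass_nonneg (ν : Alg d) (hν : ∀ x, 0 ≤ ν.coeff x) : 0 ≤ mass ν :=
  sum_nonneg fun v _ => hν v

theorem hasSum_op (ν : Alg d) {f : Site d → ℝ} {a : ℝ} (hf : HasSum f a) :
    HasSum (gop ν f) (mass ν * a) := by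
  have : gop ν f = fun x => ∑ v ∈ ν.coeff.support, ν.coeff v * f (x + v) :=
    funext (gop_apply ν f)
  rw [this, mass, sum_mul]
  exact hasSum_sum fun v _ => ((Equiv.addRight v).hasSum_iff.2 hf).mul_left _

/-- Finitely supported functions. -/
def FS (f : Site d → ℝ) : Prop := ∃ F : Finset (Site d), ∀ y ∉ F, f y = 0

/-- The sup-norm ball. -/
noncomputable def gball (z : Site d) (r : ℕ) : Finset (Site d) :=
  Fintype.piFinset fun i => Finset.Icc (z i - r) (z i + r)

theorem mem_gball {z y : Site d} {r : ℕ} : y ∈ gball z r ↔ near r z y := by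
  simp only [gball, Fintype.mem_piFinset, mem_Icc, near, abs_le]
  exact forall_congr' fun i => by constructor <;> rintro ⟨h1, h2⟩ <;> constructor <;> linarith

theorem Good.fs {r : ℕ} {A : GE d} (h : Good r A) {f : Site d → ℝ} (hf : FS f) : FS (A f) := by
  obtain ⟨F, hF⟩ := hf
  refine ⟨F.biUnion fun s => gball s r, fun y hy => h.loc f y fun s hs => hF s fun hsF => hy ?_⟩
  exact mem_biUnion.2 ⟨s, hsF, mem_gball.2 (gnear_symm hs)⟩

theorem fs_δ (z : Site d) : FS (gδ z) := ⟨{z}, fun y hy => if_neg (by simpa using hy)⟩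

theorem hasSum_δ (z : Site d) : HasSum (gδ z) 1 := hasSum_ite_eq z 1

theorem hasSum_lin {A : GE d} {K : ℝ} (hA : ∀ s, HasSum (A (gδ s)) K) {f : Site d → ℝ} {a : ℝ}
    (hF : FS f) (hf : HasSum f a) : HasSum (A f) (K * a) := by
  obtain ⟨F, hF⟩ := hF
  have h1 : f = ∑ s ∈ F, f s • gδ s := funext fun y => by
    rw [gsum_δ]; split_ifs with h; exacts [rfl, hF y h]
  have h2 : A f = fun x => ∑ s ∈ F, f s * A (gδ s) x := funext fun x => by
    conv_lhs => rw [h1]
    simp [map_sum, Finset.sum_apply]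
  rw [h2, hf.unique (hasSum_sum_of_ne_finset_zero hF), mul_comm, sum_mul]
  exact hasSum_sum fun s _ => (hA s).mul_left _

theorem hasSum_const {f : Site d → ℝ} (Y : Finset (Site d)) (c : ℝ)
    (h : ∀ y, f y = if y ∈ Y then c else 0) : HasSum f (Y.card * c) := by
  have := hasSum_sum_of_ne_finset_zero (L := .unconditional _) (f := f) (s := Y)
    fun y hy => by rw [h, if_neg hy]
  rwa [sum_congr rfl fun y hy => (h y).trans (if_pos hy), sum_const, nsmul_eq_mul] at this

/-- The recursion `X ↦ a + b X`. -/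
noncomputable def grec (x a b : GE d) : ℕ → GE d
  | 0 => x
  | N + 1 => a + b * grec x a b N

theorem good_rec {r : ℕ} {x a b : GE d} (hx : Good r x) (ha : Good r a) (hb : Good r b) (N : ℕ) :
    Good (r * (N + 1)) (grec x a b N) := by
  induction N with
  | zero => exact hx.mono (by omega)
  | succ N ih =>
    exact (ha.mono (Nat.le_mul_of_pos_right _ (by omega))).add ((hb.mul ih).mono (by
      rw [mul_add r (N + 1), mul_one, add_comm]))

theorem bd_rec {C : ℝ} {a b : GE d} (hC : 0 ≤ C) (ha : Bd C a) (hb : Bd 1 b) (N : ℕ) :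
    Bd (N * C) (grec 0 a b N) := by
  induction N with
  | zero => exact fun f c _ _ x => by simp [grec]
  | succ N ih =>
    have := ha.add (hb.mul ih (by positivity))
    rwa [show C + N * C = (N + 1 : ℕ) * C by push_cast; ring] at this

/-- The windows that contain `x`. -/
noncomputable def cob (x : Site d) (w : ℕ) : Finset (Site d) :=
  Fintype.piFinset fun i => Finset.Ioc (x i - w) (x i)

theorem mem_cob {x s : Site d} {w : ℕ} : s ∈ cob x w ↔ x ∈ cube s w := by
  simp only [cob, cube, Fintype.mem_piFinset, mem_Ioc, mem_Ico]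
  exact forall_congr' fun i => by constructor <;> rintro ⟨h1, h2⟩ <;> constructor <;> linarith

theorem card_cob (x : Site d) (w : ℕ) : (cob x w).card = w ^ d := by
  simp [cob, Fintype.card_piFinset]

theorem gop_unif (w : ℕ) (f : Site d → ℝ) (x : Site d) :
    gop (unifA (cob 0 w)) f x = (∑ s ∈ cob x w, f s) / (w : ℝ) ^ d := by
  rw [unifA, map_sum, LinearMap.sum_apply, Finset.sum_apply, sum_div, card_cob]
  refine sum_nbij' (fun v => x + v) (fun s => s - x) (fun v hv => ?_) (fun s hs => ?_)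
    (fun v _ => by simp) (fun s _ => by simp) fun v _ => by rw [gop_single]; push_cast; ring
  · simp only [cob, Fintype.mem_piFinset, mem_Ioc, Pi.add_apply, Pi.zero_apply] at hv ⊢
    exact fun i => ⟨by linarith [(hv i).1], by linarith [(hv i).2]⟩
  · simp only [cob, Fintype.mem_piFinset, mem_Ioc, Pi.sub_apply, Pi.zero_apply] at hs ⊢
    exact fun i => ⟨by linarith [(hs i).1], by linarith [(hs i).2]⟩

theorem gop_step (z : Site d) :
    gop (stepA d) (gδ z) = (1 / (2 * d) : ℝ) • ∑ v : Fin d × Bool, gδ (nbr z v) := by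
  ext x
  rw [stepA, map_sum, LinearMap.sum_apply, Finset.sum_apply, Pi.smul_apply, Finset.sum_apply,
    smul_eq_mul, mul_sum]
  refine sum_nbij' (fun v => (v.1, !v.2)) (fun v => (v.1, !v.2)) (fun _ _ => mem_univ _)
    (fun _ _ => mem_univ _) (fun v _ => by simp) (fun s _ => by simp) fun v _ => ?_
  rw [gop_single]
  congr 1
  obtain ⟨i, b⟩ := v
  have : (x + nbr 0 (i, b) = z) ↔ (x = nbr z (i, !b)) := by
    cases b
    · simp [nbr, Pi.single_neg, ← sub_eq_add_neg, sub_eq_iff_eq_add]
    · simp [nbr, Pi.single_neg, ← sub_eq_add_neg, eq_sub_iff_add_eq]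
  simp only [gδ, this]

theorem good_avg (P : Site d → Prop) [DecidablePred P] (S : Site d → Finset (Site d)) {r : ℕ}
    {c : ℝ} (hc : 0 ≤ c) (hS : ∀ y, ∀ s ∈ S y, near r y s) {A : GE d}
    (hA : ∀ f y, A f y = if P y then (∑ s ∈ S y, f s) / c else 0) : Good r A :=
  ⟨fun f hf x => by
    rw [hA]; split_ifs; exacts [div_nonneg (sum_nonneg fun s _ => hf s) hc, le_rfl],
   fun f x hf => by
    rw [hA, sum_eq_zero fun s hs => hf s (hS x s hs), zero_div, ite_self]⟩

theorem bd_avg (P : Site d → Prop) [DecidablePred P] (S : Site d → Finset (Site d)) {c : ℝ}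
    (hc : 0 < c) (hS : ∀ y, ((S y).card : ℝ) ≤ c) {A : GE d}
    (hA : ∀ f y, A f y = if P y then (∑ s ∈ S y, f s) / c else 0) : Bd 1 A :=
  fun f b hb hf x => by
    rw [hA, one_mul]
    split_ifs
    · rw [div_le_iff₀ hc]
      refine (sum_le_card_nsmul _ _ b fun s _ => hf s).trans ?_
      rw [nsmul_eq_mul, mul_comm]
      exact mul_le_mul_of_nonneg_left (hS x) hb
    · exact hb

/-- The geometric sums `S_{N+1} = 1 + q S_N`. -/
def ggeo (q : ℝ) : ℕ → ℝ
  | 0 => 0
  | N + 1 => 1 + q * ggeo q N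

theorem gexists_N {n : ℝ} (hn : 2 ≤ n) {η : ℝ} (hη : 0 < η) :
    ∃ ε : ℝ, 0 < ε ∧ ∃ N : ℕ, ∀ k : ℝ, 0 ≤ k → 1 - ε ≤ k → k ≤ 1 →
      0 ≤ k * ggeo ((1 - 1 / n) * k) N ∧ n - η ≤ k * ggeo ((1 - 1 / n) * k) N ∧
      k * ggeo ((1 - 1 / n) * k) N ≤ n := by
  have hn0 : 0 < n := by linarith
  have hq : 0 ≤ 1 - 1 / n := by rw [sub_nonneg, div_le_one hn0]; linarith
  obtain ⟨N, hN⟩ := exists_pow_lt_of_lt_one (x := η / (2 * n)) (y := 1 - 1 / n) (by positivity)
    (by have : 0 < 1 / n := by positivity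
        linarith)
  refine ⟨η / (4 * n ^ 2), by positivity, N, fun k hk0 hk hk1 => ?_⟩
  set ε := η / (4 * n ^ 2) with hε
  have hε0 : 0 < ε := by positivity
  have hqn : (1 - 1 / n) * n = n - 1 := by field_simp
  have key : ∀ M : ℕ, 0 ≤ ggeo ((1 - 1 / n) * k) M ∧ ggeo ((1 - 1 / n) * k) M ≤ n ∧
      n - ggeo ((1 - 1 / n) * k) M ≤ n ^ 2 * ε + n * (1 - 1 / n) ^ M := by
    intro M
    induction M with
    | zero => exact ⟨le_rfl, hn0.le, by simp [ggeo]; positivity⟩
    | succ M ih =>
      obtain ⟨h0, h1, h2⟩ := ih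
      rw [ggeo, pow_succ (1 - 1 / n)]
      generalize ggeo ((1 - 1 / n) * k) M = S at *
      generalize (1 - 1 / n) ^ M = t at *
      generalize 1 - 1 / n = q at *
      have h3 : k * S ≤ S := by nlinarith
      have h4 : S - n * ε ≤ k * S := by nlinarith
      have h5 := mul_le_mul_of_nonneg_left h3 hq
      have h6 := mul_le_mul_of_nonneg_left h4 hq
      have h7 := mul_le_mul_of_nonneg_left h1 hq
      have h8 := mul_le_mul_of_nonneg_left h2 hq
      have h9 : q * (n ^ 2 * ε) = (n - 1) * n * ε := by rw [← hqn]; ring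
      have h10 : q * (n * ε) = (n - 1) * ε := by rw [← hqn]; ring
      refine ⟨by positivity, by nlinarith, by nlinarith⟩
  obtain ⟨h0, h1, h2⟩ := key N
  have h3 : n * (1 - 1 / n) ^ N ≤ η / 2 := by
    have := mul_le_mul_of_nonneg_left hN.le hn0.le
    rwa [show n * (η / (2 * n)) = η / 2 by field_simp] at this
  have h4 : n ^ 2 * ε = η / 4 := by rw [hε]; field_simp
  have h5 : n * ε ≤ n ^ 2 * ε := by nlinarith
  refine ⟨by positivity, by nlinarith, by nlinarith⟩

end Pool.Agent.ARW
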