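import Pool.Agent.P.MP_3af8b7_pr.Tails
import Pool.Agent.P.MP_3af8b7_pr.Bridge

open Classical Finset MeasureTheory Filter Topology

namespace Pool.Agent.ARW

section abstract
variable {α : Type*} [Fintype α]

lemma hk_avg_succ (G : (α → Loc) → ℝ) (k : ℕ) : ∀ σ : α → Loc,
    avg G (k + 1) σ = avg (fun s => (∑ v, G (put s (some v))) / Fintype.card α) k σ := by
  induction k with
  | zero => intro σ; rfl
  | succ k ih =>
    intro σ
    show (∑ v, avg G (k + 1) (put σ (some v))) / Fintype.card α = (∑ v, avg _ k (put σ (some v))) / _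
    simp only [ih]

lemma hk_avg_mono {G G' : (α → Loc) → ℝ} (I : ℕ → (α → Loc) → Prop)
    (hI : ∀ j σ v, I (j + 1) σ → I j (put σ (some v))) (hG : ∀ σ, I 0 σ → G σ ≤ G' σ) (k : ℕ) :
    ∀ σ, I k σ → avg G k σ ≤ avg G' k σ := by
  induction k with
  | zero => exact hG
  | succ k ih =>
    intro σ hσ
    show (∑ v, avg G k (put σ (some v))) / Fintype.card α ≤ (∑ v, avg G' k (put σ (some v))) / _
    exact div_le_div_of_nonneg_right (sum_le_sum fun v _ => ih _ (hI k σ v hσ)) (Nat.cast_nonneg _)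

lemma hk_avg_const [Nonempty α] (c : ℝ) (k : ℕ) : ∀ σ : α → Loc, avg (fun _ => c) k σ = c := by
  induction k with
  | zero => intro σ; rfl
  | succ k ih =>
    intro σ
    show (∑ v, avg (fun _ => c) k (put σ (some v))) / Fintype.card α = c
    have : (Fintype.card α : ℝ) ≠ 0 := by exact_mod_cast Fintype.card_ne_zero
    simp only [ih, sum_const, card_univ, nsmul_eq_mul]
    field_simp

lemma hk_avg_nonneg [Nonempty α] {G : (α → Loc) → ℝ} (hG : ∀ σ, 0 ≤ G σ) (k : ℕ) (σ : α → Loc) :
    0 ≤ avg G k σ :=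
  (hk_avg_const 0 k σ).symm.le.trans
    (hk_avg_mono (fun _ _ => True) (fun _ _ _ _ => trivial) (fun s _ => hG s) k σ trivial)

omit [Fintype α] in
lemma hk_allAct_put {σ : α → Loc} (h : AllAct σ) (z : Option α) : AllAct (put σ z) := by
  intro y
  rw [put_apply]
  split_ifs
  · exact add_ne_none _
  · exact h y

lemma hk_avg_anti [Nonempty α] {G : (α → Loc) → ℝ}
    (hG : ∀ σ v, AllAct σ → G (put σ (some v)) ≤ G σ) {σ : α → Loc} (hσ : AllAct σ) :
    Antitone fun k => avg G k σ := by
  refine antitone_nat_of_succ_le fun k => ?_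
  rw [hk_avg_succ]
  refine hk_avg_mono (fun _ s => AllAct s) (fun _ s v hs => hk_allAct_put hs _) (fun s hs => ?_)
    k σ hσ
  have hc : (0 : ℝ) < Fintype.card α := by exact_mod_cast Fintype.card_pos
  rw [div_le_iff₀ hc]
  calc ∑ v, G (put s (some v)) ≤ ∑ _v : α, G s := sum_le_sum fun v _ => hG s v hs
    _ = _ := by simp [mul_comm]

variable {Q : α → Option α → ℝ} {a : α → ℝ}

lemma hk_test_ge (c : ℝ) : Test fun n => if c ≤ (n : ℝ) then 1 else 0 := by
  refine ⟨fun m n hmn => ?_, fun n => by dsimp only; split_ifs <;> norm_num⟩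
  have : (m : ℝ) ≤ n := by exact_mod_cast hmn
  dsimp only
  split_ifs with h1 h2
  · exact le_rfl
  · exact absurd (h1.trans this) h2
  · norm_num
  · exact le_rfl

lemma hk_test_gt (c : ℝ) : Test fun n => if (n : ℝ) ≤ c then 0 else 1 := by
  refine ⟨fun m n hmn => ?_, fun n => by dsimp only; split_ifs <;> norm_num⟩
  have : (m : ℝ) ≤ n := by exact_mod_cast hmn
  dsimp only
  split_ifs with h1 h2 h3
  · exact le_rfl
  · norm_num
  · exact absurd (this.trans h3) h1
  · exact le_rfl

lemma hk_low_put (hok : Ok Q a) (hs : Sto Q) (ht : Tr Q) (c : ℝ) {σ : α → Loc} (hσ : AllAct σ)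
    (z : Option α) :
    Fv Q a Set.univ (fun s => if (tot s : ℝ) ≤ c then 1 else 0) (put σ z) ≤
      Fv Q a Set.univ (fun s => if (tot s : ℝ) ≤ c then 1 else 0) σ := by
  have key : ∀ s : α → Loc, Fv Q a Set.univ (fun s => if (tot s : ℝ) ≤ c then 1 else 0) s +
      Fv Q a Set.univ (fun s => if (tot s : ℝ) ≤ c then 0 else 1) s = 1 := by
    intro s
    rw [← Fv_add hok hs.sub (fun s => by split_ifs <;> norm_num)
      (fun s => by split_ifs <;> norm_num)]
    have e : (fun s : α → Loc => (if (tot s : ℝ) ≤ c then (1 : ℝ) else 0) +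
        (if (tot s : ℝ) ≤ c then 0 else 1)) = fun _ => 1 := by
      funext s; split_ifs <;> norm_num
    rw [e, Fv_const hok hs ht zero_le_one]
  have h1 := Fv_put_ge hok hs ht (hk_test_gt c) hσ z
  have h2 := key σ
  have h3 := key (put σ z)
  linarith

end abstract

variable {d : ℕ}

lemma hk_ok (V : Finset (Site d)) {lam : ℝ} (hl : 0 < lam) :
    Ok (QV V) (fun _ => lam / (1 + lam)) :=
  ⟨QV_nonneg V, fun _ => ⟨by positivity, by rw [div_lt_one (by linarith)]; linarith⟩⟩

lemma hk_conf_inj {V w w' : Finset (Site d)} (hw : w ⊆ V) (hw' : w' ⊆ V)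
    (h : (fun y : V => conf w y) = fun y : V => conf w' y) : w = w' := by
  ext x
  by_cases hx : x ∈ V
  · have := congrFun h ⟨x, hx⟩
    simp only [conf] at this
    by_cases h1 : x ∈ w <;> by_cases h2 : x ∈ w' <;> simp_all
  · exact ⟨fun h1 => absurd (hw h1) hx, fun h1 => absurd (hw' h1) hx⟩

lemma hk_stable_conf {V : Finset (Site d)} {s : V → Loc} (hs : ¬ ∃ x, Unst Set.univ s x) :
    ∃ w ⊆ V, s = fun y : V => conf w y := by
  refine ⟨(univ.filter fun y : V => s y = none).map (Function.Embedding.subtype _), ?_, ?_⟩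
  · intro x hx
    obtain ⟨y, -, rfl⟩ := mem_map.1 hx
    exact y.2
  · funext y
    have h1 : ¬ Act (s y) := fun h => hs ⟨y, Set.mem_univ _, h⟩
    have h2 : ((y : Site d) ∈ (univ.filter fun y : V => s y = none).map
        (Function.Embedding.subtype _)) ↔ s y = none := by
      constructor
      · intro hx
        obtain ⟨z, hz, e⟩ := mem_map.1 hx
        obtain rfl : z = y := Subtype.ext e
        exact (mem_filter.1 hz).2
      · intro h
        exact mem_map.2 ⟨y, mem_filter.2 ⟨mem_univ _, h⟩, rfl⟩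
    simp only [conf, h2]
    rcases not_act_iff.1 h1 with h | h <;> simp [h]

lemma hk_tot_conf {V w : Finset (Site d)} (hw : w ⊆ V) :
    tot (fun y : V => conf w y) = w.card := by
  unfold tot
  rw [Finset.sum_coe_sort V (fun y => cnt (conf w y))]
  have : ∀ y ∈ V, cnt (conf w y) = if y ∈ w then 1 else 0 := by
    intro y _
    unfold conf
    split_ifs <;> rfl
  rw [sum_congr rfl this, sum_ite_mem, inter_eq_right.2 hw]
  simp

lemma hk_wired_sum (hd : 1 ≤ d) {lam : ℝ} (hl : 0 < lam) (V : Finset (Site d))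
    (ψ : (V → Loc) → ℝ) (hψ : ∀ s, 0 ≤ ψ s) {w : Finset (Site d)} (hw : w ⊆ V) (v : V) :
    ∑ w' ∈ V.powerset, wired lam V w v w' * ψ (fun y => conf w' y) =
      Fv (QV V) (fun _ => lam / (1 + lam)) Set.univ ψ (put (fun y : V => conf w y) (some v)) := by
  have hok := hk_ok V hl
  have hs := (QV_sto hd V).sub
  have hi : ∀ (w' : Finset (Site d)) (s : V → Loc),
      0 ≤ (if s = (fun y : V => conf w' y) then (1 : ℝ) else 0) := fun w' s => by
    split_ifs <;> norm_num
  have e1 : ∀ w' ∈ V.powerset, wired lam V w v w' * ψ (fun y => conf w' y) =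
      Fv (QV V) (fun _ => lam / (1 + lam)) Set.univ
        (fun s => ψ (fun y => conf w' y) * if s = (fun y : V => conf w' y) then 1 else 0)
        (put (fun y : V => conf w y) (some v)) := by
    intro w' hw'
    rw [wired_eq hd hl V w w' hw (mem_powerset.1 hw') v, Fv_mul hok hs (hi w') (hψ _), mul_comm]
  rw [sum_congr rfl e1, ← Fv_sum hok hs _ (fun w' s => mul_nonneg (hψ _) (hi w' s))]
  have e2 : ∀ s : V → Loc, (¬ ∃ x, Unst Set.univ s x) →
      ∑ w' ∈ V.powerset, ψ (fun y => conf w' y) *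
        (if s = (fun y : V => conf w' y) then (1 : ℝ) else 0) = ψ s := by
    intro s hst
    obtain ⟨w0, hw0, rfl⟩ := hk_stable_conf hst
    rw [sum_eq_single w0]
    · simp
    · intro w' hw' hne
      rw [if_neg fun h => hne (hk_conf_inj hw0 (mem_powerset.1 hw') h).symm, mul_zero]
    · intro h; exact absurd (mem_powerset.2 hw0) h
  exact le_antisymm (Fv_mono hok hs hψ (fun s h => (e2 s h).le) _)
    (Fv_mono hok hs (fun s => sum_nonneg fun w' _ => mul_nonneg (hψ _) (hi w' s))
      (fun s h => (e2 s h).ge) _)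

/-- The law of the wired chain in terms of value functions. -/
theorem chain_eq (hd : 1 ≤ d) {lam : ℝ} (hl : 0 < lam) (V : Finset (Site d)) (hV : V.Nonempty)
    (ψ : (V → Loc) → ℝ) (hψ : ∀ s, 0 ≤ ψ s) (k : ℕ) :
    ∑ w ∈ V.powerset, chain lam V k w * ψ (fun y => conf w y)
      = avg (Fv (QV V) (fun _ => lam / (1 + lam)) Set.univ ψ) k (fun _ => some 0) := by
  have hok := hk_ok V hl
  have hs := (QV_sto hd V).sub
  have ht := QV_tr hd V
  induction k generalizing ψ with
  | zero =>
    have h0 : ¬ ∃ x, Unst Set.univ (fun _ : V => (some 0 : Loc)) x := by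
      rintro ⟨x, -, k, hk⟩
      simp at hk
    show _ = Fv (QV V) (fun _ => lam / (1 + lam)) Set.univ ψ (fun _ => some 0)
    rw [Fv_stable h0, sum_eq_single ∅]
    · simp [chain, conf]
    · intro w _ hw; simp [chain, hw]
    · intro h; exact absurd (empty_mem_powerset V) h
  | succ k ih =>
    have hc : (0 : ℝ) ≤ (Fintype.card V : ℝ)⁻¹ := by positivity
    have hF : ∀ s, 0 ≤ Fv (QV V) (fun _ => lam / (1 + lam)) Set.univ ψ s :=
      Fv_nonneg hok hs hψ
    set ψ' : (V → Loc) → ℝ := fun s => (Fintype.card V : ℝ)⁻¹ *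
      ∑ v, Fv (QV V) (fun _ => lam / (1 + lam)) Set.univ ψ (put s (some v)) with hψ'
    have h1 := ih ψ' (fun s => mul_nonneg hc (sum_nonneg fun v _ => hF _))
    have h2 : Fv (QV V) (fun _ => lam / (1 + lam)) Set.univ ψ' = fun s =>
        (∑ v, Fv (QV V) (fun _ => lam / (1 + lam)) Set.univ ψ (put s (some v))) /
          Fintype.card V := by
      funext s
      rw [hψ', Fv_mul hok hs (fun s => sum_nonneg fun v _ => hF _) hc,
        Fv_sum hok hs _ (fun v s => hF _),
        sum_congr rfl fun v _ => Fv_put hok hs ht hψ (some v) s]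
      exact (div_eq_inv_mul _ _).symm
    rw [hk_avg_succ, ← h2, ← h1]
    simp only [chain, sum_mul]
    rw [sum_comm]
    refine sum_congr rfl fun w hw => ?_
    simp only [mul_assoc]
    rw [← mul_sum]
    congr 1
    simp only [hψ', ← hk_wired_sum hd hl V ψ hψ (mem_powerset.1 hw)]
    rw [sum_comm, mul_sum]
    refine sum_congr rfl fun w' _ => ?_
    rw [← sum_mul, Finset.sum_coe_sort V (fun v => wired lam V w v w'), Fintype.card_coe]
    ring

lemma hk_chain_nonneg (lam : ℝ) (V : Finset (Site d)) (k : ℕ) : ∀ w, 0 ≤ chain lam V k w := by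
  induction k with
  | zero => intro w; simp only [chain]; split_ifs <;> norm_num
  | succ k ih =>
    intro w
    simp only [chain]
    exact sum_nonneg fun w' _ => mul_nonneg (ih w')
      (div_nonneg (sum_nonneg fun v _ => measureReal_nonneg) (Nat.cast_nonneg _))

lemma hk_box_nonempty {L : ℕ} (hL : 1 ≤ L) : (box d L).Nonempty := by
  rw [← card_pos, card_box]; positivity

lemma hk_upper (hd : 1 ≤ d) {lam : ℝ} (hl : 0 < lam) {t : ℝ} (ht : 0 ≤ t) {ε : ℝ} (hε : 0 < ε) :
    Tendsto (fun L : ℕ => avg (Fv (QV (box d L)) (fun _ => lam / (1 + lam)) Set.univ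
        (fun s => if (min t (rho d (lam / (1 + lam))) + ε) * (L : ℝ) ^ d ≤ (tot s : ℝ) then 1 else 0))
      ⌊t * (L : ℝ) ^ d⌋₊ (fun _ => some 0)) atTop (𝓝 0) := by
  have ha : 0 < lam / (1 + lam) ∧ lam / (1 + lam) < 1 :=
    ⟨by positivity, by rw [div_lt_one (by linarith)]; linarith⟩
  refine tendsto_of_tendsto_of_tendsto_of_le_of_le' tendsto_const_nhds (full_upper hd ha hε) ?_ ?_
  · filter_upwards [eventually_ge_atTop 1] with L hL
    have : Nonempty (box d L) := (hk_box_nonempty hL).to_subtype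
    exact hk_avg_nonneg
      (Fv_nonneg (hk_ok _ hl) (QV_sto hd _).sub (fun s => by split_ifs <;> norm_num)) _ _
  · filter_upwards [eventually_ge_atTop 1] with L hL
    have : Nonempty (box d L) := (hk_box_nonempty hL).to_subtype
    have hok := hk_ok (box d L) hl
    have hs := QV_sto hd (box d L)
    have htr := QV_tr hd (box d L)
    have hp : (0 : ℝ) < (L : ℝ) ^ d := by positivity
    rw [← hk_avg_const (Fv (QV (box d L)) (fun _ => lam / (1 + lam)) Set.univ _ (full (box d L)))
      ⌊t * (L : ℝ) ^ d⌋₊ (fun _ : box d L => some 0)]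
    rcases le_total t (rho d (lam / (1 + lam))) with h | h
    · rw [min_eq_left h]
      refine hk_avg_mono (fun j s => tot s + j = ⌊t * (L : ℝ) ^ d⌋₊) (fun j s v hj => ?_)
        (fun s hj => ?_) _ _ ?_
      · rw [tot_put]; simp only [reduceCtorEq, if_false]; omega
      · refine (Fv_le_test hok hs.sub (hk_test_ge _) Set.univ s).trans ?_
        have h1 : (tot s : ℝ) ≤ t * (L : ℝ) ^ d := by
          rw [add_zero] at hj
          rw [hj]; exact Nat.floor_le (by positivity)
        rw [if_neg (by nlinarith)]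
        exact Fv_nonneg hok hs.sub (fun s => by split_ifs <;> norm_num) _
      · simp [tot, cnt]
    · rw [min_eq_right h]
      exact hk_avg_mono (fun _ s => AllAct s) (fun _ s v h' => hk_allAct_put h' _)
        (fun s h' => Fv_le_full hok hs htr (hk_test_ge _) h') _ _ (fun x => by simp)

lemma hk_lower (hd : 1 ≤ d) {lam : ℝ} (hl : 0 < lam) {t : ℝ} {ε : ℝ} (hε : 0 < ε) :
    Tendsto (fun L : ℕ => avg (Fv (QV (box d L)) (fun _ => lam / (1 + lam)) Set.univ
        (fun s => if (tot s : ℝ) ≤ (min t (rho d (lam / (1 + lam))) - ε) * (L : ℝ) ^ d then 1 else 0))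
      ⌊t * (L : ℝ) ^ d⌋₊ (fun _ => some 0)) atTop (𝓝 0) := by
  have ha : 0 < lam / (1 + lam) ∧ lam / (1 + lam) < 1 :=
    ⟨by positivity, by rw [div_lt_one (by linarith)]; linarith⟩
  set m := min t (rho d (lam / (1 + lam))) with hm
  by_cases hneg : m - ε < 0
  · refine tendsto_const_nhds.congr' ?_
    filter_upwards [eventually_ge_atTop 1] with L hL
    have : Nonempty (box d L) := (hk_box_nonempty hL).to_subtype
    have hp : (0 : ℝ) < (L : ℝ) ^ d := by positivity
    have e : (fun s : box d L → Loc => if (tot s : ℝ) ≤ (m - ε) * (L : ℝ) ^ d then (1 : ℝ) else 0)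
        = fun _ => 0 := by
      funext s
      have : (0 : ℝ) ≤ tot s := Nat.cast_nonneg _
      rw [if_neg (by nlinarith)]
    have e2 : Fv (QV (box d L)) (fun _ => lam / (1 + lam)) Set.univ (fun _ => 0) = fun _ => 0 :=
      funext fun s => Fv_zero (hk_ok _ hl) (QV_sto hd _).sub s
    rw [e, e2, hk_avg_const]
  · have h1 : m ≤ t := min_le_left _ _
    have h2 : m ≤ rho d (lam / (1 + lam)) := min_le_right _ _
    have h3 := avg_lower hd ha (t := m - ε / 2) (by linarith) (by linarith) (half_pos hε)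
    have e : m - ε / 2 - ε / 2 = m - ε := by ring
    rw [e] at h3
    refine tendsto_of_tendsto_of_tendsto_of_le_of_le' tendsto_const_nhds h3 ?_ ?_
    · filter_upwards [eventually_ge_atTop 1] with L hL
      have : Nonempty (box d L) := (hk_box_nonempty hL).to_subtype
      exact hk_avg_nonneg
        (Fv_nonneg (hk_ok _ hl) (QV_sto hd _).sub (fun s => by split_ifs <;> norm_num)) _ _
    · filter_upwards [eventually_ge_atTop 1] with L hL
      have : Nonempty (box d L) := (hk_box_nonempty hL).to_subtype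
      have hp : (0 : ℝ) < (L : ℝ) ^ d := by positivity
      refine hk_avg_anti (fun s v h' => hk_low_put (hk_ok _ hl) (QV_sto hd _) (QV_tr hd _) _ h' _)
        (fun x => by simp) (Nat.floor_le_floor ?_)
      nlinarith

theorem hockey (hd : 1 ≤ d) {lam : ℝ} (hl : 0 < lam) {t : ℝ} (ht : 0 ≤ t) {ε : ℝ} (hε : 0 < ε) :
    Tendsto (fun L : ℕ => ∑ w ∈ (box d L).powerset.filter (fun w =>
        |(w.card : ℝ) / (L : ℝ) ^ d - min t (rho d (lam / (1 + lam)))| < ε),
        chain lam (box d L) ⌊t * (L : ℝ) ^ d⌋₊ w) atTop (𝓝 1) := by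
  have hU := hk_upper hd hl ht hε
  have hLo := hk_lower hd hl (t := t) hε
  have hlim := (tendsto_const_nhds (x := (1 : ℝ)).sub hU).sub hLo
  rw [sub_zero, sub_zero] at hlim
  have hone : ∀ L : ℕ, 1 ≤ L →
      ∑ w ∈ (box d L).powerset, chain lam (box d L) ⌊t * (L : ℝ) ^ d⌋₊ w = 1 := by
    intro L hL
    have : Nonempty (box d L) := (hk_box_nonempty hL).to_subtype
    have h1 := chain_eq hd hl (box d L) (hk_box_nonempty hL) (fun _ => 1) (fun _ => zero_le_one)
      ⌊t * (L : ℝ) ^ d⌋₊
    have e2 : Fv (QV (box d L)) (fun _ => lam / (1 + lam)) Set.univ (fun _ => 1) = fun _ => 1 :=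
      funext fun s => Fv_const (hk_ok _ hl) (QV_sto hd _) (QV_tr hd _) zero_le_one s
    rw [e2, hk_avg_const] at h1
    simpa using h1
  refine tendsto_of_tendsto_of_tendsto_of_le_of_le' hlim tendsto_const_nhds ?_ ?_
  · filter_upwards [eventually_ge_atTop 1] with L hL
    have hp : (0 : ℝ) < (L : ℝ) ^ d := by positivity
    rw [← chain_eq hd hl (box d L) (hk_box_nonempty hL) _ (fun s => by split_ifs <;> norm_num),
      ← chain_eq hd hl (box d L) (hk_box_nonempty hL) _ (fun s => by split_ifs <;> norm_num)]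
    nth_rewrite 1 [← hone L hL]
    rw [← sum_sub_distrib, ← sum_sub_distrib, sum_filter]
    refine sum_le_sum fun w hw => ?_
    have h0 := hk_chain_nonneg lam (box d L) ⌊t * (L : ℝ) ^ d⌋₊ w
    rw [hk_tot_conf (mem_powerset.1 hw)]
    set m := min t (rho d (lam / (1 + lam)))
    by_cases h1 : |(w.card : ℝ) / (L : ℝ) ^ d - m| < ε
    · rw [if_pos h1]
      split_ifs <;> linarith
    · rw [if_neg h1]
      rcases le_abs'.1 (not_lt.1 h1) with h2 | h2
      · have h3 : (w.card : ℝ) ≤ (m - ε) * (L : ℝ) ^ d := by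
          rw [← div_le_iff₀ hp]; linarith
        rw [if_pos h3]
        split_ifs <;> linarith
      · have h3 : (m + ε) * (L : ℝ) ^ d ≤ (w.card : ℝ) := by
          rw [← le_div_iff₀ hp]; linarith
        rw [if_pos h3]
        split_ifs <;> linarith
  · filter_upwards [eventually_ge_atTop 1] with L hL
    rw [← hone L hL]
    exact sum_le_sum_of_subset_of_nonneg (filter_subset _ _)
      fun w _ _ => hk_chain_nonneg _ _ _ w

end Pool.Agent.ARW
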