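import Pool.Agent.P.MP_3af8b7_pr.Tails
import Pool.Agent.P.MP_3af8b7_pr.Bridge
import Pool.Agent.P.MP_3af8b7_pr.Erg

open Classical Finset MeasureTheory Filter Topology

namespace Pool.Agent.ARW

variable {d : ℕ}

/-- The configuration truncated at `M` and restricted to `V`. -/
noncomputable def nofixCut (V : Finset (Site d)) (M : ℕ) (η : Site d → ℕ) : Site d → ℕ :=
  fun y => if y ∈ V then min (η y) M else 0

/-- State of the deterministic procedure started from the truncated configuration. -/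
noncomputable def nofixRun (V : Finset (Site d)) (n M : ℕ) (p : (Site d → ℕ) × Stack d) :
    State d := run V p.2 n (fun y => some (nofixCut V M p.1 y), fun _ => 0)

/-- An observable of that state. -/
noncomputable def nofixObs (V : Finset (Site d)) (n M : ℕ) (G : State d → (Site d → ℕ) → ℝ)
    (p : (Site d → ℕ) × Stack d) : ℝ :=
  G (nofixRun V n M p) (fun x => jumps p.2 (nofixRun V n M p).2 x)

lemma nofixCut_le (V : Finset (Site d)) (M : ℕ) (η : Site d → ℕ) (y : Site d) :
    nofixCut V M η y ≤ M := by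
  unfold nofixCut; split_ifs
  · exact min_le_right _ _
  · exact Nat.zero_le _

lemma nofixCut_le_self (V : Finset (Site d)) (M : ℕ) (η : Site d → ℕ) (y : Site d) :
    nofixCut V M η y ≤ η y := by
  unfold nofixCut; split_ifs
  · exact min_le_left _ _
  · exact Nat.zero_le _

lemma nofix_measurable (hd : 1 ≤ d) {lam : ℝ} (hl : 0 < lam) (V : Finset (Site d)) (n M : ℕ)
    (G : State d → (Site d → ℕ) → ℝ) : Measurable (nofixObs V n M G) := by
  let ext : (V → ℕ) → Site d → Loc := fun ζ y => if h : y ∈ V then some (ζ ⟨y, h⟩) else some 0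
  let F : (V → ℕ) × Stack d → ℝ := fun q =>
    G (run V q.2 n (ext q.1, fun _ => 0)) (fun x => jumps q.2 (run V q.2 n (ext q.1, fun _ => 0)).2 x)
  have hF : Measurable F :=
    measurable_from_prod_countable_right fun ζ => (integrable_run hd hl V n (ext ζ) G).1
  have hr : Measurable fun p : (Site d → ℕ) × Stack d => ((fun y : V => min (p.1 y) M), p.2) := by
    refine Measurable.prodMk (measurable_pi_lambda _ fun y => ?_) measurable_snd
    exact (measurable_from_top (f := fun k : ℕ => min k M)).comp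
      ((measurable_pi_apply (y : Site d)).comp measurable_fst)
  have e : nofixObs V n M G = F ∘ fun p => ((fun y : V => min (p.1 y) M), p.2) := by
    funext p
    have : (fun y => some (nofixCut V M p.1 y)) = ext (fun y : V => min (p.1 y) M) := by
      funext y
      by_cases h : y ∈ V <;> simp [ext, nofixCut, h]
    simp only [nofixObs, nofixRun, F, Function.comp, this]
  rw [e]
  exact hF.comp hr

lemma nofix_bound (hd : 1 ≤ d) {lam : ℝ} (hl : 0 < lam) (μ : Measure (Site d → ℕ))
    [IsProbabilityMeasure μ] (V : Finset (Site d)) (n M : ℕ)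
    (G : State d → (Site d → ℕ) → ℝ) (hG : ∀ s J, 0 ≤ G s J) {B : ℝ}
    (hB : ∀ η, ∫ τ, nofixObs V n M G (η, τ) ∂(stackLaw d lam) ≤ B) :
    Integrable (nofixObs V n M G) (μ.prod (stackLaw d lam)) ∧
      ∫ p, nofixObs V n M G p ∂(μ.prod (stackLaw d lam)) ≤ B := by
  have := stackLaw_prob hd hl
  have hm := nofix_measurable hd hl V n M G
  have h0 : ∀ p, 0 ≤ nofixObs V n M G p := fun p => hG _ _
  have hI : Integrable (fun η => ∫ τ, nofixObs V n M G (η, τ) ∂(stackLaw d lam)) μ := by
    refine Integrable.of_bound hm.stronglyMeasurable.integral_prod_right'.aestronglyMeasurable B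
      (Eventually.of_forall fun η => ?_)
    rw [Real.norm_eq_abs, abs_of_nonneg (integral_nonneg fun τ => h0 _)]
    exact hB η
  have hint : Integrable (nofixObs V n M G) (μ.prod (stackLaw d lam)) := by
    rw [integrable_prod_iff hm.aestronglyMeasurable]
    refine ⟨Eventually.of_forall fun η =>
      (integrable_run hd hl V n (fun y => some (nofixCut V M η y)) G).2, ?_⟩
    simpa only [Real.norm_eq_abs, abs_of_nonneg (h0 _)] using hI
  refine ⟨hint, ?_⟩
  rw [integral_prod _ hint]
  calc ∫ η, ∫ τ, nofixObs V n M G (η, τ) ∂(stackLaw d lam) ∂μ ≤ ∫ _η, B ∂μ :=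
        integral_mono hI (integrable_const B) hB
    _ = B := by simp

lemma nofix_sq_le {x : ℝ} (hx : 0 ≤ x) (J : ℕ) :
    1 + J * x + (J * (J - 1) / 2) * x ^ 2 ≤ (1 + x) ^ J := by
  induction J with
  | zero => simp
  | succ J ih =>
    have hJ : (0 : ℝ) ≤ J * (J - 1) := by
      rcases J with _ | J
      · simp
      · push_cast; nlinarith [(Nat.cast_nonneg J : (0 : ℝ) ≤ J)]
    have h3 : 0 ≤ (J * (J - 1) / 2 : ℝ) * x ^ 3 := by positivity
    have := mul_le_mul_of_nonneg_right ih (by linarith : 0 ≤ 1 + x)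
    rw [pow_succ (1 + x) J]
    push_cast
    nlinarith

lemma nofix_jump_le {D s : ℝ} (hD : 1 ≤ D) (hs : 0 < s) (J : ℕ) :
    (J : ℝ) ≤ s + 2 * D ^ 2 / s * (1 + 1 / D) ^ J := by
  have hD0 : 0 < D := by linarith
  have hx : 0 ≤ 1 / D := by positivity
  have hx1 : 1 / D ≤ 1 := by rw [div_le_one hD0]; exact hD
  have h1 := nofix_sq_le hx J
  have hJ : (0 : ℝ) ≤ J := Nat.cast_nonneg J
  have h2 : (J : ℝ) ^ 2 * (1 / D) ^ 2 ≤ 2 * (1 + 1 / D) ^ J := by
    have : (J : ℝ) * (1 / D) ^ 2 ≤ J * (1 / D) :=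
      mul_le_mul_of_nonneg_left (by nlinarith) hJ
    nlinarith [mul_nonneg hJ hx]
  have h3 : (J : ℝ) ^ 2 ≤ 2 * D ^ 2 * (1 + 1 / D) ^ J := by
    have e : (J : ℝ) ^ 2 = D ^ 2 * ((J : ℝ) ^ 2 * (1 / D) ^ 2) := by field_simp
    rw [e]
    nlinarith [mul_le_mul_of_nonneg_left h2 (sq_nonneg D)]
  have h4 : (J : ℝ) ≤ s + (J : ℝ) ^ 2 / s := by
    rw [← sub_le_iff_le_add', le_div_iff₀ hs]
    nlinarith [sq_nonneg ((J : ℝ) - s)]
  refine h4.trans ?_
  rw [div_mul_eq_mul_div]
  gcongr

lemma nofix_scale_one {α : Type*} (Q : α → Option α → ℝ) (x : α) : scale Q x 1 = Q := by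
  funext y z; simp [scale]

/-- Uniform choice of the number of steps. -/
lemma nofix_steps (hd : 1 ≤ d) {a0 : ℝ} (ha : 0 < a0 ∧ a0 < 1) (V : Finset (Site d)) (M : ℕ)
    (b : ℝ) {θ : ℝ} (hθ : 0 < θ) :
    ∃ n, ∀ η : Site d → ℕ, (∀ y, η y ≤ M) →
      1 - Fn (QV V) (fun _ => a0) Set.univ (fun s => if (tot s : ℝ) < b then 1 else 0) n (act V η)
        ≤ Fv (QV V) (fun _ => a0) Set.univ (fun s => if b ≤ tot s then 1 else 0) (full V) + θ := by
  have hok : Ok (QV V) (fun _ => a0) := ⟨QV_nonneg V, fun _ => ⟨ha.1.le, ha.2⟩⟩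
  have hs := QV_sto hd V
  have ht := QV_tr hd V
  set ψ : (V → Loc) → ℝ := fun s => if (tot s : ℝ) < b then 1 else 0 with hψ
  set χ : (V → Loc) → ℝ := fun s => if b ≤ tot s then 1 else 0 with hχ
  have hψ0 : ∀ s, 0 ≤ ψ s := fun s => by simp only [hψ]; split_ifs <;> norm_num
  have hχ0 : ∀ s, 0 ≤ χ s := fun s => by simp only [hχ]; split_ifs <;> norm_num
  have hev : ∀ᶠ n in atTop, ∀ σ ∈ {σ : V → Loc | tot σ ≤ V.card * M},
      Fv (QV V) (fun _ => a0) Set.univ ψ σ - θ < Fn (QV V) (fun _ => a0) Set.univ ψ n σ := by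
    rw [eventually_all_finite (finite_tot_le _)]
    intro σ _
    exact (Fn_tendsto hok hs.sub hψ0 σ).eventually (lt_mem_nhds (by linarith))
  obtain ⟨n, hn⟩ := hev.exists
  refine ⟨n, fun η hη => ?_⟩
  have h1 := hn (act V η) (by
    show ∑ x : V, cnt (act V η x) ≤ V.card * M
    calc ∑ x : V, cnt (act V η x) ≤ ∑ _x : V, M := Finset.sum_le_sum fun x _ => hη x
      _ = V.card * M := by simp)
  have h2 : Fv (QV V) (fun _ => a0) Set.univ ψ (act V η)
      + Fv (QV V) (fun _ => a0) Set.univ χ (act V η) = 1 := by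
    rw [← Fv_add hok hs.sub hψ0 hχ0, ← Fv_const (S := Set.univ) hok hs ht zero_le_one (act V η)]
    congr 1
    funext s
    simp only [hψ, hχ]
    by_cases h : (tot s : ℝ) < b
    · simp [h, not_le.2 h]
    · simp [h, not_lt.1 h]
  have hT : Test (fun k : ℕ => if b ≤ (k : ℝ) then (1 : ℝ) else 0) := by
    refine ⟨fun i j hij => ?_, fun k => by dsimp only; split_ifs <;> norm_num⟩
    have : (i : ℝ) ≤ j := by exact_mod_cast hij
    by_cases h : b ≤ (i : ℝ)
    · simp [h, h.trans this]
    · simp only [h, if_false]; split_ifs <;> norm_num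
  have h3 : Fv (QV V) (fun _ => a0) Set.univ χ (act V η)
      ≤ Fv (QV V) (fun _ => a0) Set.univ χ (full V) :=
    Fv_le_full hok hs ht hT (σ := act V η) (fun x => by simp [act])
  linarith

/-- The bad event at `x`: stabilization, but more than `K` jumps from `x`. -/
def nofixBad (x : Site d) (K : ℕ) : Set ((Site d → ℕ) × Stack d) :=
  {p | Stabilizes p.2 p.1 ∧ ¬ Bnd p.2 p.1 Set.univ x K}

lemma nofixBad_meas (x : Site d) (K : ℕ) : MeasurableSet (nofixBad x K) :=
  measurableSet_stabilizes.inter (measurableSet_bnd Set.univ x K).compl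

lemma nofixBad_real (hd : 1 ≤ d) {lam : ℝ} (hl : 0 < lam) {μ : Measure (Site d → ℕ)}
    (hμ : StatErg μ) (x : Site d) (K : ℕ) :
    (μ.prod (stackLaw d lam)).real (nofixBad x K)
      = (μ.prod (stackLaw d lam)).real (nofixBad 0 K) := by
  rw [← (jshift_preserving hd hl hμ x).measureReal_preimage
    (nofixBad_meas 0 K).nullMeasurableSet]
  congr 1
  ext p
  simp only [nofixBad, Set.mem_ofPred_eq, Set.mem_preimage, stabilizes_jshift, bnd_jshift]
  simp

lemma nofixBad_tendsto (hd : 1 ≤ d) {lam : ℝ} (hl : 0 < lam) {μ : Measure (Site d → ℕ)}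
    (hμ : StatErg μ) :
    Tendsto (fun K => (μ.prod (stackLaw d lam)).real (nofixBad (0 : Site d) K)) atTop (𝓝 0) := by
  have := stackLaw_prob hd hl
  have := hμ.1
  have hanti : Antitone (nofixBad (0 : Site d)) := fun K K' h p hp =>
    ⟨hp.1, fun hb => hp.2 fun s hs => (hb s hs).trans h⟩
  have h := tendsto_measure_iInter_atTop (μ := μ.prod (stackLaw d lam))
    (fun K => (nofixBad_meas (0 : Site d) K).nullMeasurableSet) hanti ⟨0, measure_ne_top _ _⟩
  have e : ⋂ K, nofixBad (0 : Site d) K = ∅ := by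
    ext p
    simp only [Set.mem_iInter, Set.mem_empty_iff_false, iff_false]
    intro hp
    obtain ⟨K, hK⟩ := (stabilizes_iff p.2 p.1).1 (hp 0).1 0
    exact (hp K).2 hK
  rw [e, measure_empty] at h
  exact (ENNReal.tendsto_toReal ENNReal.zero_ne_top).comp h

/-- Few particles in the box. -/
def nofixLow (L M : ℕ) (m : ℝ) : Set (Site d → ℕ) :=
  {η | ((∑ y ∈ box d L, min (η y) M : ℕ) : ℝ) < m * (L : ℝ) ^ d}

lemma nofix_meas_low (V : Finset (Site d)) (M : ℕ) (b : ℝ) :
    MeasurableSet {η : Site d → ℕ | ((∑ y ∈ V, min (η y) M : ℕ) : ℝ) < b} := by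
  have h : Measurable fun η : Site d → ℕ => ∑ y ∈ V, min (η y) M :=
    Finset.measurable_sum _ fun y _ =>
      (measurable_from_top (f := fun k : ℕ => min k M)).comp (measurable_pi_apply y)
  exact h (MeasurableSet.of_discrete (s := {k : ℕ | (k : ℝ) < b}))

lemma nofixLow_real {μ : Measure (Site d → ℕ)} (hμ : StatErg μ) (L M : ℕ) (m : ℝ) :
    μ.real (nofixLow L M m) = μ.real
      {η | ((∑ y ∈ cube (0 : Site d) L, min (η y) M : ℕ) : ℝ) < m * (L : ℝ) ^ d} := by
  rw [← (hμ.2.1 (fun _ => 1)).measureReal_preimage (nofix_meas_low _ M _).nullMeasurableSet]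
  congr 1
  ext η
  have : ∑ y ∈ cube (0 : Site d) L, min (shift (fun _ => 1) η y) M
      = ∑ y ∈ box d L, min (η y) M := by
    refine Finset.sum_nbij' (fun y => y + fun _ => 1) (fun y => y - fun _ => 1) ?_ ?_ ?_ ?_ ?_
    · intro y hy
      simp only [cube, box, Fintype.mem_piFinset, Finset.mem_Ico, Finset.mem_Icc,
        Pi.add_apply, Pi.zero_apply] at hy ⊢
      intro i; have := hy i; omega
    · intro y hy
      simp only [cube, box, Fintype.mem_piFinset, Finset.mem_Ico, Finset.mem_Icc,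
        Pi.sub_apply, Pi.zero_apply] at hy ⊢
      intro i; have := hy i; omega
    · intro y _; simp
    · intro y _; simp
    · intro y _; rfl
  simp only [nofixLow, Set.mem_ofPred_eq, Set.mem_preimage, this]

/-- The main estimate in a box of side `L`. -/
lemma nofix_box (hd : 1 ≤ d) {lam : ℝ} (hl : 0 < lam) {μ : Measure (Site d → ℕ)}
    (hμ : StatErg μ) (L M K : ℕ) (hL : 1 ≤ L) {m b s : ℝ} (hbm : b < m) (hs : 0 < s) :
    (m - b) * (μ.prod (stackLaw d lam)).real {p | Stabilizes p.2 p.1}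
      ≤ (m - b) * μ.real (nofixLow L M m)
        + (m - b) * Fv (QV (box d L)) (fun _ => lam / (1 + lam)) Set.univ
            (fun s => if b * (L : ℝ) ^ d ≤ tot s then 1 else 0) (full (box d L))
        + 2 * d * (K / L + s * (μ.prod (stackLaw d lam)).real (nofixBad 0 K)
            + 8 * d ^ 2 * Real.exp M / s) := by
  have := stackLaw_prob hd hl
  have := hμ.1
  set P := μ.prod (stackLaw d lam) with hP
  set V := box d L with hV
  have ha : 0 < lam / (1 + lam) ∧ lam / (1 + lam) < 1 :=
    ⟨by positivity, by rw [div_lt_one (by linarith)]; linarith⟩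
  have hc : 0 < m - b := by linarith
  have hL0 : (0 : ℝ) < L := by exact_mod_cast hL
  have hL1 : (1 : ℝ) ≤ L := by exact_mod_cast hL
  have hd1 : (1 : ℝ) ≤ d := by exact_mod_cast hd
  have hLd : (0 : ℝ) < (L : ℝ) ^ d := by positivity
  obtain ⟨x0, hx0⟩ : V.Nonempty := by
    rw [← Finset.card_pos, hV, card_box]; positivity
  set u := Fv (QV V) (fun _ => lam / (1 + lam)) Set.univ
    (fun s => if b * (L : ℝ) ^ d ≤ tot s then 1 else 0) (full V) with hu
  set δ := P.real (nofixBad 0 K) with hδ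
  have hδ0 : 0 ≤ δ := measureReal_nonneg
  refine le_of_forall_pos_le_add fun θ0 hθ0 => ?_
  obtain ⟨n, hn⟩ := nofix_steps hd ha V M (b * (L : ℝ) ^ d) (θ := θ0 / (m - b)) (by positivity)
  set ψ : (V → Loc) → ℝ := fun s => if (tot s : ℝ) < b * (L : ℝ) ^ d then 1 else 0 with hψ
  set t : ℝ := 1 + 1 / (2 * d * L) with ht
  have ht0 : 0 ≤ t := by positivity
  -- the two observables
  set GW : State d → (Site d → ℕ) → ℝ := fun r J =>
    1 - (if ∀ y ∈ V, ¬ Act (r.1 y) then (1 : ℝ) ^ J x0 * ψ (fun y => r.1 y) else 0) with hGW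
  set GU : Site d → State d → (Site d → ℕ) → ℝ := fun x r J =>
    if ∀ y ∈ V, ¬ Act (r.1 y) then t ^ J x * 1 else 0 with hGU
  have hGW0 : ∀ r J, 0 ≤ GW r J := fun r J => by
    simp only [hGW, hψ]; split_ifs <;> norm_num
  have hGU0 : ∀ x r J, 0 ≤ GU x r J := fun x r J => by
    simp only [hGU]; split_ifs <;> positivity
  have hW := nofix_bound hd hl μ V n M GW hGW0 (B := u + θ0 / (m - b)) (fun η => by
    have h1 := integral_payoff hd hl V ⟨x0, hx0⟩ 1 ψ n (fun y => some (nofixCut V M η y))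
    have h2 : Integrable (payoff V ⟨x0, hx0⟩ 1 ψ n (fun y => some (nofixCut V M η y)))
        (stackLaw d lam) := (integrable_run hd hl V n (fun y => some (nofixCut V M η y))
          (fun r J => if ∀ y ∈ V, ¬ Act (r.1 y) then (1 : ℝ) ^ J x0 * ψ (fun y => r.1 y)
            else 0)).2
    have h3 : ∫ τ, nofixObs V n M GW (η, τ) ∂(stackLaw d lam)
        = ∫ τ, (1 - payoff V ⟨x0, hx0⟩ 1 ψ n (fun y => some (nofixCut V M η y)) τ)
          ∂(stackLaw d lam) := rfl
    rw [h3, integral_sub (integrable_const _) h2, h1, nofix_scale_one]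
    simp only [integral_const, probReal_univ, one_smul]
    exact hn (nofixCut V M η) (nofixCut_le V M η))
  have hU : ∀ x ∈ bdry V, Integrable (nofixObs V n M (GU x)) P ∧
      ∫ p, nofixObs V n M (GU x) p ∂P ≤ Real.exp M := fun x hx => by
    have hxV : x ∈ V := (Finset.mem_filter.1 hx).1
    refine nofix_bound hd hl μ V n M (GU x) (hGU0 x) (fun η => ?_)
    have h1 := integral_payoff hd hl V ⟨x, hxV⟩ t (fun _ => 1) n
      (fun y => some (nofixCut V M η y))
    have h3 : ∫ τ, nofixObs V n M (GU x) (η, τ) ∂(stackLaw d lam)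
        = ∫ τ, payoff V ⟨x, hxV⟩ t (fun _ => 1) n (fun y => some (nofixCut V M η y)) τ
          ∂(stackLaw d lam) := rfl
    rw [h3, h1]
    exact exp_moment hd ⟨ha.1.le, ha.2⟩ L M _ (nofixCut_le V M η) ⟨x, hxV⟩ hx n
  set A : Set ((Site d → ℕ) × Stack d) := {p | Stabilizes p.2 p.1} with hA
  set Lo : Set ((Site d → ℕ) × Stack d) := Prod.fst ⁻¹' nofixLow L M m with hLo
  have hAm : MeasurableSet A := measurableSet_stabilizes
  have hLom : MeasurableSet Lo := measurable_fst (nofix_meas_low _ M _)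
  set κ : ℝ := 2 * (2 * d * L) ^ 2 / (s * L) with hκ
  have hκ0 : 0 ≤ κ := by positivity
  set c : ℝ := (m - b) * (L : ℝ) ^ d with hcdef
  have hc0 : 0 < c := by positivity
  -- pointwise inequality
  have hpt : ∀ p, c * A.indicator 1 p ≤ c * Lo.indicator 1 p + c * nofixObs V n M GW p
      + ∑ x ∈ bdry V, ((K : ℝ) + s * L * (nofixBad x K).indicator 1 p
          + κ * nofixObs V n M (GU x) p) := by
    intro p
    have i1 : (0 : ℝ) ≤ Lo.indicator 1 p := Set.indicator_nonneg (fun _ _ => zero_le_one) p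
    have i2 : 0 ≤ nofixObs V n M GW p := hGW0 _ _
    have i3 : ∀ x, (0 : ℝ) ≤ (nofixBad x K).indicator 1 p := fun x =>
      Set.indicator_nonneg (fun _ _ => zero_le_one) p
    have i4 : ∀ x, 0 ≤ nofixObs V n M (GU x) p := fun x => hGU0 x _ _
    have i5 : 0 ≤ ∑ x ∈ bdry V, ((K : ℝ) + s * L * (nofixBad x K).indicator 1 p
          + κ * nofixObs V n M (GU x) p) :=
      Finset.sum_nonneg fun x _ => by have := i3 x; have := i4 x; positivity
    have j1 := mul_nonneg hc0.le i1
    have j2 := mul_nonneg hc0.le i2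
    by_cases hpA : p ∈ A
    swap
    · rw [Set.indicator_of_notMem hpA]; linarith
    rw [Set.indicator_of_mem hpA]
    by_cases hpL : p ∈ Lo
    · rw [Set.indicator_of_mem hpL]; simp only [Pi.one_apply]; linarith
    by_cases hst : ∀ y ∈ V, ¬ Act ((nofixRun V n M p).1 y)
    swap
    · have : nofixObs V n M GW p = 1 := by simp only [nofixObs, hGW, if_neg hst]; ring
      rw [this]; simp only [Pi.one_apply]; linarith
    by_cases hsm : (tot (fun y : V => (nofixRun V n M p).1 y) : ℝ) < b * (L : ℝ) ^ d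
    swap
    · have : nofixObs V n M GW p = 1 := by
        simp only [nofixObs, hGW, if_pos hst, hψ, if_neg hsm]; ring
      rw [this]; simp only [Pi.one_apply]; linarith
    have hloss := run_loss V p.2 n (fun y => some (nofixCut V M p.1 y))
    have e1 : ∑ y ∈ V, cnt (some (nofixCut V M p.1 y)) = ∑ y ∈ V, min (p.1 y) M :=
      Finset.sum_congr rfl fun y hy => by simp [cnt, nofixCut, hy]
    have e2 : tot (fun y : V => (nofixRun V n M p).1 y) = ∑ y ∈ V, cnt ((nofixRun V n M p).1 y) :=
      Finset.sum_coe_sort V (fun y => cnt ((nofixRun V n M p).1 y))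
    have hbig : m * (L : ℝ) ^ d ≤ ((∑ y ∈ V, min (p.1 y) M : ℕ) : ℝ) := not_lt.1 hpL
    rw [e1] at hloss
    rw [e2] at hsm
    have hloss' : ((∑ y ∈ V, min (p.1 y) M : ℕ) : ℝ)
        ≤ ((∑ y ∈ V, cnt ((nofixRun V n M p).1 y) : ℕ) : ℝ)
          + ∑ x ∈ bdry V, (jumps p.2 (nofixRun V n M p).2 x : ℝ) := by
      exact_mod_cast hloss
    have hj : ∑ x ∈ bdry V, (jumps p.2 (nofixRun V n M p).2 x : ℝ)
        ≤ ∑ x ∈ bdry V, ((K : ℝ) + s * L * (nofixBad x K).indicator 1 p
          + κ * nofixObs V n M (GU x) p) := by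
      refine Finset.sum_le_sum fun x _ => ?_
      have k1 := mul_nonneg (mul_nonneg hs.le hL0.le) (i3 x)
      have k2 := mul_nonneg hκ0 (i4 x)
      by_cases hb : Bnd p.2 p.1 Set.univ x K
      · have : jumps p.2 (nofixRun V n M p).2 x ≤ K :=
          run_jumps_le V p.2 n _ p.1 (fun y _ => nofixCut_le_self V M p.1 y) x K hb
        have : (jumps p.2 (nofixRun V n M p).2 x : ℝ) ≤ K := by exact_mod_cast this
        linarith
      · have hmem : p ∈ nofixBad x K := ⟨hpA, hb⟩
        have e3 : nofixObs V n M (GU x) p = t ^ jumps p.2 (nofixRun V n M p).2 x := by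
          simp only [nofixObs, hGU, if_pos hst, mul_one]
        rw [Set.indicator_of_mem hmem, e3]
        have := nofix_jump_le (D := 2 * d * L) (s := s * L) (by nlinarith) (by positivity)
          (jumps p.2 (nofixRun V n M p).2 x)
        have hK : (0 : ℝ) ≤ K := Nat.cast_nonneg K
        simp only [Pi.one_apply, mul_one]
        linarith
    simp only [Pi.one_apply, mul_one, hcdef]
    linarith
  -- integrate
  have iA : Integrable (A.indicator (1 : (Site d → ℕ) × Stack d → ℝ)) P :=
    (integrable_const (1 : ℝ)).indicator hAm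
  have iL : Integrable (Lo.indicator (1 : (Site d → ℕ) × Stack d → ℝ)) P :=
    (integrable_const (1 : ℝ)).indicator hLom
  have iB : ∀ x, Integrable ((nofixBad x K).indicator (1 : (Site d → ℕ) × Stack d → ℝ)) P :=
    fun x => (integrable_const (1 : ℝ)).indicator (nofixBad_meas x K)
  have iS : ∀ x ∈ bdry V, Integrable (fun p => (K : ℝ) + s * L * (nofixBad x K).indicator 1 p
      + κ * nofixObs V n M (GU x) p) P := fun x hx =>
    ((integrable_const _).add ((iB x).const_mul _)).add ((hU x hx).1.const_mul _)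
  have hint := integral_mono (iA.const_mul c)
    (((iL.const_mul c).add (hW.1.const_mul c)).add (integrable_finsetSum _ iS)) hpt
  have eS : ∫ p, ∑ x ∈ bdry V, ((K : ℝ) + s * L * (nofixBad x K).indicator 1 p
      + κ * nofixObs V n M (GU x) p) ∂P ≤ (bdry V).card * (K + s * L * δ + κ * Real.exp M) := by
    rw [integral_finsetSum _ iS, ← nsmul_eq_mul, ← Finset.sum_const]
    refine Finset.sum_le_sum fun x hx => ?_
    have i1 : Integrable (fun p => (K : ℝ) + s * L * (nofixBad x K).indicator 1 p) P :=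
      (integrable_const _).add ((iB x).const_mul _)
    rw [integral_add i1 ((hU x hx).1.const_mul _),
      integral_add (integrable_const _) ((iB x).const_mul _), integral_const_mul,
      integral_const_mul, integral_indicator_one (nofixBad_meas x K), nofixBad_real hd hl hμ x K]
    have := mul_le_mul_of_nonneg_left (hU x hx).2 hκ0
    simp only [integral_const, probReal_univ, one_smul]
    linarith
  have eL : P.real Lo = μ.real (nofixLow L M m) :=
    (measurePreserving_fst (μ := μ) (ν := stackLaw d lam)).measureReal_preimage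
      (nofix_meas_low _ M _).nullMeasurableSet
  simp only [Pi.add_apply] at hint
  have i2 : Integrable (fun p => c * Lo.indicator 1 p + c * nofixObs V n M GW p) P :=
    (iL.const_mul c).add (hW.1.const_mul c)
  rw [integral_add i2 (integrable_finsetSum _ iS),
    integral_add (iL.const_mul c) (hW.1.const_mul c), integral_const_mul, integral_const_mul,
    integral_const_mul, integral_indicator_one hAm, integral_indicator_one hLom, eL] at hint
  have hcard := card_bdry hd L
  have hnn : 0 ≤ (K : ℝ) + s * L * δ + κ * Real.exp M := by positivity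
  have f1 := mul_le_mul_of_nonneg_right hcard hnn
  have f2 := mul_le_mul_of_nonneg_left hW.2 hc0.le
  have hpow : (L : ℝ) ^ d = (L : ℝ) ^ (d - 1) * L := by
    rw [← pow_succ]; congr 1; omega
  have f3 : 2 * d * (L : ℝ) ^ (d - 1) * (K + s * L * δ + κ * Real.exp M)
      = (L : ℝ) ^ d * (2 * d * (K / L + s * δ + 8 * d ^ 2 * Real.exp M / s)) := by
    rw [hpow, hκ]; field_simp; ring
  have f4 : c * (u + θ0 / (m - b)) = (L : ℝ) ^ d * ((m - b) * u + θ0) := by
    rw [hcdef]; field_simp
  refine le_of_mul_le_mul_left ?_ hLd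
  rw [hcdef] at hint f2 f4
  nlinarith

theorem nonfixation (hd : 1 ≤ d) {lam : ℝ} (hl : 0 < lam) {μ : Measure (Site d → ℕ)}
    (hμ : StatErg μ) (hint : Integrable (fun η => (η 0 : ℝ)) μ)
    (hm : rho d (lam / (1 + lam)) < ∫ η, (η 0 : ℝ) ∂μ) :
    ∀ᵐ p ∂(μ.prod (stackLaw d lam)), ¬ Stabilizes p.2 p.1 := by
  have := stackLaw_prob hd hl
  have := hμ.1
  have ha : 0 < lam / (1 + lam) ∧ lam / (1 + lam) < 1 :=
    ⟨by positivity, by rw [div_lt_one (by linarith)]; linarith⟩
  obtain ⟨m, hm1, hm2⟩ := exists_between hm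
  obtain ⟨b, hb1, hb2⟩ := exists_between hm1
  obtain ⟨M, hM⟩ := erg_lower hμ hint hm2
  set P := μ.prod (stackLaw d lam) with hP
  set q := P.real {p | Stabilizes p.2 p.1} with hq
  have hu := full_upper hd ha (ε := b - rho d (lam / (1 + lam))) (by linarith)
  simp only [add_sub_cancel] at hu
  have h1 : ∀ (s : ℝ), 0 < s → ∀ K : ℕ, (m - b) * q
      ≤ 2 * d * (s * P.real (nofixBad 0 K) + 8 * d ^ 2 * Real.exp M / s) := by
    intro s hs K
    have hlim := ((((hM.congr fun L => (nofixLow_real hμ L M m).symm).const_mul (m - b)).add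
      (hu.const_mul (m - b))).add
      ((((tendsto_const_div_atTop_nhds_zero_nat (K : ℝ)).add_const
        (s * P.real (nofixBad 0 K))).add_const (8 * d ^ 2 * Real.exp M / s)).const_mul
          (2 * d : ℝ)))
    simp only [mul_zero, zero_add] at hlim
    refine ge_of_tendsto hlim ?_
    filter_upwards [eventually_ge_atTop 1] with L hL
    exact nofix_box hd hl hμ L M K hL hb2 hs
  have h2 : ∀ (s : ℝ), 0 < s → (m - b) * q ≤ 2 * d * (8 * d ^ 2 * Real.exp M / s) := by
    intro s hs
    have hlim := ((((nofixBad_tendsto hd hl hμ).const_mul s).add_const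
      (8 * d ^ 2 * Real.exp M / s)).const_mul (2 * d : ℝ))
    simp only [mul_zero, zero_add] at hlim
    exact ge_of_tendsto' hlim (h1 s hs)
  have h3 : (m - b) * q ≤ 0 := by
    have hlim := (tendsto_const_div_atTop_nhds_zero_nat
      (8 * d ^ 2 * Real.exp M : ℝ)).const_mul (2 * d : ℝ)
    simp only [mul_zero] at hlim
    refine ge_of_tendsto hlim ?_
    filter_upwards [eventually_ge_atTop 1] with s hs
    exact h2 s (by exact_mod_cast hs)
  have hq0 : q = 0 := by
    have : 0 ≤ q := measureReal_nonneg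
    have hc : 0 < m - b := by linarith
    nlinarith
  rw [ae_iff]
  simpa [hq, measureReal_eq_zero_iff] using hq0

end Pool.Agent.ARW
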