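import Pool.Agent.P.MP_3af8b7_pr.Meas

open Classical Finset MeasureTheory Filter Topology

namespace Pool.Agent.ARW

variable {d : ℕ}

/-- Periodic configuration: `k` particles on every `N`-th hyperplane. -/
noncomputable def per (i0 : Fin d) (N k : ℕ) (j : ZMod N) : Site d → ℕ :=
  fun x => if (x i0 : ZMod N) + j = 0 then k else 0

/-- Uniform measure on the orbit of a periodic configuration. -/
noncomputable def perLaw (i0 : Fin d) (N k : ℕ) [NeZero N] : Measure (Site d → ℕ) :=
  (N : ENNReal)⁻¹ • ∑ j : ZMod N, Measure.dirac (per i0 N k j)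

lemma shift_per (i0 : Fin d) (N k : ℕ) (j : ZMod N) (v : Site d) :
    shift v (per i0 N k j) = per i0 N k (j + (v i0 : ZMod N)) := by
  funext x
  simp only [shift, per, Pi.add_apply, Int.cast_add]
  rw [show (x i0 : ZMod N) + (v i0 : ZMod N) + j = x i0 + (j + v i0) by ring]

lemma shift_meas (v : Site d) : Measurable (shift v : (Site d → ℕ) → (Site d → ℕ)) :=
  measurable_pi_lambda _ fun x => measurable_pi_apply (x + v)

lemma perLaw_apply (i0 : Fin d) (N k : ℕ) [NeZero N] {s : Set (Site d → ℕ)}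
    (hs : MeasurableSet s) :
    perLaw i0 N k s = (N : ENNReal)⁻¹ * ∑ j : ZMod N, s.indicator 1 (per i0 N k j) := by
  simp only [perLaw, Measure.smul_apply, Measure.coe_finsetSum, Finset.sum_apply,
    Measure.dirac_apply' _ hs, smul_eq_mul]

lemma perLaw_erg (i0 : Fin d) (N k : ℕ) [NeZero N] : StatErg (perLaw i0 N k) := by
  have hN : (N : ENNReal) ≠ 0 := by exact_mod_cast NeZero.ne N
  have h1 : (N : ENNReal)⁻¹ * ∑ _j : ZMod N, (1 : ENNReal) = 1 := by
    rw [sum_const, card_univ, ZMod.card, nsmul_eq_mul, mul_one,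
      ENNReal.inv_mul_cancel hN (ENNReal.natCast_ne_top N)]
  refine ⟨⟨?_⟩, fun v => ⟨shift_meas v, ?_⟩, fun s hs hinv => ?_⟩
  · rw [perLaw_apply _ _ _ MeasurableSet.univ]
    simpa using h1
  · ext s hs
    rw [Measure.map_apply (shift_meas v) hs, perLaw_apply _ _ _ hs,
      perLaw_apply _ _ _ (shift_meas v hs)]
    congr 1
    rw [← Equiv.sum_comp (Equiv.addRight ((v i0 : ℤ) : ZMod N)) (fun j => s.indicator 1 (per i0 N k j))]
    refine sum_congr rfl fun j _ => ?_
    simp only [Equiv.coe_addRight, ← shift_per]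
    rfl
  · have key : ∀ j : ZMod N, per i0 N k j ∈ s ↔ per i0 N k 0 ∈ s := by
      intro j
      have e : per i0 N k j = shift (Pi.single i0 (j.val : ℤ)) (per i0 N k 0) := by
        rw [shift_per]; simp
      rw [e]
      conv_rhs => rw [← hinv (Pi.single i0 (j.val : ℤ))]
      rfl
    rw [perLaw_apply _ _ _ hs]
    by_cases h : per i0 N k 0 ∈ s
    · right
      rw [sum_congr rfl fun j _ => Set.indicator_of_mem ((key j).2 h) _]
      exact h1
    · left
      rw [sum_congr rfl fun j _ => Set.indicator_of_notMem (fun h' => h ((key j).1 h')) _]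
      simp

lemma perLaw_int (i0 : Fin d) (N k : ℕ) [NeZero N] :
    Integrable (fun η : Site d → ℕ => (η 0 : ℝ)) (perLaw i0 N k) ∧
      ∫ η, (η 0 : ℝ) ∂(perLaw i0 N k) = (k : ℝ) / N := by
  have hN : (N : ENNReal) ≠ 0 := by exact_mod_cast NeZero.ne N
  have hm : Measurable (fun η : Site d → ℕ => (η 0 : ℝ)) :=
    (measurable_from_top (f := fun n : ℕ => (n : ℝ))).comp (measurable_pi_apply 0)
  have hi : ∀ j : ZMod N, Integrable (fun η : Site d → ℕ => (η 0 : ℝ))
      (Measure.dirac (per i0 N k j)) := fun j =>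
    integrable_dirac' hm.stronglyMeasurable (by simp)
  refine ⟨?_, ?_⟩
  · exact (integrable_finsetSum_measure.2 fun j _ => hi j).smul_measure
      (ENNReal.inv_ne_top.2 hN)
  · rw [perLaw, integral_smul_measure, integral_finsetSum_measure fun j _ => hi j,
      sum_congr rfl fun j _ => integral_dirac' _ _ hm.stronglyMeasurable, sum_eq_single 0]
    · simp [per, div_eq_inv_mul]
    · intro j _ hj; simp [per, hj]
    · simp

lemma stab_zero (τ : Stack d) : Stabilizes τ (fun _ => 0) := by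
  intro x
  refine ⟨0, fun s hs => ?_⟩
  rcases Relation.ReflTransGen.cases_head hs with h | ⟨c, ⟨y, -, ⟨k, hk⟩, -⟩, -⟩
  · rw [← h]; simp [visits]
  · simp at hk

lemma threshold_nonneg (hd : 1 ≤ d) {lam a : ℝ} (hl : 0 < lam) (ha : IsThreshold d lam a) :
    0 ≤ a := by
  by_contra hneg
  have := stackLaw_prob hd hl
  obtain ⟨h1, h2⟩ := perLaw_int (d := d) ⟨0, hd⟩ 1 0
  have h3 := (ha _ (perLaw_erg ⟨0, hd⟩ 1 0) h1).2 (by rw [h2]; simpa using hneg)
  have e : perLaw (d := d) ⟨0, hd⟩ 1 0 = Measure.dirac (fun _ => 0) := by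
    have : ∀ j, per (d := d) ⟨0, hd⟩ 1 0 j = fun _ => 0 := fun j => by funext x; simp [per]
    simp [perLaw, this]
  rw [e, Measure.dirac_prod] at h3
  obtain ⟨τ, hτ⟩ := (ae_of_ae_map measurable_prodMk_left.aemeasurable h3).exists
  exact hτ (stab_zero τ)

lemma threshold_le (hd : 1 ≤ d) {lam a b : ℝ} (hl : 0 < lam) (ha : IsThreshold d lam a)
    (hb : IsThreshold d lam b) : b ≤ a := by
  by_contra hlt
  push Not at hlt
  have h0 := threshold_nonneg hd hl ha
  obtain ⟨q, hq1, hq2⟩ := exists_rat_btwn hlt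
  have hq0 : 0 ≤ q := by exact_mod_cast h0.trans hq1.le
  have : NeZero q.den := ⟨q.den_nz⟩
  have := stackLaw_prob hd hl
  obtain ⟨h1, h2⟩ := perLaw_int (d := d) ⟨0, hd⟩ q.den q.num.toNat
  have hE := perLaw_erg (d := d) ⟨0, hd⟩ q.den q.num.toNat
  have := hE.1
  have e : ((q.num.toNat : ℕ) : ℝ) / q.den = q := by
    rw [Rat.cast_def]
    congr 1
    have : ((q.num.toNat : ℕ) : ℤ) = q.num := Int.toNat_of_nonneg (Rat.num_nonneg.2 hq0)
    exact_mod_cast this
  rw [e] at h2
  have h3 := (ha _ hE h1).2 (by rw [h2]; exact hq1)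
  have h4 := (hb _ hE h1).1 (by rw [h2]; exact hq2)
  obtain ⟨p, hp1, hp2⟩ := (h3.and h4).exists
  exact hp1 hp2

theorem threshold_unique (hd : 1 ≤ d) {lam a b : ℝ} (hl : 0 < lam) (ha : IsThreshold d lam a)
    (hb : IsThreshold d lam b) : a = b :=
  le_antisymm (threshold_le hd hl hb ha) (threshold_le hd hl ha hb)

end Pool.Agent.ARW
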