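import Pool.Agent.P.MP_3af8b7_pr.Hockey
import Pool.Agent.P.MP_3af8b7_pr.Fix
import Pool.Agent.P.MP_3af8b7_pr.NoFix
import Pool.Agent.P.MP_3af8b7_pr.Uniq

open Classical Filter Topology Pool.Agent.ARW

namespace Pool.Agent.P.MP_3af8b7_pr.HockeyStackOld

theorem result (d : ℕ) (hd : 1 ≤ d) (lam : ℝ) (hlam : 0 < lam) :
    (∃! ζc : ℝ, IsThreshold d lam ζc) ∧
    (∀ L k : ℕ, 1 ≤ L → ∑ w ∈ (box d L).powerset, chain lam (box d L) k w = 1) ∧
    ∀ ζc : ℝ, IsThreshold d lam ζc → ∀ t : ℝ, 0 ≤ t → ∀ ε : ℝ, 0 < ε →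
      Tendsto (fun L : ℕ => ∑ w ∈ (box d L).powerset.filter (fun w =>
        |(w.card : ℝ) / (L : ℝ) ^ d - min t ζc| < ε),
        chain lam (box d L) ⌊t * (L : ℝ) ^ d⌋₊ w) atTop (𝓝 1) := by
  have h : IsThreshold d lam (rho d (lam / (1 + lam))) :=
    fun _ hμ hint => ⟨fixation hd hlam hμ hint, nonfixation hd hlam hμ hint⟩
  refine ⟨⟨_, h, fun _ h' => threshold_unique hd hlam h' h⟩, fun L k hL => ?_,
    fun ζc hζ t ht ε hε => ?_⟩
  · have : Nonempty (box d L) := (hk_box_nonempty hL).to_subtype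
    have h1 := chain_eq hd hlam (box d L) (hk_box_nonempty hL) (fun _ => 1)
      (fun _ => zero_le_one) k
    have e2 : Fv (QV (box d L)) (fun _ => lam / (1 + lam)) Set.univ (fun _ => 1) = fun _ => 1 :=
      funext fun s => Fv_const (hk_ok _ hlam) (QV_sto hd _) (QV_tr hd _) zero_le_one s
    rw [e2, hk_avg_const] at h1
    simpa using h1
  · rw [threshold_unique hd hlam hζ h]
    exact hockey hd hlam ht hε

end Pool.Agent.P.MP_3af8b7_pr.HockeyStackOld
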