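import Pool.Agent.P.MP_3af8b7_pr.Defs2

open Classical Finset MeasureTheory Filter Topology

namespace Pool.Agent.ARW

variable {α : Type*} [Fintype α] {Q : α → Option α → ℝ}

/-- Maximum principle, column form. -/
theorem max_col (h0 : ∀ x z, 0 ≤ Q x z) (hs : Sub Q) (ht : Tr Q) (P : Set α) (g : α → ℝ)
    (hin : ∀ x ∈ P, g x ≤ ∑ y, Q x (some y) * g y) (hout : ∀ x ∉ P, g x ≤ 0) : ∀ x, g x ≤ 0 := by
  obtain ⟨τ, hτ0, hτ⟩ := ht
  have h1 : ∀ x, 1 ≤ τ x := fun x => by
    have := sum_nonneg (s := univ) fun y _ => mul_nonneg (h0 x (some y)) (hτ0 y)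
    linarith [hτ x]
  intro x
  obtain ⟨x0, -, hx0⟩ := exists_max_image univ (fun y => g y / τ y) ⟨x, mem_univ x⟩
  have hpos : ∀ y, 0 < τ y := fun y => lt_of_lt_of_le one_pos (h1 y)
  have hle : ∀ y, g y ≤ g x0 / τ x0 * τ y := fun y => (div_le_iff₀ (hpos y)).mp (hx0 y (mem_univ y))
  by_contra hc
  have hl : 0 < g x0 / τ x0 := (div_pos (not_le.mp hc) (hpos x)).trans_le (hx0 x (mem_univ x))
  have hg : g x0 = g x0 / τ x0 * τ x0 := (div_mul_cancel₀ _ (hpos x0).ne').symm
  by_cases hP : x0 ∈ P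
  · have h2 : ∑ y, Q x0 (some y) * g y ≤ g x0 / τ x0 * ∑ y, Q x0 (some y) * τ y := by
      rw [mul_sum]
      refine sum_le_sum fun y _ => ?_
      rw [mul_left_comm]
      exact mul_le_mul_of_nonneg_left (hle y) (h0 _ _)
    have h3 := mul_le_mul_of_nonneg_left (hτ x0) hl.le
    have h4 := hin x0 hP
    rw [mul_sub, ← hg] at h3
    linarith
  · have := mul_pos hl (hpos x0)
    linarith [hout x0 hP]

/-- Maximum principle, row form. -/
theorem max_row (h0 : ∀ x z, 0 ≤ Q x z) (ht : Tr Q) (P : Set α) (m : α → ℝ)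
    (hin : ∀ x ∈ P, 0 ≤ drift Q m (some x)) (hout : ∀ x ∉ P, m x = 0) : ∀ x, 0 ≤ m x := by
  obtain ⟨τ, hτ0, hτ⟩ := ht
  have hn : ∀ x, 0 ≤ max (-m x) 0 := fun x => le_max_right _ _
  have h1 : ∀ x, max (-m x) 0 ≤ ∑ s, max (-m s) 0 * Q s (some x) := by
    intro x
    have h2 : 0 ≤ ∑ s, max (-m s) 0 * Q s (some x) :=
      sum_nonneg fun s _ => mul_nonneg (hn s) (h0 _ _)
    refine max_le ?_ h2
    by_cases hP : x ∈ P
    · have h3 := hin x hP
      simp only [drift, Option.elim_some] at h3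
      have h4 : -∑ s, m s * Q s (some x) ≤ ∑ s, max (-m s) 0 * Q s (some x) := by
        rw [← sum_neg_distrib]
        refine sum_le_sum fun s _ => ?_
        rw [← neg_mul]
        exact mul_le_mul_of_nonneg_right (le_max_left _ _) (h0 _ _)
      linarith
    · rw [hout x hP, neg_zero]
      exact h2
  have h2 : ∑ x, max (-m x) 0 * τ x ≤ ∑ s, max (-m s) 0 * (τ s - 1) :=
    calc ∑ x, max (-m x) 0 * τ x ≤ ∑ x, (∑ s, max (-m s) 0 * Q s (some x)) * τ x :=
          sum_le_sum fun x _ => mul_le_mul_of_nonneg_right (h1 x) (hτ0 x)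
      _ = ∑ s, max (-m s) 0 * ∑ x, Q s (some x) * τ x := by
          simp only [sum_mul, mul_sum, mul_assoc]
          exact sum_comm
      _ ≤ _ := sum_le_sum fun s _ => mul_le_mul_of_nonneg_left (hτ s) (hn s)
  simp only [mul_sub, mul_one, sum_sub_distrib] at h2
  intro x
  have h3 := single_le_sum (f := fun s => max (-m s) 0) (fun s _ => hn s) (mem_univ x)
  have h4 := le_max_left (-m x) 0
  linarith

/-- Solving `Γ = c + Q Γ`. -/
theorem exists_col (h0 : ∀ x z, 0 ≤ Q x z) (hs : Sub Q) (ht : Tr Q) (c : α → ℝ) :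
    ∃ Γ : α → ℝ, ∀ x, Γ x = c x + ∑ y, Q x (some y) * Γ y := by
  let L : (α → ℝ) →ₗ[ℝ] (α → ℝ) :=
    { toFun := fun g x => g x - ∑ y, Q x (some y) * g y
      map_add' := fun g g' => by
        ext x
        simp only [Pi.add_apply, mul_add, sum_add_distrib]
        ring
      map_smul' := fun r g => by
        ext x
        simp only [Pi.smul_apply, smul_eq_mul, RingHom.id_apply, mul_sub, mul_sum, mul_left_comm] }
  have key : ∀ g, L g = 0 → ∀ x, g x ≤ 0 := fun g hg =>
    max_col h0 hs ht Set.univ g (fun x _ => (sub_eq_zero.mp (congrFun hg x)).le)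
      fun x hx => absurd (Set.mem_univ x) hx
  have hinj : Function.Injective L := by
    rw [injective_iff_map_eq_zero]
    intro g hg
    ext x
    have h1 := key (-g) (by rw [map_neg, hg, neg_zero]) x
    exact le_antisymm (key g hg x) (neg_nonpos.mp h1)
  obtain ⟨Γ, hΓ⟩ := LinearMap.injective_iff_surjective.mp hinj c
  exact ⟨Γ, fun x => sub_eq_iff_eq_add.mp (congrFun hΓ x)⟩

/-- Hitting distribution of the complement of `P`, with its occupation measure. -/
theorem exists_hit (h0 : ∀ x z, 0 ≤ Q x z) (ht : Tr Q) (P : Set α) (x : α) :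
    ∃ o : α → ℝ, (∀ s, 0 ≤ o s) ∧ (∀ s ∉ P, o s = 0) ∧
      (∀ z, 0 ≤ (if z = some x then 1 else 0) - drift Q o z) ∧
      ∀ s ∈ P, (if s = x then (1 : ℝ) else 0) - drift Q o (some s) = 0 := by
  let L : (α → ℝ) →ₗ[ℝ] (α → ℝ) :=
    { toFun := fun o s => if s ∈ P then drift Q o (some s) else o s
      map_add' := fun o o' => by
        ext s
        simp only [drift, Option.elim_some, Pi.add_apply, add_mul, sum_add_distrib]
        split_ifs <;> ring
      map_smul' := fun r o => by
        ext s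
        simp only [drift, Option.elim_some, Pi.smul_apply, smul_eq_mul, RingHom.id_apply]
        split_ifs
        · simp only [mul_sub, mul_sum, mul_assoc]
        · rfl }
  have hL : ∀ o s, L o s = if s ∈ P then drift Q o (some s) else o s := fun _ _ => rfl
  have key : ∀ o, (∀ s ∈ P, 0 ≤ L o s) → (∀ s ∉ P, L o s = 0) → ∀ s, 0 ≤ o s := fun o h1 h2 =>
    max_row h0 ht P o (fun s hs => by simpa only [hL, if_pos hs] using h1 s hs)
      fun s hs => by simpa only [hL, if_neg hs] using h2 s hs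
  have hinj : Function.Injective L := by
    rw [injective_iff_map_eq_zero]
    intro o ho
    ext s
    have h1 := key o (by simp [ho]) (by simp [ho]) s
    have h2 := key (-o) (by simp [ho]) (by simp [ho]) s
    exact le_antisymm (neg_nonneg.mp h2) h1
  obtain ⟨o, ho⟩ := LinearMap.injective_iff_surjective.mp hinj
    fun s => if s ∈ P then (if s = x then 1 else 0) else 0
  have ho0 : ∀ s, 0 ≤ o s := key o (fun s hs => by
    rw [ho]
    simp only [if_pos hs]
    split_ifs <;> norm_num) fun s hs => by rw [ho]; simp only [if_neg hs]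
  have hout : ∀ s ∉ P, o s = 0 := fun s hs => by
    simpa only [hL, if_neg hs] using congrFun ho s
  have hin : ∀ s ∈ P, (if s = x then (1 : ℝ) else 0) - drift Q o (some s) = 0 := fun s hs => by
    have := congrFun ho s
    simp only [hL, if_pos hs] at this
    rw [this, sub_self]
  refine ⟨o, ho0, hout, fun z => ?_, hin⟩
  have hs : 0 ≤ ∑ s, o s * Q s z := sum_nonneg fun s _ => mul_nonneg (ho0 s) (h0 _ _)
  rcases z with _ | s
  · simpa [drift] using hs
  · by_cases hP : s ∈ P
    · simpa only [Option.some.injEq] using (hin s hP).ge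
    · simp only [drift, Option.elim_some, hout s hP]
      split_ifs <;> linarith

/-- Potentials for costs paid when the level increases. -/
theorem exists_gamma {ι : Type*} (h0 : ∀ x z, 0 ≤ Q x z) (hs : Sto Q) (ht : Tr Q) (lev : α → ℕ)
    (K : ℕ) (hlev : ∀ y x, lev x < lev y → Q y (some x) = 0) (hK : ∀ y, lev y ≤ K + 1)
    (I : Finset ι) (c : ι → α → ℝ) (hc : ∀ i y, 0 ≤ c i y) (C : ℝ) (hC : 0 ≤ C)
    (htop : ∀ i y, K < lev y → c i y = 0)
    (hcost : ∀ y, lev y ≤ K →
      ∑ i ∈ I, c i y ≤ C * (1 - ∑ x ∈ univ.filter (fun x => lev x = lev y), Q y (some x))) :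
    ∃ Γ : ι → α → ℝ, (∀ i y, 0 ≤ Γ i y) ∧
      (∀ i y, ∑ x, Q y (some x) * Γ i x + c i y ≤ Γ i y) ∧ ∀ y, ∑ i ∈ I, Γ i y ≤ C * (K + 1) := by
  have hsub : Sub Q := fun x => (hs x).le
  choose Γ hΓ using fun i => exists_col h0 hsub ht (c i)
  refine ⟨Γ, fun i y => ?_, fun i y => by linarith [hΓ i y], fun y => ?_⟩
  · refine neg_nonpos.mp (max_col h0 hsub ht Set.univ (fun y => -Γ i y) (fun x _ => ?_)
      (fun x hx => absurd (Set.mem_univ x) hx) y)
    simp only [mul_neg, sum_neg_distrib]
    linarith [hΓ i x, hc i x]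
  · have h1 := max_col h0 hsub ht Set.univ (fun y => ∑ i ∈ I, Γ i y - C * (K + 1 - lev y))
      (fun x _ => ?_) (fun x hx => absurd (Set.mem_univ x) hx) y
    · have : 0 ≤ C * lev y := by positivity
      linarith
    have h2 : ∑ i ∈ I, Γ i x = ∑ i ∈ I, c i x + ∑ y, Q x (some y) * ∑ i ∈ I, Γ i y := by
      simp only [mul_sum]
      rw [sum_comm, ← sum_add_distrib]
      exact sum_congr rfl fun i _ => hΓ i x
    have h3 : ∑ y, Q x (some y) * (∑ i ∈ I, Γ i y - C * (K + 1 - lev y)) =
        ∑ y, Q x (some y) * ∑ i ∈ I, Γ i y - C * ∑ y, Q x (some y) * (K + 1 - lev y) := by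
      rw [mul_sum, ← sum_sub_distrib]
      exact sum_congr rfl fun y _ => by ring
    rw [h3, h2]
    suffices h : ∑ i ∈ I, c i x ≤ C * (K + 1 - lev x - ∑ y, Q x (some y) * (K + 1 - lev y)) by
      linarith
    by_cases hx : lev x ≤ K
    · refine (hcost x hx).trans (mul_le_mul_of_nonneg_left ?_ hC)
      have h4 : ∑ y, Q x (some y) ≤ 1 := by
        have := hs x
        rw [Fintype.sum_option] at this
        linarith [h0 x none]
      have h5 : (0 : ℝ) ≤ K - lev x := by
        have : (lev x : ℝ) ≤ K := by exact_mod_cast hx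
        linarith
      have h6 : ∑ y, Q x (some y) * (K + 1 - lev y) ≤ (K - lev x) * ∑ y, Q x (some y) +
          ∑ y ∈ univ.filter (fun y => lev y = lev x), Q x (some y) := by
        rw [sum_filter, mul_sum, ← sum_add_distrib]
        refine sum_le_sum fun y _ => ?_
        rcases lt_trichotomy (lev y) (lev x) with h | h | h
        · simp [hlev x y h]
        · rw [if_pos h, h]
          linarith
        · rw [if_neg h.ne']
          have : (lev x : ℝ) + 1 ≤ lev y := by exact_mod_cast h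
          nlinarith [h0 x (some y)]
      nlinarith
    · have h4 : lev x = K + 1 := by have := hK x; omega
      have h5 : ∑ y, Q x (some y) * (K + 1 - lev y) = 0 := by
        refine sum_eq_zero fun y _ => ?_
        rcases (hK y).lt_or_eq with h | h
        · rw [hlev x y (by omega), zero_mul]
        · simp [h]
      rw [sum_eq_zero fun i _ => htop i x (by omega), h5, h4]
      simp

end Pool.Agent.ARW
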