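import Pool.Agent.P.MP_3af8b7_pr.Path

open Classical Finset MeasureTheory Filter Topology

namespace Pool.Agent.ARW

variable {d : ℕ}

theorem instrLaw_prob (hd : 1 ≤ d) {lam : ℝ} (hl : 0 < lam) :
    IsProbabilityMeasure (instrLaw d lam) := by
  have hd' : (0 : ℝ) < d := by exact_mod_cast hd
  constructor
  simp only [instrLaw, Measure.coe_finsetSum, Finset.sum_apply, Measure.smul_apply, measure_univ,
    smul_eq_mul, mul_one]
  rw [← ENNReal.ofReal_sum_of_nonneg fun i _ => by split_ifs <;> positivity, ← ENNReal.ofReal_one,
    Fintype.sum_prod_type, Fintype.sum_bool]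
  congr 1
  simp only [if_true, Bool.false_eq_true, if_false, sum_const, card_univ, Fintype.card_prod,
    Fintype.card_fin, Fintype.card_bool, nsmul_eq_mul]
  push_cast
  field_simp
  ring

theorem stackLaw_prob (hd : 1 ≤ d) {lam : ℝ} (hl : 0 < lam) :
    IsProbabilityMeasure (stackLaw d lam) := by
  have := instrLaw_prob hd hl
  unfold stackLaw
  infer_instance

/-- The discrete sigma-algebra on the contents of a site. -/
@[reducible] def meas_loc : MeasurableSpace Loc := ⊤

attribute [local instance] meas_loc

theorem meas_any {β : Type*} [MeasurableSpace β] (f : Loc → β) : Measurable f :=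
  measurable_from_top

theorem meas_topple (x : Site d) :
    Measurable fun q : Stack d × State d => topple Set.univ q.1 x q.2 := by
  have h1 : Measurable fun q : Stack d × ℕ => q.1 (x, q.2) :=
    measurable_from_prod_countable_left fun n => measurable_pi_apply (x, n)
  have h2 : Measurable fun q : Stack d × State d => q.1 (x, q.2.2 x) :=
    h1.comp (measurable_fst.prodMk ((measurable_pi_apply x).comp measurable_snd.snd))
  have h3 : Measurable fun q : (Site d → Loc) × Instr d =>
      if q.2.1 then Function.update q.1 x (slp (q.1 x)) else
        Function.update (Function.update q.1 x (rem (q.1 x))) (nbr x q.2.2)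
          (add (q.1 (nbr x q.2.2))) := by
    refine measurable_from_prod_countable_left fun i => ?_
    dsimp only
    split_ifs
    · exact measurable_update'.comp
        (measurable_id.prodMk ((meas_any slp).comp (measurable_pi_apply x)))
    · exact measurable_update'.comp ((measurable_update'.comp
        (measurable_id.prodMk ((meas_any rem).comp (measurable_pi_apply x)))).prodMk
        ((meas_any add).comp (measurable_pi_apply _)))
  simp only [topple, Set.mem_univ, if_true]
  exact (h3.comp (measurable_snd.fst.prodMk h2)).prodMk (measurable_update'.comp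
    (measurable_snd.snd.prodMk (((measurable_pi_apply x).comp measurable_snd.snd).add_const 1)))

/-- All legal continuations along the list satisfy the bound at the end. -/
def meas_ok (W : Set (Site d)) (x : Site d) (K : ℕ) (τ : Stack d) : List (Site d) → State d → Prop
  | [], s => jumps τ s.2 x ≤ K
  | y :: l, s => y ∈ W → Act (s.1 y) → meas_ok W x K τ l (topple Set.univ τ y s)

theorem meas_ok_iff (W : Set (Site d)) (x : Site d) (K : ℕ) (τ : Stack d) (s : State d) :
    (∀ s', ReachIn W Set.univ τ s s' → jumps τ s'.2 x ≤ K) ↔ ∀ l, meas_ok W x K τ l s := by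
  constructor
  · intro h l
    induction l generalizing s with
    | nil => exact h s Relation.ReflTransGen.refl
    | cons y l ih =>
      exact fun a b => ih _ fun s' hs => h s' (Relation.ReflTransGen.head ⟨y, a, b, rfl⟩ hs)
  · intro h s' hs
    induction hs using Relation.ReflTransGen.head_induction_on with
    | refl => exact h []
    | head a _ ih =>
      obtain ⟨y, a1, a2, rfl⟩ := a
      exact ih fun l => h (y :: l) a1 a2

theorem meas_ok_meas (W : Set (Site d)) (x : Site d) (K : ℕ) (l : List (Site d)) :
    Measurable fun q : Stack d × State d => meas_ok W x K q.1 l q.2 := by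
  induction l with
  | nil =>
    have h1 : Measurable fun q : Stack d × ℕ => jumps q.1 (fun _ => q.2) x := by
      refine measurable_from_prod_countable_left fun n => ?_
      simp only [jumps, card_filter]
      refine Finset.measurable_sum _ fun m _ => Measurable.ite ?_ measurable_const measurable_const
      exact (measurable_pi_apply (x, m)).fst (measurableSet_singleton false)
    exact (Measurable.of_discrete (f := fun n : ℕ => n ≤ K)).comp
      (h1.comp (measurable_fst.prodMk ((measurable_pi_apply x).comp measurable_snd.snd)))
  | cons y l ih =>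
    exact measurable_const.imp (((meas_any Act).comp ((measurable_pi_apply y).comp
      measurable_snd.fst)).imp (ih.comp (measurable_fst.prodMk (meas_topple y))))

theorem measurableSet_bnd (W : Set (Site d)) (x : Site d) (K : ℕ) :
    MeasurableSet {p : (Site d → ℕ) × Stack d | Bnd p.2 p.1 W x K} := by
  simp only [Bnd, meas_ok_iff]
  refine measurableSet_setOfPred.2 (Measurable.forall fun l => ?_)
  have h : Measurable fun p : (Site d → ℕ) × Stack d =>
      (p.2, ((fun y => some (p.1 y), fun _ => 0) : State d)) :=
    measurable_snd.prodMk ((measurable_pi_lambda _ fun y => (Measurable.of_discrete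
      (f := (some : ℕ → Loc))).comp ((measurable_pi_apply y).comp measurable_fst)).prodMk
      measurable_const)
  exact (meas_ok_meas W x K l).comp h

theorem measurableSet_stabilizes :
    MeasurableSet {p : (Site d → ℕ) × Stack d | Stabilizes p.2 p.1} := by
  simp only [stabilizes_iff]
  exact measurableSet_setOfPred.2 (Measurable.forall fun x => Measurable.exists fun K =>
    measurableSet_setOfPred.1 (measurableSet_bnd _ x K))

/-- Joint translation of the configuration and the stacks. -/
def jshift (v : Site d) (p : (Site d → ℕ) × Stack d) : (Site d → ℕ) × Stack d :=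
  (shift v p.1, fun c => p.2 (c.1 + v, c.2))

theorem jshift_preserving (hd : 1 ≤ d) {lam : ℝ} (hl : 0 < lam) {μ : Measure (Site d → ℕ)}
    (hμ : StatErg μ) (v : Site d) :
    MeasurePreserving (jshift v) (μ.prod (stackLaw d lam)) (μ.prod (stackLaw d lam)) := by
  have := instrLaw_prob hd hl
  have := stackLaw_prob hd hl
  have := hμ.1
  let e : Site d × ℕ ≃ Site d × ℕ := ((Equiv.addRight v).prodCongr (Equiv.refl ℕ)).symm
  have h := Measure.infinitePi_map_piCongrLeft (fun _ : Site d × ℕ => instrLaw d lam) e
  have h2 : MeasurePreserving (fun (τ : Stack d) (c : Site d × ℕ) => τ (c.1 + v, c.2))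
      (stackLaw d lam) (stackLaw d lam) := by
    refine ⟨measurable_pi_lambda _ fun c => measurable_pi_apply _, ?_⟩
    refine Eq.trans ?_ h
    congr 1
    funext τ c
    simp [MeasurableEquiv.piCongrLeft, Equiv.piCongrLeft_apply_eq_cast, e]
    rfl
  exact (hμ.2.1 v).prod h2

theorem meas_ok_shift (v : Site d) (W : Set (Site d)) (x : Site d) (K : ℕ) (τ : Stack d)
    (l : List (Site d)) (s : State d) :
    meas_ok W x K (fun c => τ (c.1 + v, c.2)) l (fun y => s.1 (y + v), fun y => s.2 (y + v)) ↔
      meas_ok {y | y - v ∈ W} (x + v) K τ (l.map (· + v)) s := by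
  induction l generalizing s with
  | nil => rfl
  | cons y l ih =>
    have up : ∀ {β : Type} (f : Site d → β) (z : Site d) (b : β),
        Function.update (fun y => f (y + v)) z b = fun y => Function.update f (z + v) b (y + v) :=
      fun f z b => (Function.update_comp_eq_of_injective f (add_left_injective v) z b).symm
    have nb : ∀ j, nbr (y + v) j = nbr y j + v := fun j => add_right_comm _ _ _
    simp only [meas_ok, List.map_cons, Set.mem_ofPred_eq, add_sub_cancel_right, ← ih]
    refine imp_congr_right fun _ => imp_congr_right fun _ => iff_of_eq ?_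
    congr 1
    simp only [topple, Set.mem_univ, if_true, up, nb]
    split_ifs <;> rfl

theorem bnd_jshift (v : Site d) (p : (Site d → ℕ) × Stack d) (W : Set (Site d)) (x : Site d)
    (K : ℕ) : Bnd (jshift v p).2 (jshift v p).1 W x K
      ↔ Bnd p.2 p.1 {y | y - v ∈ W} (x + v) K := by
  simp only [Bnd, meas_ok_iff]
  have key := fun l => meas_ok_shift v W x K p.2 l (fun y => some (p.1 y), fun _ => 0)
  refine ⟨fun h l => ?_, fun h l => (key l).2 (h _)⟩
  have := (key (l.map (· - v))).1 (h _)
  simpa [List.map_map, Function.comp_def] using this

theorem stabilizes_jshift (v : Site d) (p : (Site d → ℕ) × Stack d) :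
    Stabilizes (jshift v p).2 (jshift v p).1 ↔ Stabilizes p.2 p.1 := by
  simp only [stabilizes_iff, bnd_jshift, Set.mem_univ, Set.ofPred_true]
  exact ⟨fun h x => by simpa using h (x - v), fun h x => h _⟩

end Pool.Agent.ARW
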