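import Pool.Agent.P.MP_3af8b7_pr.Defs2

open Classical Finset MeasureTheory Filter Topology

namespace Pool.Agent.ARW

variable {d : ℕ}

lemma path_nbr_ne (x : Site d) (j : Fin d × Bool) : nbr x j ≠ x := by
  intro h
  have := congrFun h j.1
  simp only [nbr, Pi.add_apply, Pi.single_eq_same, add_eq_left] at this
  split_ifs at this <;> simp at this

lemma path_fst (D : Set (Site d)) (τ : Stack d) (x : Site d) (s : State d) (y : Site d) :
    (topple D τ x s).1 y =
      if y = x then (if (τ (x, s.2 x)).1 then slp (s.1 y) else rem (s.1 y))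
      else if (τ (x, s.2 x)).1 = false ∧ y = nbr x (τ (x, s.2 x)).2 ∧ y ∈ D then add (s.1 y)
      else s.1 y := by
  have hn := path_nbr_ne x (τ (x, s.2 x)).2
  unfold topple
  by_cases h1 : (τ (x, s.2 x)).1 = true
  · by_cases h : y = x
    · subst h
      simp [h1]
    · simp [h1, h]
  · by_cases h : y = x
    · subst h
      by_cases h2 : nbr y (τ (y, s.2 y)).2 ∈ D <;> simp [h1, h2, hn.symm]
    · by_cases h3 : y = nbr x (τ (x, s.2 x)).2
      · subst h3
        by_cases h2 : nbr x (τ (x, s.2 x)).2 ∈ D <;> simp [h1, h2, h]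
      · by_cases h2 : nbr x (τ (x, s.2 x)).2 ∈ D <;> simp [h1, h2, h, h3]

lemma path_snd (D : Set (Site d)) (τ : Stack d) (x : Site d) (s : State d) (y : Site d) :
    (topple D τ x s).2 y = if y = x then s.2 y + 1 else s.2 y := by
  unfold topple
  by_cases h : y = x
  · subst h
    simp
  · simp [h]

lemma path_act (D : Set (Site d)) (τ : Stack d) {x y : Site d} {s : State d} (h : y ≠ x)
    (hy : Act (s.1 y)) : Act ((topple D τ x s).1 y) := by
  rw [path_fst, if_neg h]
  split_ifs
  · exact act_add _
  · exact hy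

lemma path_comm (D : Set (Site d)) (τ : Stack d) {x y : Site d} {s : State d} (h : x ≠ y)
    (hx : Act (s.1 x)) (hy : Act (s.1 y)) :
    topple D τ x (topple D τ y s) = topple D τ y (topple D τ x s) := by
  refine Prod.ext (funext fun u => ?_) (funext fun u => ?_)
  · simp only [path_fst, path_snd, if_neg h, if_neg h.symm]
    by_cases h1 : u = x
    · subst h1
      simp only [if_true, if_neg h]
      split_ifs <;> simp only [hx.slp_add, hx.add_slp, hx.rem_add_comm]
    by_cases h2 : u = y
    · subst h2
      simp only [if_true, if_neg h1]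
      split_ifs <;> simp only [hy.slp_add, hy.add_slp, hy.rem_add_comm]
    simp only [if_neg h1, if_neg h2]
    split_ifs <;> rfl
  · simp only [path_snd]
    split_ifs <;> rfl

/-- `n` legal topplings in `V` with deletion outside `V` -/
inductive PathSteps (V : Set (Site d)) (τ : Stack d) : ℕ → State d → State d → Prop
  | refl (s : State d) : PathSteps V τ 0 s s
  | step {n : ℕ} {s f : State d} (x : Site d) : x ∈ V → Act (s.1 x) →
      PathSteps V τ n (topple V τ x s) f → PathSteps V τ (n + 1) s f

lemma path_diamond {V : Set (Site d)} {τ : Stack d} {n : ℕ} {s f : State d}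
    (h : PathSteps V τ n s f) (hf : ∀ x ∈ V, ¬ Act (f.1 x)) {x : Site d} (hx : x ∈ V)
    (ha : Act (s.1 x)) : ∃ m, n = m + 1 ∧ PathSteps V τ m (topple V τ x s) f := by
  induction h with
  | refl s => exact absurd ha (hf x hx)
  | @step n s f y hy hay hs ih =>
    refine ⟨n, rfl, ?_⟩
    by_cases e : x = y
    · subst e
      exact hs
    obtain ⟨m, rfl, hm⟩ := ih hf (path_act _ _ e ha)
    rw [path_comm _ _ e ha hay] at hm
    exact PathSteps.step y hy (path_act _ _ (Ne.symm e) hay) hm

lemma path_le {V : Set (Site d)} {τ : Stack d} {n : ℕ} {s f : State d}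
    (h : PathSteps V τ n s f) (x : Site d) : s.2 x ≤ f.2 x := by
  induction h with
  | refl s => exact le_rfl
  | step y _ _ _ ih =>
    rw [path_snd] at ih
    split_ifs at ih <;> omega

lemma path_run (V : Finset (Site d)) (τ : Stack d) (n : ℕ) (s : State d) :
    ∃ k, PathSteps V τ k s (run V τ n s) := by
  induction n generalizing s with
  | zero => exact ⟨0, PathSteps.refl s⟩
  | succ n ih =>
    simp only [run]
    split_ifs with h
    · obtain ⟨k, hk⟩ := ih (topple V τ (h.choose : V) s)
      exact ⟨k + 1, PathSteps.step _ h.choose.2 h.choose_spec hk⟩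
    · exact ⟨0, PathSteps.refl s⟩

lemma path_run_eq {V : Finset (Site d)} {τ : Stack d} {n : ℕ} {s f : State d}
    (h : PathSteps V τ n s f) (hf : ∀ x ∈ V, ¬ Act (f.1 x)) : run V τ n s = f := by
  induction n generalizing s with
  | zero =>
    cases h
    rfl
  | succ n ih =>
    have e : ∃ x : V, Act (s.1 x) := by
      cases h with
      | step x hx ha _ => exact ⟨⟨x, hx⟩, ha⟩
    obtain ⟨m, hm, h'⟩ := path_diamond h hf e.choose.2 e.choose_spec
    obtain rfl : n = m := by omega
    simp only [run, dif_pos e]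
    exact ih h'

lemma path_reach {V : Set (Site d)} {τ : Stack d} {s f : State d} :
    Reach V τ s f ↔ ∃ n, PathSteps V τ n s f := by
  constructor
  · intro h
    induction h using Relation.ReflTransGen.head_induction_on with
    | refl => exact ⟨0, PathSteps.refl _⟩
    | head h _ ih =>
      obtain ⟨x, hx, ha, rfl⟩ := h
      obtain ⟨n, hn⟩ := ih
      exact ⟨n + 1, PathSteps.step x hx ha hn⟩
  · rintro ⟨n, h⟩
    induction h with
    | refl s => exact Relation.ReflTransGen.refl
    | step x hx ha _ ih => exact Relation.ReflTransGen.head ⟨x, hx, ha, rfl⟩ ih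

/-- Least action principle for the deterministic procedure: if it has stabilized `V` after `n`
steps, it dominates every legal toppling sequence inside `V` started from the same configuration
on `V` (with or without deletion outside `V`). -/
theorem run_dominates (V : Finset (Site d)) (τ : Stack d) (n : ℕ) (s : State d)
    (hst : ∀ x ∈ V, ¬ Act ((run V τ n s).1 x)) (W D : Set (Site d)) (hW : W ⊆ V) (hD : (V : Set (Site d)) ⊆ D)
    (t t' : State d) (ht : ∀ x ∈ V, t.1 x = s.1 x ∧ t.2 x = s.2 x) (h : ReachIn W D τ t t') :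
    ∀ x ∈ V, t'.2 x ≤ (run V τ n s).2 x := by
  have hs := path_run V τ n s
  generalize run V τ n s = f at hst hs
  induction h using Relation.ReflTransGen.head_induction_on generalizing s with
  | refl =>
    obtain ⟨k, hk⟩ := hs
    exact fun x hx => (ht x hx).2 ▸ path_le hk x
  | head h _ ih =>
    obtain ⟨y, hy, ha, rfl⟩ := h
    obtain ⟨k, hk⟩ := hs
    have hyV : y ∈ V := hW hy
    obtain ⟨m, -, hm⟩ := path_diamond hk hst (hW hy) ((ht y hyV).1 ▸ ha)
    refine ih (topple V τ y s) (fun x hx => ⟨?_, ?_⟩) ⟨m, hm⟩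
    · simp only [path_fst, (ht y hyV).2, (ht x hx).1, hD hx, mem_coe.2 hx]
    · simp only [path_snd, (ht x hx).2]

/-- The wired stabilization is computed by the deterministic procedure. -/
theorem reach_iff_run (V : Finset (Site d)) (τ : Stack d) (s : State d) (σ : Site d → Loc)
    (hσ : ∀ x ∈ V, ¬ Act (σ x)) :
    (∃ h, Reach (V : Set (Site d)) τ s (σ, h)) ↔ ∃ n, (run V τ n s).1 = σ := by
  constructor
  · rintro ⟨h, hr⟩
    obtain ⟨n, hn⟩ := path_reach.1 hr
    exact ⟨n, by rw [path_run_eq hn hσ]⟩
  · rintro ⟨n, rfl⟩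
    exact ⟨(run V τ n s).2, path_reach.2 (path_run V τ n s)⟩

theorem run_stable (V : Finset (Site d)) (τ : Stack d) {n m : ℕ} (hnm : n ≤ m) (s : State d)
    (hst : ∀ x ∈ V, ¬ Act ((run V τ n s).1 x)) : run V τ m s = run V τ n s := by
  induction n generalizing s m with
  | zero =>
    cases m with
    | zero => rfl
    | succ m => exact dif_neg fun ⟨x, hx⟩ => hst x x.2 hx
  | succ n ih =>
    obtain ⟨m, rfl⟩ : ∃ k, m = k + 1 := ⟨m - 1, by omega⟩
    simp only [run] at hst ⊢
    split_ifs at hst ⊢ with h
    · exact ih (by omega) _ hst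
    · rfl

theorem run_outside (V : Finset (Site d)) (τ : Stack d) (n : ℕ) (s : State d) (x : Site d)
    (hx : x ∉ V) : (run V τ n s).1 x = s.1 x := by
  induction n generalizing s with
  | zero => rfl
  | succ n ih =>
    simp only [run]
    split_ifs with h
    · rw [ih, path_fst, if_neg (fun e : x = (h.choose : V) => hx (e ▸ h.choose.2)),
        if_neg fun e => hx e.2.2]
    · rfl

/-- the order on contents: empty, sleeping, one active, two active, and so on -/
def pathCode : Loc → ℕ
  | none => 1
  | some 0 => 0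
  | some (k + 1) => k + 2

lemma path_code_act {a b : Loc} (h : pathCode a ≤ pathCode b) (ha : Act a) : Act b := by
  obtain ⟨k, rfl⟩ := ha
  rcases b with _ | _ | b <;> simp [pathCode, Act] at h ⊢

lemma path_code_add {a b : Loc} (h : pathCode a ≤ pathCode b) :
    pathCode (add a) ≤ pathCode (add b) := by
  rcases a with _ | _ | a <;> rcases b with _ | _ | b <;> simp [pathCode, add] at h ⊢ <;> omega

lemma path_code_slp {a b : Loc} (h : pathCode a ≤ pathCode b) :
    pathCode (slp a) ≤ pathCode (slp b) := by
  rcases a with _ | _ | _ | a <;> rcases b with _ | _ | _ | b <;>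
    simp [pathCode, slp] at h ⊢ <;> omega

lemma path_code_rem {a b : Loc} (h : pathCode a ≤ pathCode b) (ha : Act a) :
    pathCode (rem a) ≤ pathCode (rem b) := by
  obtain ⟨k, rfl⟩ := ha
  rcases k with _ | k <;> rcases b with _ | _ | _ | b <;> simp [pathCode, rem] at h ⊢ <;> omega

lemma path_sim (V : Finset (Site d)) (τ : Stack d) (n : ℕ) (s t : State d)
    (h1 : ∀ y ∈ V, pathCode (s.1 y) ≤ pathCode (t.1 y)) (h2 : t.2 = s.2) :
    ∃ t', ReachIn Set.univ Set.univ τ t t' ∧ t'.2 = (run V τ n s).2 := by
  induction n generalizing s t with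
  | zero => exact ⟨t, Relation.ReflTransGen.refl, h2⟩
  | succ n ih =>
    simp only [run]
    split_ifs with h
    swap
    · exact ⟨t, Relation.ReflTransGen.refl, h2⟩
    have ha := h.choose_spec
    generalize h.choose = x at ha
    have k : ∀ y ∈ V, pathCode ((topple V τ x s).1 y) ≤
        pathCode ((topple Set.univ τ x t).1 y) := by
      intro y hy
      simp only [path_fst, h2, mem_coe.2 hy, Set.mem_univ]
      split_ifs with e1 e2 e3
      · exact path_code_slp (h1 y hy)
      · exact path_code_rem (h1 y hy) (e1 ▸ ha)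
      · exact path_code_add (h1 y hy)
      · exact h1 y hy
    obtain ⟨t', r, e⟩ := ih (topple V τ x s) (topple Set.univ τ x t) k
      (funext fun y => by simp only [path_snd, h2])
    exact ⟨t', Relation.ReflTransGen.head
      ⟨x, Set.mem_univ _, path_code_act (h1 x x.2) ha, rfl⟩ r, e⟩

/-- The procedure for a smaller configuration is a legal sequence for a larger one. -/
theorem run_jumps_le (V : Finset (Site d)) (τ : Stack d) (n : ℕ) (η η' : Site d → ℕ)
    (h : ∀ y ∈ V, η y ≤ η' y) (x : Site d) (K : ℕ) (hK : Bnd τ η' Set.univ x K) :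
    jumps τ (run V τ n (fun y => some (η y), fun _ => 0)).2 x ≤ K := by
  have k : ∀ y ∈ V, pathCode (some (η y)) ≤ pathCode (some (η' y)) := by
    intro y hy
    have := h y hy
    generalize η y = a at this
    generalize η' y = b at this
    rcases a with _ | a <;> rcases b with _ | b <;> simp [pathCode] at this ⊢
    exact this
  obtain ⟨t', r, e⟩ := path_sim V τ n (fun y => some (η y), fun _ => 0)
    (fun y => some (η' y), fun _ => 0) k rfl
  exact e ▸ hK t' r

lemma path_jumps (D : Set (Site d)) (τ : Stack d) (x : Site d) (s : State d) (y : Site d) :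
    jumps τ (topple D τ x s).2 y =
      jumps τ s.2 y + if y = x ∧ (τ (x, s.2 x)).1 = false then 1 else 0 := by
  unfold jumps
  rw [path_snd]
  by_cases h : y = x
  · subst h
    rw [if_pos rfl, range_add_one, filter_insert]
    split_ifs with h1 h2 h2
    · exact card_insert_of_notMem (by simp)
    · exact absurd ⟨rfl, h1⟩ h2
    · exact absurd h2.2 h1
    · rfl
  · simp [h]

lemma path_loss (V : Finset (Site d)) (τ : Stack d) {x : Site d} (hx : x ∈ V) (s : State d)
    (ha : Act (s.1 x)) :
    ∑ y ∈ V, cnt (s.1 y) + ∑ y ∈ bdry V, jumps τ s.2 y ≤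
      ∑ y ∈ V, cnt ((topple V τ x s).1 y) + ∑ y ∈ bdry V, jumps τ (topple V τ x s).2 y := by
  simp only [path_jumps, sum_add_distrib]
  by_cases h1 : (τ (x, s.2 x)).1 = true
  · have : ∀ y, cnt ((topple V τ x s).1 y) = cnt (s.1 y) := by
      intro y
      rw [path_fst]
      by_cases e : y = x <;> simp [e, h1, cnt_slp]
    simp only [this]
    omega
  have h1' : (τ (x, s.2 x)).1 = false := by simpa using h1
  have hn := path_nbr_ne x (τ (x, s.2 x)).2
  have key : ∑ y ∈ V, (cnt ((topple V τ x s).1 y) + if y = x then 1 else 0) =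
      ∑ y ∈ V, (cnt (s.1 y) + if y = nbr x (τ (x, s.2 x)).2 then 1 else 0) := by
    refine sum_congr rfl fun y hy => ?_
    rw [path_fst]
    by_cases e : y = x
    · subst e
      simp [h1', hn.symm, ha.cnt_rem]
    · by_cases e' : y = nbr x (τ (x, s.2 x)).2
      · rw [if_neg e, if_pos ⟨h1', e', hy⟩, if_neg e, if_pos e', cnt_add]
      · simp [e, e']
  simp only [sum_add_distrib, sum_ite_eq', if_pos hx] at key
  simp only [h1', and_true, sum_ite_eq']
  by_cases h2 : nbr x (τ (x, s.2 x)).2 ∈ V
  · rw [if_pos h2] at key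
    omega
  · rw [if_neg h2] at key
    rw [if_pos (show x ∈ bdry V from mem_filter.2 ⟨hx, _, h2⟩)]
    omega

/-- Particles are lost only by jumps from the boundary. -/
theorem run_loss (V : Finset (Site d)) (τ : Stack d) (n : ℕ) (σ : Site d → Loc) :
    ∑ y ∈ V, cnt (σ y) ≤ ∑ y ∈ V, cnt ((run V τ n (σ, fun _ => 0)).1 y)
      + ∑ x ∈ bdry V, jumps τ (run V τ n (σ, fun _ => 0)).2 x := by
  have key : ∀ s : State d, ∑ y ∈ V, cnt (s.1 y) + ∑ y ∈ bdry V, jumps τ s.2 y ≤
      ∑ y ∈ V, cnt ((run V τ n s).1 y) + ∑ y ∈ bdry V, jumps τ (run V τ n s).2 y := by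
    induction n with
    | zero => exact fun s => le_rfl
    | succ n ih =>
      intro s
      simp only [run]
      split_ifs with h
      · exact (path_loss V τ h.choose.2 s h.choose_spec).trans (ih _)
      · exact le_rfl
  exact (Nat.le_add_right _ _).trans (key (σ, fun _ => 0))

theorem jumps_mono (τ : Stack d) {h h' : Site d → ℕ} {x : Site d} (hx : h x ≤ h' x) :
    jumps τ h x ≤ jumps τ h' x :=
  card_le_card (filter_subset_filter _ (range_subset_range.2 hx))

theorem stabilizes_iff (τ : Stack d) (η : Site d → ℕ) :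
    Stabilizes τ η ↔ ∀ x, ∃ K, Bnd τ η Set.univ x K := by
  constructor
  · intro h x
    choose K hK using h
    refine ⟨∑ j, K (nbr x j), fun s hs => ?_⟩
    calc jumps τ s.2 x
        ≤ ∑ j : Fin d × Bool, ((range (s.2 x)).filter fun m => τ (x, m) = (false, j)).card := by
          refine (card_le_card fun m hm => ?_).trans card_biUnion_le
          simp only [mem_filter, mem_biUnion, mem_univ, true_and] at hm ⊢
          exact ⟨(τ (x, m)).2, hm.1, Prod.ext hm.2 rfl⟩
      _ ≤ _ := by
          refine sum_le_sum fun j _ => le_trans ?_ (hK (nbr x j) s hs)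
          have e : nbr x j - nbr 0 j = x := by simp [nbr]
          have := single_le_sum (f := fun i : Fin d × Bool =>
            ((range (s.2 (nbr x j - nbr 0 i))).filter
              fun m => τ (nbr x j - nbr 0 i, m) = (false, i)).card)
            (fun _ _ => Nat.zero_le _) (mem_univ j)
          simp only [e] at this
          exact this
  · intro h x
    choose K hK using h
    refine ⟨∑ j, K (x - nbr 0 j), fun s hs => sum_le_sum fun j _ =>
      le_trans (card_le_card fun m hm => ?_) (hK _ s hs)⟩
    simp only [mem_filter] at hm ⊢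
    exact ⟨hm.1, by rw [hm.2]⟩

theorem bnd_univ_iff (τ : Stack d) (η : Site d → ℕ) (x : Site d) (K : ℕ) :
    Bnd τ η Set.univ x K ↔ ∀ R : ℕ, Bnd τ η {y | near R x y} x K := by
  have mono : ∀ {W W' : Set (Site d)} {s s' : State d}, W ⊆ W' → ReachIn W Set.univ τ s s' →
      ReachIn W' Set.univ τ s s' := fun hW h =>
    Relation.ReflTransGen.mono (fun _ _ k => k.imp fun _ r => ⟨hW r.1, r.2⟩) _ _ h
  refine ⟨fun h R s hs => h s (mono (Set.subset_univ _) hs), fun h s hs => ?_⟩
  have nm : ∀ {R R' : ℕ}, R ≤ R' → {y | near R x y} ⊆ {y | near R' x y} :=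
    fun hR y hy i => (hy i).trans (by exact_mod_cast hR)
  suffices ∃ R : ℕ, ReachIn {y | near R x y} Set.univ τ (fun y => some (η y), fun _ => 0) s from
    this.elim fun R hR => h R s hR
  induction hs with
  | refl => exact ⟨0, Relation.ReflTransGen.refl⟩
  | tail _ hb ih =>
    obtain ⟨R, hR⟩ := ih
    obtain ⟨y, -, r⟩ := hb
    refine ⟨R + ∑ i, (x i - y i).natAbs, Relation.ReflTransGen.tail
      (mono (nm (Nat.le_add_right _ _)) hR) ⟨y, nm (Nat.le_add_left _ _) fun i => ?_, r⟩⟩
    rw [← Int.natCast_natAbs]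
    exact_mod_cast single_le_sum (f := fun i => (x i - y i).natAbs) (fun _ _ => Nat.zero_le _)
      (mem_univ i)

end Pool.Agent.ARW
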