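import Pool.Agent.P.MP_3af8b7_pr.Lin

open Classical Finset MeasureTheory Filter Topology

namespace Pool.Agent.ARW

variable {α : Type*} [Fintype α] {Q : α → Option α → ℝ} {a : α → ℝ} {φ : ℕ → ℝ}

theorem Fv_le_test (hok : Ok Q a) (hs : Sub Q) (hφ : Test φ) (S : Set α) (σ : α → Loc) :
    Fv Q a S (fun s => φ (tot s)) σ ≤ φ (tot σ) :=
  Fv_le_of_super hok hs (fun _ => True) (fun s => φ (tot s)) (fun _ _ => hφ.2 _)
    (fun _ _ _ => le_rfl)
    (fun s _ ⟨x, hx⟩ => Or.inr ⟨x, hx, ⟨Or.inr trivial, fun _ => Or.inr trivial⟩,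
      (Top_mono hok x (Ψ := fun _ => φ (tot s)) (Or.inr (hφ.1 (tot_slpAt s x).le))
        fun z => Or.inr (hφ.1 (tot_jmp_le hx.2 z))).trans (Top_const_le hok hs x (hφ.2 _) s)⟩)
    σ trivial

omit [Fintype α] in
lemma skip_slp_cases {s : α → Loc} {x : α} (h : ¬ ∃ y, y ≠ x ∧ Act (s y)) :
    slpAt s x = s ∨ ¬ ∃ y, Unst Set.univ (slpAt s x) y := by
  by_cases h1 : s x = some 1
  · refine Or.inr fun ⟨y, hy⟩ => ?_
    have h2 := hy.2
    rw [slpAt_apply] at h2
    split_ifs at h2 with h3
    · rw [h3, h1] at h2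
      exact h2.ne_none rfl
    · exact h ⟨y, h3, h2⟩
  · refine Or.inl (funext fun y => ?_)
    rw [slpAt_apply]
    split_ifs with h3
    · rw [h3]
      generalize s x = t at h1
      rcases t with _ | _ | _ | k <;> simp_all [slp]
    · rfl

/-- Forcing a particle to sleep increases the value. -/
lemma skip_slp_ge (hok : Ok Q a) (hs : Sub Q) (hφ : Test φ) {σ : α → Loc} {x : α}
    (hx : Act (σ x)) : Fv Q a Set.univ (fun s => φ (tot s)) σ
      ≤ Fv Q a Set.univ (fun s => φ (tot s)) (slpAt σ x) := by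
  refine Fv_le_of_super hok hs (fun s => Act (s x))
    (fun s => Fv Q a Set.univ (fun s => φ (tot s)) (slpAt s x))
    (fun s _ => Fv_nonneg hok hs (fun _ => hφ.2 _) _)
    (fun s h1 h2 => absurd ⟨x, trivial, h1⟩ h2) (fun s h1 _ => ?_) σ hx
  by_cases h : ∃ y, y ≠ x ∧ Act (s y)
  · obtain ⟨y, hy, h2⟩ := h
    have ux : Unst Set.univ s x := ⟨trivial, h1⟩
    have uy : Unst Set.univ s y := ⟨trivial, h2⟩
    refine Or.inr ⟨y, uy, ⟨Or.inr (ux.slpAt hy.symm).2, fun z => Or.inr (ux.jmp hy.symm z).2⟩, ?_⟩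
    rw [Fv_eq_Top hok hs (fun _ => hφ.2 _) (uy.slpAt hy)]
    unfold Top
    simp only [slpAt_comm s hy, slpAt_jmp hy.symm h1, le_refl]
  · rcases skip_slp_cases h with h2 | h2
    · exact Or.inl (by rw [h2])
    · refine Or.inl ?_
      rw [Fv_stable h2, tot_slpAt]
      exact Fv_le_test hok hs hφ _ s

omit [Fintype α] in
lemma skip_act_put (σ : α → Loc) (x : α) : Act (put σ (some x) x) := by
  rw [put_apply, if_pos rfl]
  exact act_add _

omit [Fintype α] in
lemma skip_jmp_put {σ : α → Loc} {x : α} (hx : σ x ≠ none) (z : Option α) :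
    jmp (put σ (some x)) x z = put σ z := by
  unfold jmp
  congr 1
  simp [put, rem_add hx]

/-- Forcing a particle to jump decreases the value. -/
theorem Fv_jump_le (hok : Ok Q a) (hs : Sub Q) (hφ : Test φ) {σ : α → Loc} {x : α}
    (hx : σ x ≠ none) :
    ∑ z, Q x z * Fv Q a Set.univ (fun s => φ (tot s)) (put σ z)
      ≤ Fv Q a Set.univ (fun s => φ (tot s)) (put σ (some x)) := by
  have h1 := Fv_eq_Top (S := Set.univ) (ψ := fun s => φ (tot s)) hok hs (fun _ => hφ.2 _)
    ⟨trivial, skip_act_put σ x⟩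
  have h2 := mul_le_mul_of_nonneg_left (skip_slp_ge hok hs hφ (skip_act_put σ x)) (hok.2 x).1
  unfold Top at h1
  simp only [skip_jmp_put hx] at h1
  exact le_of_mul_le_mul_left (by linarith) (sub_pos.2 (hok.2 x).2)

/-- The skip lemma. -/
theorem Fv_skip_le (hok : Ok Q a) (hs : Sub Q) (hφ : Test φ) (y x : α) {ε : ℝ} (h0 : 0 ≤ ε)
    (h1 : ε ≤ Q y (some x)) {σ : α → Loc} (hσ : σ x ≠ none) (n : ℕ) :
    Fn (skip Q y x ε) a Set.univ (fun s => φ (tot s)) n σ
      ≤ Fv Q a Set.univ (fun s => φ (tot s)) σ := by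
  have hok' : Ok (skip Q y x ε) a := ⟨fun u z => by
    have := mul_nonneg h0 (hok.1 x z)
    have := hok.1 y z
    unfold skip
    split_ifs with h2 h3
    · subst h3
      linarith
    · linarith
    · exact hok.1 u z, hok.2⟩
  refine Fn_le_of_super hok' (fun s => s x ≠ none ∨ ¬ ∃ u, Unst Set.univ s u) _
    (fun s _ => Fv_nonneg hok hs (fun _ => hφ.2 _) _) (fun s _ h => (Fv_stable h).ge)
    (fun s h2 h3 => Or.inr ?_) n σ (Or.inl hσ)
  have h4 : s x ≠ none := h2.resolve_right (not_not.2 h3)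
  have h5 : ∀ u, Act (s u) → Function.update s u (rem (s u)) x ≠ none := fun u hu => by
    by_cases h : x = u
    · rw [h, Function.update_self]
      exact hu.rem_ne_none
    · rwa [Function.update_of_ne h]
  have key : ∀ u, Unst Set.univ s u →
      (∀ z, skip Q y x ε u z = 0 ∨ jmp s u z x ≠ none ∨ ¬ ∃ v, Unst Set.univ (jmp s u z) v) ∧
      Top (skip Q y x ε) a u (Fv Q a Set.univ fun s => φ (tot s)) s
        ≤ Fv Q a Set.univ (fun s => φ (tot s)) s := fun u hu => by
    refine ⟨fun z => Or.inr (Or.inl ?_), ?_⟩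
    · rw [jmp, put_apply]
      split_ifs
      · exact add_ne_none _
      · exact h5 u hu.2
    · rw [Fv_eq_Top hok hs (fun _ => hφ.2 _) hu]
      unfold Top
      refine add_le_add le_rfl (mul_le_mul_of_nonneg_left ?_ (sub_pos.2 (hok.2 u).2).le)
      by_cases h : u = y
      · have h6 := mul_le_mul_of_nonneg_left (Fv_jump_le hok hs hφ (h5 u hu.2)) h0
        subst h
        simp only [skip, if_true, add_mul, sub_mul, Finset.sum_add_distrib, Finset.sum_sub_distrib,
          ite_mul, zero_mul, Finset.sum_ite_eq', Finset.mem_univ, mul_assoc, ← Finset.mul_sum, jmp]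
        linarith
      · simp only [skip, if_neg h, le_refl]
  by_cases h : ∃ u, u ≠ x ∧ Act (s u)
  · obtain ⟨u, hu, h6⟩ := h
    refine ⟨u, ⟨trivial, h6⟩, ⟨Or.inr (Or.inl ?_), (key u ⟨trivial, h6⟩).1⟩, (key u ⟨trivial, h6⟩).2⟩
    rwa [slpAt_apply, if_neg hu.symm]
  · obtain ⟨u, hu⟩ := h3
    obtain rfl : u = x := by_contra fun e => h ⟨u, e, hu.2⟩
    refine ⟨u, hu, ⟨Or.inr ?_, (key u hu).1⟩, (key u hu).2⟩
    exact (skip_slp_cases h).imp (fun e => by rwa [e]) id

theorem Fn_continuous (a : α → ℝ) (S : Set α) (ψ : (α → Loc) → ℝ) (n : ℕ) (σ : α → Loc) :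
    Continuous fun Q : α → Option α → ℝ => Fn Q a S ψ n σ := by
  induction n generalizing σ with
  | zero => exact continuous_const
  | succ n ih =>
    by_cases h : ∃ x, Unst S σ x
    · obtain ⟨x, hx⟩ := h
      simp only [Fn_succ n hx, Top]
      exact (continuous_const.mul (ih _)).add (continuous_const.mul
        (continuous_finsetSum _ fun z _ => (continuous_apply_apply x z).mul (ih _)))
    · simp only [Fn_stable _ h]
      exact continuous_const

lemma skip_split (hs : Sto Q) (x : α) (f : Option α → ℝ) :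
    ∑ z, Q x z * f z = f none + ∑ y, Q x (some y) * (f (some y) - f none) := by
  have := hs x
  rw [Fintype.sum_option] at this ⊢
  simp only [mul_sub, Finset.sum_sub_distrib, ← Finset.sum_mul]
  linear_combination f none * this

/-- More active particles at the start, more particles at the end. -/
theorem Fv_put_ge (hok : Ok Q a) (hs : Sto Q) (ht : Tr Q) (hφ : Test φ) {σ : α → Loc}
    (hσ : AllAct σ) (z : Option α) :
    Fv Q a Set.univ (fun s => φ (tot s)) σ ≤ Fv Q a Set.univ (fun s => φ (tot s)) (put σ z) := by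
  rcases z with _ | z
  · exact le_rfl
  refine sub_nonpos.1 (max_col hok.1 hs.sub ht Set.univ (fun x =>
    Fv Q a Set.univ (fun s => φ (tot s)) σ - Fv Q a Set.univ (fun s => φ (tot s)) (put σ (some x)))
    (fun x _ => ?_) (fun x hx => absurd trivial hx) z)
  have h1 := Fv_jump_le hok hs.sub hφ (hσ x)
  rw [skip_split hs] at h1
  simp only [mul_sub, Finset.sum_sub_distrib, put] at h1 ⊢
  linarith

lemma skip_put_le (hok : Ok Q a) (hs : Sto Q) (ht : Tr Q) {ψ : (α → Loc) → ℝ} (hψ : ∀ s, 0 ≤ ψ s)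
    {σ : α → Loc} (hσ : ∀ x, Act (σ x)) (z : α) :
    Fv Q a Set.univ ψ (put σ (some z)) ≤ Fv Q a Set.univ ψ σ := by
  refine sub_nonpos.1 (max_col hok.1 hs.sub ht Set.univ (fun x =>
    Fv Q a Set.univ ψ (put σ (some x)) - Fv Q a Set.univ ψ σ)
    (fun x _ => ?_) (fun x hx => absurd trivial hx) z)
  have h1 := Fv_eq_Top (S := Set.univ) hok hs.sub hψ ⟨trivial, skip_act_put σ x⟩
  have h2 : slpAt (put σ (some x)) x = put σ (some x) := by
    simp [slpAt, put, (hσ x).slp_add]
  unfold Top at h1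
  simp only [skip_jmp_put (hσ x).ne_none, h2] at h1
  rw [skip_split hs] at h1
  refine le_of_mul_le_mul_left ?_ (sub_pos.2 (hok.2 x).2)
  simp only [put] at h1 ⊢
  linarith

lemma skip_strip (P : (α → Loc) → Prop) (h1 : P (full α))
    (h2 : ∀ σ x, (∀ y, Act (σ y)) → P σ → P (put σ (some x))) (σ : α → Loc)
    (hσ : ∀ y, Act (σ y)) : P σ := by
  induction hn : tot σ using Nat.strong_induction_on generalizing σ with
  | _ n ih =>
    by_cases h : σ = full α
    · rwa [h]
    obtain ⟨x, hx⟩ := Function.ne_iff.1 h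
    obtain ⟨_ | k, hk⟩ := hσ x
    · exact absurd hk hx
    have e : put (Function.update σ x (some (k + 1))) (some x) = σ := by
      simp [put, add, ← hk]
    have e2 : ∀ y, Act (Function.update σ x (some (k + 1)) y) := fun y => by
      by_cases h3 : y = x
      · rw [h3, Function.update_self]
        exact ⟨k, rfl⟩
      · rw [Function.update_of_ne h3]
        exact hσ y
    rw [← e] at hn ⊢
    refine h2 _ x e2 (ih _ ?_ _ e2 rfl)
    rw [← hn, tot_put]
    simp

lemma skip_holes {σ : α → Loc} {x : α} (hx : σ x = some 0) :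
    holes (put σ (some x)) + 1 = holes σ := by
  unfold holes
  rw [← card_erase_add_one (s := univ.filter fun x => σ x = some 0) (a := x) (by simp [hx])]
  congr 2
  ext y
  by_cases h : y = x
  · simp [h, put, hx, add]
  · simp [h, put]

lemma skip_fill (P : (α → Loc) → Prop) (h1 : ∀ σ, (∀ y, Act (σ y)) → P σ)
    (h2 : ∀ σ x, AllAct σ → σ x = some 0 → P (put σ (some x)) → P σ) (σ : α → Loc)
    (hσ : AllAct σ) : P σ := by
  induction hn : holes σ using Nat.strong_induction_on generalizing σ with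
  | _ n ih =>
    by_cases h : ∀ y, Act (σ y)
    · exact h1 σ h
    obtain ⟨x, hx⟩ := not_forall.1 h
    have hx0 := (not_act_iff.1 hx).resolve_left (hσ x)
    refine h2 σ x hσ hx0 (ih _ (by rw [← hn, ← skip_holes hx0]; omega) _ (fun y => ?_) rfl)
    rw [put_apply]
    split_ifs
    · exact add_ne_none _
    · exact hσ y

/-- Exact sampling, one-sided form. -/
theorem Fv_le_full (hok : Ok Q a) (hs : Sto Q) (ht : Tr Q) (hφ : Test φ) {σ : α → Loc}
    (hσ : AllAct σ) :
    Fv Q a Set.univ (fun s => φ (tot s)) σ ≤ Fv Q a Set.univ (fun s => φ (tot s)) (full α) :=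
  skip_fill (fun σ => Fv Q a Set.univ (fun s => φ (tot s)) σ ≤
      Fv Q a Set.univ (fun s => φ (tot s)) (full α))
    (skip_strip _ le_rfl fun _ x h1 h2 => (skip_put_le hok hs ht (fun _ => hφ.2 _) h1 x).trans h2)
    (fun _ _ h1 _ h2 => (Fv_put_ge hok hs ht hφ h1 _).trans h2) σ hσ

lemma skip_test : Test fun n : ℕ => (n : ℝ) := ⟨Nat.mono_cast, Nat.cast_nonneg⟩

/-- The order on local states: empty, asleep, one active, two active, and so on. -/
def skipCode : Loc → ℕ
  | none => 1
  | some 0 => 0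
  | some (k + 1) => k + 2

lemma skip_code {s t : Loc} (h : skipCode s ≤ skipCode t) :
    skipCode (add s) ≤ skipCode (add t) ∧ (Act s → Act t ∧ skipCode (rem s) ≤ skipCode (rem t) ∧
      skipCode (slp s) ≤ skipCode (slp t)) := by
  rcases s with _ | _ | _ | k <;> rcases t with _ | _ | _ | l <;>
    simp [skipCode, add, rem, slp, Act] at h ⊢ <;> omega

lemma skip_loss (hok : Ok Q a) (hs : Sto Q) (ht : Tr Q) {σ σ' : α → Loc}
    (h : ∀ x, skipCode (σ x) ≤ skipCode (σ' x)) :
    totR σ - Fv Q a Set.univ totR σ ≤ totR σ' - Fv Q a Set.univ totR σ' := by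
  set D : (α → Loc) → ℝ := fun s => totR s - Fv Q a Set.univ totR s with hD
  have D0 : ∀ s, 0 ≤ D s := fun s => sub_nonneg.2 (Fv_le_test hok hs.sub skip_test _ s)
  have t0 : ∀ s : α → Loc, 0 ≤ totR s := fun s => Nat.cast_nonneg _
  set m : (α → Loc) → ℝ := fun s => sInf (D '' {t | ∀ x, skipCode (s x) ≤ skipCode (t x)}) with hm
  have m1 : ∀ s t, (∀ x, skipCode (s x) ≤ skipCode (t x)) → m s ≤ D t := fun s t h =>
    csInf_le ⟨0, by rintro _ ⟨u, -, rfl⟩; exact D0 u⟩ ⟨t, h, rfl⟩
  have m2 : ∀ s c, (∀ t, (∀ x, skipCode (s x) ≤ skipCode (t x)) → c ≤ D t) → c ≤ m s :=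
    fun s c h => le_csInf ⟨_, s, fun _ => le_rfl, rfl⟩ (by rintro _ ⟨u, hu, rfl⟩; exact h u hu)
  have tsub : ∀ (f : (α → Loc) → ℝ) (s : α → Loc) (x : α), Act (s x) →
      Top Q a x (fun u => totR u - f u) s = totR s - (1 - a x) * Q x none - Top Q a x f s := by
    intro f s x hx
    have e : ∀ z, totR (jmp s x z) = totR s - if z = none then 1 else 0 := fun z => by
      have : (tot (jmp s x z) : ℝ) + 1 = tot s + ((if z = none then 0 else 1 : ℕ) : ℝ) := by
        exact_mod_cast tot_jmp hx z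
      unfold totR
      split_ifs at this ⊢ <;> push_cast at this <;> linarith
    have e' : totR (slpAt s x) = totR s := congrArg Nat.cast (tot_slpAt s x)
    unfold Top
    simp only [e, e', mul_sub, Finset.sum_sub_distrib, ← Finset.sum_mul, hs x, mul_ite, mul_one,
      mul_zero, Finset.sum_ite_eq', Finset.mem_univ, if_true]
    ring
  have key := le_Fv_of_sub (S := Set.univ) hok hs.sub ht t0 (fun _ => True)
    (fun s => totR s - m s) (fun s _ _ => sub_le_self _ (m2 s 0 fun t _ => D0 t))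
    (fun s _ ⟨x, hx⟩ => Or.inr ⟨x, hx, ⟨Or.inr trivial, fun _ => Or.inr trivial⟩, by
      have : (1 - a x) * Q x none + Top Q a x m s ≤ m s := m2 s _ fun t ht => by
        have h1 := (skip_code (ht x)).2 hx.2
        have h2 : Top Q a x m s ≤ Top Q a x D t := by
          unfold Top
          refine add_le_add (mul_le_mul_of_nonneg_left (m1 _ _ fun y => ?_) (hok.2 x).1)
            (mul_le_mul_of_nonneg_left (Finset.sum_le_sum fun z _ => mul_le_mul_of_nonneg_left
              (m1 _ _ fun y => ?_) (hok.1 x z)) (sub_pos.2 (hok.2 x).2).le)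
          · rw [slpAt_apply, slpAt_apply]
            split_ifs with h3
            · exact h3 ▸ h1.2.2
            · exact ht y
          · have h4 : skipCode (if y = x then rem (s y) else s y) ≤
                skipCode (if y = x then rem (t y) else t y) := by
              split_ifs with h3
              · exact h3 ▸ h1.2.1
              · exact ht y
            rw [jmp_apply, jmp_apply]
            by_cases h5 : z = some y
            · rw [if_pos h5, if_pos h5]
              exact (skip_code h4).1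
            · rwa [if_neg h5, if_neg h5]
        rw [hD, tsub _ t x h1.1, ← Fv_eq_Top (S := Set.univ) hok hs.sub t0 ⟨trivial, h1.1⟩] at h2
        simp only [hD]
        linarith
      rw [tsub m s x hx.2]
      linarith⟩) σ trivial
  have := m1 σ σ' h
  simp only [hD] at this ⊢
  linarith

theorem Fv_full_sub_holes (hok : Ok Q a) (hs : Sto Q) (ht : Tr Q) {σ : α → Loc}
    (hσ : AllAct σ) :
    Fv Q a Set.univ totR (full α) - holes σ ≤ Fv Q a Set.univ totR σ := by
  refine skip_fill (fun σ => Fv Q a Set.univ totR (full α) - holes σ ≤ Fv Q a Set.univ totR σ)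
    (fun σ h => (sub_le_self _ (Nat.cast_nonneg _)).trans (skip_strip
      (fun σ => Fv Q a Set.univ totR (full α) ≤ Fv Q a Set.univ totR σ) le_rfl
      (fun σ x h1 h2 => h2.trans (Fv_put_ge hok hs ht skip_test (fun y => (h1 y).ne_none) _)) σ h))
    (fun σ x _ h1 h2 => ?_) σ hσ
  have h3 := skip_loss hok hs ht (σ := σ) (σ' := put σ (some x)) fun y => by
    rw [put_apply]
    split_ifs with h
    · rw [← Option.some.inj h, h1]
      exact Nat.zero_le _
    · exact le_rfl
  have h4 : totR (put σ (some x)) = totR σ + 1 := by simp [totR, tot_put]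
  rw [← skip_holes h1]
  push_cast
  linarith

lemma skip_tot_le {s : α → Loc} (h : ¬ ∃ x, Unst Set.univ s x) : tot s ≤ Fintype.card α := by
  have := Finset.sum_le_sum fun x (_ : x ∈ univ) =>
    cnt_le_one_of_not_act (s := s x) fun hx => h ⟨x, trivial, hx⟩
  simpa [tot] using this

lemma skip_convex {c : ℝ} (hc : 1 ≤ c) {n N : ℕ} (h : n ≤ N) :
    N * (c ^ n - 1) ≤ n * (c ^ N - 1) := by
  have key : ∀ k ≤ n, c ^ k - 1 ≤ k * (c ^ n * (c - 1)) := fun k hk => by
    induction k with
    | zero => simp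
    | succ k ih =>
      have h1 := ih (by omega)
      have h2 := mul_le_mul_of_nonneg_right (pow_le_pow_right₀ hc (show k ≤ n by omega))
        (sub_nonneg.2 hc)
      rw [pow_succ]
      push_cast
      linarith
  induction N, h using Nat.le_induction with
  | base => exact le_rfl
  | succ N hN ih =>
    have h1 := key n le_rfl
    have h2 := mul_le_mul_of_nonneg_left (mul_le_mul_of_nonneg_right (pow_le_pow_right₀ hc hN)
      (sub_nonneg.2 hc)) (Nat.cast_nonneg (α := ℝ) n)
    rw [pow_succ]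
    push_cast
    linarith

theorem Fv_pow_le (hok : Ok Q a) (hs : Sto Q) (ht : Tr Q) {c : ℝ} (hc : 1 ≤ c) {σ : α → Loc}
    (hσ : AllAct σ) :
    Fv Q a Set.univ (fun s => c ^ tot s) σ ≤ 1 + Fv Q a Set.univ totR (full α) / Fintype.card α
      * (c ^ Fintype.card α - 1) := by
  have t0 : ∀ s : α → Loc, 0 ≤ totR s := fun s => Nat.cast_nonneg _
  have k0 : 0 ≤ (c ^ Fintype.card α - 1) / Fintype.card α :=
    div_nonneg (sub_nonneg.2 (one_le_pow₀ hc)) (Nat.cast_nonneg _)
  have h1 := Fv_le_full hok hs ht (φ := fun n => c ^ n)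
    ⟨fun _ _ h => pow_le_pow_right₀ hc h, fun n => by positivity⟩ hσ
  have h2 := Fv_mono (S := Set.univ) (ψ := fun s => c ^ tot s) hok hs.sub
    (ψ' := fun s => 1 + (c ^ Fintype.card α - 1) / Fintype.card α * totR s)
    (fun s => add_nonneg zero_le_one (mul_nonneg k0 (t0 s))) (fun s h => by
      have e := skip_tot_le h
      rcases Nat.eq_zero_or_pos (Fintype.card α) with h0 | h0
      · rw [show tot s = 0 by omega, pow_zero]
        exact le_add_of_nonneg_right (mul_nonneg k0 (t0 s))
      · rw [div_mul_eq_mul_div, ← sub_le_iff_le_add', le_div_iff₀ (by exact_mod_cast h0)]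
        unfold totR
        linarith [skip_convex hc e]) (full α)
  rw [Fv_add hok hs.sub (fun _ => zero_le_one) fun s => mul_nonneg k0 (t0 s),
    Fv_mul hok hs.sub t0 k0, Fv_const hok hs ht zero_le_one] at h2
  refine (h1.trans h2).trans (le_of_eq ?_)
  ring

theorem Fv_totR_le_card (hok : Ok Q a) (hs : Sub Q) (σ : α → Loc) :
    Fv Q a Set.univ totR σ ≤ Fintype.card α :=
  (Fv_mono hok hs (ψ' := fun _ => (Fintype.card α : ℝ)) (fun _ => Nat.cast_nonneg _)
    (fun _ h => Nat.cast_le.2 (skip_tot_le h)) σ).trans (Fv_const_le hok hs (Nat.cast_nonneg _) σ)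

end Pool.Agent.ARW
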