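import Pool.Agent.P.MP_3af8b7_pr.FV

open Classical Finset MeasureTheory Filter Topology

namespace Pool.Agent.ARW

section abstract
variable {α : Type*} [Fintype α]

omit [Fintype α] in
theorem tails_allAct_put {σ : α → Loc} (h : AllAct σ) (z : Option α) : AllAct (put σ z) := by
  intro x
  rw [put_apply]
  split_ifs
  · exact add_ne_none _
  · exact h x

theorem tails_avg_mono {G G' : (α → Loc) → ℝ} (k : ℕ) : ∀ σ : α → Loc, AllAct σ →
    (∀ s, AllAct s → tot s = tot σ + k → G s ≤ G' s) → avg G k σ ≤ avg G' k σ := by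
  induction k with
  | zero => intro σ h1 h2; exact h2 σ h1 rfl
  | succ k ih =>
    intro σ h1 h2
    simp only [avg]
    refine div_le_div_of_nonneg_right (sum_le_sum fun v _ => ?_) (Nat.cast_nonneg _)
    refine ih _ (tails_allAct_put h1 _) fun s h3 h4 => h2 s h3 ?_
    rw [h4, tot_put]
    simp
    ring

theorem tails_avg_add (G G' : (α → Loc) → ℝ) (k : ℕ) : ∀ σ : α → Loc,
    avg (fun s => G s + G' s) k σ = avg G k σ + avg G' k σ := by
  induction k with
  | zero => intro σ; rfl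
  | succ k ih => intro σ; simp only [avg, ih, sum_add_distrib, add_div]

theorem tails_avg_mul (c : ℝ) (G : (α → Loc) → ℝ) (k : ℕ) : ∀ σ : α → Loc,
    avg (fun s => c * G s) k σ = c * avg G k σ := by
  induction k with
  | zero => intro σ; rfl
  | succ k ih => intro σ; simp only [avg, ih, ← mul_sum, mul_div_assoc]

theorem tails_avg_const [Nonempty α] (c : ℝ) (k : ℕ) : ∀ σ : α → Loc,
    avg (fun _ => c) k σ = c := by
  induction k with
  | zero => intro σ; rfl
  | succ k ih =>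
    intro σ
    have : (Fintype.card α : ℝ) ≠ 0 := by exact_mod_cast Fintype.card_ne_zero
    simp only [avg, ih, sum_const, card_univ, nsmul_eq_mul]
    field_simp

theorem tails_avg_nonneg {G : (α → Loc) → ℝ} (h : ∀ s, 0 ≤ G s) (k : ℕ) : ∀ σ : α → Loc,
    0 ≤ avg G k σ := by
  induction k with
  | zero => intro σ; exact h σ
  | succ k ih =>
    intro σ
    simp only [avg]
    exact div_nonneg (sum_nonneg fun v _ => ih _) (Nat.cast_nonneg _)

theorem tails_avg_sum {ι : Type*} (T : Finset ι) (G : ι → (α → Loc) → ℝ) (k : ℕ) :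
    ∀ σ : α → Loc, avg (fun s => ∑ i ∈ T, G i s) k σ = ∑ i ∈ T, avg (G i) k σ := by
  induction k with
  | zero => intro σ; rfl
  | succ k ih =>
    intro σ
    simp only [avg, ih]
    rw [sum_comm, sum_div]

theorem tails_avg_exp (g : α → ℝ) (k : ℕ) : ∀ σ : α → Loc,
    avg (fun s => Real.exp (- lin g s)) k σ =
      Real.exp (- lin g σ) * ((∑ v, Real.exp (- g v)) / Fintype.card α) ^ k := by
  induction k with
  | zero => intro σ; simp [avg]
  | succ k ih =>
    intro σ
    simp only [avg, ih, lin_put, Option.elim_some, neg_add, Real.exp_add]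
    rw [← sum_mul, ← mul_sum]
    ring

/-- Markov inequality for the number of lost particles. -/
theorem tails_markov {Q : α → Option α → ℝ} {a : α → ℝ} (hok : Ok Q a) (hs : Sub Q)
    (σ : α → Loc) {b c : ℝ} (hc : 0 ≤ c) (h : b + c ≤ tot σ) :
    c * Fv Q a Set.univ (fun s => if (tot s : ℝ) ≤ b then 1 else 0) σ +
      Fv Q a Set.univ totR σ ≤ tot σ := by
  have h1 : ∀ s : α → Loc, (0 : ℝ) ≤ if (tot s : ℝ) ≤ b then 1 else 0 := fun s => by
    split_ifs <;> norm_num
  rw [← Fv_mul hok hs h1 hc, ← Fv_add hok hs (ψ' := totR) (fun s => mul_nonneg hc (h1 s))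
    (fun s => Nat.cast_nonneg _)]
  refine le_trans (Fv_mono_on hok hs (ψ' := fun _ => (tot σ : ℝ)) (fun _ => Nat.cast_nonneg _)
    (fun s => tot s ≤ tot σ) (fun s x h2 h3 => closed_tot h3.2 h2) (fun s h2 _ => ?_) σ le_rfl)
    (Fv_const_le hok hs (Nat.cast_nonneg _) σ)
  have h3 : (tot s : ℝ) ≤ tot σ := by exact_mod_cast h2
  unfold totR
  split_ifs with h4 <;> linarith

/-- The lower tail is smallest for the full configuration. -/
theorem tails_low_full {Q : α → Option α → ℝ} {a : α → ℝ} (hok : Ok Q a) (hs : Sto Q) (ht : Tr Q)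
    (b : ℝ) {σ : α → Loc} (hσ : AllAct σ) :
    Fv Q a Set.univ (fun s => if (tot s : ℝ) ≤ b then 1 else 0) (full α) ≤
      Fv Q a Set.univ (fun s => if (tot s : ℝ) ≤ b then 1 else 0) σ := by
  have hφ : Test fun n : ℕ => if (n : ℝ) ≤ b then (0 : ℝ) else 1 := by
    refine ⟨fun m n hmn => ?_, fun n => by dsimp only; split_ifs <;> norm_num⟩
    have : (m : ℝ) ≤ n := by exact_mod_cast hmn
    dsimp only
    split_ifs with h1 h2 h2
    · exact le_rfl
    · norm_num
    · exact absurd (this.trans h2) h1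
    · exact le_rfl
  have h1 := Fv_le_full hok hs ht hφ hσ
  have h2 : ∀ τ : α → Loc, Fv Q a Set.univ (fun s => if (tot s : ℝ) ≤ b then 1 else 0) τ +
      Fv Q a Set.univ (fun s => if (tot s : ℝ) ≤ b then 0 else 1) τ = 1 := fun τ => by
    rw [← Fv_add hok hs.sub (fun s => by split_ifs <;> norm_num)
      (fun s => by split_ifs <;> norm_num)]
    refine Eq.trans ?_ (Fv_const (S := Set.univ) hok hs ht zero_le_one τ)
    congr 1
    funext s
    split_ifs <;> norm_num
  have h3 := h2 σ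
  have h4 := h2 (full α)
  linarith

theorem tails_up {Q : α → Option α → ℝ} {a : α → ℝ} (hok : Ok Q a) (hs : Sto Q) (ht : Tr Q)
    {r e θ : ℝ} (hr : 0 ≤ r) (he : 0 < e) (hθ : 0 ≤ θ) (σ : α → Loc) :
    r + e * Fv Q a Set.univ (fun s => if r + e ≤ (tot s : ℝ) then 1 else 0) σ ≤
      Fv Q a Set.univ totR σ +
        r * Fv Q a Set.univ (fun s => if (tot s : ℝ) ≤ r - θ then 1 else 0) σ + θ := by
  have h1 : ∀ s : α → Loc, (0 : ℝ) ≤ if (tot s : ℝ) ≤ r - θ then 1 else 0 := fun s => by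
    split_ifs <;> norm_num
  have h2 : ∀ s : α → Loc, (0 : ℝ) ≤ if r + e ≤ (tot s : ℝ) then 1 else 0 := fun s => by
    split_ifs <;> norm_num
  have h3 : ∀ s : α → Loc, 0 ≤ totR s := fun s => Nat.cast_nonneg _
  have e1 := Fv_add (S := Set.univ) hok hs.sub (fun _ => hr) (fun s => mul_nonneg he.le (h2 s)) σ
  rw [Fv_const hok hs ht hr, Fv_mul hok hs.sub h2 he.le] at e1
  have e2 := Fv_add (S := Set.univ) hok hs.sub
    (fun s => add_nonneg (h3 s) (mul_nonneg hr (h1 s))) (fun _ => hθ) σ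
  rw [Fv_const hok hs ht hθ, Fv_add hok hs.sub h3 (fun s => mul_nonneg hr (h1 s)),
    Fv_mul hok hs.sub h1 hr] at e2
  rw [← e1, ← e2]
  refine Fv_mono hok hs.sub
    (fun s => add_nonneg (add_nonneg (h3 s) (mul_nonneg hr (h1 s))) hθ) (fun s _ => ?_) σ
  have h4 := h3 s
  unfold totR at h4 ⊢
  split_ifs with c1 c2 c2 <;> linarith

end abstract

variable {d : ℕ}

theorem tails_ok {a0 : ℝ} (ha : 0 < a0 ∧ a0 < 1) (V : Finset (Site d)) :
    Ok (QV V) fun _ => a0 := ⟨QV_nonneg V, fun _ => ⟨ha.1.le, ha.2⟩⟩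

theorem tails_card (L : ℕ) : (Fintype.card (box d L) : ℝ) = (L : ℝ) ^ d := by
  rw [Fintype.card_coe, card_box]
  push_cast
  rfl

theorem tails_nonempty {L : ℕ} (hL : 1 ≤ L) : Nonempty (box d L) := by
  rw [← Fintype.card_pos_iff, Fintype.card_coe, card_box]
  positivity

theorem dens_le_rho (hd : 1 ≤ d) {a0 : ℝ} (ha : 0 < a0 ∧ a0 < 1) (L : ℕ) (hL : 1 ≤ L) :
    dens d a0 L ≤ rho d a0 := by
  obtain ⟨l, rfl⟩ : ∃ l, L = l + 1 := ⟨L - 1, by omega⟩
  refine le_ciSup (f := fun l : ℕ => dens d a0 (l + 1)) ⟨1, ?_⟩ l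
  rintro _ ⟨m, rfl⟩
  have h := Fv_totR_le_card (tails_ok ha (box d (m + 1))) (QV_sto hd _).sub (full _)
  rw [tails_card] at h
  exact div_le_one_of_le₀ h (by positivity)

theorem rho_nonneg (hd : 1 ≤ d) {a0 : ℝ} (ha : 0 < a0 ∧ a0 < 1) : 0 ≤ rho d a0 := by
  refine le_trans ?_ (dens_le_rho hd ha 1 le_rfl)
  exact div_nonneg (Fv_nonneg (tails_ok ha _) (QV_sto hd _).sub (fun _ => Nat.cast_nonneg _) _)
    (by positivity)

/-- The configuration on `ℤ^d` attached to a state. -/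
noncomputable def tailsExt (V : Finset (Site d)) (σ : V → Loc) : Site d → ℕ :=
  fun y => if h : y ∈ V then cnt (σ ⟨y, h⟩) else 0

theorem tails_act_ext (V : Finset (Site d)) {σ : V → Loc} (h : AllAct σ) :
    act V (tailsExt V σ) = σ := by
  funext x
  have := h x
  simp only [act, tailsExt, dif_pos x.2]
  rcases hx : σ x with _ | k
  · exact absurd hx this
  · rfl

theorem tails_lin_ext (V W : Finset (Site d)) (hW : W ⊆ V) (u : ℝ) (σ : V → Loc) :
    lin (fun x : V => if (x : Site d) ∈ W then u else 0) σ =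
      u * ((∑ y ∈ W, tailsExt V σ y : ℕ) : ℝ) := by
  unfold lin
  have : ∀ x : V, (if (x : Site d) ∈ W then u else 0) * (cnt (σ x) : ℝ) =
      if (x : Site d) ∈ W then u * (tailsExt V σ x : ℝ) else 0 := fun x => by
    simp [tailsExt]
  simp only [this]
  rw [sum_coe_sort V fun y => if y ∈ W then u * (tailsExt V σ y : ℝ) else 0, ← sum_filter,
    filter_mem_eq_inter, inter_eq_right.2 hW]
  push_cast
  rw [mul_sum]

/-- Large deviation bound for the number of particles in a window. -/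
theorem tails_window (V W : Finset (Site d)) [Nonempty V] (hW : W ⊆ V) (b : ℝ) {u : ℝ}
    (hu : 0 ≤ u) (k : ℕ) :
    avg (fun s => if ((∑ y ∈ W, tailsExt V s y : ℕ) : ℝ) < b then 1 else 0) k
      (fun _ : V => some 0) ≤ Real.exp (u * b - u / (1 + u) * W.card / V.card * k) := by
  set g : V → ℝ := fun x => if (x : Site d) ∈ W then u else 0 with hg
  have hV : (0 : ℝ) < V.card := by
    rw [← Fintype.card_coe]
    exact_mod_cast Fintype.card_pos
  have h1 : avg (fun s => if ((∑ y ∈ W, tailsExt V s y : ℕ) : ℝ) < b then 1 else 0) k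
      (fun _ : V => some 0) ≤
      avg (fun s => Real.exp (u * b) * Real.exp (- lin g s)) k (fun _ : V => some 0) := by
    refine tails_avg_mono k _ (fun x => by simp) fun s _ _ => ?_
    rw [← Real.exp_add, hg, tails_lin_ext V W hW]
    split_ifs with c
    · exact Real.one_le_exp (by nlinarith)
    · exact (Real.exp_pos _).le
  rw [tails_avg_mul, tails_avg_exp] at h1
  have h2 : lin g (fun _ : V => some 0) = 0 := by simp [lin, cnt]
  have h3 : Real.exp (-u) ≤ 1 - u / (1 + u) := by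
    have h4 := Real.add_one_le_exp u
    have h5 : 1 - u / (1 + u) = (1 + u)⁻¹ := by field_simp; ring
    rw [h5, Real.exp_neg]
    exact inv_anti₀ (by linarith) (by linarith)
  have h4 : ∑ v, Real.exp (- g v) ≤ V.card - u / (1 + u) * W.card := by
    have h5 : ∀ v : V, Real.exp (- g v) ≤ 1 - if (v : Site d) ∈ W then u / (1 + u) else 0 := by
      intro v
      simp only [hg]
      split_ifs
      · exact h3
      · simp
    refine (sum_le_sum fun v _ => h5 v).trans (le_of_eq ?_)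
    rw [sum_sub_distrib, sum_coe_sort V fun y => if y ∈ W then u / (1 + u) else 0, ← sum_filter,
      filter_mem_eq_inter, inter_eq_right.2 hW]
    simp [mul_comm]
  have h5 : (∑ v, Real.exp (- g v)) / Fintype.card V ≤
      Real.exp (-(u / (1 + u) * W.card / V.card)) := by
    refine le_trans ?_ (Real.add_one_le_exp _)
    rw [Fintype.card_coe, div_le_iff₀ hV]
    refine h4.trans (le_of_eq ?_)
    field_simp
    ring
  have h6 : ((∑ v, Real.exp (- g v)) / Fintype.card V) ^ k ≤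
      Real.exp (-(u / (1 + u) * W.card / V.card)) ^ k :=
    pow_le_pow_left₀ (by positivity) h5 k
  rw [h2, neg_zero, Real.exp_zero, one_mul] at h1
  refine h1.trans ((mul_le_mul_of_nonneg_left h6 (Real.exp_pos _).le).trans (le_of_eq ?_))
  rw [← Real.exp_nat_mul, ← Real.exp_add]
  congr 1
  ring

/-- The expected number of bad windows under uniform driving. -/
theorem tails_bad (hd : 1 ≤ d) {t θ β : ℝ} (ht : 0 ≤ t) (hθ : 0 < θ) (hβ : 0 < β) :
    ∃ w0 : ℕ, ∀ w, w0 ≤ w → ∀ L : ℕ, 1 ≤ L → 4 / θ ≤ L →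
      avg (fun s => (bad L w (max (t - θ) 0) (tailsExt (box d L) s) : ℝ)) ⌊t * (L : ℝ) ^ d⌋₊
        (fun _ : box d L => some 0) ≤ β * (L : ℝ) ^ d := by
  set u : ℝ := θ / (4 * (t + 1)) with hu
  have u0 : 0 < u := by positivity
  obtain ⟨w0, hw0⟩ := exists_nat_ge (2 / (u * θ * β))
  refine ⟨w0 + 1, fun w hw L hL hL' => ?_⟩
  have := tails_nonempty (d := d) hL
  have L0 : (0 : ℝ) < (L : ℝ) ^ d := by positivity
  rcases le_total (t - θ) 0 with c | c
  · rw [max_eq_right c]
    have : (fun s => (bad L w 0 (tailsExt (box d L) s) : ℝ)) = fun _ => 0 := by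
      funext s
      simp only [bad, zero_mul, Nat.cast_eq_zero, card_eq_zero]
      exact filter_eq_empty_iff.2 fun x _ h => absurd h.2 (not_lt.2 (Nat.cast_nonneg _))
    rw [this, tails_avg_const]
    positivity
  rw [max_eq_left c]
  set T := (box d L).filter fun x => cube x w ⊆ box d L with hT
  have e1 : (fun s => (bad L w (t - θ) (tailsExt (box d L) s) : ℝ)) = fun s => ∑ x ∈ T,
      if ((∑ y ∈ cube x w, tailsExt (box d L) s y : ℕ) : ℝ) < (t - θ) * (w : ℝ) ^ d
        then 1 else 0 := by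
    funext s
    rw [sum_boole, hT, filter_filter, bad]
  rw [e1, tails_avg_sum]
  have hL1 : (1 : ℝ) ≤ L := by exact_mod_cast hL
  have hw1 : (1 : ℝ) ≤ w := by exact_mod_cast (by omega : 1 ≤ w)
  have hw2 : (w0 : ℝ) ≤ (w : ℝ) ^ d :=
    le_trans (by exact_mod_cast (by omega : w0 ≤ w)) (le_self_pow₀ hw1 (by omega))
  have hL2 : 4 / θ ≤ (L : ℝ) ^ d := hL'.trans (le_self_pow₀ hL1 (by omega))
  have hk : t - θ / 4 ≤ (⌊t * (L : ℝ) ^ d⌋₊ : ℝ) / (L : ℝ) ^ d := by
    rw [le_div_iff₀ L0]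
    have h1 := Nat.lt_floor_add_one (t * (L : ℝ) ^ d)
    rw [div_le_iff₀ hθ] at hL2
    nlinarith
  have key : ∀ x ∈ T, avg (fun s => if ((∑ y ∈ cube x w, tailsExt (box d L) s y : ℕ) : ℝ) <
      (t - θ) * (w : ℝ) ^ d then 1 else 0) ⌊t * (L : ℝ) ^ d⌋₊ (fun _ : box d L => some 0) ≤ β := by
    intro x hx
    refine (tails_window _ _ (mem_filter.1 hx).2 _ u0.le _).trans ?_
    rw [card_cube, card_box]
    push_cast
    have h1 : t - θ / 2 ≤ (t - θ / 4) / (1 + u) := by
      rw [le_div_iff₀ (by linarith)]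
      have : u * (4 * (t + 1)) = θ := by rw [hu]; field_simp
      nlinarith
    have h2 : (t - θ / 4) / (1 + u) ≤ (⌊t * (L : ℝ) ^ d⌋₊ : ℝ) / (L : ℝ) ^ d / (1 + u) :=
      div_le_div_of_nonneg_right hk (by linarith)
    have h3 : u * ((t - θ) * (w : ℝ) ^ d) - u / (1 + u) * (w : ℝ) ^ d / (L : ℝ) ^ d *
        (⌊t * (L : ℝ) ^ d⌋₊ : ℝ) = u * (w : ℝ) ^ d *
          ((t - θ) - (⌊t * (L : ℝ) ^ d⌋₊ : ℝ) / (L : ℝ) ^ d / (1 + u)) := by
      field_simp
    have h4 : 0 < u * (w : ℝ) ^ d := by positivity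
    have h5 : u * (w : ℝ) ^ d * ((t - θ) - (⌊t * (L : ℝ) ^ d⌋₊ : ℝ) / (L : ℝ) ^ d / (1 + u)) ≤
        -(u * (w : ℝ) ^ d * (θ / 2)) := by nlinarith
    rw [h3]
    refine (Real.exp_le_exp.2 h5).trans ?_
    have h6 : β⁻¹ ≤ u * (w : ℝ) ^ d * (θ / 2) := by
      have h7 := hw0.trans hw2
      rw [div_le_iff₀ (by positivity)] at h7
      rw [inv_le_iff_one_le_mul₀ hβ]
      nlinarith
    rw [Real.exp_neg]
    have h8 := Real.add_one_le_exp (u * (w : ℝ) ^ d * (θ / 2))
    exact inv_le_of_inv_le₀ hβ (by linarith)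
  refine (sum_le_card_nsmul _ _ _ key).trans ?_
  rw [nsmul_eq_mul, mul_comm]
  refine mul_le_mul_of_nonneg_left ?_ hβ.le
  have := card_filter_le (box d L) fun x => cube x w ⊆ box d L
  rw [card_box] at this
  exact_mod_cast this

/-- Uniform driving below the critical density loses few particles. -/
theorem avg_lower (hd : 1 ≤ d) {a0 : ℝ} (ha : 0 < a0 ∧ a0 < 1) {t : ℝ} (ht0 : 0 ≤ t)
    (ht : t < rho d a0) {ε : ℝ} (hε : 0 < ε) :
    Tendsto (fun L : ℕ => avg (Fv (QV (box d L)) (fun _ => a0) Set.univ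
        (fun s => if (tot s : ℝ) ≤ (t - ε) * (L : ℝ) ^ d then 1 else 0))
      ⌊t * (L : ℝ) ^ d⌋₊ (fun _ => some 0)) atTop (𝓝 0) := by
  obtain ⟨_, _, hfv⟩ := finite_volume hd ha ht
  refine tendsto_order.2 ⟨fun c hc => Eventually.of_forall fun L => hc.trans_le ?_, fun c hc => ?_⟩
  · exact tails_avg_nonneg (Fv_nonneg (tails_ok ha _) (QV_sto hd _).sub
      fun s => by split_ifs <;> norm_num) _ _
  set θ : ℝ := c * ε / 9 with hθ
  have θ0 : 0 < θ := by positivity
  obtain ⟨e, e0, p, w1, hp, h1⟩ := hfv (max (t - θ) 0) (le_max_right _ _)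
    (max_le (by linarith) ht0) θ θ0
  obtain ⟨w2, h2⟩ := tails_bad hd ht0 θ0 (mul_pos θ0 e0)
  have hw : w1 + w2 ≤ p * (w1 + w2) := Nat.le_mul_of_pos_left _ hp
  obtain ⟨C, D, _, D0, h3⟩ := h1 (p * (w1 + w2)) (by omega) (Dvd.intro _ rfl)
  filter_upwards [eventually_ge_atTop 1,
    tendsto_natCast_atTop_atTop.eventually_ge_atTop (4 / θ),
    tendsto_natCast_atTop_atTop.eventually_ge_atTop (2 / ε),
    tendsto_natCast_atTop_atTop.eventually_ge_atTop (D / θ)] with L hL c1 c2 c3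
  have := tails_nonempty (d := d) hL
  have h4 := h2 (p * (w1 + w2)) (by omega) L hL c1
  have hL1 : (1 : ℝ) ≤ L := by exact_mod_cast hL
  have L0 : (0 : ℝ) < (L : ℝ) ^ d := by positivity
  have c4 : 2 ≤ ε * (L : ℝ) ^ d := by
    have := c2.trans (le_self_pow₀ hL1 (by omega : d ≠ 0))
    rw [div_le_iff₀ hε] at this
    linarith
  have c5 : D * (L : ℝ) ^ (d - 1) ≤ θ * (L : ℝ) ^ d := by
    rw [div_le_iff₀ θ0] at c3
    have : (L : ℝ) ^ d = L * (L : ℝ) ^ (d - 1) := by
      rw [← pow_succ']; congr 1; omega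
    rw [this, ← mul_assoc]
    exact mul_le_mul_of_nonneg_right (by linarith) (by positivity)
  have k1 := Nat.lt_floor_add_one (t * (L : ℝ) ^ d)
  have k2 := Nat.floor_le (mul_nonneg ht0 L0.le)
  set k := ⌊t * (L : ℝ) ^ d⌋₊ with hk
  set G := Fv (QV (box d L)) (fun _ => a0) Set.univ
    (fun s => if (tot s : ℝ) ≤ (t - ε) * (L : ℝ) ^ d then 1 else 0) with hG
  have h5 : avg (fun s => ε * (L : ℝ) ^ d / 2 * G s) k (fun _ : box d L => some 0) ≤
      avg (fun s => 3 * θ * (L : ℝ) ^ d + e⁻¹ *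
        (bad L (p * (w1 + w2)) (max (t - θ) 0) (tailsExt (box d L) s) : ℝ)) k
        (fun _ : box d L => some 0) := by
    refine tails_avg_mono k _ (fun x => by simp) fun s s1 s2 => ?_
    have s3 : tot s = k := by rw [s2]; simp [tot, cnt]
    have m1 := tails_markov (tails_ok ha _) (QV_sto hd _).sub s (b := (t - ε) * (L : ℝ) ^ d)
      (c := ε * (L : ℝ) ^ d / 2) (by positivity) (by rw [s3]; linarith)
    have m2 := (h3 L (tailsExt (box d L) s)).1
    rw [tails_act_ext _ s1, div_eq_inv_mul] at m2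
    rw [s3, ← hG] at m1
    have m3 : (t - θ) * (L : ℝ) ^ d ≤ max (t - θ) 0 * (L : ℝ) ^ d :=
      mul_le_mul_of_nonneg_right (le_max_left _ _) L0.le
    linarith
  rw [tails_avg_mul, tails_avg_add, tails_avg_const, tails_avg_mul] at h5
  have h6 : e⁻¹ * avg (fun s => (bad L (p * (w1 + w2)) (max (t - θ) 0)
      (tailsExt (box d L) s) : ℝ)) k (fun _ : box d L => some 0) ≤ θ * (L : ℝ) ^ d := by
    rw [inv_mul_le_iff₀ e0]
    linarith
  have h7 : ε * (L : ℝ) ^ d / 2 * avg G k (fun _ : box d L => some 0) <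
      ε * (L : ℝ) ^ d / 2 * c := by
    have : 0 < θ * (L : ℝ) ^ d := by positivity
    have : ε * (L : ℝ) ^ d / 2 * c = 9 / 2 * (θ * (L : ℝ) ^ d) := by rw [hθ]; ring
    linarith
  exact lt_of_mul_lt_mul_left h7 (by positivity)

/-- Upper tail of the stationary density. -/
theorem full_upper (hd : 1 ≤ d) {a0 : ℝ} (ha : 0 < a0 ∧ a0 < 1) {ε : ℝ} (hε : 0 < ε) :
    Tendsto (fun L : ℕ => Fv (QV (box d L)) (fun _ => a0) Set.univ
        (fun s => if (rho d a0 + ε) * (L : ℝ) ^ d ≤ tot s then 1 else 0) (full (box d L)))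
      atTop (𝓝 0) := by
  have r0 := rho_nonneg hd ha
  refine tendsto_order.2 ⟨fun c hc => Eventually.of_forall fun L => hc.trans_le ?_, fun c hc => ?_⟩
  · exact Fv_nonneg (tails_ok ha _) (QV_sto hd _).sub (fun s => by split_ifs <;> norm_num) _
  set θ : ℝ := c * ε / 3 with hθ
  have θ0 : 0 < θ := by positivity
  have low : ∀ᶠ L : ℕ in atTop, rho d a0 * Fv (QV (box d L)) (fun _ => a0) Set.univ
      (fun s => if (tot s : ℝ) ≤ (rho d a0 - θ) * (L : ℝ) ^ d then 1 else 0) (full (box d L))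
        ≤ θ := by
    rcases r0.eq_or_lt with h | h
    · exact Eventually.of_forall fun L => by rw [← h, zero_mul]; exact θ0.le
    have h1 := avg_lower hd ha (t := max (rho d a0 - θ / 2) 0) (le_max_right _ _)
      (max_lt (by linarith) h) (ε := max (rho d a0 - θ / 2) 0 - (rho d a0 - θ))
      (by linarith [le_max_left (rho d a0 - θ / 2) 0])
    simp only [sub_sub_cancel] at h1
    filter_upwards [eventually_ge_atTop 1, (tendsto_order.1 h1).2 (θ / rho d a0) (by positivity)]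
      with L hL h2
    have := tails_nonempty (d := d) hL
    rw [← le_div_iff₀' h]
    refine le_trans ?_ h2.le
    rw [← tails_avg_const (Fv (QV (box d L)) (fun _ => a0) Set.univ
      (fun s => if (tot s : ℝ) ≤ (rho d a0 - θ) * (L : ℝ) ^ d then 1 else 0) (full (box d L)))
      ⌊max (rho d a0 - θ / 2) 0 * (L : ℝ) ^ d⌋₊ (fun _ : box d L => some 0)]
    exact tails_avg_mono _ _ (fun x => by simp) fun s s1 _ =>
      tails_low_full (tails_ok ha _) (QV_sto hd _) (QV_tr hd _) _ s1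
  filter_upwards [eventually_ge_atTop 1, low] with L hL h1
  have L0 : (0 : ℝ) < (L : ℝ) ^ d := by positivity
  have h2 := tails_up (tails_ok ha (box d L)) (QV_sto hd _) (QV_tr hd _)
    (r := rho d a0 * (L : ℝ) ^ d) (e := ε * (L : ℝ) ^ d) (θ := θ * (L : ℝ) ^ d) (by positivity)
    (by positivity) (by positivity) (full _)
  have h3 := dens_le_rho hd ha L hL
  rw [dens, div_le_iff₀ L0] at h3
  rw [← add_mul, ← sub_mul] at h2
  have h4 := mul_le_mul_of_nonneg_left h1 L0.le
  have h5 : ε * (L : ℝ) ^ d * c = 3 * (θ * (L : ℝ) ^ d) := by rw [hθ]; ring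
  have h6 : 0 < θ * (L : ℝ) ^ d := by positivity
  refine lt_of_mul_lt_mul_left (a := ε * (L : ℝ) ^ d) ?_ (by positivity)
  linarith

end Pool.Agent.ARW
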